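import Pool.Agent.Work.MP_8aaf67_al.AF.StmtsC

/-!
# Item C_As: one relation from its data
-/

set_option autoImplicit false

namespace Pool.Agent.Work.MP_8aaf67_al.AF

open scoped commutatorElement

namespace C_As

theorem fa_lt (n x : ℕ) (hx : x < n) : fa n x < n := by
  unfold fa
  split_ifs <;> omega

theorem fa1_lt (n x : ℕ) (hx : x < n) : fa1 n x < n := by
  unfold fa1
  split_ifs <;> omega

theorem fa1_fa (n x : ℕ) (hx : x < n) : fa1 n (fa n x) = x := by
  unfold fa1 fa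
  by_cases h : x + 1 = n
  · rw [if_pos h, if_pos rfl]
    omega
  · rw [if_neg h, if_neg (by omega)]
    omega

theorem fa_fa1 (n x : ℕ) (hx : x < n) : fa n (fa1 n x) = x := by
  unfold fa1 fa
  by_cases h : x = 0
  · rw [if_pos h, if_pos (by omega), h]
  · rw [if_neg h, if_neg (by omega)]
    omega

theorem pow_zero_pt (n : ℕ) (h0 : 0 < n) (a : Equiv.Perm (Fin n)) (ha : Is n (fa n) a) :
    ∀ k (hk : k < n), (a ^ k) ⟨0, h0⟩ = ⟨k, hk⟩ := by
  intro k
  induction k with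
  | zero => intro hk; simp
  | succ k ih =>
    intro hk
    rw [pow_succ', Equiv.Perm.mul_apply, ih (by omega)]
    apply Fin.ext
    rw [ha]
    show fa n k = k + 1
    unfold fa
    rw [if_neg (by omega)]

theorem same (n : ℕ) (h0 : 0 < n) (a : Equiv.Perm (Fin n)) (ha : Is n (fa n) a) (x : Fin n) :
    a.SameCycle ⟨0, h0⟩ x := by
  refine ⟨(x : ℕ), ?_⟩
  rw [zpow_natCast, pow_zero_pt n h0 a ha x x.2]

theorem even_a (n : ℕ) (hn : ¬ 2 ∣ n) (a : Equiv.Perm (Fin n)) (ha : a.cycleType = {n}) :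
    a ∈ alternatingGroup (Fin n) := by
  rw [Equiv.Perm.mem_alternatingGroup, Equiv.Perm.sign_of_cycleType, ha]
  have h : Even (Multiset.sum {n} + Multiset.card {n}) := by
    rw [Multiset.sum_singleton, Multiset.card_singleton]
    have h1 : n % 2 = 1 := by omega
    exact ⟨(n + 1) / 2, by omega⟩
  exact h.neg_one_pow

end C_As

open C_As in
theorem prf_C_As (hEx : C_Ex) (hCom : C_Com) (hTc : C_Tc) (hGp : C_Gp) : C_As := by
  intro n f f1 c β σ hp hn hf hβ hσ hev hg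
  obtain ⟨a, ha, ha1⟩ := hEx n (fa n) (fa1 n) (fa_lt n) (fa1_lt n) (fa1_fa n) (fa_fa1 n)
  obtain ⟨b, hb, hb1⟩ := hEx n f f1 (fun x hx => (hf x hx).1) (fun x hx => (hf x hx).2.1)
    (fun x hx => (hf x hx).2.2.1) (fun x hx => (hf x hx).2.2.2.1)
  have hcom : Is n c ⁅b, a⁆ := fun x =>
    (hCom n (fa n) (fa1 n) f f1 a b ha ha1 hb hb1 x).trans (hf x x.2).2.2.2.2
  have h0 : 0 < n := by omega
  have hact : a.cycleType = {n} := hTc n a ⟨0, h0⟩ (by omega) (same n h0 a ha)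
  have hodd : ¬ 2 ∣ n := by
    intro h
    have h1 := (Nat.prime_dvd_prime_iff_eq Nat.prime_two hp).mp h
    omega
  obtain ⟨g, hg1, hg2⟩ := hg a b ha hb hcom
  exact ⟨a, b, even_a n hodd a hact, hev b (hβ b hb), hact, hβ b hb, hσ _ hcom,
    hGp n _ a g hp ha (Subgroup.subset_closure (by simp)) hg1 hg2⟩

end Pool.Agent.Work.MP_8aaf67_al.AF
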