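import Pool.Agent.Work.MP_8aaf67_al.AF.StmtsC

/-!
# Alternating composition factors, item C_B3: the square of a permutation of type `3, 2^k`
-/

set_option autoImplicit false

namespace Pool.Agent.Work.MP_8aaf67_al.AF

open Equiv.Perm

theorem prf_C_B3 : C_B3 := by
  intro n k σ h
  have h3 : 3 ∈ σ.cycleType := by
    rw [h]
    exact Multiset.mem_cons_self _ _
  obtain ⟨c, τ, hσ, hd, hc, hcard⟩ := mem_cycleType_iff.1 h3
  have hc3 : c.IsThreeCycle := card_support_eq_three_iff.1 hcard
  have h4 : τ.cycleType = two k := by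
    rw [hσ, hd.cycleType_mul, hc3.cycleType] at h
    have h5 : (3 ::ₘ τ.cycleType) = 3 ::ₘ two k := h
    exact (Multiset.cons_inj_right 3).1 h5
  have h6 : τ * τ = 1 := by
    have h7 : orderOf τ ∣ 2 := by
      rw [← lcm_cycleType, h4]
      apply Multiset.lcm_dvd.2
      intro b hb
      unfold two at hb
      rw [Multiset.eq_of_mem_replicate hb]
    have h8 := orderOf_dvd_iff_pow_eq_one.1 h7
    rw [pow_two] at h8
    exact h8
  have h9 : σ * σ = c * c := by
    have h10 : c * τ = τ * c := hd.commute.eq
    calc σ * σ = c * τ * (c * τ) := by rw [hσ]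
      _ = c * (τ * c) * τ := by group
      _ = c * (c * τ) * τ := by rw [h10]
      _ = c * c * (τ * τ) := by group
      _ = c * c := by rw [h6, mul_one]
  rw [h9]
  exact hc3.isThreeCycle_sq

end Pool.Agent.Work.MP_8aaf67_al.AF
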