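import Pool.Agent.Work.MP_8aaf67_al.AF.StmtsC

/-!
# Alternating composition factors: family D1, type and arithmetic
-/

set_option autoImplicit false

namespace Pool.Agent.Work.MP_8aaf67_al.AF

open scoped commutatorElement

namespace C_D11

theorem fD1_cases (n x : ℕ) (hn : 15 ≤ n) (hx : x < n) :
    (x + 3 = n ∧ fD1 n x + 2 = n) ∨ (x + 2 = n ∧ fD1 n x = 2) ∨
    (x = 2 ∧ fD1 n x + 3 = n) ∨ (x = 0 ∧ fD1 n x = 3) ∨ (x = 3 ∧ fD1 n x = 0) ∨
    ((x = 1 ∨ (4 ≤ x ∧ x + 4 ≤ n) ∨ x + 1 = n) ∧ fD1 n x + x = n) := by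
  unfold fD1
  split_ifs <;> omega

theorem fD1i_cases (n x : ℕ) (hn : 15 ≤ n) (hx : x < n) :
    (x + 2 = n ∧ fD1i n x + 3 = n) ∨ (x = 2 ∧ fD1i n x + 2 = n) ∨
    (x + 3 = n ∧ fD1i n x = 2) ∨ (x = 0 ∧ fD1i n x = 3) ∨ (x = 3 ∧ fD1i n x = 0) ∨
    ((x = 1 ∨ (4 ≤ x ∧ x + 4 ≤ n) ∨ x + 1 = n) ∧ fD1i n x + x = n) := by
  unfold fD1i
  split_ifs <;> omega

theorem cD1_cases (n x : ℕ) (hn : 15 ≤ n) (hx : x < n) :
    (x = 0 ∧ cD1 n x + 3 = n) ∨ (x = 1 ∧ cD1 n x + 4 = n) ∨ (x = 2 ∧ cD1 n x = 3) ∨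
    (x = 4 ∧ cD1 n x + 1 = n) ∨ (x = 5 ∧ cD1 n x + 2 = n) ∨ (x + 2 = n ∧ cD1 n x = 0) ∨
    (x + 1 = n ∧ cD1 n x = 2) ∨ ((x = 3 ∨ (6 ≤ x ∧ x + 3 ≤ n)) ∧ cD1 n x + 2 = x) := by
  unfold cD1
  split_ifs <;> omega

theorem fa_cases (n x : ℕ) : (x + 1 = n ∧ fa n x = 0) ∨ (x + 1 ≠ n ∧ fa n x = x + 1) := by
  unfold fa
  split_ifs <;> omega

theorem fa1_cases (n x : ℕ) (hn : 15 ≤ n) :
    (x = 0 ∧ fa1 n x + 1 = n) ∨ (x ≠ 0 ∧ fa1 n x + 1 = x) := by
  unfold fa1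
  split_ifs <;> omega

end C_D11

open C_D11

theorem prf_C_D13 : C_D13 := by
  intro q n hq hn x hx
  have hn' : 15 ≤ n := by omega
  have h1 := fD1_cases n x hn' hx
  have h2 := fD1i_cases n x hn' hx
  have h3 : fD1 n x < n := by omega
  have h4 : fD1i n x < n := by omega
  refine ⟨h3, h4, ?_, ?_, ?_⟩
  · have h5 := fD1i_cases n (fD1 n x) hn' h3
    clear h2 h4
    omega
  · have h5 := fD1_cases n (fD1i n x) hn' h4
    clear h1 h3
    omega
  · have h5 := fa1_cases n x hn'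
    have h6 : fa1 n x < n := by omega
    have h7 := fD1i_cases n (fa1 n x) hn' h6
    have h8 : fD1i n (fa1 n x) < n := by omega
    have h9 := fa_cases n (fD1i n (fa1 n x))
    have h10 : fa n (fD1i n (fa1 n x)) < n := by omega
    have h11 := fD1_cases n (fa n (fD1i n (fa1 n x))) hn' h10
    have h12 := cD1_cases n x hn' hx
    clear h1 h2 h3 h4
    rcases h12 with h12 | h12 | h12 | h12 | h12 | h12 | h12 | h12 <;> omega

theorem prf_C_D11 (hTb : C_Tb) : C_D11 := by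
  intro q n hq hn σ hσ
  have hn' : 15 ≤ n := by omega
  have h1 : ∀ x : Fin n, x.val < n := fun x => x.2
  refine hTb n (2 * q) σ ⟨n - 3, by omega⟩ ⟨n - 2, by omega⟩ ⟨2, by omega⟩ (by omega) ?_ ?_ ?_
    ?_ ?_ ?_ ?_
  · intro h
    have := congrArg Fin.val h
    simp only [] at this
    omega
  · intro h
    have := congrArg Fin.val h
    simp only [] at this
    omega
  · intro h
    have := congrArg Fin.val h
    simp only [] at this
    omega
  · apply Fin.ext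
    rw [hσ]
    have := fD1_cases n (n - 3) hn' (by omega)
    show fD1 n (n - 3) = n - 2
    omega
  · apply Fin.ext
    rw [hσ]
    have := fD1_cases n (n - 2) hn' (by omega)
    show fD1 n (n - 2) = 2
    omega
  · apply Fin.ext
    rw [hσ]
    have := fD1_cases n 2 hn' (by omega)
    show fD1 n 2 = n - 3
    omega
  · intro x hu hv hw
    have hu' : x.val ≠ n - 3 := fun h => hu (Fin.ext h)
    have hv' : x.val ≠ n - 2 := fun h => hv (Fin.ext h)
    have hw' : x.val ≠ 2 := fun h => hw (Fin.ext h)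
    have h2 := fD1_cases n x hn' (h1 x)
    have h3 : fD1 n x < n := by omega
    have h4 := fD1_cases n (fD1 n x) hn' h3
    constructor
    · apply Fin.ext
      rw [hσ, hσ]
      omega
    · intro h
      have h5 := congrArg Fin.val h
      rw [hσ] at h5
      omega

end Pool.Agent.Work.MP_8aaf67_al.AF
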