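import Pool.Agent.Work.MP_8aaf67_al.AF.StmtsC

/-!
# Family D1: the commutator is an `n`-cycle (item C_D12)
-/

set_option autoImplicit false

namespace Pool.Agent.Work.MP_8aaf67_al.AF

namespace C_D12

/-- the number `x` is in the cycle of `z` -/
def P {n : ℕ} (σ : Equiv.Perm (Fin n)) (z : Fin n) (x : ℕ) : Prop :=
  ∃ h : x < n, σ.SameCycle z ⟨x, h⟩

theorem key {n : ℕ} {f : ℕ → ℕ} {σ : Equiv.Perm (Fin n)} (hσ : Is n f σ) (z : Fin n) {x y : ℕ}
    (hx : x < n) (hy : y < n) (h : f x = y) : P σ z x ↔ P σ z y := by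
  have h1 : σ ⟨x, hx⟩ = ⟨y, hy⟩ := Fin.ext (by rw [hσ]; exact h)
  constructor
  · rintro ⟨_, h2⟩
    refine ⟨hy, ?_⟩
    rw [← h1, Equiv.Perm.sameCycle_apply_right]
    exact h2
  · rintro ⟨_, h2⟩
    refine ⟨hx, ?_⟩
    rw [← h1, Equiv.Perm.sameCycle_apply_right] at h2
    exact h2

end C_D12

open C_D12 in
theorem prf_C_D12 (hTc : C_Tc) : C_D12 := by
  intro q n hq hn σ hσ
  have h0n : 0 < n := by omega
  refine hTc n σ ⟨0, h0n⟩ (by omega) ?_
  have k : ∀ {x y : ℕ}, x < n → y < n → cD1 n x = y →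
      (P σ ⟨0, h0n⟩ x ↔ P σ ⟨0, h0n⟩ y) := fun hx hy h => key hσ _ hx hy h
  have p0 : P σ ⟨0, h0n⟩ 0 := ⟨h0n, Equiv.Perm.SameCycle.refl _ _⟩
  -- even numbers
  have pe : ∀ m : ℕ, 2 * m + 4 + 3 ≤ n → (P σ ⟨0, h0n⟩ (2 * m + 4) ↔ P σ ⟨0, h0n⟩ 4) := by
    intro m
    induction m with
    | zero => intro _; exact Iff.rfl
    | succ m ih =>
      intro h
      rw [← ih (by omega)]
      refine k (by omega) (by omega) ?_
      unfold cD1
      split_ifs <;> first | omega | (exfalso; assumption)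
  have pn3 : P σ ⟨0, h0n⟩ (n - 3) := by
    refine (k (x := 0) h0n (by omega) ?_).1 p0
    unfold cD1
    rw [if_pos rfl]
  have p4 : P σ ⟨0, h0n⟩ 4 := by
    have h1 : 2 * (2 * q - 2) + 4 = n - 3 := by omega
    rw [← pe (2 * q - 2) (by omega), h1]
    exact pn3
  have pn1 : P σ ⟨0, h0n⟩ (n - 1) := by
    refine (k (x := 4) (by omega) (by omega) ?_).1 p4
    unfold cD1
    split_ifs <;> first | omega | (exfalso; assumption)
  have p2 : P σ ⟨0, h0n⟩ 2 := by
    refine (k (x := n - 1) (by omega) (by omega) ?_).1 pn1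
    unfold cD1
    split_ifs <;> omega
  have p3 : P σ ⟨0, h0n⟩ 3 := by
    refine (k (x := 2) (by omega) (by omega) ?_).1 p2
    unfold cD1
    split_ifs <;> first | omega | (exfalso; assumption)
  have p1 : P σ ⟨0, h0n⟩ 1 := by
    refine (k (x := 3) (by omega) (by omega) ?_).1 p3
    unfold cD1
    split_ifs <;> first | omega | (exfalso; assumption)
  have pn4 : P σ ⟨0, h0n⟩ (n - 4) := by
    refine (k (x := 1) (by omega) (by omega) ?_).1 p1
    unfold cD1
    split_ifs <;> first | omega | (exfalso; assumption)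
  -- odd numbers
  have po : ∀ m : ℕ, 2 * m + 5 + 4 ≤ n → (P σ ⟨0, h0n⟩ (2 * m + 5) ↔ P σ ⟨0, h0n⟩ 5) := by
    intro m
    induction m with
    | zero => intro _; exact Iff.rfl
    | succ m ih =>
      intro h
      rw [← ih (by omega)]
      refine k (by omega) (by omega) ?_
      unfold cD1
      split_ifs <;> first | omega | (exfalso; assumption)
  have p5 : P σ ⟨0, h0n⟩ 5 := by
    have h1 : 2 * (2 * q - 3) + 5 = n - 4 := by omega
    rw [← po (2 * q - 3) (by omega), h1]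
    exact pn4
  have pn2 : P σ ⟨0, h0n⟩ (n - 2) := by
    refine (k (x := 5) (by omega) (by omega) ?_).1 p5
    unfold cD1
    split_ifs <;> first | omega | (exfalso; assumption)
  intro x
  suffices h : P σ ⟨0, h0n⟩ (x : ℕ) by
    obtain ⟨_, h2⟩ := h
    exact h2
  have hx := x.isLt
  by_cases h0 : (x : ℕ) = 0
  · rw [h0]; exact p0
  by_cases h1 : (x : ℕ) = 1
  · rw [h1]; exact p1
  by_cases h2 : (x : ℕ) = 2
  · rw [h2]; exact p2
  by_cases h3 : (x : ℕ) = 3
  · rw [h3]; exact p3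
  by_cases hn1 : (x : ℕ) = n - 1
  · rw [hn1]; exact pn1
  by_cases hn2 : (x : ℕ) = n - 2
  · rw [hn2]; exact pn2
  rcases Nat.even_or_odd' (x : ℕ) with ⟨m, hm | hm⟩
  · have h4 : (x : ℕ) = 2 * (m - 2) + 4 := by omega
    rw [h4]
    exact (pe (m - 2) (by omega)).2 p4
  · have h4 : (x : ℕ) = 2 * (m - 2) + 5 := by omega
    rw [h4]
    exact (po (m - 2) (by omega)).2 p5

end Pool.Agent.Work.MP_8aaf67_al.AF
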