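import Pool.Agent.Work.MP_8aaf67_al.AF.StmtsC

/-!
# Theorem AF, items C_D41 and C_D43 (helper12)
-/

set_option autoImplicit false

namespace Pool.Agent.Work.MP_8aaf67_al.AF

open scoped commutatorElement

theorem prf_C_D41 (hTb : C_Tb) : C_D41 := by
  intro q n hq hn σ hσ
  have h0 : 0 < n := by omega
  have h1 : 1 < n := by omega
  have h2 : n - 1 < n := by omega
  refine hTb n (2 * q) σ ⟨0, h0⟩ ⟨1, h1⟩ ⟨n - 1, h2⟩ (by omega) ?_ ?_ ?_ ?_ ?_ ?_ ?_
  · intro h; have := Fin.val_eq_of_eq h; simp only at this; omega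
  · intro h; have := Fin.val_eq_of_eq h; simp only at this; omega
  · intro h; have := Fin.val_eq_of_eq h; simp only at this; omega
  · apply Fin.ext; rw [hσ]; simp [fD4]
  · apply Fin.ext; rw [hσ]; simp [fD4]
  · apply Fin.ext; rw [hσ]
    show fD4 n (n - 1) = 0
    unfold fD4
    split_ifs <;> omega
  · intro x hx0 hx1 hx2
    have a0 : (x : ℕ) ≠ 0 := fun h => hx0 (Fin.ext h)
    have a1 : (x : ℕ) ≠ 1 := fun h => hx1 (Fin.ext h)
    have a2 : (x : ℕ) ≠ n - 1 := fun h => hx2 (Fin.ext h)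
    have a3 := x.2
    have e1 : ((σ x : Fin n) : ℕ) = n - x := by
      rw [hσ]
      unfold fD4
      rw [if_neg a0, if_neg a1, if_neg a2]
    refine ⟨?_, ?_⟩
    · apply Fin.ext
      rw [hσ, e1]
      unfold fD4
      rw [if_neg (by omega), if_neg (by omega), if_neg (by omega)]
      omega
    · intro h
      have h3 := Fin.val_eq_of_eq h
      rw [e1] at h3
      omega

theorem prf_C_D43 : C_D43 := by
  intro q n hq hn x hx
  unfold fD4 fD4i fa fa1 cD4
  have hc : x = 0 ∨ x = 1 ∨ x = 2 ∨ x = 3 ∨ x = n - 1 ∨ x = n - 2 ∨ (4 ≤ x ∧ x < n - 2) := by omega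
  rcases hc with h | h | h | h | h | h | ⟨h, h'⟩ <;>
    refine ⟨?_, ?_, ?_, ?_, ?_⟩ <;>
    simp (disch := omega) only [if_pos, if_neg, if_true] <;> omega

end Pool.Agent.Work.MP_8aaf67_al.AF
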