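import Pool.Agent.Work.MP_8aaf67_al.AF.StmtsC

/-!
# MP_8aaf67_al, block AF, item C_D42 (helper37)
-/

set_option autoImplicit false

namespace Pool.Agent.Work.MP_8aaf67_al.AF

open scoped commutatorElement

namespace C_D42

theorem step {n : ℕ} {f : ℕ → ℕ} {σ : Equiv.Perm (Fin n)} (hσ : Is n f σ) (x y : Fin n)
    (h : f x = y) : σ.SameCycle y x := by
  have h1 : σ x = y := Fin.ext (by rw [hσ x, h])
  rw [← h1]
  exact (Equiv.Perm.sameCycle_apply_right.2 (Equiv.Perm.SameCycle.refl σ x)).symm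

/-- the even points -/
def A (n : ℕ) : Finset (Fin n) :=
  Finset.univ.filter fun x : Fin n => (x : ℕ) % 2 = 0 ∧ (x : ℕ) ≠ 0

/-- the other points, without `1` -/
def B (n : ℕ) : Finset (Fin n) :=
  Finset.univ.filter fun x : Fin n => (x : ℕ) = 0 ∨ ((x : ℕ) % 2 = 1 ∧ (x : ℕ) ≠ 1)

theorem mem_A {n : ℕ} (x : Fin n) : x ∈ A n ↔ (x : ℕ) % 2 = 0 ∧ (x : ℕ) ≠ 0 := by
  unfold A
  simp

theorem mem_B {n : ℕ} (x : Fin n) :
    x ∈ B n ↔ (x : ℕ) = 0 ∨ ((x : ℕ) % 2 = 1 ∧ (x : ℕ) ≠ 1) := by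
  unfold B
  simp

theorem card_A {q n : ℕ} (hn : n = 4 * q + 3) : (A n).card = 2 * q + 1 := by
  have h := Finset.card_bij (s := Finset.range (2 * q + 1)) (t := A n)
    (fun a ha => (⟨2 * a + 2, by rw [Finset.mem_range] at ha; omega⟩ : Fin n))
    (fun a ha => (mem_A _).2 ⟨by show (2 * a + 2) % 2 = 0; omega, by
      show 2 * a + 2 ≠ 0; omega⟩)
    (fun a ha b hb h => by
      have h1 : 2 * a + 2 = 2 * b + 2 := congrArg Fin.val h
      omega)
    (fun x hx => by
      obtain ⟨h1, h2⟩ := (mem_A x).1 hx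
      have h3 := x.2
      refine ⟨((x : ℕ) - 2) / 2, Finset.mem_range.2 (by omega), Fin.ext ?_⟩
      show 2 * (((x : ℕ) - 2) / 2) + 2 = (x : ℕ)
      omega)
  rw [← h, Finset.card_range]

theorem card_B {q n : ℕ} (hn : n = 4 * q + 3) : (B n).card = 2 * q + 1 := by
  have h := Finset.card_bij (s := Finset.range (2 * q + 1)) (t := B n)
    (fun a ha => (⟨if a = 0 then 0 else 2 * a + 1, by
      rw [Finset.mem_range] at ha
      split_ifs <;> omega⟩ : Fin n))
    (fun a ha => (mem_B _).2 (by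
      show (if a = 0 then 0 else 2 * a + 1) = 0 ∨
        ((if a = 0 then 0 else 2 * a + 1) % 2 = 1 ∧ (if a = 0 then 0 else 2 * a + 1) ≠ 1)
      split_ifs <;> omega))
    (fun a ha b hb h => by
      have h1 : (if a = 0 then 0 else 2 * a + 1) = (if b = 0 then 0 else 2 * b + 1) :=
        congrArg Fin.val h
      split_ifs at h1 <;> omega)
    (fun x hx => by
      have h1 := (mem_B x).1 hx
      have h3 := x.2
      refine ⟨((x : ℕ)) / 2, Finset.mem_range.2 (by omega), Fin.ext ?_⟩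
      show (if (x : ℕ) / 2 = 0 then 0 else 2 * ((x : ℕ) / 2) + 1) = (x : ℕ)
      split_ifs <;> omega)
  rw [← h, Finset.card_range]

end C_D42

open C_D42 in
theorem prf_C_D42 (hTm : C_Tm) : C_D42 := by
  intro q n hq hn σ hσ
  have h2 : 2 < n := by omega
  have h3 : 3 < n := by omega
  have h0 : 0 < n := by omega
  -- the cycle of `2`
  have hA : ∀ i : ℕ, ∀ h : 2 * i + 2 < n,
      σ.SameCycle (⟨2, h2⟩ : Fin n) ⟨2 * i + 2, h⟩ := by
    intro i
    induction i with
    | zero =>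
      intro h
      exact Equiv.Perm.SameCycle.refl σ _
    | succ i ih =>
      intro h
      have h' : 2 * i + 2 < n := by omega
      refine (ih h').trans (step hσ ⟨2 * (i + 1) + 2, h⟩ ⟨2 * i + 2, h'⟩ ?_)
      show cD4 n (2 * (i + 1) + 2) = 2 * i + 2
      unfold cD4
      rw [if_neg (by omega), if_neg (by omega), if_neg (by omega), if_neg (by omega)]
      omega
  -- the cycle of `3`
  have hB : ∀ i : ℕ, ∀ h : 2 * i + 3 < n,
      σ.SameCycle (⟨3, h3⟩ : Fin n) ⟨2 * i + 3, h⟩ := by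
    intro i
    induction i with
    | zero =>
      intro h
      exact Equiv.Perm.SameCycle.refl σ _
    | succ i ih =>
      intro h
      have h' : 2 * i + 3 < n := by omega
      refine (ih h').trans (step hσ ⟨2 * (i + 1) + 3, h⟩ ⟨2 * i + 3, h'⟩ ?_)
      show cD4 n (2 * (i + 1) + 3) = 2 * i + 3
      unfold cD4
      rw [if_neg (by omega), if_neg (by omega), if_neg (by omega), if_neg (by omega)]
      omega
  have hB0 : σ.SameCycle (⟨3, h3⟩ : Fin n) ⟨0, h0⟩ := by
    refine (step hσ ⟨3, h3⟩ ⟨0, h0⟩ ?_).symm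
    show cD4 n 3 = 0
    unfold cD4
    split_ifs <;> omega
  have hA' : ∀ x ∈ A n, σ.SameCycle (⟨2, h2⟩ : Fin n) x := by
    intro x hx
    obtain ⟨h4, h5⟩ := (mem_A x).1 hx
    have h6 := x.2
    have h7 := hA (((x : ℕ) - 2) / 2) (by omega)
    have h8 : (⟨2 * (((x : ℕ) - 2) / 2) + 2, by omega⟩ : Fin n) = x := Fin.ext (by
      show 2 * (((x : ℕ) - 2) / 2) + 2 = (x : ℕ)
      omega)
    rw [h8] at h7
    exact h7
  have hB' : ∀ x ∈ B n, σ.SameCycle (⟨3, h3⟩ : Fin n) x := by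
    intro x hx
    have h4 := (mem_B x).1 hx
    have h6 := x.2
    by_cases hx0 : (x : ℕ) = 0
    · have h8 : (⟨0, h0⟩ : Fin n) = x := Fin.ext hx0.symm
      rw [← h8]
      exact hB0
    · have h7 := hB (((x : ℕ) - 3) / 2) (by omega)
      have h8 : (⟨2 * (((x : ℕ) - 3) / 2) + 3, by omega⟩ : Fin n) = x := Fin.ext (by
        show 2 * (((x : ℕ) - 3) / 2) + 3 = (x : ℕ)
        omega)
      rw [h8] at h7
      exact h7
  refine hTm n (2 * q + 1) σ (A n) (B n) (by omega) ?_ (card_A hn) (card_B hn) ?_ ?_ ?_ ?_ ?_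
  · rw [Finset.disjoint_left]
    intro x hx hx'
    have h4 := (mem_A x).1 hx
    have h5 := (mem_B x).1 hx'
    omega
  · intro x hx hx'
    rw [mem_A] at hx
    rw [mem_B] at hx'
    have h4 := hσ x
    have h5 : (x : ℕ) = 1 := by omega
    refine Fin.ext ?_
    rw [h4]
    unfold cD4
    rw [if_pos h5, h5]
  · intro x hx y hy
    exact (hA' x hx).symm.trans (hA' y hy)
  · intro x hx y hy
    exact (hB' x hx).symm.trans (hB' y hy)
  · intro x hx
    rw [mem_A] at hx ⊢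
    rw [hσ x]
    have h6 := x.2
    unfold cD4
    split_ifs <;> omega
  · intro x hx
    rw [mem_B] at hx ⊢
    rw [hσ x]
    have h6 := x.2
    unfold cD4
    split_ifs <;> omega

end Pool.Agent.Work.MP_8aaf67_al.AF
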