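import Pool.Agent.Work.MP_8aaf67_al.AF.StmtsC

/-!
# Theorem AF, items C_Ex and C_Com (helper12)
-/

set_option autoImplicit false

namespace Pool.Agent.Work.MP_8aaf67_al.AF

open scoped commutatorElement

theorem prf_C_Ex : C_Ex := by
  intro n f g hf hg hgf hfg
  refine ⟨⟨fun x => ⟨f x.1, hf x.1 x.2⟩, fun x => ⟨g x.1, hg x.1 x.2⟩,
    fun x => Fin.ext (hgf x.1 x.2), fun x => Fin.ext (hfg x.1 x.2)⟩, ?_, ?_⟩
  · intro x
    rfl
  · intro x
    rfl

theorem prf_C_Com : C_Com := by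
  intro n f f1 g g1 a b ha ha1 hb hb1 x
  rw [commutatorElement_def]
  simp only [Equiv.Perm.mul_apply]
  rw [hb, ha, hb1, ha1]

end Pool.Agent.Work.MP_8aaf67_al.AF
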