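import Pool.Agent.Work.MP_8aaf67_al.AF.StmtsC

/-!
# Family G: types and arithmetic (items C_G1, C_G2', C_G3)
-/

set_option autoImplicit false

namespace Pool.Agent.Work.MP_8aaf67_al.AF

namespace C_G1

theorem fG_spec (q x : ℕ) :
    (x = 0 ∧ fG q x = 1) ∨ (x = 1 ∧ fG q x = 0) ∨ (1 < x ∧ x = 4 * q ∧ fG q x = 2 * q) ∨
    (1 < x ∧ x ≠ 4 * q ∧ x = 2 * q ∧ fG q x = 4 * q) ∨
    (1 < x ∧ x ≠ 4 * q ∧ x < 2 * q ∧ x % 2 = 0 ∧ fG q x = x + 2 * q - 1) ∨
    (1 < x ∧ 2 * q + 1 ≤ x ∧ x < 4 * q - 1 ∧ x % 2 = 1 ∧ fG q x = x + 1 - 2 * q) ∨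
    (1 < x ∧ x ≠ 4 * q ∧ x ≠ 2 * q ∧ ¬ (x < 2 * q ∧ x % 2 = 0) ∧
      ¬ (2 * q + 1 ≤ x ∧ x < 4 * q - 1 ∧ x % 2 = 1) ∧ fG q x = x) := by
  unfold fG
  by_cases h1 : x = 0
  · left; exact ⟨h1, if_pos h1⟩
  by_cases h2 : x = 1
  · right; left; exact ⟨h2, by rw [if_neg h1, if_pos h2]⟩
  by_cases h3 : x = 4 * q
  · right; right; left; exact ⟨by omega, h3, by rw [if_neg h1, if_neg h2, if_pos h3]⟩
  by_cases h4 : x = 2 * q
  · right; right; right; left
    exact ⟨by omega, h3, h4, by rw [if_neg h1, if_neg h2, if_neg h3, if_pos h4]⟩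
  by_cases h5 : x < 2 * q ∧ x % 2 = 0
  · right; right; right; right; left
    exact ⟨by omega, h3, h5.1, h5.2, by
      rw [if_neg h1, if_neg h2, if_neg h3, if_neg h4, if_pos h5]⟩
  by_cases h6 : 2 * q + 1 ≤ x ∧ x < 4 * q - 1 ∧ x % 2 = 1
  · right; right; right; right; right; left
    exact ⟨by omega, h6.1, h6.2.1, h6.2.2, by
      rw [if_neg h1, if_neg h2, if_neg h3, if_neg h4, if_neg h5, if_pos h6]⟩
  · right; right; right; right; right; right
    exact ⟨by omega, h3, h4, h5, h6, by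
      rw [if_neg h1, if_neg h2, if_neg h3, if_neg h4, if_neg h5, if_neg h6]⟩

theorem cG_spec (q x : ℕ) :
    (x = 0 ∧ cG q x = 2) ∨ (x = 2 ∧ cG q x = 0) ∨ (x = 1 ∧ cG q x = 2 * q + 1) ∨
    (2 < x ∧ x = 2 * q + 1 ∧ cG q x = 1) ∨
    (2 < x ∧ x < 2 * q ∧ cG q x = x + 2 * q - 1) ∨
    (2 < x ∧ x = 2 * q ∧ cG q x = 4 * q) ∨
    (2 < x ∧ 2 * q + 1 < x ∧ x < 4 * q - 1 ∧ cG q x = x + 1 - 2 * q) ∨
    (2 < x ∧ 2 * q + 1 < x ∧ x = 4 * q - 1 ∧ cG q x = 4 * q - 1) ∨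
    (2 < x ∧ 2 * q + 1 < x ∧ 4 * q - 1 < x ∧ cG q x = 2 * q) := by
  unfold cG
  by_cases h1 : x = 0
  · left; exact ⟨h1, if_pos h1⟩
  by_cases h2 : x = 2
  · right; left; exact ⟨h2, by rw [if_neg h1, if_pos h2]⟩
  by_cases h3 : x = 1
  · right; right; left; exact ⟨h3, by rw [if_neg h1, if_neg h2, if_pos h3]⟩
  by_cases h4 : x = 2 * q + 1
  · right; right; right; left
    exact ⟨by omega, h4, by rw [if_neg h1, if_neg h2, if_neg h3, if_pos h4]⟩
  by_cases h5 : x < 2 * q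
  · right; right; right; right; left
    exact ⟨by omega, h5, by
      rw [if_neg h1, if_neg h2, if_neg h3, if_neg h4, if_pos h5]⟩
  by_cases h6 : x = 2 * q
  · right; right; right; right; right; left
    exact ⟨by omega, h6, by
      rw [if_neg h1, if_neg h2, if_neg h3, if_neg h4, if_neg h5, if_pos h6]⟩
  by_cases h7 : x < 4 * q - 1
  · right; right; right; right; right; right; left
    exact ⟨by omega, by omega, h7, by
      rw [if_neg h1, if_neg h2, if_neg h3, if_neg h4, if_neg h5, if_neg h6, if_pos h7]⟩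
  by_cases h8 : x = 4 * q - 1
  · right; right; right; right; right; right; right; left
    exact ⟨by omega, by omega, h8, by
      rw [if_neg h1, if_neg h2, if_neg h3, if_neg h4, if_neg h5, if_neg h6, if_neg h7, if_pos h8]⟩
  · right; right; right; right; right; right; right; right
    exact ⟨by omega, by omega, by omega, by
      rw [if_neg h1, if_neg h2, if_neg h3, if_neg h4, if_neg h5, if_neg h6, if_neg h7, if_neg h8]⟩

theorem fa_spec (n x : ℕ) : (x + 1 = n ∧ fa n x = 0) ∨ (x + 1 ≠ n ∧ fa n x = x + 1) := by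
  unfold fa
  by_cases h : x + 1 = n
  · left; exact ⟨h, if_pos h⟩
  · right; exact ⟨h, if_neg h⟩

theorem fa1_spec (n x : ℕ) : (x = 0 ∧ fa1 n x = n - 1) ∨ (0 < x ∧ fa1 n x = x - 1) := by
  unfold fa1
  by_cases h : x = 0
  · left; exact ⟨h, if_pos h⟩
  · right; exact ⟨by omega, if_neg h⟩

theorem fG_sp (q x : ℕ) (hq : 2 ≤ q) (hx : x < 4 * q + 1) :
    (x = 0 ∧ fG q x = 1) ∨ (x = 1 ∧ fG q x = 0) ∨ (x = 4 * q ∧ fG q x = 2 * q) ∨
    (x = 2 * q ∧ fG q x = 4 * q) ∨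
    (2 ≤ x ∧ x < 2 * q ∧ x % 2 = 0 ∧ fG q x + 1 = x + 2 * q) ∨
    (2 * q + 1 ≤ x ∧ x + 1 < 4 * q ∧ x % 2 = 1 ∧ fG q x + 2 * q = x + 1) ∨
    (3 ≤ x ∧ x < 2 * q ∧ x % 2 = 1 ∧ fG q x = x) ∨
    (2 * q + 2 ≤ x ∧ x + 1 < 4 * q ∧ x % 2 = 0 ∧ fG q x = x) ∨
    (x + 1 = 4 * q ∧ fG q x = x) := by
  rcases fG_spec q x with h | h | h | h | h | h | h
  · exact Or.inl h
  · exact Or.inr (Or.inl h)
  · exact Or.inr (Or.inr (Or.inl h.2))
  · exact Or.inr (Or.inr (Or.inr (Or.inl h.2.2)))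
  · exact Or.inr (Or.inr (Or.inr (Or.inr (Or.inl (by omega)))))
  · exact Or.inr (Or.inr (Or.inr (Or.inr (Or.inr (Or.inl (by omega))))))
  · obtain ⟨h1, h2, h3, h4, h5, h6⟩ := h
    refine Or.inr (Or.inr (Or.inr (Or.inr (Or.inr (Or.inr ?_)))))
    rcases lt_trichotomy x (2 * q) with h | h | h
    · exact Or.inl ⟨by omega, h, by omega, h6⟩
    · exact absurd h h3
    · refine Or.inr ?_
      by_cases h7 : x + 1 < 4 * q
      · exact Or.inl ⟨by omega, h7, by omega, h6⟩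
      · exact Or.inr ⟨by omega, h6⟩

theorem cG_sp (q x : ℕ) (hq : 2 ≤ q) (hx : x < 4 * q + 1) :
    (x = 0 ∧ cG q x = 2) ∨ (x = 2 ∧ cG q x = 0) ∨ (x = 1 ∧ cG q x = 2 * q + 1) ∨
    (x = 2 * q + 1 ∧ cG q x = 1) ∨
    (2 < x ∧ x < 2 * q ∧ cG q x + 1 = x + 2 * q) ∨
    (x = 2 * q ∧ cG q x = 4 * q) ∨
    (2 * q + 1 < x ∧ x + 1 < 4 * q ∧ cG q x + 2 * q = x + 1) ∨
    (x + 1 = 4 * q ∧ cG q x = x) ∨
    (x = 4 * q ∧ cG q x = 2 * q) := by
  rcases cG_spec q x with h | h | h | h | h | h | h | h | h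
  · exact Or.inl h
  · exact Or.inr (Or.inl h)
  · exact Or.inr (Or.inr (Or.inl h))
  · exact Or.inr (Or.inr (Or.inr (Or.inl h.2)))
  · exact Or.inr (Or.inr (Or.inr (Or.inr (Or.inl ⟨h.1, h.2.1, by omega⟩))))
  · exact Or.inr (Or.inr (Or.inr (Or.inr (Or.inr (Or.inl h.2)))))
  · exact Or.inr (Or.inr (Or.inr (Or.inr (Or.inr (Or.inr (Or.inl ⟨h.2.1, by omega, by omega⟩))))))
  · exact Or.inr (Or.inr (Or.inr (Or.inr (Or.inr (Or.inr (Or.inr (Or.inl ⟨by omega, by omega⟩)))))))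
  · exact Or.inr (Or.inr (Or.inr (Or.inr (Or.inr (Or.inr (Or.inr (Or.inr ⟨by omega, h.2.2.2⟩)))))))

theorem fG_lt (q n : ℕ) (hq : 2 ≤ q) (hn : n = 4 * q + 1) (x : ℕ) (hx : x < n) : fG q x < n := by
  rcases fG_sp q x hq (by omega) with h | h | h | h | h | h | h | h | h <;> omega

theorem fG_fG (q n : ℕ) (hq : 2 ≤ q) (hn : n = 4 * q + 1) (x : ℕ) (hx : x < n) :
    fG q (fG q x) = x := by
  have h0 := fG_lt q n hq hn x hx
  rw [hn] at h0 hx
  have h2 := fG_sp q (fG q x) hq h0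
  rcases fG_sp q x hq hx with h | h | h | h | h | h | h | h | h <;>
    rcases h2 with h' | h' | h' | h' | h' | h' | h' | h' | h' <;> omega

theorem cG_cG (q n : ℕ) (hq : 2 ≤ q) (hn : n = 4 * q + 1) (x : ℕ) (hx : x < n) :
    cG q (cG q x) = x := by
  rw [hn] at hx
  have h0 : cG q x < 4 * q + 1 := by
    rcases cG_sp q x hq hx with h | h | h | h | h | h | h | h | h <;> omega
  have h2 := cG_sp q (cG q x) hq h0
  rcases cG_sp q x hq hx with h | h | h | h | h | h | h | h | h <;>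
    rcases h2 with h' | h' | h' | h' | h' | h' | h' | h' | h' <;> omega

theorem arith (q n : ℕ) (hq : 2 ≤ q) (hn : n = 4 * q + 1) (x : ℕ) (hx : x < n) :
    fG q (fa n (fG q (fa1 n x))) = cG q x := by
  subst hn
  have g1 := cG_sp q x hq hx
  generalize cG q x = v at g1 ⊢
  obtain ⟨y, hy, hyn, g2⟩ : ∃ y, fa1 (4 * q + 1) x = y ∧ y < 4 * q + 1 ∧
      ((x = 0 ∧ y = 4 * q) ∨ (0 < x ∧ y + 1 = x)) := by
    refine ⟨_, rfl, ?_⟩
    rcases fa1_spec (4 * q + 1) x with h | h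
    · exact ⟨by omega, Or.inl ⟨h.1, by omega⟩⟩
    · exact ⟨by omega, Or.inr ⟨h.1, by omega⟩⟩
  rw [hy]
  have g3 := fG_sp q y hq hyn
  have hz := fG_lt q _ hq rfl y hyn
  generalize fG q y = z at g3 hz ⊢
  obtain ⟨u, hu, hun, g4⟩ : ∃ u, fa (4 * q + 1) z = u ∧ u < 4 * q + 1 ∧
      ((z = 4 * q ∧ u = 0) ∨ (z < 4 * q ∧ u = z + 1)) := by
    refine ⟨_, rfl, ?_⟩
    rcases fa_spec (4 * q + 1) z with h | h
    · exact ⟨by omega, Or.inl ⟨by omega, h.2⟩⟩
    · exact ⟨by omega, Or.inr ⟨by omega, h.2⟩⟩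
  rw [hu]
  have g5 := fG_sp q u hq hun
  generalize fG q u = w at g5 ⊢
  rcases g1 with g1 | g1 | g1 | g1 | g1 | g1 | g1 | g1 | g1 <;>
    rcases g2 with g2 | g2 <;>
    rcases g3 with g3 | g3 | g3 | g3 | g3 | g3 | g3 | g3 | g3 <;>
    first
    | (exfalso; clear g5 g4; omega)
    | (rcases g4 with g4 | g4 <;>
        rcases g5 with g5 | g5 | g5 | g5 | g5 | g5 | g5 | g5 | g5 <;> omega)

/-- an involution given by a function -/
theorem sq_one (n : ℕ) (f : ℕ → ℕ) (σ : Equiv.Perm (Fin n)) (h : Is n f σ)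
    (hf : ∀ x < n, f (f x) = x) : σ * σ = 1 := by
  ext x
  rw [Equiv.Perm.mul_apply, h (σ x), h x, hf x x.2]
  rfl

/-- representatives of the two-cycles of `fG` and their partners -/
def e (q j : ℕ) : ℕ := if j = q then 4 * q else 2 * j
def e' (q j : ℕ) : ℕ := if j = 0 then 1 else if j = q then 2 * q else 2 * q + 2 * j - 1

theorem e_spec (q j : ℕ) : (j = q ∧ e q j = 4 * q) ∨ (j ≠ q ∧ e q j = 2 * j) := by
  unfold e
  by_cases h : j = q
  · left; exact ⟨h, if_pos h⟩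
  · right; exact ⟨h, if_neg h⟩

theorem e'_spec (q j : ℕ) : (j = 0 ∧ e' q j = 1) ∨ (j ≠ 0 ∧ j = q ∧ e' q j = 2 * q) ∨
    (j ≠ 0 ∧ j ≠ q ∧ e' q j = 2 * q + 2 * j - 1) := by
  unfold e'
  by_cases h : j = 0
  · left; exact ⟨h, if_pos h⟩
  by_cases h2 : j = q
  · right; left; exact ⟨h, h2, by rw [if_neg h, if_pos h2]⟩
  · right; right; exact ⟨h, h2, by rw [if_neg h, if_neg h2]⟩

theorem moved (q n : ℕ) (hq : 2 ≤ q) (hn : n = 4 * q + 1) (σ : Equiv.Perm (Fin n))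
    (h : Is n (fG q) σ) : (Finset.univ.filter fun x => σ x ≠ x).map Fin.valEmbedding =
    (Finset.range (q + 1)).image (e q) ∪ (Finset.range (q + 1)).image (e' q) := by
  ext y
  simp only [Finset.mem_map, Finset.mem_filter, Finset.mem_univ, true_and, Fin.valEmbedding_apply,
    Finset.mem_union, Finset.mem_image, Finset.mem_range]
  constructor
  · rintro ⟨x, hx, rfl⟩
    have hx2 : fG q x ≠ x := fun h2 => hx (Fin.ext ((h x).trans h2))
    have hxn := x.2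
    generalize (x : ℕ) = y at hx2 hxn
    rcases fG_spec q y with h1 | h1 | h1 | h1 | h1 | h1 | h1
    · left; exact ⟨0, by omega, by rcases e_spec q 0 with h' | h' <;> omega⟩
    · right; exact ⟨0, by omega, by rcases e'_spec q 0 with h' | h' | h' <;> omega⟩
    · left; exact ⟨q, by omega, by rcases e_spec q q with h' | h' <;> omega⟩
    · right; exact ⟨q, by omega, by rcases e'_spec q q with h' | h' | h' <;> omega⟩
    · left; exact ⟨y / 2, by omega, by rcases e_spec q (y / 2) with h' | h' <;> omega⟩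
    · right
      exact ⟨(y + 1 - 2 * q) / 2, by omega, by
        rcases e'_spec q ((y + 1 - 2 * q) / 2) with h' | h' | h' <;> omega⟩
    · exact absurd h1.2.2.2.2.2 hx2
  · rintro (⟨j, hj, rfl⟩ | ⟨j, hj, rfl⟩)
    · have h1 : e q j < n := by rcases e_spec q j with h' | h' <;> omega
      refine ⟨⟨e q j, h1⟩, fun h2 => ?_, rfl⟩
      have h3 : fG q (e q j) = e q j := by
        have h4 := h ⟨e q j, h1⟩
        rw [h2] at h4
        exact h4.symm
      rcases e_spec q j with h' | h' <;>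
        rcases fG_spec q (e q j) with h1 | h1 | h1 | h1 | h1 | h1 | h1 <;> omega
    · have h1 : e' q j < n := by rcases e'_spec q j with h' | h' | h' <;> omega
      refine ⟨⟨e' q j, h1⟩, fun h2 => ?_, rfl⟩
      have h3 : fG q (e' q j) = e' q j := by
        have h4 := h ⟨e' q j, h1⟩
        rw [h2] at h4
        exact h4.symm
      rcases e'_spec q j with h' | h' | h' <;>
        rcases fG_spec q (e' q j) with h1 | h1 | h1 | h1 | h1 | h1 | h1 <;> omega

theorem card_moved (q : ℕ) (hq : 2 ≤ q) :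
    ((Finset.range (q + 1)).image (e q) ∪ (Finset.range (q + 1)).image (e' q)).card =
      2 * (q + 1) := by
  rw [Finset.card_union_of_disjoint, Finset.card_image_of_injOn, Finset.card_image_of_injOn,
    Finset.card_range]
  · omega
  · intro i hi j hj hij
    rw [Finset.mem_coe, Finset.mem_range] at hi hj
    rcases e'_spec q i with h | h | h <;> rcases e'_spec q j with h' | h' | h' <;> omega
  · intro i hi j hj hij
    rw [Finset.mem_coe, Finset.mem_range] at hi hj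
    rcases e_spec q i with h | h <;> rcases e_spec q j with h' | h' <;> omega
  · rw [Finset.disjoint_left]
    intro y hy hy'
    rw [Finset.mem_image] at hy hy'
    obtain ⟨i, hi, rfl⟩ := hy
    obtain ⟨j, hj, hij⟩ := hy'
    rw [Finset.mem_range] at hi hj
    rcases e_spec q i with h | h <;> rcases e'_spec q j with h' | h' | h' <;> omega

end C_G1

theorem prf_C_G1 (hTi : C_Ti) : C_G1 := by
  intro q n hq hn σ h
  refine hTi n (q + 1) σ (C_G1.sq_one n _ σ h (C_G1.fG_fG q n hq hn)) ?_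
  rw [← Finset.card_map Fin.valEmbedding, C_G1.moved q n hq hn σ h, C_G1.card_moved q hq]

theorem prf_C_G2' (hTi : C_Ti) : C_G2' := by
  intro q n hq hn σ h
  refine hTi n (2 * q) σ (C_G1.sq_one n _ σ h (C_G1.cG_cG q n hq hn)) ?_
  have h1 : (Finset.univ.filter fun x => σ x ≠ x) =
      Finset.univ.erase (⟨4 * q - 1, by omega⟩ : Fin n) := by
    ext x
    simp only [Finset.mem_filter, Finset.mem_univ, true_and, Finset.mem_erase, and_true, ne_eq]
    rw [Fin.ext_iff, Fin.ext_iff, h x]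
    have hx := x.2
    simp only
    generalize (x : ℕ) = y at hx
    rcases C_G1.cG_spec q y with h | h | h | h | h | h | h | h | h <;> omega
  rw [h1, Finset.card_erase_of_mem (Finset.mem_univ _), Finset.card_univ, Fintype.card_fin]
  omega

theorem prf_C_G3 : C_G3 := fun q n hq hn x hx =>
  ⟨C_G1.fG_lt q n hq hn x hx, C_G1.fG_fG q n hq hn x hx, C_G1.arith q n hq hn x hx⟩

end Pool.Agent.Work.MP_8aaf67_al.AF
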