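import Pool.Agent.Work.MP_8aaf67_al.AF.StmtsC

/-!
# Family G: a three cycle (item C_G4)
-/

set_option autoImplicit false

namespace Pool.Agent.Work.MP_8aaf67_al.AF

open scoped commutatorElement

namespace C_G4

/-- two shifts -/
def s2 (n x : ℕ) : ℕ := if x + 2 = n then 0 else if x + 1 = n then 1 else x + 2

/-- two inverse shifts -/
def r2 (n x : ℕ) : ℕ := if x = 0 then n - 2 else if x = 1 then n - 1 else x - 2

/-- the conjugate of the permutation of family G by two shifts -/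
def sv (q x : ℕ) : ℕ :=
  if x = 2 then 3 else if x = 3 then 2 else if x = 1 then 2 * q + 2
  else if x = 2 * q + 2 then 1 else if 4 ≤ x ∧ x ≤ 2 * q ∧ x % 2 = 0 then x + 2 * q - 1
  else if 2 * q + 3 ≤ x ∧ x ≤ 4 * q - 1 ∧ x % 2 = 1 then x + 1 - 2 * q else x

theorem fa_fa {n x : ℕ} (hn : 5 ≤ n) : fa n (fa n x) = s2 n x := by
  unfold fa s2
  split_ifs <;> omega

theorem fa1_fa1 {n x : ℕ} (hn : 5 ≤ n) : fa1 n (fa1 n x) = r2 n x := by
  unfold fa1 r2
  split_ifs <;> omega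

theorem fa1_fa {n u : ℕ} (hn : 5 ≤ n) : fa1 n (fa n u) = u := by
  unfold fa
  split_ifs with h
  · have h1 : fa1 n 0 = n - 1 := if_pos rfl
    rw [h1]
    omega
  · have h1 : fa1 n (u + 1) = u + 1 - 1 := if_neg (Nat.succ_ne_zero u)
    rw [h1]
    omega

theorem s2_fG {q n x : ℕ} (hq : 5 ≤ q) (hn : n = 4 * q + 1) (hx : x < n) :
    s2 n (fG q (r2 n x)) = sv q x := by
  obtain ⟨y, hy⟩ : ∃ y, y = r2 n x := ⟨_, rfl⟩
  obtain ⟨z, hz⟩ : ∃ z, z = fG q y := ⟨_, rfl⟩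
  rw [← hy, ← hz]
  unfold r2 at hy
  unfold fG at hz
  unfold s2 sv
  split_ifs at hy <;> split_ifs at hz <;> split_ifs <;> omega

/-- the points moved by the product -/
def L (q x : ℕ) : Prop :=
  x = 4 * q - 1 ∨ x = 4 * q ∨ x = 0 ∨ x = 1 ∨ x = 2 ∨ x = 3 ∨ x = 2 * q ∨ x = 2 * q + 1 ∨
    x = 2 * q + 2

theorem fG_sv {q x : ℕ} (hq : 5 ≤ q) (hx : x < 4 * q + 1) (hL : ¬ L q x) :
    fG q (sv q x) = x := by
  unfold L at hL
  obtain ⟨y, hy⟩ : ∃ y, y = sv q x := ⟨_, rfl⟩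
  rw [← hy]
  unfold sv at hy
  unfold fG
  split_ifs at hy <;> split_ifs <;> omega

theorem mv3 {q : ℕ} (hq : 5 ≤ q) : fG q (sv q 3) ≠ 3 := by
  obtain ⟨y, hy⟩ : ∃ y, y = sv q 3 := ⟨_, rfl⟩
  rw [← hy]
  unfold sv at hy
  unfold fG
  split_ifs at hy <;> split_ifs <;> omega

theorem mvn {q : ℕ} (hq : 5 ≤ q) : fG q (sv q (4 * q - 1)) ≠ 4 * q - 1 := by
  obtain ⟨y, hy⟩ : ∃ y, y = sv q (4 * q - 1) := ⟨_, rfl⟩
  rw [← hy]
  unfold sv at hy
  unfold fG
  split_ifs at hy <;> split_ifs <;> omega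

theorem fa5 {n x : ℕ} (hn : 17 ≤ n) (hx : x < n) :
    fa n (fa n (fa n (fa n (fa n x)))) = if x + 5 < n then x + 5 else x + 5 - n := by
  unfold fa
  split_ifs <;> omega

end C_G4

open C_G4 in
theorem prf_C_G4 (hOp : C_Op) : C_G4 := by
  intro q n hq hn a b ha hb
  have h17 : 17 ≤ n := by omega
  have ha1 : ∀ x : Fin n, ((a⁻¹ x : Fin n) : ℕ) = fa1 n x := by
    intro x
    have h1 := ha (a⁻¹ x)
    have h2 : a (a⁻¹ x) = x := a.apply_symm_apply x
    rw [h2] at h1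
    clear h2
    generalize ((a⁻¹ x : Fin n) : ℕ) = u at h1 ⊢
    generalize (x : ℕ) = v at h1 ⊢
    subst h1
    exact (fa1_fa (by omega)).symm
  obtain ⟨w, hw⟩ : ∃ w : Equiv.Perm (Fin n), w = b * (a * a * b * a⁻¹ * a⁻¹) := ⟨_, rfl⟩
  have hwv : ∀ x : Fin n, ((w x : Fin n) : ℕ) = fG q (sv q x) := by
    intro x
    rw [hw]
    simp only [Equiv.Perm.mul_apply]
    rw [hb, ha, ha, hb, ha1, ha1, fa_fa (by omega), fa1_fa1 (by omega), s2_fG hq hn x.isLt]
  have hmemA : a ∈ Subgroup.closure {a, b} := Subgroup.subset_closure (by simp)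
  have hmemB : b ∈ Subgroup.closure {a, b} := Subgroup.subset_closure (by simp)
  have hmemW : w ∈ Subgroup.closure {a, b} := by
    rw [hw]
    exact Subgroup.mul_mem _ hmemB (Subgroup.mul_mem _ (Subgroup.mul_mem _ (Subgroup.mul_mem _
      (Subgroup.mul_mem _ hmemA hmemA) hmemB) (Subgroup.inv_mem _ hmemA))
      (Subgroup.inv_mem _ hmemA))
  obtain ⟨e, he⟩ : ∃ e : Equiv.Perm (Fin n), e = a * a * a * a * a := ⟨_, rfl⟩
  have hmemE : e ∈ Subgroup.closure {a, b} := by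
    rw [he]
    exact Subgroup.mul_mem _ (Subgroup.mul_mem _ (Subgroup.mul_mem _ (Subgroup.mul_mem _
      hmemA hmemA) hmemA) hmemA) hmemA
  have hev : ∀ x : Fin n, ((e x : Fin n) : ℕ) =
      if (x : ℕ) + 5 < n then (x : ℕ) + 5 else (x : ℕ) + 5 - n := by
    intro x
    rw [he]
    simp only [Equiv.Perm.mul_apply]
    rw [ha, ha, ha, ha, ha, fa5 h17 x.isLt]
  have hmemV : e * w * e⁻¹ ∈ Subgroup.closure {a, b} :=
    Subgroup.mul_mem _ (Subgroup.mul_mem _ hmemE hmemW) (Subgroup.inv_mem _ hmemE)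
  have hconj : ∀ t : Fin n, (e * w * e⁻¹) t = e (w (e⁻¹ t)) := fun t => rfl
  have hinv : ∀ t : Fin n, e (e⁻¹ t) = t := fun t => e.apply_symm_apply t
  have hu : ∀ t : Fin n, (t : ℕ) = if ((e⁻¹ t : Fin n) : ℕ) + 5 < n then
      ((e⁻¹ t : Fin n) : ℕ) + 5 else ((e⁻¹ t : Fin n) : ℕ) + 5 - n := by
    intro t
    rw [← hev, hinv]
  refine ⟨⁅w, e * w * e⁻¹⁆, ?_, ?_⟩
  · rw [commutatorElement_def]
    exact Subgroup.mul_mem _ (Subgroup.mul_mem _ (Subgroup.mul_mem _ hmemW hmemV)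
      (Subgroup.inv_mem _ hmemW)) (Subgroup.inv_mem _ hmemV)
  · refine hOp n _ _ (⟨3, by omega⟩ : Fin n) ?_ ?_ ?_
    · intro h
      have h1 := hwv (⟨3, by omega⟩ : Fin n)
      rw [h] at h1
      exact mv3 hq h1.symm
    · intro h
      rw [hconj] at h
      have h0 := hu (⟨3, by omega⟩ : Fin n)
      have h1 := hwv (e⁻¹ (⟨3, by omega⟩ : Fin n))
      have h2 : w (e⁻¹ (⟨3, by omega⟩ : Fin n)) = e⁻¹ (⟨3, by omega⟩ : Fin n) := by
        apply e.injective
        rw [h, hinv]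
      rw [h2] at h1
      have hlt := (e⁻¹ (⟨3, by omega⟩ : Fin n)).isLt
      generalize ((e⁻¹ (⟨3, by omega⟩ : Fin n) : Fin n) : ℕ) = u at h0 h1 hlt
      have h3 : (3 : ℕ) = if u + 5 < n then u + 5 else u + 5 - n := h0
      have h4 : u = 4 * q - 1 := by
        split_ifs at h3 <;> omega
      rw [h4] at h1
      exact mvn hq h1.symm
    · intro t ht
      have ht0 : (t : ℕ) ≠ 3 := fun h => ht (Fin.ext h)
      have htn := t.isLt
      by_cases hfix : w t = t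
      · exact Or.inl hfix
      · right
        rw [hconj]
        have h2 : w (e⁻¹ t) = e⁻¹ t := by
          by_contra hne
          have h3 : L q t := by
            by_contra hL
            exact hfix (Fin.ext (by rw [hwv, fG_sv hq (by omega) hL]))
          have h4 : L q ((e⁻¹ t : Fin n) : ℕ) := by
            by_contra hL
            have hlt := (e⁻¹ t).isLt
            exact hne (Fin.ext (by rw [hwv, fG_sv hq (by omega) hL]))
          have h5 := hu t
          have hlt := (e⁻¹ t).isLt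
          generalize ((e⁻¹ t : Fin n) : ℕ) = u at h4 h5 hlt
          generalize (t : ℕ) = t' at h3 h5 ht0 htn
          unfold L at h3 h4
          split_ifs at h5 <;> omega
        rw [h2, hinv]

end Pool.Agent.Work.MP_8aaf67_al.AF
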