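import Pool.Agent.Work.MP_8aaf67_al.AF.StmtsC

/-!
# Item C_Gp: generation in prime degree
-/

set_option autoImplicit false

namespace Pool.Agent.Work.MP_8aaf67_al.AF

namespace C_Gp

/-- The powers of the shift. -/
theorem pow_zero_val (n : ℕ) (a : Equiv.Perm (Fin n)) (ha : Is n (fa n) a) (hn : 0 < n) (k : ℕ)
    (hk : k < n) : (((a ^ k) (⟨0, hn⟩ : Fin n) : Fin n) : ℕ) = k := by
  induction k with
  | zero => rfl
  | succ k ih =>
    rw [pow_succ', Equiv.Perm.mul_apply, ha, ih (by omega)]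
    unfold fa
    rw [if_neg (by omega)]

end C_Gp

theorem prf_C_Gp : C_Gp := by
  intro n G a g hp ha haG hgG hg
  have hn : 0 < n := hp.pos
  have hx : ∀ x : Fin n, (a ^ (x : ℕ)) (⟨0, hn⟩ : Fin n) = x := fun x =>
    Fin.ext (C_Gp.pow_zero_val n a ha hn x x.2)
  have htr : MulAction.IsPretransitive G (Fin n) := by
    refine ⟨fun x y => ?_⟩
    refine ⟨⟨a ^ (y : ℕ) * (a ^ (x : ℕ))⁻¹,
      G.mul_mem (G.pow_mem haG _) (G.inv_mem (G.pow_mem haG _))⟩, ?_⟩
    show (a ^ (y : ℕ) * (a ^ (x : ℕ))⁻¹) x = y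
    rw [Equiv.Perm.mul_apply]
    have h1 : (a ^ (x : ℕ))⁻¹ x = (⟨0, hn⟩ : Fin n) := by
      rw [Equiv.Perm.inv_eq_iff_eq, hx]
    rw [h1, hx]
  have hpr : MulAction.IsPreprimitive G (Fin n) := by
    refine MulAction.IsPreprimitive.of_prime_card ?_
    rw [Nat.card_eq_fintype_card, Fintype.card_fin]
    exact hp
  exact Equiv.Perm.alternatingGroup_le_of_isPreprimitive_of_isThreeCycle_mem hpr hg hgG

end Pool.Agent.Work.MP_8aaf67_al.AF
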