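import Pool.Agent.Work.MP_8aaf67_al.AF.StmtsC

/-!
# Alternating composition factors: family G'
-/

set_option autoImplicit false

namespace Pool.Agent.Work.MP_8aaf67_al.AF

open scoped commutatorElement

namespace C_Gp1

theorem f_cases (q x : ℕ) (hq : 2 ≤ q) :
    (x = 0 ∧ fGp q x = 1) ∨ (x = 1 ∧ fGp q x = 0) ∨ (x = 4 * q + 2 ∧ fGp q x = 2 * q) ∨
    (x = 2 * q ∧ fGp q x = 4 * q + 2) ∨ (x + 1 = 4 * q ∧ fGp q x = 4 * q) ∨
    (x = 4 * q ∧ fGp q x + 1 = 4 * q) ∨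
    (0 < x ∧ x < 2 * q ∧ x % 2 = 0 ∧ fGp q x + 1 = x + 2 * q) ∨
    (2 * q + 1 ≤ x ∧ x + 1 < 4 * q ∧ x % 2 = 1 ∧ fGp q x + 2 * q = x + 1) ∨
    ((1 < x ∧ x < 2 * q ∧ x % 2 = 1 ∨ 2 * q < x ∧ x + 1 < 4 * q ∧ x % 2 = 0 ∨
      x = 4 * q + 1 ∨ 4 * q + 3 ≤ x) ∧ fGp q x = x) := by
  unfold fGp
  split_ifs with h1 h2 h3 h4 h5 h6 h7 h8
  · exact Or.inl ⟨h1, rfl⟩
  · exact Or.inr (Or.inl ⟨h2, rfl⟩)
  · exact Or.inr (Or.inr (Or.inl ⟨h3, rfl⟩))
  · exact Or.inr (Or.inr (Or.inr (Or.inl ⟨h4, rfl⟩)))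
  · exact Or.inr (Or.inr (Or.inr (Or.inr (Or.inl ⟨by omega, rfl⟩))))
  · exact Or.inr (Or.inr (Or.inr (Or.inr (Or.inr (Or.inl ⟨h6, by omega⟩)))))
  · exact Or.inr (Or.inr (Or.inr (Or.inr (Or.inr (Or.inr (Or.inl
      ⟨by omega, by omega, by omega, by omega⟩))))))
  · exact Or.inr (Or.inr (Or.inr (Or.inr (Or.inr (Or.inr (Or.inr (Or.inl
      ⟨by omega, by omega, by omega, by omega⟩)))))))
  · refine Or.inr (Or.inr (Or.inr (Or.inr (Or.inr (Or.inr (Or.inr (Or.inr ⟨?_, rfl⟩)))))))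
    rcases Nat.lt_or_ge x (2 * q) with h | h
    · exact Or.inl ⟨by omega, h, by omega⟩
    · rcases Nat.lt_or_ge (x + 1) (4 * q) with h' | h'
      · exact Or.inr (Or.inl ⟨by omega, h', by omega⟩)
      · rcases Nat.lt_or_ge x (4 * q + 2) with h'' | h''
        · exact Or.inr (Or.inr (Or.inl (by omega)))
        · exact Or.inr (Or.inr (Or.inr (by omega)))

theorem c_cases (q x : ℕ) (hq : 2 ≤ q) :
    (x = 0 ∧ cGp q x = 2) ∨ (x = 2 ∧ cGp q x = 0) ∨ (x = 1 ∧ cGp q x = 2 * q + 1) ∨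
    (x = 2 * q + 1 ∧ cGp q x = 1) ∨ (2 < x ∧ x < 2 * q ∧ cGp q x + 1 = x + 2 * q) ∨
    (x = 2 * q ∧ cGp q x = 4 * q + 2) ∨
    (2 * q + 1 < x ∧ x + 1 < 4 * q ∧ cGp q x + 2 * q = x + 1) ∨
    (x + 1 = 4 * q ∧ cGp q x = 4 * q) ∨ (x = 4 * q ∧ cGp q x = 4 * q + 1) ∨
    (x = 4 * q + 1 ∧ cGp q x + 1 = 4 * q) ∨ (4 * q + 2 ≤ x ∧ cGp q x = 2 * q) := by
  unfold cGp
  split_ifs with h1 h2 h3 h4 h5 h6 h7 h8 h9 h10
  · exact Or.inl ⟨h1, rfl⟩
  · exact Or.inr (Or.inl ⟨h2, rfl⟩)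
  · exact Or.inr (Or.inr (Or.inl ⟨h3, rfl⟩))
  · exact Or.inr (Or.inr (Or.inr (Or.inl ⟨h4, rfl⟩)))
  · exact Or.inr (Or.inr (Or.inr (Or.inr (Or.inl ⟨by omega, h5, by omega⟩))))
  · exact Or.inr (Or.inr (Or.inr (Or.inr (Or.inr (Or.inl ⟨h6, rfl⟩)))))
  · exact Or.inr (Or.inr (Or.inr (Or.inr (Or.inr (Or.inr (Or.inl
      ⟨by omega, by omega, by omega⟩))))))
  · exact Or.inr (Or.inr (Or.inr (Or.inr (Or.inr (Or.inr (Or.inr (Or.inl
      ⟨by omega, rfl⟩)))))))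
  · exact Or.inr (Or.inr (Or.inr (Or.inr (Or.inr (Or.inr (Or.inr (Or.inr (Or.inl
      ⟨h9, rfl⟩))))))))
  · exact Or.inr (Or.inr (Or.inr (Or.inr (Or.inr (Or.inr (Or.inr (Or.inr (Or.inr (Or.inl
      ⟨h10, by omega⟩)))))))))
  · exact Or.inr (Or.inr (Or.inr (Or.inr (Or.inr (Or.inr (Or.inr (Or.inr (Or.inr (Or.inr
      ⟨by omega, rfl⟩)))))))))

theorem fa_cases (n x : ℕ) : (x + 1 = n ∧ fa n x = 0) ∨ (x + 1 ≠ n ∧ fa n x = x + 1) := by
  unfold fa
  split_ifs with h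
  · exact Or.inl ⟨h, rfl⟩
  · exact Or.inr ⟨h, rfl⟩

theorem fa1_cases (n x : ℕ) :
    (x = 0 ∧ fa1 n x = n - 1) ∨ (x ≠ 0 ∧ fa1 n x + 1 = x) := by
  unfold fa1
  split_ifs with h
  · exact Or.inl ⟨h, rfl⟩
  · exact Or.inr ⟨h, by omega⟩

/-- an enumeration of the moved points -/
def num (q x : ℕ) : ℕ :=
  if x = 1 then 2 * q + 2 else if x = 4 * q then 2 * q + 1
  else if x = 4 * q + 2 then 2 * q + 3 else (x + 1) / 2

theorem num_cases (q x : ℕ) (hq : 2 ≤ q) :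
    (x = 1 ∧ num q x = 2 * q + 2) ∨ (x = 4 * q ∧ num q x = 2 * q + 1) ∨
    (x = 4 * q + 2 ∧ num q x = 2 * q + 3) ∨
    (x ≠ 1 ∧ x ≠ 4 * q ∧ x ≠ 4 * q + 2 ∧ num q x = (x + 1) / 2) := by
  unfold num
  split_ifs <;> omega

/-- the point with the number `j` -/
def pt (q j : ℕ) : ℕ :=
  if j = 2 * q + 1 then 4 * q else if j = 2 * q + 2 then 1
  else if j = 2 * q + 3 then 4 * q + 2 else if j ≤ q then 2 * j else 2 * j - 1

theorem pt_cases (q j : ℕ) (hj : j < 2 * (q + 2)) :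
    (j = 2 * q + 1 ∧ pt q j = 4 * q) ∨ (j = 2 * q + 2 ∧ pt q j = 1) ∨
      (j = 2 * q + 3 ∧ pt q j = 4 * q + 2) ∨ (j ≤ q ∧ pt q j = 2 * j) ∨
      (q < j ∧ j ≤ 2 * q ∧ pt q j + 1 = 2 * j) := by
  unfold pt
  split_ifs <;> omega

theorem pt_spec (q j : ℕ) (hq : 2 ≤ q) (hj : j < 2 * (q + 2)) :
    pt q j < 4 * q + 3 ∧ fGp q (pt q j) ≠ pt q j ∧ num q (pt q j) = j := by
  have h1 := f_cases q (pt q j) hq
  have h2 := num_cases q (pt q j) hq
  rcases pt_cases q j hj with h3 | h3 | h3 | h3 | h3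
  · refine ⟨by omega, ?_, by omega⟩
    clear h2
    omega
  · refine ⟨by omega, ?_, by omega⟩
    clear h2
    omega
  · refine ⟨by omega, ?_, by omega⟩
    clear h2
    omega
  · refine ⟨by omega, ?_, ?_⟩
    · clear h2
      omega
    · clear h1
      omega
  · refine ⟨by omega, ?_, ?_⟩
    · clear h2
      omega
    · clear h1
      omega

/-- the moved points are numbered -/
theorem num_spec (q x : ℕ) (hq : 2 ≤ q) (hx : x < 4 * q + 3) (h0 : fGp q x ≠ x) :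
    num q x < 2 * (q + 2) ∧ pt q (num q x) = x := by
  have h1 := f_cases q x hq
  have h2 := num_cases q x hq
  have h3 : num q x < 2 * (q + 2) := by
    rcases h2 with h2 | h2 | h2 | h2 <;> omega
  refine ⟨h3, ?_⟩
  have h4 := pt_cases q (num q x) h3
  rcases h2 with h2 | h2 | h2 | h2
  · clear h1
    omega
  · clear h1
    omega
  · clear h1
    omega
  · rcases h1 with h1 | h1 | h1 | h1 | h1 | h1 | h1 | h1 | h1 <;> omega

end C_Gp1

open C_Gp1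

theorem prf_C_Gp3 : C_Gp3 := by
  intro q n hq hn x hx
  refine ⟨?_, ?_, ?_⟩
  · have := f_cases q x hq
    omega
  · have h1 := f_cases q x hq
    have h2 := f_cases q (fGp q x) hq
    rcases h1 with h1 | h1 | h1 | h1 | h1 | h1 | h1 | h1 | h1 <;> omega
  · have h1 := fa1_cases n x
    have h2 := f_cases q (fa1 n x) hq
    have h3 := fa_cases n (fGp q (fa1 n x))
    have h4 := f_cases q (fa n (fGp q (fa1 n x))) hq
    have h5 := c_cases q x hq
    generalize fa1 n x = y at *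
    generalize fGp q y = z at *
    generalize fa n z = u at *
    generalize fGp q u = v at *
    generalize cGp q x = c at *
    rcases h1 with h1 | h1 <;> rcases h3 with h3 | h3 <;>
      rcases h2 with h2 | h2 | h2 | h2 | h2 | h2 | h2 | h2 | h2 <;> omega

theorem prf_C_Gp1 (hTi : C_Ti) : C_Gp1 := by
  intro q n hq hn σ hσ
  have hs : σ * σ = 1 := by
    ext x
    rw [Equiv.Perm.mul_apply, Equiv.Perm.one_apply, hσ, hσ]
    exact (prf_C_Gp3 q n hq hn x x.2).2.1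
  refine hTi n (q + 2) σ hs ?_
  rw [← Finset.card_range (2 * (q + 2))]
  refine Finset.card_bij (fun x _ => num q x.val) ?_ ?_ ?_
  · intro x hx
    rw [Finset.mem_filter] at hx
    have h0 : (σ x).val ≠ x.val := fun h => hx.2 (Fin.ext h)
    rw [hσ] at h0
    rw [Finset.mem_range]
    exact (num_spec q x hq (by have := x.2; omega) h0).1
  · intro x hx y hy h
    rw [Finset.mem_filter] at hx hy
    have h0 : (σ x).val ≠ x.val := fun h => hx.2 (Fin.ext h)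
    have h0' : (σ y).val ≠ y.val := fun h => hy.2 (Fin.ext h)
    rw [hσ] at h0 h0'
    have h1 := (num_spec q x hq (by have := x.2; omega) h0).2
    have h2 := (num_spec q y hq (by have := y.2; omega) h0').2
    apply Fin.ext
    rw [← h1, ← h2]
    have h' : num q x.val = num q y.val := h
    rw [h']
  · intro j hj
    rw [Finset.mem_range] at hj
    obtain ⟨h1, h2, h3⟩ := pt_spec q j hq hj
    refine ⟨⟨pt q j, by omega⟩, ?_, h3⟩
    rw [Finset.mem_filter]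
    refine ⟨Finset.mem_univ _, fun h => ?_⟩
    have h0 : (σ ⟨pt q j, by omega⟩).val = pt q j := congrArg Fin.val h
    rw [hσ] at h0
    exact h2 h0

theorem prf_C_Gp2 (hTb : C_Tb) : C_Gp2 := by
  intro q n hq hn σ hσ
  refine hTb n (2 * q) σ ⟨4 * q - 1, by omega⟩ ⟨4 * q, by omega⟩ ⟨4 * q + 1, by omega⟩
    (by omega) ?_ ?_ ?_ ?_ ?_ ?_ ?_
  · intro h
    have : 4 * q - 1 = 4 * q := congrArg Fin.val h
    omega
  · intro h
    have : 4 * q = 4 * q + 1 := congrArg Fin.val h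
    omega
  · intro h
    have : 4 * q - 1 = 4 * q + 1 := congrArg Fin.val h
    omega
  · apply Fin.ext
    rw [hσ]
    change cGp q (4 * q - 1) = 4 * q
    have h1 := c_cases q (4 * q - 1) hq
    omega
  · apply Fin.ext
    rw [hσ]
    change cGp q (4 * q) = 4 * q + 1
    have h1 := c_cases q (4 * q) hq
    omega
  · apply Fin.ext
    rw [hσ]
    change cGp q (4 * q + 1) = 4 * q - 1
    have h1 := c_cases q (4 * q + 1) hq
    omega
  · intro x hu hv hw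
    have hu' : x.val ≠ 4 * q - 1 := fun h => hu (Fin.ext h)
    have hv' : x.val ≠ 4 * q := fun h => hv (Fin.ext h)
    have hw' : x.val ≠ 4 * q + 1 := fun h => hw (Fin.ext h)
    have hx := x.2
    have h1 := c_cases q x hq
    have h2 := c_cases q (cGp q x) hq
    refine ⟨?_, ?_⟩
    · apply Fin.ext
      rw [hσ, hσ]
      omega
    · intro h
      have h0 : (σ x).val = x.val := congrArg Fin.val h
      rw [hσ] at h0
      omega

end Pool.Agent.Work.MP_8aaf67_al.AF
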