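import Pool.Agent.Work.MP_8aaf67_al.AF.StmtsC

/-!
# Items C_I1, C_I3: family I
-/

set_option autoImplicit false

namespace Pool.Agent.Work.MP_8aaf67_al.AF

namespace C_I1

theorem fI_cases (n x : ℕ) (hn : 17 ≤ n) (hx : x < n) :
    (x = 0 ∧ fI n x = 0) ∨ (x = 1 ∧ fI n x = 2) ∨ (x = 2 ∧ fI n x = 1) ∨
    (x = n - 1 ∧ fI n x = n - 2) ∨ (x = n - 2 ∧ fI n x = n - 1) ∨
    (3 ≤ x ∧ x + 3 ≤ n ∧ fI n x = n - x) := by
  unfold fI
  split_ifs <;> omega

theorem fa_cases (n x : ℕ) (hx : x < n) :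
    (x + 1 = n ∧ fa n x = 0) ∨ (x + 1 < n ∧ fa n x = x + 1) := by
  unfold fa
  split_ifs <;> omega

theorem fa1_cases (n x : ℕ) : (x = 0 ∧ fa1 n x = n - 1) ∨ (1 ≤ x ∧ fa1 n x = x - 1) := by
  unfold fa1
  split_ifs <;> omega

end C_I1

open C_I1 in
theorem prf_C_I3 : C_I3 := by
  intro q n hq hn x hx
  have hn17 : 17 ≤ n := by omega
  have h1 := fI_cases n x hn17 hx
  have h2 : fI n x < n := by omega
  refine ⟨h2, ?_, ?_⟩
  · have h3 := fI_cases n (fI n x) hn17 h2
    generalize fI n (fI n x) = y at *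
    generalize fI n x = z at *
    omega
  · have a1 := fa1_cases n x
    have b1 : fa1 n x < n := by omega
    have a2 := fI_cases n (fa1 n x) hn17 b1
    have b2 : fI n (fa1 n x) < n := by omega
    have a3 := fa_cases n (fI n (fa1 n x)) b2
    have b3 : fa n (fI n (fa1 n x)) < n := by omega
    have a4 := fI_cases n (fa n (fI n (fa1 n x))) hn17 b3
    generalize fI n (fa n (fI n (fa1 n x))) = v at *
    generalize fa n (fI n (fa1 n x)) = w at *
    generalize fI n (fa1 n x) = z at *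
    generalize fa1 n x = y at *
    clear h1 h2
    unfold cI
    split_ifs <;> omega

open C_I1 in
theorem prf_C_I1 (hTi : C_Ti) : C_I1 := by
  intro q n hq hn σ hσ
  have hn17 : 17 ≤ n := by omega
  refine hTi n (2 * q) σ ?_ ?_
  · ext x
    have h1 := hσ (σ x)
    rw [hσ x, (prf_C_I3 q n hq hn x x.2).2.1] at h1
    simpa using h1
  · have h0 : 0 < n := by omega
    have h1 : (Finset.univ.filter fun x => σ x ≠ x) = Finset.univ.erase (⟨0, h0⟩ : Fin n) := by
      ext x
      simp only [Finset.mem_filter, Finset.mem_univ, true_and, Finset.mem_erase, and_true]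
      have h2 := hσ x
      have h3 := fI_cases n x hn17 x.2
      have h4 : σ x = x ↔ ((σ x : Fin n) : ℕ) = x := Fin.ext_iff
      have h5 : x = (⟨0, h0⟩ : Fin n) ↔ (x : ℕ) = 0 := Fin.ext_iff
      rw [ne_eq, ne_eq, not_iff_not, h4, h5, h2]
      omega
    rw [h1, Finset.card_erase_of_mem (Finset.mem_univ _), Finset.card_univ, Fintype.card_fin]
    omega

end Pool.Agent.Work.MP_8aaf67_al.AF
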