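import Pool.Agent.Work.MP_8aaf67_al.AF.StmtsC

/-!
# Family I: the commutator is an `n`-cycle
-/

set_option autoImplicit false

namespace Pool.Agent.Work.MP_8aaf67_al.AF

open scoped commutatorElement

namespace C_I2

theorem step {n : ℕ} {f : ℕ → ℕ} {σ : Equiv.Perm (Fin n)} (hσ : Is n f σ) (x₀ : Fin n) (x y : ℕ)
    (hx : x < n) (hy : y < n) (hxy : f x = y) (h : σ.SameCycle x₀ ⟨x, hx⟩) :
    σ.SameCycle x₀ ⟨y, hy⟩ := by
  have h1 : σ ⟨x, hx⟩ = ⟨y, hy⟩ := by
    apply Fin.ext
    rw [hσ ⟨x, hx⟩]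
    exact hxy
  rw [← h1]
  exact Equiv.Perm.sameCycle_apply_right.2 h

end C_I2

theorem prf_C_I2 (hTc : C_Tc) : C_I2 := by
  intro q n hq hn σ hσ
  have h0n : 0 < n := by omega
  have st := C_I2.step hσ ⟨0, h0n⟩
  have P0 : σ.SameCycle ⟨0, h0n⟩ ⟨0, h0n⟩ := Equiv.Perm.SameCycle.refl _ _
  have hodd : ∀ j : ℕ, 2 * j + 3 ≤ n → ∀ h : n - 2 - 2 * j < n,
      σ.SameCycle ⟨0, h0n⟩ ⟨n - 2 - 2 * j, h⟩ := by
    intro j
    induction j with
    | zero =>
      intro _ h
      refine st 0 _ h0n h ?_ P0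
      unfold cI
      rw [if_pos rfl]
      omega
    | succ j ih =>
      intro hj h
      have hx : n - 2 - 2 * j < n := by omega
      refine st (n - 2 - 2 * j) _ hx h ?_ (ih (by omega) hx)
      unfold cI
      rw [if_neg (by omega), if_neg (by omega), if_neg (by omega), if_neg (by omega),
        if_neg (by omega)]
      omega
  have h1n : 1 < n := by omega
  have h2n : 2 < n := by omega
  have P1 : σ.SameCycle ⟨0, h0n⟩ ⟨1, h1n⟩ := by
    have h1 := hodd (2 * q - 1) (by omega) (by omega)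
    have e : n - 2 - 2 * (2 * q - 1) = 1 := by omega
    simp only [e] at h1
    exact h1
  have P2 : σ.SameCycle ⟨0, h0n⟩ ⟨2, h2n⟩ := by
    refine st 1 2 h1n h2n ?_ P1
    unfold cI
    rw [if_neg (by omega), if_pos rfl]
  have heven : ∀ j : ℕ, 2 * j + 7 ≤ n → ∀ h : n - 3 - 2 * j < n,
      σ.SameCycle ⟨0, h0n⟩ ⟨n - 3 - 2 * j, h⟩ := by
    intro j
    induction j with
    | zero =>
      intro _ h
      refine st 2 _ h2n h ?_ P2
      unfold cI
      rw [if_neg (by omega), if_neg (by omega), if_pos rfl]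
      omega
    | succ j ih =>
      intro hj h
      have hx : n - 3 - 2 * j < n := by omega
      refine st (n - 3 - 2 * j) _ hx h ?_ (ih (by omega) hx)
      unfold cI
      rw [if_neg (by omega), if_neg (by omega), if_neg (by omega), if_neg (by omega),
        if_neg (by omega)]
      omega
  have h4n : 4 < n := by omega
  have hn1 : n - 1 < n := by omega
  have P4 : σ.SameCycle ⟨0, h0n⟩ ⟨4, h4n⟩ := by
    have h1 := heven (2 * q - 3) (by omega) (by omega)
    have e : n - 3 - 2 * (2 * q - 3) = 4 := by omega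
    simp only [e] at h1
    exact h1
  have Pn : σ.SameCycle ⟨0, h0n⟩ ⟨n - 1, hn1⟩ := by
    refine st 4 _ h4n hn1 ?_ P4
    unfold cI
    rw [if_neg (by omega), if_neg (by omega), if_neg (by omega), if_pos rfl]
  refine hTc n σ ⟨0, h0n⟩ (by omega) ?_
  rintro ⟨x, hx⟩
  rcases Nat.even_or_odd' x with ⟨j, hj | hj⟩
  · by_cases h1 : x = 0
    · subst h1
      exact P0
    · by_cases h2 : x = 2
      · subst h2
        exact P2
      · by_cases h3 : x = n - 1
        · subst h3
          exact Pn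
        · have h4 := heven (2 * q - 1 - j) (by omega) (by omega)
          have e : n - 3 - 2 * (2 * q - 1 - j) = x := by omega
          simp only [e] at h4
          exact h4
  · have h4 := hodd (2 * q - 1 - j) (by omega) (by omega)
    have e : n - 2 - 2 * (2 * q - 1 - j) = x := by omega
    simp only [e] at h4
    exact h4

end Pool.Agent.Work.MP_8aaf67_al.AF
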