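import Pool.Agent.Work.MP_8aaf67_al.AF.StmtsC

/-!
# Family I: a three cycle (item C_I4)
-/

set_option autoImplicit false

namespace Pool.Agent.Work.MP_8aaf67_al.AF

open scoped commutatorElement

namespace C_I4

/-- the permutation `c a a` on numbers -/
def sv (n x : ℕ) : ℕ :=
  if x = 0 then n - 3 else if x = n - 3 then 0 else if x = n - 1 then 2
  else if x = 2 then n - 1 else x

theorem arith {n x : ℕ} (hn : 17 ≤ n) (hx : x < n) : cI n (fa n (fa n x)) = sv n x := by
  simp only [fa]
  split_ifs <;> (unfold cI sv; split_ifs <;> first | omega | (exfalso; assumption))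

end C_I4

open C_I4 in
theorem prf_C_I4 (hOp : C_Op) : C_I4 := by
  intro q n hq hn a c ha hc
  have h17 : 17 ≤ n := by omega
  have hs : ∀ x : Fin n, (((c * (a * a)) x : Fin n) : ℕ) = sv n x := by
    intro x
    rw [Equiv.Perm.mul_apply, Equiv.Perm.mul_apply, hc, ha, ha]
    exact arith h17 x.isLt
  have hmemA : a ∈ Subgroup.closure {a, c} := Subgroup.subset_closure (by simp)
  have hmemC : c ∈ Subgroup.closure {a, c} := Subgroup.subset_closure (by simp)
  have hmemS : c * (a * a) ∈ Subgroup.closure {a, c} :=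
    Subgroup.mul_mem _ hmemC (Subgroup.mul_mem _ hmemA hmemA)
  have hmemS' : a * (c * (a * a)) * a⁻¹ ∈ Subgroup.closure {a, c} :=
    Subgroup.mul_mem _ (Subgroup.mul_mem _ hmemA hmemS) (Subgroup.inv_mem _ hmemA)
  -- the conjugate
  have hconj : ∀ t : Fin n, (a * (c * (a * a)) * a⁻¹) t = a ((c * (a * a)) (a⁻¹ t)) :=
    fun t => rfl
  have hinv : ∀ t : Fin n, a (a⁻¹ t) = t := fun t => a.apply_symm_apply t
  have hu : ∀ t : Fin n, fa n ((a⁻¹ t : Fin n) : ℕ) = (t : ℕ) := by
    intro t
    rw [← ha, hinv]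
  refine ⟨⁅c * (a * a), a * (c * (a * a)) * a⁻¹⁆, ?_, ?_⟩
  · rw [commutatorElement_def]
    exact Subgroup.mul_mem _ (Subgroup.mul_mem _ (Subgroup.mul_mem _ hmemS hmemS')
      (Subgroup.inv_mem _ hmemS)) (Subgroup.inv_mem _ hmemS')
  · refine hOp n _ _ (⟨0, by omega⟩ : Fin n) ?_ ?_ ?_
    · intro h
      have h1 := hs (⟨0, by omega⟩ : Fin n)
      rw [h] at h1
      have h2 : (0 : ℕ) = sv n 0 := h1
      unfold sv at h2
      rw [if_pos rfl] at h2
      omega
    · intro h
      rw [hconj] at h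
      have h0 := hu (⟨0, by omega⟩ : Fin n)
      have h1 := hs (a⁻¹ (⟨0, by omega⟩ : Fin n))
      have h2 := ha ((c * (a * a)) (a⁻¹ (⟨0, by omega⟩ : Fin n)))
      rw [h, h1] at h2
      have hlt := (a⁻¹ (⟨0, by omega⟩ : Fin n)).isLt
      generalize ((a⁻¹ (⟨0, by omega⟩ : Fin n) : Fin n) : ℕ) = u at h0 h2 hlt
      have h2' : (0 : ℕ) = fa n (sv n u) := h2
      have h0' : fa n u = 0 := h0
      unfold fa at h0'
      unfold fa sv at h2'
      split_ifs at h0' h2' <;> first | omega | (exfalso; assumption)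
    · intro t ht
      have ht0 : (t : ℕ) ≠ 0 := fun h => ht (Fin.ext h)
      have htn := t.isLt
      by_cases hfix : (c * (a * a)) t = t
      · exact Or.inl hfix
      · right
        rw [hconj]
        have h1 : sv n t ≠ (t : ℕ) := by
          intro h
          apply hfix
          apply Fin.ext
          rw [hs, h]
        have h0 := hu t
        have hlt := (a⁻¹ t).isLt
        have h2 : (c * (a * a)) (a⁻¹ t) = a⁻¹ t := by
          apply Fin.ext
          rw [hs]
          generalize ((a⁻¹ t : Fin n) : ℕ) = u at h0 hlt ⊢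
          generalize (t : ℕ) = t' at h0 h1 ht0 htn
          unfold fa at h0
          unfold sv at h1 ⊢
          split_ifs at h0 h1 ⊢ <;> first | omega | (exfalso; assumption)
        rw [h2, hinv]

end Pool.Agent.Work.MP_8aaf67_al.AF
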