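import Pool.Agent.Work.MP_8aaf67_al.AF.StmtsC

/-!
# Alternating composition factors: family K
-/

set_option autoImplicit false

namespace Pool.Agent.Work.MP_8aaf67_al.AF

open scoped commutatorElement

namespace C_K1

theorem fK_cases (k x : ℕ) :
    (x < 3 * k ∧ x % 3 ≠ 2 ∧ fK k x = x + (3 * k + 1)) ∨
    (3 * k + 1 ≤ x ∧ x < 6 * k + 1 ∧ x % 3 ≠ 0 ∧ fK k x + (3 * k + 1) = x) ∨
    (¬ (x < 3 * k ∧ x % 3 ≠ 2) ∧ ¬ (3 * k + 1 ≤ x ∧ x < 6 * k + 1 ∧ x % 3 ≠ 0) ∧ fK k x = x) := by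
  unfold fK
  split_ifs with h1 h2
  · exact Or.inl ⟨h1.1, h1.2, rfl⟩
  · exact Or.inr (Or.inl ⟨h2.1, h2.2.1, by omega, by omega⟩)
  · exact Or.inr (Or.inr ⟨h1, by omega, rfl⟩)

theorem cK_cases (k x : ℕ) :
    (x < 3 * k ∧ x % 3 ≠ 1 ∧ cK k x = x + (3 * k + 1)) ∨
    (3 * k + 1 ≤ x ∧ x < 6 * k + 1 ∧ x % 3 ≠ 2 ∧ cK k x + (3 * k + 1) = x) ∨
    (¬ (x < 3 * k ∧ x % 3 ≠ 1) ∧ ¬ (3 * k + 1 ≤ x ∧ x < 6 * k + 1 ∧ x % 3 ≠ 2) ∧ cK k x = x) := by
  unfold cK
  split_ifs with h1 h2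
  · exact Or.inl ⟨h1.1, h1.2, rfl⟩
  · exact Or.inr (Or.inl ⟨h2.1, h2.2.1, by omega, by omega⟩)
  · exact Or.inr (Or.inr ⟨h1, by omega, rfl⟩)

theorem fa_cases (n x : ℕ) : (x + 1 = n ∧ fa n x = 0) ∨ (x + 1 ≠ n ∧ fa n x = x + 1) := by
  unfold fa
  split_ifs with h
  · exact Or.inl ⟨h, rfl⟩
  · exact Or.inr ⟨h, rfl⟩

theorem fa1_cases (n x : ℕ) :
    (x = 0 ∧ fa1 n x = n - 1) ∨ (x ≠ 0 ∧ fa1 n x + 1 = x) := by
  unfold fa1
  split_ifs with h
  · exact Or.inl ⟨h, rfl⟩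
  · exact Or.inr ⟨h, by omega⟩

/-- an enumeration of the points moved by `fK` -/
def num (k x : ℕ) : ℕ := if x < 3 * k then 2 * (x / 3) + x % 3 else 2 * (x / 3) + x % 3 - 1

theorem num_cases (k x : ℕ) :
    (x < 3 * k ∧ num k x = 2 * (x / 3) + x % 3) ∨
    (3 * k ≤ x ∧ num k x = 2 * (x / 3) + x % 3 - 1) := by
  unfold num
  split_ifs with h
  · exact Or.inl ⟨h, rfl⟩
  · exact Or.inr ⟨by omega, rfl⟩

/-- an enumeration of the points moved by `cK` -/
def num2 (k x : ℕ) : ℕ :=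
  if x < 3 * k then 2 * (x / 3) + x % 3 / 2 else 2 * ((x - 1) / 3) + (x - 1) % 3 / 2

theorem num2_cases (k x : ℕ) :
    (x < 3 * k ∧ num2 k x = 2 * (x / 3) + x % 3 / 2) ∨
    (3 * k ≤ x ∧ num2 k x = 2 * ((x - 1) / 3) + (x - 1) % 3 / 2) := by
  unfold num2
  split_ifs with h
  · exact Or.inl ⟨h, rfl⟩
  · exact Or.inr ⟨by omega, rfl⟩

end C_K1

open C_K1

theorem prf_C_K3 : C_K3 := by
  intro k n hk hn x hx
  refine ⟨?_, ?_, ?_⟩
  · have := fK_cases k x
    omega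
  · have h1 := fK_cases k x
    have h2 := fK_cases k (fK k x)
    omega
  · have h1 := fa1_cases n x
    have h2 := fK_cases k (fa1 n x)
    have h3 := fa_cases n (fK k (fa1 n x))
    have h4 := fK_cases k (fa n (fK k (fa1 n x)))
    have h5 := cK_cases k x
    omega

theorem prf_C_K1 (hTi : C_Ti) : C_K1 := by
  intro k n hk hn σ hσ
  have hs : σ * σ = 1 := by
    ext x
    rw [Equiv.Perm.mul_apply, Equiv.Perm.one_apply, hσ, hσ]
    exact (prf_C_K3 k n hk hn x x.2).2.1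
  refine hTi n (2 * k) σ hs ?_
  rw [← Finset.card_range (2 * (2 * k))]
  refine Finset.card_bij (fun x _ => num k x.val) ?_ ?_ ?_
  · intro x hx
    rw [Finset.mem_filter] at hx
    have h0 : (σ x).val ≠ x.val := fun h => hx.2 (Fin.ext h)
    rw [hσ] at h0
    have h1 := fK_cases k x
    have h2 := num_cases k x
    rw [Finset.mem_range]
    omega
  · intro x hx y hy h
    rw [Finset.mem_filter] at hx hy
    have h0 : (σ x).val ≠ x.val := fun h => hx.2 (Fin.ext h)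
    have h0' : (σ y).val ≠ y.val := fun h => hy.2 (Fin.ext h)
    rw [hσ] at h0 h0'
    have h1 := fK_cases k x
    have h1' := fK_cases k y
    have h2 := num_cases k x
    have h2' := num_cases k y
    apply Fin.ext
    omega
  · intro j hj
    rw [Finset.mem_range] at hj
    obtain ⟨x, hx⟩ : ∃ x, x = 3 * (j / 2) + j % 2 + (if j < 2 * k then 0 else 1) := ⟨_, rfl⟩
    have hx1 : (j < 2 * k ∧ x = 3 * (j / 2) + j % 2) ∨ (2 * k ≤ j ∧ x = 3 * (j / 2) + j % 2 + 1) := by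
      split_ifs at hx <;> omega
    refine ⟨⟨x, by omega⟩, ?_, ?_⟩
    · rw [Finset.mem_filter]
      refine ⟨Finset.mem_univ _, fun h => ?_⟩
      have h0 : (σ ⟨x, by omega⟩).val = x := congrArg Fin.val h
      rw [hσ] at h0
      have h1 := fK_cases k x
      change fK k x = x at h0
      omega
    · have h2 := num_cases k x
      change num k x = j
      omega

theorem prf_C_K2 (hTi : C_Ti) : C_K2 := by
  intro k n hk hn σ hσ
  have hs : σ * σ = 1 := by
    ext x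
    rw [Equiv.Perm.mul_apply, Equiv.Perm.one_apply, hσ, hσ]
    have h1 := cK_cases k x
    have h2 := cK_cases k (cK k x)
    omega
  refine hTi n (2 * k) σ hs ?_
  rw [← Finset.card_range (2 * (2 * k))]
  refine Finset.card_bij (fun x _ => num2 k x.val) ?_ ?_ ?_
  · intro x hx
    rw [Finset.mem_filter] at hx
    have h0 : (σ x).val ≠ x.val := fun h => hx.2 (Fin.ext h)
    rw [hσ] at h0
    have h1 := cK_cases k x
    have h2 := num2_cases k x
    rw [Finset.mem_range]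
    omega
  · intro x hx y hy h
    rw [Finset.mem_filter] at hx hy
    have h0 : (σ x).val ≠ x.val := fun h => hx.2 (Fin.ext h)
    have h0' : (σ y).val ≠ y.val := fun h => hy.2 (Fin.ext h)
    rw [hσ] at h0 h0'
    have h1 := cK_cases k x
    have h1' := cK_cases k y
    have h2 := num2_cases k x
    have h2' := num2_cases k y
    apply Fin.ext
    omega
  · intro j hj
    rw [Finset.mem_range] at hj
    obtain ⟨x, hx⟩ : ∃ x, x = 3 * (j / 2) + 2 * (j % 2) + (if j < 2 * k then 0 else 1) := ⟨_, rfl⟩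
    have hx1 : (j < 2 * k ∧ x = 3 * (j / 2) + 2 * (j % 2)) ∨
        (2 * k ≤ j ∧ x = 3 * (j / 2) + 2 * (j % 2) + 1) := by
      split_ifs at hx <;> omega
    refine ⟨⟨x, by omega⟩, ?_, ?_⟩
    · rw [Finset.mem_filter]
      refine ⟨Finset.mem_univ _, fun h => ?_⟩
      have h0 : (σ ⟨x, by omega⟩).val = x := congrArg Fin.val h
      rw [hσ] at h0
      have h1 := cK_cases k x
      change cK k x = x at h0
      omega
    · have h2 := num2_cases k x
      change num2 k x = j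
      omega

end Pool.Agent.Work.MP_8aaf67_al.AF
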