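import Pool.Agent.Work.MP_8aaf67_al.AF.StmtsC

/-!
# MP_8aaf67_al, block AF, item C_K4: a three cycle in family K
-/

set_option autoImplicit false

namespace Pool.Agent.Work.MP_8aaf67_al.AF

open scoped commutatorElement

namespace XK4

/-- the conjugate of `b` by the third power of `a` -/
def fB (k x : ℕ) : ℕ := if x < 3 then x else fK k (x - 3) + 3

/-- the product `w` -/
def gW (k x : ℕ) : ℕ :=
  if x = 0 then 3 * k + 1 else if x = 3 * k + 1 then 6 * k + 2 else if x = 6 * k + 2 then 0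
  else if x = 1 then 3 * k + 2 else if x = 3 * k + 2 then 1
  else if x = 3 * k then 6 * k + 1 else if x = 6 * k + 1 then 3 * k else x

/-- the square of `w` -/
def gW2 (k x : ℕ) : ℕ :=
  if x = 0 then 6 * k + 2 else if x = 6 * k + 2 then 3 * k + 1 else if x = 3 * k + 1 then 0 else x

theorem down3 {n x : ℕ} (hn : 9 ≤ n) (hx : x < n) :
    fa1 n (fa1 n (fa1 n x)) = if x < 3 then n - 3 + x else x - 3 := by
  unfold fa1
  split_ifs <;> omega

theorem up3 {n x : ℕ} (hx : x + 3 < n) : fa n (fa n (fa n x)) = x + 3 := by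
  unfold fa
  split_ifs <;> omega

theorem up3' {n x : ℕ} (hn : 9 ≤ n) (hx : x < 3) : fa n (fa n (fa n (n - 3 + x))) = x := by
  unfold fa
  split_ifs <;> omega

theorem fK_small {k n x : ℕ} (_hk : 1 ≤ k) (hn : 6 * k + 3 ≤ n) (_hx : x < 3) :
    fK k (n - 3 + x) = n - 3 + x := by
  unfold fK
  split_ifs <;> omega

theorem fK_lt {k n x : ℕ} (_hk : 1 ≤ k) (hn : 6 * k + 3 ≤ n) (hx : x + 3 < n) :
    fK k x + 3 < n := by
  unfold fK
  split_ifs <;> omega

theorem conj_eq {k n x : ℕ} (hk : 1 ≤ k) (hn : 6 * k + 3 ≤ n) (hx : x < n) :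
    fa n (fa n (fa n (fK k (fa1 n (fa1 n (fa1 n x)))))) = fB k x := by
  rw [down3 (by omega) hx]
  unfold fB
  by_cases h : x < 3
  · rw [if_pos h, if_pos h, fK_small hk hn h, up3' (by omega) h]
  · rw [if_neg h, if_neg h, up3 (fK_lt hk hn (by omega))]

theorem w_eq {k x : ℕ} (hk : 1 ≤ k) : fK k (fB k x) = gW k x := by
  have h1 : fB k x = if x < 3 then x
      else if x < 3 * k + 3 ∧ x % 3 ≠ 2 then x + (3 * k + 1)
      else if 3 * k + 4 ≤ x ∧ x < 6 * k + 4 ∧ (x - (3 * k + 4)) % 3 ≠ 2 then x - (3 * k + 1)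
      else x := by
    unfold fB fK
    split_ifs <;> omega
  rw [h1]
  unfold gW
  by_cases c1 : x < 3
  · rw [if_pos c1]
    unfold fK
    split_ifs <;> omega
  · rw [if_neg c1]
    by_cases c2 : x < 3 * k + 3 ∧ x % 3 ≠ 2
    · rw [if_pos c2]
      unfold fK
      split_ifs <;> omega
    · rw [if_neg c2]
      by_cases c3 : 3 * k + 4 ≤ x ∧ x < 6 * k + 4 ∧ (x - (3 * k + 4)) % 3 ≠ 2
      · rw [if_pos c3]
        unfold fK
        split_ifs <;> omega
      · rw [if_neg c3]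
        unfold fK
        split_ifs <;> omega

theorem w2_eq {k x : ℕ} (hk : 1 ≤ k) : gW k (gW k x) = gW2 k x := by
  have v0 : gW k 0 = 3 * k + 1 := by unfold gW; rw [if_pos rfl]
  have v1 : gW k (3 * k + 1) = 6 * k + 2 := by
    unfold gW
    rw [if_neg (by omega), if_pos rfl]
  have v2 : gW k (6 * k + 2) = 0 := by
    unfold gW
    rw [if_neg (by omega), if_neg (by omega), if_pos rfl]
  have v3 : gW k 1 = 3 * k + 2 := by
    unfold gW
    rw [if_neg (by omega), if_neg (by omega), if_neg (by omega), if_pos rfl]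
  have v4 : gW k (3 * k + 2) = 1 := by
    unfold gW
    rw [if_neg (by omega), if_neg (by omega), if_neg (by omega), if_neg (by omega), if_pos rfl]
  have v5 : gW k (3 * k) = 6 * k + 1 := by
    unfold gW
    rw [if_neg (by omega), if_neg (by omega), if_neg (by omega), if_neg (by omega),
      if_neg (by omega), if_pos rfl]
  have v6 : gW k (6 * k + 1) = 3 * k := by
    unfold gW
    rw [if_neg (by omega), if_neg (by omega), if_neg (by omega), if_neg (by omega),
      if_neg (by omega), if_neg (by omega), if_pos rfl]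
  unfold gW2
  by_cases c1 : x = 0
  · rw [c1, v0, v1, if_pos rfl]
  by_cases c2 : x = 3 * k + 1
  · rw [c2, v1, v2, if_neg (by omega), if_neg (by omega), if_pos rfl]
  by_cases c3 : x = 6 * k + 2
  · rw [c3, v2, v0, if_neg (by omega), if_pos rfl]
  rw [if_neg c1, if_neg c3, if_neg c2]
  by_cases c4 : x = 1
  · rw [c4, v3, v4]
  by_cases c5 : x = 3 * k + 2
  · rw [c5, v4, v3]
  by_cases c6 : x = 3 * k
  · rw [c6, v5, v6]
  by_cases c7 : x = 6 * k + 1
  · rw [c7, v6, v5]
  have h1 : gW k x = x := by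
    unfold gW
    rw [if_neg c1, if_neg c2, if_neg c3, if_neg c4, if_neg c5, if_neg c6, if_neg c7]
  rw [h1, h1]

end XK4

open XK4

/-- item C_K4 -/
theorem prf_C_K4 : C_K4 := by
  intro k n hk hn a b ha hb
  have hainv : ∀ x : Fin n, ((a⁻¹ x : Fin n) : ℕ) = fa1 n x := by
    intro x
    have h1 := ha (a⁻¹ x)
    rw [← Equiv.Perm.mul_apply, mul_inv_cancel, Equiv.Perm.one_apply] at h1
    have h2 := (a⁻¹ x).isLt
    unfold fa at h1
    unfold fa1
    split_ifs at h1 ⊢ <;> omega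
  obtain ⟨w, hw⟩ : ∃ w : Equiv.Perm (Fin n), w = b * (a ^ 3 * b * (a ^ 3)⁻¹) := ⟨_, rfl⟩
  have hconj : ∀ x : Fin n, (((a ^ 3 * b * (a ^ 3)⁻¹) x : Fin n) : ℕ) = fB k x := by
    intro x
    have h1 : (a ^ 3 * b * (a ^ 3)⁻¹) x = a (a (a (b (a⁻¹ (a⁻¹ (a⁻¹ x)))))) := by
      have e : a ^ 3 * b * (a ^ 3)⁻¹ = a * a * a * b * a⁻¹ * a⁻¹ * a⁻¹ := by
        simp only [pow_succ, pow_zero, one_mul, mul_inv_rev, mul_assoc]
      rw [e]
      rfl
    rw [h1, ha, ha, ha, hb, hainv, hainv, hainv]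
    exact conj_eq hk hn x.isLt
  have hwx : ∀ x : Fin n, ((w x : Fin n) : ℕ) = gW k x := by
    intro x
    have h1 : w x = b ((a ^ 3 * b * (a ^ 3)⁻¹) x) := by
      rw [hw]
      rfl
    rw [h1, hb, hconj]
    exact w_eq hk
  have hw2 : ∀ x : Fin n, (((w * w) x : Fin n) : ℕ) = gW2 k x := by
    intro x
    have h1 : (w * w) x = w (w x) := rfl
    rw [h1, hwx, hwx]
    exact w2_eq hk
  have hmem : w * w ∈ Subgroup.closure {a, b} := by
    have h1 : a ∈ Subgroup.closure ({a, b} : Set (Equiv.Perm (Fin n))) :=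
      Subgroup.subset_closure (Set.mem_insert _ _)
    have h2 : b ∈ Subgroup.closure ({a, b} : Set (Equiv.Perm (Fin n))) :=
      Subgroup.subset_closure (Set.mem_insert_of_mem _ rfl)
    have h3 : w ∈ Subgroup.closure ({a, b} : Set (Equiv.Perm (Fin n))) := by
      rw [hw]
      exact mul_mem h2 (mul_mem (mul_mem (pow_mem h1 3) h2) (inv_mem (pow_mem h1 3)))
    exact mul_mem h3 h3
  refine ⟨w * w, hmem, ?_⟩
  let p0 : Fin n := ⟨0, by omega⟩
  let p1 : Fin n := ⟨3 * k + 1, by omega⟩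
  let p2 : Fin n := ⟨6 * k + 2, by omega⟩
  have h01 : p0 ≠ p1 := by
    intro h
    have h2 : (0 : ℕ) = 3 * k + 1 := congrArg Fin.val h
    omega
  have h02 : p0 ≠ p2 := by
    intro h
    have h2 : (0 : ℕ) = 6 * k + 2 := congrArg Fin.val h
    omega
  have h12 : p1 ≠ p2 := by
    intro h
    have h2 : 3 * k + 1 = 6 * k + 2 := congrArg Fin.val h
    omega
  have hfin : w * w = Equiv.swap p0 p1 * Equiv.swap p0 p2 := by
    ext x
    rw [hw2]
    have h1 : (Equiv.swap p0 p1 * Equiv.swap p0 p2) x = Equiv.swap p0 p1 (Equiv.swap p0 p2 x) := rfl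
    rw [h1]
    unfold gW2
    by_cases c0 : x = p0
    · rw [c0, Equiv.swap_apply_left, Equiv.swap_apply_of_ne_of_ne h02.symm h12.symm]
      rw [if_pos (show ((p0 : Fin n) : ℕ) = 0 from rfl)]
    · by_cases c2 : x = p2
      · rw [c2, Equiv.swap_apply_right, Equiv.swap_apply_left]
        have hv : ((p2 : Fin n) : ℕ) = 6 * k + 2 := rfl
        have hv1 : ((p1 : Fin n) : ℕ) = 3 * k + 1 := rfl
        rw [hv, hv1, if_neg (by omega), if_pos rfl]
      · rw [Equiv.swap_apply_of_ne_of_ne c0 c2]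
        by_cases c1 : x = p1
        · rw [c1, Equiv.swap_apply_right]
          have hv1 : ((p1 : Fin n) : ℕ) = 3 * k + 1 := rfl
          have hv0 : ((p0 : Fin n) : ℕ) = 0 := rfl
          rw [hv1, hv0, if_neg (by omega), if_neg (by omega), if_pos rfl]
        · rw [Equiv.swap_apply_of_ne_of_ne c0 c1]
          have d0 : (x : ℕ) ≠ 0 := fun h => c0 (Fin.ext h)
          have d1 : (x : ℕ) ≠ 3 * k + 1 := fun h => c1 (Fin.ext h)
          have d2 : (x : ℕ) ≠ 6 * k + 2 := fun h => c2 (Fin.ext h)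
          rw [if_neg d0, if_neg d2, if_neg d1]
  rw [hfin]
  exact Equiv.Perm.isThreeCycle_swap_mul_swap_same h01 h02 h12

end Pool.Agent.Work.MP_8aaf67_al.AF
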