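import Pool.Agent.Work.MP_8aaf67_al.AF.StmtsC

/-!
# Item C_Op of block AF: the commutator of two permutations with one common moved point
-/

set_option autoImplicit false

namespace Pool.Agent.Work.MP_8aaf67_al.AF

open scoped commutatorElement

namespace C_Op

theorem key {n : ℕ} {g h : Equiv.Perm (Fin n)} {x : Fin n} (hg : g x ≠ x) (hh : h x ≠ x)
    (H : ∀ t, t ≠ x → g t = t ∨ h t = t) :
    g * h = Equiv.swap x (g x) * h * Equiv.swap x (g x) * g := by
  -- moved points are mapped to moved points
  have hgm : ∀ t, g t ≠ t → g (g t) ≠ g t := fun t ht h1 => ht (g.injective h1)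
  have hhm : ∀ t, h t ≠ t → h (h t) ≠ h t := fun t ht h1 => ht (h.injective h1)
  have hy : h (g x) = g x := (H (g x) hg).resolve_left (hgm x hg)
  have hz : g (h x) = h x := (H (h x) hh).resolve_right (hhm x hh)
  have hzy : h x ≠ g x := fun h1 => hhm x hh (by rw [h1]; exact hy)
  apply Equiv.ext
  intro s
  change g (h s) = Equiv.swap x (g x) (h (Equiv.swap x (g x) (g s)))
  by_cases hs : s = x
  · subst hs
    rw [Equiv.swap_apply_right, Equiv.swap_apply_of_ne_of_ne hh hzy]
    exact hz
  · by_cases hgs : g s = s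
    · have hsy : s ≠ g x := fun h1 => hgm x hg (by rw [← h1]; exact hgs)
      rw [hgs, Equiv.swap_apply_of_ne_of_ne hs hsy]
      by_cases hhx : h s = x
      · rw [hhx, Equiv.swap_apply_left]
      · have h1 : g (h s) = h s := by
          by_cases hhs : h s = s
          · rw [hhs]
            exact hgs
          · exact (H (h s) hhx).resolve_right (hhm s hhs)
        have h2 : h s ≠ g x := fun h3 => hsy (h.injective (by rw [h3, hy]))
        rw [h1, Equiv.swap_apply_of_ne_of_ne hhx h2]
    · have hhs : h s = s := (H s hs).resolve_left hgs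
      rw [hhs]
      by_cases ht : g s = x
      · rw [ht, Equiv.swap_apply_left, hy, Equiv.swap_apply_right]
      · have h1 : g s ≠ g x := fun h2 => hs (g.injective h2)
        rw [Equiv.swap_apply_of_ne_of_ne ht h1]
        have h2 : h (g s) = g s := (H (g s) ht).resolve_left (hgm s hgs)
        rw [h2, Equiv.swap_apply_of_ne_of_ne ht h1]

end C_Op

theorem prf_C_Op : C_Op := by
  intro n g h x hg hh H
  have hgm : g (g x) ≠ g x := fun h1 => hg (g.injective h1)
  have hhm : h (h x) ≠ h x := fun h1 => hh (h.injective h1)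
  have hy : h (g x) = g x := (H (g x) hg).resolve_left hgm
  have hzy : h x ≠ g x := fun h1 => hhm (by rw [h1]; exact hy)
  have h1 : (⁅g, h⁆ : Equiv.Perm (Fin n)) =
      Equiv.swap (g x) x * Equiv.swap (g x) (h x) := by
    rw [commutatorElement_def, C_Op.key hg hh H, mul_assoc _ g g⁻¹, mul_inv_cancel, mul_one,
      mul_assoc (Equiv.swap x (g x)) h, Equiv.mul_swap_eq_swap_mul, hy,
      mul_assoc, mul_assoc, mul_inv_cancel, mul_one, Equiv.swap_comm x (g x),
      Equiv.swap_comm (h x) (g x)]
  rw [h1]
  exact Equiv.Perm.isThreeCycle_swap_mul_swap_same hg hzy.symm hh.symm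

end Pool.Agent.Work.MP_8aaf67_al.AF
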