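import Pool.Agent.Work.MP_8aaf67_al.AF.StmtsC

/-!
# Alternating composition factors, item C_S4
-/

set_option autoImplicit false

namespace Pool.Agent.Work.MP_8aaf67_al.AF

namespace C_S4

theorem inv_shift (n : ℕ) (a : Equiv.Perm (Fin n)) (ha : Is n (fa n) a) : Is n (fa1 n) a⁻¹ := by
  intro y
  obtain ⟨z, hz⟩ : ∃ z, a z = y := a.surjective y
  have h1 : a⁻¹ y = z := by rw [← hz]; exact a.symm_apply_apply z
  have h2 := ha z
  rw [hz] at h2
  rw [h1]
  have hz2 := z.2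
  have hy2 := y.2
  unfold fa at h2
  unfold fa1
  split_ifs at h2 ⊢ <;> omega

/-- The function of the three cycle. -/
def f3 (q x : ℕ) : ℕ := if x = 0 then 2 * q else if x = 2 * q then 4 * q
  else if x = 4 * q then 0 else x

theorem step1 (q x : ℕ) (hq : 2 ≤ q) (hx : x < 4 * q + 1) :
    fa (4 * q + 1) (fa (4 * q + 1) (fS q (fa1 (4 * q + 1) (fa1 (4 * q + 1) x)))) =
      if 2 ≤ x ∧ x ≤ 2 * q ∧ x % 2 = 0 then x + 2 * q
      else if 2 * q + 2 ≤ x ∧ x % 2 = 0 then x - 2 * q else x := by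
  have e1 : fa1 (4 * q + 1) (fa1 (4 * q + 1) x) =
      if x = 0 then 4 * q - 1 else if x = 1 then 4 * q else x - 2 := by
    unfold fa1
    split_ifs <;> omega
  rw [e1]
  have e2 : fS q (if x = 0 then 4 * q - 1 else if x = 1 then 4 * q else x - 2) =
      if x = 0 then 4 * q - 1 else if x = 1 then 4 * q
      else if 2 ≤ x ∧ x ≤ 2 * q ∧ x % 2 = 0 then x + 2 * q - 2
      else if 2 * q + 2 ≤ x ∧ x % 2 = 0 then x - 2 * q - 2 else x - 2 := by
    unfold fS
    split_ifs <;> omega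
  rw [e2]
  unfold fa
  split_ifs <;> omega

theorem step2 (q x : ℕ) (hq : 2 ≤ q) (hx : x < 4 * q + 1) :
    fS q (if 2 ≤ x ∧ x ≤ 2 * q ∧ x % 2 = 0 then x + 2 * q
      else if 2 * q + 2 ≤ x ∧ x % 2 = 0 then x - 2 * q else x) = f3 q x := by
  unfold fS f3
  split_ifs <;> omega

end C_S4

open C_S4 in
theorem prf_C_S4 : C_S4 := by
  intro q n hq hn a b ha hb
  subst hn
  have ha1 := inv_shift _ a ha
  have hcl : b * (a * a * b * a⁻¹ * a⁻¹) ∈ Subgroup.closure {a, b} := by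
    have h1 : a ∈ Subgroup.closure {a, b} := Subgroup.subset_closure (by simp)
    have h2 : b ∈ Subgroup.closure {a, b} := Subgroup.subset_closure (by simp)
    exact mul_mem h2 (mul_mem (mul_mem (mul_mem (mul_mem h1 h1) h2) (inv_mem h1)) (inv_mem h1))
  refine ⟨_, hcl, ?_⟩
  obtain ⟨o, ho⟩ : ∃ o : Fin (4 * q + 1), (o : ℕ) = 0 := ⟨⟨0, by omega⟩, rfl⟩
  obtain ⟨u, hu⟩ : ∃ u : Fin (4 * q + 1), (u : ℕ) = 2 * q := ⟨⟨2 * q, by omega⟩, rfl⟩
  obtain ⟨w, hw⟩ : ∃ w : Fin (4 * q + 1), (w : ℕ) = 4 * q := ⟨⟨4 * q, by omega⟩, rfl⟩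
  have huo : u ≠ o := fun h => by rw [h] at hu; omega
  have huw : u ≠ w := fun h => by rw [h] at hu; omega
  have how : o ≠ w := fun h => by rw [h] at ho; omega
  have hval : ∀ x : Fin (4 * q + 1), (((b * (a * a * b * a⁻¹ * a⁻¹)) x : Fin (4 * q + 1)) : ℕ) =
      f3 q x := by
    intro x
    have h1 : (((b * (a * a * b * a⁻¹ * a⁻¹)) x : Fin (4 * q + 1)) : ℕ) =
        fS q (fa (4 * q + 1) (fa (4 * q + 1) (fS q (fa1 (4 * q + 1) (fa1 (4 * q + 1) x))))) := by
      simp only [Equiv.Perm.mul_apply]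
      rw [hb, ha, ha, hb, ha1, ha1]
    rw [h1, step1 q x hq x.2, step2 q x hq x.2]
  have hsw : b * (a * a * b * a⁻¹ * a⁻¹) = Equiv.swap u o * Equiv.swap u w := by
    ext x
    rw [hval x, Equiv.Perm.mul_apply]
    by_cases h1 : x = o
    · rw [h1, Equiv.swap_apply_of_ne_of_ne huo.symm how, Equiv.swap_apply_right, ho, hu]
      unfold f3
      rw [if_pos rfl]
    · by_cases h2 : x = u
      · rw [h2, Equiv.swap_apply_left, Equiv.swap_apply_of_ne_of_ne huw.symm how.symm, hu, hw]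
        unfold f3
        rw [if_neg (by omega), if_pos rfl]
      · by_cases h3 : x = w
        · rw [h3, Equiv.swap_apply_right, Equiv.swap_apply_left, hw, ho]
          unfold f3
          rw [if_neg (by omega), if_neg (by omega), if_pos rfl]
        · rw [Equiv.swap_apply_of_ne_of_ne h2 h3, Equiv.swap_apply_of_ne_of_ne h2 h1]
          unfold f3
          rw [if_neg (fun h => h1 (Fin.ext (by rw [h, ho]))),
            if_neg (fun h => h2 (Fin.ext (by rw [h, hu]))),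
            if_neg (fun h => h3 (Fin.ext (by rw [h, hw])))]
  rw [hsw]
  exact Equiv.Perm.isThreeCycle_swap_mul_swap_same huo huw how

end Pool.Agent.Work.MP_8aaf67_al.AF
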