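import Pool.Agent.Work.MP_8aaf67_al.AF.StmtsC

/-!
# Alternating composition factors: family S'
-/

set_option autoImplicit false

namespace Pool.Agent.Work.MP_8aaf67_al.AF

open scoped commutatorElement

namespace C_Sp1

theorem fSp_cases (q x : ℕ) :
    (x = 4 * q ∧ fSp q x = 4 * q + 1) ∨ (x = 4 * q + 1 ∧ fSp q x = 4 * q) ∨
    (x < 2 * q ∧ x % 2 = 0 ∧ fSp q x = x + 2 * q) ∨
    (2 * q ≤ x ∧ x < 4 * q ∧ x % 2 = 0 ∧ fSp q x + 2 * q = x) ∨
    ((x < 4 * q ∧ x % 2 = 1 ∨ 4 * q + 2 ≤ x) ∧ fSp q x = x) := by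
  unfold fSp fS
  split_ifs <;> omega

theorem cSp_cases (q x : ℕ) :
    (x = 4 * q ∧ cSp q x = 4 * q + 1) ∨ (x = 4 * q + 1 ∧ cSp q x = 4 * q + 2) ∨
    (x = 4 * q + 2 ∧ cSp q x = 4 * q) ∨
    (x < 2 * q ∧ cSp q x = x + 2 * q) ∨ (2 * q ≤ x ∧ x < 4 * q ∧ cSp q x + 2 * q = x) ∨
    (4 * q + 3 ≤ x ∧ cSp q x = x) := by
  unfold cSp cS
  split_ifs <;> omega

theorem fa_cases (n x : ℕ) : (x + 1 = n ∧ fa n x = 0) ∨ (x + 1 ≠ n ∧ fa n x = x + 1) := by
  unfold fa
  split_ifs with h
  · exact Or.inl ⟨h, rfl⟩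
  · exact Or.inr ⟨h, rfl⟩

theorem fa1_cases (n x : ℕ) :
    (x = 0 ∧ fa1 n x = n - 1) ∨ (x ≠ 0 ∧ fa1 n x + 1 = x) := by
  unfold fa1
  split_ifs with h
  · exact Or.inl ⟨h, rfl⟩
  · exact Or.inr ⟨h, by omega⟩

/-- an enumeration of the moved points -/
def num (q x : ℕ) : ℕ := if x = 4 * q + 1 then 2 * q + 1 else x / 2

theorem num_cases (q x : ℕ) :
    (x = 4 * q + 1 ∧ num q x = 2 * q + 1) ∨ (x ≠ 4 * q + 1 ∧ num q x = x / 2) := by
  unfold num
  split_ifs with h
  · exact Or.inl ⟨h, rfl⟩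
  · exact Or.inr ⟨h, rfl⟩

end C_Sp1

open C_Sp1

theorem prf_C_Sp3 : C_Sp3 := by
  intro q n hq hn x hx
  refine ⟨?_, ?_, ?_⟩
  · have := fSp_cases q x
    omega
  · have h1 := fSp_cases q x
    have h2 := fSp_cases q (fSp q x)
    omega
  · have h1 := fa1_cases n x
    have h2 := fSp_cases q (fa1 n x)
    have h3 := fa_cases n (fSp q (fa1 n x))
    have h4 := fSp_cases q (fa n (fSp q (fa1 n x)))
    have h5 := cSp_cases q x
    omega

theorem prf_C_Sp1 (hTi : C_Ti) : C_Sp1 := by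
  intro q n hq hn σ hσ
  have hs : σ * σ = 1 := by
    ext x
    rw [Equiv.Perm.mul_apply, Equiv.Perm.one_apply, hσ, hσ]
    exact (prf_C_Sp3 q n hq hn x x.2).2.1
  refine hTi n (q + 1) σ hs ?_
  rw [← Finset.card_range (2 * (q + 1))]
  refine Finset.card_bij (fun x _ => num q x.val) ?_ ?_ ?_
  · intro x hx
    rw [Finset.mem_filter] at hx
    have h0 : (σ x).val ≠ x.val := fun h => hx.2 (Fin.ext h)
    rw [hσ] at h0
    have h1 := fSp_cases q x
    have h2 := num_cases q x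
    rw [Finset.mem_range]
    omega
  · intro x hx y hy h
    rw [Finset.mem_filter] at hx hy
    have h0 : (σ x).val ≠ x.val := fun h => hx.2 (Fin.ext h)
    have h0' : (σ y).val ≠ y.val := fun h => hy.2 (Fin.ext h)
    rw [hσ] at h0 h0'
    have h1 := fSp_cases q x
    have h1' := fSp_cases q y
    have h2 := num_cases q x
    have h2' := num_cases q y
    apply Fin.ext
    omega
  · intro j hj
    rw [Finset.mem_range] at hj
    by_cases hj1 : j = 2 * q + 1
    · refine ⟨⟨4 * q + 1, by omega⟩, ?_, ?_⟩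
      · rw [Finset.mem_filter]
        refine ⟨Finset.mem_univ _, fun h => ?_⟩
        have h0 : (σ ⟨4 * q + 1, by omega⟩).val = 4 * q + 1 := congrArg Fin.val h
        rw [hσ] at h0
        have h1 := fSp_cases q (4 * q + 1)
        change fSp q (4 * q + 1) = 4 * q + 1 at h0
        omega
      · have h2 := num_cases q (4 * q + 1)
        change num q (4 * q + 1) = j
        omega
    · refine ⟨⟨2 * j, by omega⟩, ?_, ?_⟩
      · rw [Finset.mem_filter]
        refine ⟨Finset.mem_univ _, fun h => ?_⟩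
        have h0 : (σ ⟨2 * j, by omega⟩).val = 2 * j := congrArg Fin.val h
        rw [hσ] at h0
        have h1 := fSp_cases q (2 * j)
        change fSp q (2 * j) = 2 * j at h0
        omega
      · have h2 := num_cases q (2 * j)
        change num q (2 * j) = j
        omega

theorem prf_C_Sp2 (hTb : C_Tb) : C_Sp2 := by
  intro q n hq hn σ hσ
  refine hTb n (2 * q) σ ⟨4 * q, by omega⟩ ⟨4 * q + 1, by omega⟩ ⟨4 * q + 2, by omega⟩
    (by omega) ?_ ?_ ?_ ?_ ?_ ?_ ?_
  · intro h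
    have := congrArg Fin.val h
    simp at this
  · intro h
    have := congrArg Fin.val h
    simp at this
  · intro h
    have := congrArg Fin.val h
    simp at this
  · apply Fin.ext
    rw [hσ]
    change cSp q (4 * q) = 4 * q + 1
    have h1 := cSp_cases q (4 * q)
    omega
  · apply Fin.ext
    rw [hσ]
    change cSp q (4 * q + 1) = 4 * q + 2
    have h1 := cSp_cases q (4 * q + 1)
    omega
  · apply Fin.ext
    rw [hσ]
    change cSp q (4 * q + 2) = 4 * q
    have h1 := cSp_cases q (4 * q + 2)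
    omega
  · intro x hu hv hw
    have hu' : x.val ≠ 4 * q := fun h => hu (Fin.ext h)
    have hv' : x.val ≠ 4 * q + 1 := fun h => hv (Fin.ext h)
    have hw' : x.val ≠ 4 * q + 2 := fun h => hw (Fin.ext h)
    have hx := x.2
    have h1 := cSp_cases q x
    have h2 := cSp_cases q (cSp q x)
    refine ⟨?_, ?_⟩
    · apply Fin.ext
      rw [hσ, hσ]
      omega
    · intro h
      have h0 : (σ x).val = x.val := congrArg Fin.val h
      rw [hσ] at h0
      omega

end Pool.Agent.Work.MP_8aaf67_al.AF
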