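import Pool.Agent.Work.MP_8aaf67_al.AF.StmtsC

/-!
# Item C_Tb: the cycle type `3, 2^k`
-/

set_option autoImplicit false

namespace Pool.Agent.Work.MP_8aaf67_al.AF

namespace C_Tb

open Equiv

/-- The three cycle `u → v → w → u`. -/
def t3 {n : ℕ} (u v w : Fin n) : Equiv.Perm (Fin n) := swap v u * swap v w

theorem t3_u {n : ℕ} {u v w : Fin n} (huv : u ≠ v) (huw : u ≠ w) : t3 u v w u = v := by
  show swap v u (swap v w u) = v
  rw [Equiv.swap_apply_of_ne_of_ne huv huw, Equiv.swap_apply_right]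

theorem t3_v {n : ℕ} {u v w : Fin n} (hvw : v ≠ w) (huw : u ≠ w) : t3 u v w v = w := by
  show swap v u (swap v w v) = w
  rw [Equiv.swap_apply_left, Equiv.swap_apply_of_ne_of_ne hvw.symm huw.symm]

theorem t3_w {n : ℕ} {u v w : Fin n} : t3 u v w w = u := by
  show swap v u (swap v w w) = u
  rw [Equiv.swap_apply_right, Equiv.swap_apply_left]

theorem t3_o {n : ℕ} {u v w x : Fin n} (h1 : x ≠ u) (h2 : x ≠ v) (h3 : x ≠ w) :
    t3 u v w x = x := by
  show swap v u (swap v w x) = x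
  rw [Equiv.swap_apply_of_ne_of_ne h2 h3, Equiv.swap_apply_of_ne_of_ne h2 h1]

theorem main (hTi : C_Ti) (n k : ℕ) (σ : Equiv.Perm (Fin n)) (u v w : Fin n)
    (hn : n = 2 * k + 3) (huv : u ≠ v) (hvw : v ≠ w) (huw : u ≠ w) (h1 : σ u = v) (h2 : σ v = w)
    (h3 : σ w = u) (h : ∀ x, x ≠ u → x ≠ v → x ≠ w → σ (σ x) = x ∧ σ x ≠ x) :
    σ.cycleType = 3 ::ₘ two k := by
  obtain ⟨τ, hτ⟩ : ∃ τ, τ = t3 u v w := ⟨_, rfl⟩
  obtain ⟨ρ, hρ⟩ : ∃ ρ, ρ = τ⁻¹ * σ := ⟨_, rfl⟩
  have tu : τ u = v := by rw [hτ]; exact t3_u huv huw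
  have tv : τ v = w := by rw [hτ]; exact t3_v hvw huw
  have tw : τ w = u := by rw [hτ]; exact t3_w
  have tot : ∀ x, x ≠ u → x ≠ v → x ≠ w → τ x = x := by
    intro x a b c
    rw [hτ]; exact t3_o a b c
  have t3c : τ.IsThreeCycle := by
    rw [hτ]
    exact Equiv.Perm.isThreeCycle_swap_mul_swap_same huv.symm hvw huw
  have hs : σ = τ * ρ := by rw [hρ, mul_inv_cancel_left]
  have hv : ∀ x, τ (ρ x) = σ x := by
    intro x
    rw [hs]; rfl
  have ru : ρ u = u := τ.injective (by rw [hv, h1, tu])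
  have rv : ρ v = v := τ.injective (by rw [hv, h2, tv])
  have rw' : ρ w = w := τ.injective (by rw [hv, h3, tw])
  have so : ∀ x, x ≠ u → x ≠ v → x ≠ w → σ x ≠ u ∧ σ x ≠ v ∧ σ x ≠ w := by
    intro x a b c
    refine ⟨fun e => c (σ.injective (by rw [e, h3])), fun e => a (σ.injective (by rw [e, h1])),
      fun e => b (σ.injective (by rw [e, h2]))⟩
  have ro : ∀ x, x ≠ u → x ≠ v → x ≠ w → ρ x = σ x := by
    intro x a b c
    obtain ⟨a', b', c'⟩ := so x a b c
    exact τ.injective (by rw [hv, tot _ a' b' c'])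
  have rr : ρ * ρ = 1 := by
    ext x
    show ((ρ (ρ x) : Fin n) : ℕ) = x
    by_cases a : x = u
    · rw [a, ru, ru]
    by_cases b : x = v
    · rw [b, rv, rv]
    by_cases c : x = w
    · rw [c, rw', rw']
    obtain ⟨a', b', c'⟩ := so x a b c
    rw [ro x a b c, ro _ a' b' c', (h x a b c).1]
  have hf : (Finset.univ.filter fun x => ρ x ≠ x) = Finset.univ \ {u, v, w} := by
    ext x
    simp only [Finset.mem_filter, Finset.mem_univ, true_and, Finset.mem_sdiff,
      Finset.mem_insert, Finset.mem_singleton, not_or]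
    constructor
    · intro e
      refine ⟨?_, ?_, ?_⟩
      · rintro rfl; exact e ru
      · rintro rfl; exact e rv
      · rintro rfl; exact e rw'
    · rintro ⟨a, b, c⟩
      rw [ro x a b c]
      exact (h x a b c).2
  have hc3 : ({u, v, w} : Finset (Fin n)).card = 3 := Finset.card_eq_three.mpr
    ⟨u, v, w, huv, huw, hvw, rfl⟩
  have hc : (Finset.univ.filter fun x => ρ x ≠ x).card = 2 * k := by
    rw [hf, Finset.card_sdiff_of_subset (Finset.subset_univ _), hc3, Finset.card_univ,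
      Fintype.card_fin]
    omega
  have hct : ρ.cycleType = two k := hTi n k ρ rr hc
  have hd : τ.Disjoint ρ := by
    intro x
    by_cases a : x = u
    · right; rw [a, ru]
    by_cases b : x = v
    · right; rw [b, rv]
    by_cases c : x = w
    · right; rw [c, rw']
    exact Or.inl (tot x a b c)
  rw [hs, hd.cycleType_mul, hct, t3c]
  rfl

end C_Tb

/-- Item C_Tb. -/
theorem prf_C_Tb (hTi : C_Ti) : C_Tb := by
  intro n k σ u v w hn huv hvw huw h1 h2 h3 h
  exact C_Tb.main hTi n k σ u v w hn huv hvw huw h1 h2 h3 h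

end Pool.Agent.Work.MP_8aaf67_al.AF
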