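import Pool.Agent.Work.MP_8aaf67_al.AF.StmtsC

/-!
# Item C_Tc: a permutation with a single orbit
-/

set_option autoImplicit false

namespace Pool.Agent.Work.MP_8aaf67_al.AF

namespace C_Tc

theorem moved {n : ℕ} (σ : Equiv.Perm (Fin n)) (x₀ : Fin n) (hn : 2 ≤ n)
    (h : ∀ x, σ.SameCycle x₀ x) (x : Fin n) : σ x ≠ x := by
  intro hx
  have h1 : ∀ y, y = x := by
    intro y
    have h2 : σ.SameCycle x y := (h x).symm.trans (h y)
    exact (h2.eq_of_left hx).symm
  have h3 : (⟨0, by omega⟩ : Fin n) = ⟨1, by omega⟩ := (h1 _).trans (h1 _).symm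
  have h4 := congrArg Fin.val h3
  simp at h4

end C_Tc

theorem prf_C_Tc : C_Tc := by
  intro n σ x₀ hn h
  have hm := C_Tc.moved σ x₀ hn h
  have hc : σ.IsCycle := ⟨x₀, hm x₀, fun y _ => h y⟩
  rw [hc.cycleType]
  have hs : σ.support = Finset.univ := by
    ext x
    simp [Equiv.Perm.mem_support, hm x]
  rw [hs, Finset.card_univ, Fintype.card_fin]

end Pool.Agent.Work.MP_8aaf67_al.AF
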