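import Pool.Agent.Work.MP_8aaf67_al.AF.StmtsC

/-!
# Type of an involution (item C_Ti)
-/

set_option autoImplicit false

namespace Pool.Agent.Work.MP_8aaf67_al.AF

namespace C_Ti

theorem main (n k : ℕ) (σ : Equiv.Perm (Fin n)) (h : σ * σ = 1)
    (hk : (Finset.univ.filter fun x => σ x ≠ x).card = 2 * k) : σ.cycleType = two k := by
  classical
  have h2 : ∀ m ∈ σ.cycleType, m = 2 := by
    intro m hm
    have h3 := Equiv.Perm.dvd_of_mem_cycleType hm
    have h4 := Equiv.Perm.two_le_of_mem_cycleType hm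
    have h5 : orderOf σ ∣ 2 := orderOf_dvd_of_pow_eq_one (by rw [pow_two, h])
    exact le_antisymm (Nat.le_of_dvd (by norm_num) (h3.trans h5)) h4
  have h3 : σ.cycleType = Multiset.replicate (Multiset.card σ.cycleType) 2 :=
    Multiset.eq_replicate.2 ⟨rfl, h2⟩
  have h4 := Equiv.Perm.sum_cycleType σ
  have h5 : σ.support = Finset.univ.filter fun x => σ x ≠ x := by
    ext x
    simp
  rw [h5, hk, h3, Multiset.sum_replicate] at h4
  have h6 : Multiset.card σ.cycleType = k := by
    rw [smul_eq_mul] at h4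
    omega
  rw [h3, h6]
  rfl

end C_Ti

theorem prf_C_Ti : C_Ti := fun n k σ h hk => C_Ti.main n k σ h hk

end Pool.Agent.Work.MP_8aaf67_al.AF
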