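import Pool.Agent.Work.MP_8aaf67_al.AF.StmtsC

/-!
# Item C_Tm: the type of a permutation with two orbits of m elements
-/

set_option autoImplicit false

namespace Pool.Agent.Work.MP_8aaf67_al.AF

namespace C_Tm

theorem pow_mem {n : ℕ} {σ : Equiv.Perm (Fin n)} {A : Finset (Fin n)}
    (hA : ∀ x ∈ A, σ x ∈ A) {a : Fin n} (ha : a ∈ A) (i : ℕ) : (σ ^ i) a ∈ A := by
  induction i with
  | zero => simpa using ha
  | succ i ih =>
    rw [pow_succ', Equiv.Perm.mul_apply]
    exact hA _ ih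

theorem sc_mem {n : ℕ} {σ : Equiv.Perm (Fin n)} {A : Finset (Fin n)}
    (hA : ∀ x ∈ A, σ x ∈ A) {a x : Fin n} (ha : a ∈ A) (h : σ.SameCycle a x) : x ∈ A := by
  obtain ⟨i, _, hi⟩ := h.exists_pow_eq'
  rw [← hi]
  exact pow_mem hA ha i

theorem moved {n m : ℕ} {σ : Equiv.Perm (Fin n)} {A : Finset (Fin n)} (hm : 2 ≤ m)
    (hc : A.card = m) (hs : ∀ x ∈ A, ∀ y ∈ A, σ.SameCycle x y) {a : Fin n} (ha : a ∈ A) :
    σ a ≠ a := by
  intro hf
  obtain ⟨y, hy, hya⟩ := Finset.exists_mem_ne (by omega : 1 < A.card) a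
  have h := hs a ha y hy
  have h2 : y = a := (Equiv.Perm.SameCycle.eq_of_left h hf).symm
  exact hya h2

theorem supp {n m : ℕ} {σ : Equiv.Perm (Fin n)} {A : Finset (Fin n)} (hm : 2 ≤ m)
    (hc : A.card = m) (hs : ∀ x ∈ A, ∀ y ∈ A, σ.SameCycle x y) (hA : ∀ x ∈ A, σ x ∈ A)
    {a : Fin n} (ha : a ∈ A) : (σ.cycleOf a).support = A := by
  ext x
  rw [Equiv.Perm.mem_support_cycleOf_iff]
  constructor
  · rintro ⟨h, _⟩
    exact sc_mem hA ha h
  · intro hx
    exact ⟨hs a ha x hx, Equiv.Perm.mem_support.2 (moved hm hc hs ha)⟩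

end C_Tm

open C_Tm in
theorem prf_C_Tm : C_Tm := by
  intro n m σ A B hm hAB hcA hcB hfix hsA hsB hA hB
  have hneA : A.Nonempty := Finset.card_pos.1 (by omega)
  have hneB : B.Nonempty := Finset.card_pos.1 (by omega)
  obtain ⟨a, ha⟩ := hneA
  obtain ⟨b, hb⟩ := hneB
  have sA : (σ.cycleOf a).support = A := supp hm hcA hsA hA ha
  have sB : (σ.cycleOf b).support = B := supp hm hcB hsB hB hb
  have cA : (σ.cycleOf a).IsCycle := Equiv.Perm.isCycle_cycleOf σ (moved hm hcA hsA ha)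
  have cB : (σ.cycleOf b).IsCycle := Equiv.Perm.isCycle_cycleOf σ (moved hm hcB hsB hb)
  have hd : Equiv.Perm.Disjoint (σ.cycleOf a) (σ.cycleOf b) := by
    rw [Equiv.Perm.disjoint_iff_disjoint_support, sA, sB]
    exact hAB
  have hprod : σ = σ.cycleOf a * σ.cycleOf b := by
    apply Equiv.ext
    intro x
    rw [Equiv.Perm.mul_apply]
    by_cases hxA : x ∈ A
    · have hxB : x ∉ B := Finset.disjoint_left.1 hAB hxA
      have h1 : σ.cycleOf b x = x := by
        rw [← Equiv.Perm.notMem_support, sB]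
        exact hxB
      rw [h1, Equiv.Perm.SameCycle.cycleOf_apply (hsA a ha x hxA)]
    · by_cases hxB : x ∈ B
      · rw [Equiv.Perm.SameCycle.cycleOf_apply (hsB b hb x hxB)]
        have h2 : σ x ∉ A := Finset.disjoint_right.1 hAB (hB x hxB)
        have h3 : σ.cycleOf a (σ x) = σ x := by
          rw [← Equiv.Perm.notMem_support, sA]
          exact h2
        exact h3.symm
      · have h1 : σ.cycleOf b x = x := by
          rw [← Equiv.Perm.notMem_support, sB]
          exact hxB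
        have h2 : σ.cycleOf a x = x := by
          rw [← Equiv.Perm.notMem_support, sA]
          exact hxA
        rw [h1, h2]
        exact hfix x hxA hxB
  rw [hprod, hd.cycleType_mul, cA.cycleType, cB.cycleType, sA, sB, hcA, hcB]
  rfl

end Pool.Agent.Work.MP_8aaf67_al.AF
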