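import Pool.Agent.Work.MP_8aaf67_al.AF.StmtsC

/-!
# Primes `n = 4 q + 1`: the closed set of cycle types
-/

set_option autoImplicit false

namespace Pool.Agent.Work.MP_8aaf67_al.AF

open scoped commutatorElement

namespace C_XT1

theorem even_two (n j : ℕ) (b : Equiv.Perm (Fin n)) (hb : b.cycleType = two (2 * j)) :
    b ∈ alternatingGroup (Fin n) := by
  rw [Equiv.Perm.mem_alternatingGroup, Equiv.Perm.sign_of_cycleType, hb]
  unfold two
  rw [Multiset.sum_replicate, Multiset.card_replicate, smul_eq_mul]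
  refine Even.neg_one_pow ?_
  exact ⟨3 * j, by ring⟩

/-- an involution `f` -/
theorem rel (hAs : C_As) (n : ℕ) (f c : ℕ → ℕ) (j : ℕ) (σ : Multiset ℕ) (hn : n.Prime)
    (h5 : 5 ≤ n)
    (h1 : ∀ x < n, f x < n ∧ f (f x) = x ∧ f (fa n (f (fa1 n x))) = c x)
    (h2 : ∀ b : Equiv.Perm (Fin n), Is n f b → b.cycleType = two (2 * j))
    (h3 : ∀ d : Equiv.Perm (Fin n), Is n c d → d.cycleType = σ)
    (h4 : ∀ a b : Equiv.Perm (Fin n), Is n (fa n) a → Is n f b → Is n c ⁅b, a⁆ →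
      ∃ g ∈ Subgroup.closure {a, b}, g.IsThreeCycle) : Rel n σ {n} (two (2 * j)) :=
  hAs n f f c (two (2 * j)) σ hn h5
    (fun x hx => ⟨(h1 x hx).1, (h1 x hx).1, (h1 x hx).2.1, (h1 x hx).2.1, (h1 x hx).2.2⟩)
    h2 h3 (even_two n j) h4

theorem com_mem {n : ℕ} (a b g : Equiv.Perm (Fin n))
    (hg : g ∈ Subgroup.closure ({a, ⁅b, a⁆} : Set (Equiv.Perm (Fin n)))) :
    g ∈ Subgroup.closure ({a, b} : Set (Equiv.Perm (Fin n))) := by
  have ha : a ∈ Subgroup.closure ({a, b} : Set (Equiv.Perm (Fin n))) :=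
    Subgroup.subset_closure (by simp)
  have hb : b ∈ Subgroup.closure ({a, b} : Set (Equiv.Perm (Fin n))) :=
    Subgroup.subset_closure (by simp)
  have hle : Subgroup.closure ({a, ⁅b, a⁆} : Set (Equiv.Perm (Fin n))) ≤
      Subgroup.closure ({a, b} : Set (Equiv.Perm (Fin n))) := by
    rw [Subgroup.closure_le]
    rintro y (rfl | hy)
    · exact ha
    · rw [Set.mem_singleton_iff] at hy
      subst hy
      rw [commutatorElement_def]
      exact Subgroup.mul_mem _ (Subgroup.mul_mem _ (Subgroup.mul_mem _ hb ha)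
        (Subgroup.inv_mem _ hb)) (Subgroup.inv_mem _ ha)
  exact hle hg

end C_XT1

theorem prf_C_XT1 (hAs : C_As) (hI1 : C_I1) (hI2 : C_I2) (hI3 : C_I3) (hI4 : C_I4)
    (hS1 : C_S1) (hS2 : C_S2) (hS3 : C_S3) (hS4 : C_S4) (hG1 : C_G1) (hG2 : C_G2')
    (hG3 : C_G3) (hG4 : C_G4) (hK1 : C_K1) (hK2 : C_K2) (hK3 : C_K3) (hK4 : C_K4) :
    C_XT1 := by
  intro q n hp hn hq
  have h5 : 5 ≤ n := by omega
  have relI : Rel n {n} {n} (two (2 * q)) :=
    C_XT1.rel hAs n (fI n) (cI n) q {n} hp h5 (hI3 q n hq hn) (hI1 q n hq hn)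
      (hI2 q n hq hn) (fun a b ha _ hc => by
        obtain ⟨g, hg, hg3⟩ := hI4 q n hq hn a ⁅b, a⁆ ha hc
        exact ⟨g, C_XT1.com_mem a b g hg, hg3⟩)
  have key : ∃ k : ℕ, 1 ≤ k ∧ 6 * k + 3 ≤ n ∧ Rel n (two (2 * q)) {n} (two (2 * k)) := by
    rcases Nat.even_or_odd' q with ⟨k, hk | hk⟩
    · refine ⟨k, by omega, by omega, ?_⟩
      refine C_XT1.rel hAs n (fS q) (cS q) k (two (2 * q)) hp h5 (hS3 q n (by omega) hn) ?_
        (hS2 q n (by omega) hn) (fun a b ha hb _ => hS4 q n (by omega) hn a b ha hb)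
      intro b hb
      rw [← hk]
      exact hS1 q n (by omega) hn b hb
    · refine ⟨k + 1, by omega, by omega, ?_⟩
      refine C_XT1.rel hAs n (fG q) (cG q) (k + 1) (two (2 * q)) hp h5 (hG3 q n (by omega) hn) ?_
        (hG2 q n (by omega) hn) (fun a b ha hb _ => hG4 q n (by omega) hn a b ha hb)
      intro b hb
      have e : 2 * (k + 1) = q + 1 := by omega
      rw [e]
      exact hG1 q n (by omega) hn b hb
  obtain ⟨k, hk1, hk2, relQ⟩ := key
  have relK : Rel n (two (2 * k)) {n} (two (2 * k)) :=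
    C_XT1.rel hAs n (fK k) (cK k) k (two (2 * k)) hp h5 (hK3 k n hk1 hk2) (hK1 k n hk1 hk2)
      (hK2 k n hk1 hk2) (fun a b ha hb _ => hK4 k n hk1 hk2 a b ha hb)
  refine ⟨{{n}, two (2 * q), two (2 * k)}, by simp, ?_⟩
  intro σ hσ
  have m1 : ({n} : Multiset ℕ) ∈ ({{n}, two (2 * q), two (2 * k)} : Set (Multiset ℕ)) := by simp
  have m2 : two (2 * q) ∈ ({{n}, two (2 * q), two (2 * k)} : Set (Multiset ℕ)) := by simp
  have m3 : two (2 * k) ∈ ({{n}, two (2 * q), two (2 * k)} : Set (Multiset ℕ)) := by simp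
  rcases hσ with h | h | h
  · rw [h]
    exact ⟨_, m1, _, m2, relI⟩
  · rw [h]
    exact ⟨_, m1, _, m3, relQ⟩
  · rw [Set.mem_singleton_iff] at h
    rw [h]
    exact ⟨_, m1, _, m3, relK⟩

end Pool.Agent.Work.MP_8aaf67_al.AF
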