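import Pool.Agent.Work.MP_8aaf67_al.AF.StmtsC

/-!
# Item C_XT3: primes `n = 4 q + 3 ≥ 23`
-/

set_option autoImplicit false

namespace Pool.Agent.Work.MP_8aaf67_al.AF

open scoped commutatorElement

namespace C_XT3

open Equiv

theorem even_two {n k : ℕ} (b : Equiv.Perm (Fin n)) (hb : b.cycleType = two (2 * k)) :
    b ∈ alternatingGroup (Fin n) := by
  rw [Equiv.Perm.mem_alternatingGroup, Equiv.Perm.sign_of_cycleType, hb]
  have e1 : (two (2 * k)).sum = 2 * k * 2 := by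
    unfold two
    rw [Multiset.sum_replicate, smul_eq_mul]
  have e2 : Multiset.card (two (2 * k)) = 2 * k := by
    unfold two
    rw [Multiset.card_replicate]
  rw [e1, e2]
  exact Even.neg_one_pow ⟨3 * k, by ring⟩

theorem even_three {n k : ℕ} (b : Equiv.Perm (Fin n)) (hb : b.cycleType = 3 ::ₘ two (2 * k)) :
    b ∈ alternatingGroup (Fin n) := by
  rw [Equiv.Perm.mem_alternatingGroup, Equiv.Perm.sign_of_cycleType, hb]
  have e1 : (two (2 * k)).sum = 2 * k * 2 := by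
    unfold two
    rw [Multiset.sum_replicate, smul_eq_mul]
  have e2 : Multiset.card (two (2 * k)) = 2 * k := by
    unfold two
    rw [Multiset.card_replicate]
  rw [Multiset.sum_cons, Multiset.card_cons, e1, e2]
  exact Even.neg_one_pow ⟨3 * k + 2, by ring⟩

theorem comm_mem {n : ℕ} (a b : Equiv.Perm (Fin n)) :
    (⁅b, a⁆ : Equiv.Perm (Fin n)) ∈ Subgroup.closure ({a, b} : Set (Equiv.Perm (Fin n))) := by
  have ha : a ∈ Subgroup.closure ({a, b} : Set (Equiv.Perm (Fin n))) :=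
    Subgroup.subset_closure (Or.inl rfl)
  have hb : b ∈ Subgroup.closure ({a, b} : Set (Equiv.Perm (Fin n))) :=
    Subgroup.subset_closure (Or.inr rfl)
  rw [commutatorElement_def]
  exact mul_mem (mul_mem (mul_mem hb ha) (inv_mem hb)) (inv_mem ha)

end C_XT3

/-- Item C_XT3. -/
theorem prf_C_XT3 (hAs : C_As) (hB3 : C_B3) (hD11 : C_D11) (hD12 : C_D12) (hD13 : C_D13)
    (hD41 : C_D41) (hD42 : C_D42) (hD43 : C_D43) (hSp1 : C_Sp1) (hSp2 : C_Sp2) (hSp3 : C_Sp3)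
    (hGp1 : C_Gp1) (hGp2 : C_Gp2) (hGp3 : C_Gp3) (hK1 : C_K1) (hK2 : C_K2) (hK3 : C_K3)
    (hK4 : C_K4) : C_XT3 := by
  intro q n hp hn hq
  have h5 : 5 ≤ n := by omega
  have q3 : 3 ≤ q := by omega
  have q2 : 2 ≤ q := by omega
  obtain ⟨k, hk⟩ : ∃ k, k = (q + 2) / 2 := ⟨_, rfl⟩
  have hk1 : 1 ≤ k := by omega
  have hk6 : 6 * k + 3 ≤ n := by omega
  -- D1
  have R1 : Rel n {n} {n} (3 ::ₘ two (2 * q)) := by
    refine hAs n (fD1 n) (fD1i n) (cD1 n) _ _ hp h5 (hD13 q n q3 hn) (hD11 q n q3 hn)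
      (hD12 q n q3 hn) (fun b hb => C_XT3.even_three b hb) ?_
    intro a b _ hb _
    have hbm : b ∈ Subgroup.closure ({a, b} : Set (Equiv.Perm (Fin n))) :=
      Subgroup.subset_closure (Or.inr rfl)
    exact ⟨b * b, mul_mem hbm hbm, hB3 n (2 * q) b (hD11 q n q3 hn b hb)⟩
  -- D4
  have R2 : Rel n {2 * q + 1, 2 * q + 1} {n} (3 ::ₘ two (2 * q)) := by
    refine hAs n (fD4 n) (fD4i n) (cD4 n) _ _ hp h5 (hD43 q n q3 hn) (hD41 q n q3 hn)
      (hD42 q n q3 hn) (fun b hb => C_XT3.even_three b hb) ?_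
    intro a b _ hb _
    have hbm : b ∈ Subgroup.closure ({a, b} : Set (Equiv.Perm (Fin n))) :=
      Subgroup.subset_closure (Or.inr rfl)
    exact ⟨b * b, mul_mem hbm hbm, hB3 n (2 * q) b (hD41 q n q3 hn b hb)⟩
  -- S' or G'
  have R3 : Rel n (3 ::ₘ two (2 * q)) {n} (two (2 * k)) := by
    rcases Nat.even_or_odd' q with ⟨c, hc | hc⟩
    · have e : q + 2 = 2 * k := by omega
      refine hAs n (fGp q) (fGp q) (cGp q) _ _ hp h5 ?_ ?_ (hGp2 q n q2 hn)
        (fun b hb => C_XT3.even_two b hb) ?_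
      · intro x hx
        obtain ⟨h1, h2, h3⟩ := hGp3 q n q2 hn x hx
        exact ⟨h1, h1, h2, h2, h3⟩
      · intro b hb
        rw [hGp1 q n q2 hn b hb, e]
      · intro a b _ _ hc
        have hm := C_XT3.comm_mem a b
        exact ⟨_, mul_mem hm hm, hB3 n (2 * q) _ (hGp2 q n q2 hn _ hc)⟩
    · have e : q + 1 = 2 * k := by omega
      refine hAs n (fSp q) (fSp q) (cSp q) _ _ hp h5 ?_ ?_ (hSp2 q n q2 hn)
        (fun b hb => C_XT3.even_two b hb) ?_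
      · intro x hx
        obtain ⟨h1, h2, h3⟩ := hSp3 q n q2 hn x hx
        exact ⟨h1, h1, h2, h2, h3⟩
      · intro b hb
        rw [hSp1 q n q2 hn b hb, e]
      · intro a b _ _ hc
        have hm := C_XT3.comm_mem a b
        exact ⟨_, mul_mem hm hm, hB3 n (2 * q) _ (hSp2 q n q2 hn _ hc)⟩
  -- K
  have R4 : Rel n (two (2 * k)) {n} (two (2 * k)) := by
    refine hAs n (fK k) (fK k) (cK k) _ _ hp h5 ?_ (hK1 k n hk1 hk6) (hK2 k n hk1 hk6)
      (fun b hb => C_XT3.even_two b hb) ?_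
    · intro x hx
      obtain ⟨h1, h2, h3⟩ := hK3 k n hk1 hk6 x hx
      exact ⟨h1, h1, h2, h2, h3⟩
    · intro a b ha hb _
      exact hK4 k n hk1 hk6 a b ha hb
  refine ⟨{{n}, 3 ::ₘ two (2 * q), two (2 * k), {2 * q + 1, 2 * q + 1}}, ?_, ?_⟩
  · exact Or.inr (Or.inr (Or.inr rfl))
  · intro σ hσ
    rcases hσ with rfl | rfl | rfl | hσ
    · exact ⟨{n}, Or.inl rfl, _, Or.inr (Or.inl rfl), R1⟩
    · exact ⟨{n}, Or.inl rfl, _, Or.inr (Or.inr (Or.inl rfl)), R3⟩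
    · exact ⟨{n}, Or.inl rfl, _, Or.inr (Or.inr (Or.inl rfl)), R4⟩
    · have e : σ = {2 * q + 1, 2 * q + 1} := hσ
      rw [e]
      exact ⟨{n}, Or.inl rfl, _, Or.inr (Or.inl rfl), R2⟩

end Pool.Agent.Work.MP_8aaf67_al.AF
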