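import Pool.Agent.Work.MP_8aaf67_al.AF.StmtsG

/-!
# Items G_Emb, G_Nat, G_N6
-/

set_option autoImplicit false

namespace Pool.Agent.Work.MP_8aaf67_al.AF

open Subgroup
open scoped commutatorElement
open Pool.Agent.Work.MP_8aaf67_al.SR (MW val ver Good Qs GV AD VS Fil)

namespace XG_Emb

theorem alt_nonab (k : ℕ) (hk : 5 ≤ k) : ∃ a b : Al (Fin k), a * b ≠ b * a := by
  by_contra h
  push Not at h
  have h1 : center (Al (Fin k)) = ⊤ := by
    rw [eq_top_iff]
    intro x _
    rw [mem_center_iff]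
    exact fun g => h g x
  have h2 : center (Al (Fin k)) = ⊥ :=
    alternatingGroup.center_eq_bot (by
      rw [Nat.card_eq_fintype_card, Fintype.card_fin]; omega)
  have h3 : Nontrivial (Al (Fin k)) :=
    alternatingGroup.nontrivial_of_three_le_card (by
      rw [Nat.card_eq_fintype_card, Fintype.card_fin]; omega)
  rw [h1] at h2
  exact top_ne_bot h2

theorem alt_simple (k : ℕ) (hk : 5 ≤ k) : IsSimpleGroup (Al (Fin k)) :=
  alternatingGroup.isSimpleGroup (by rw [Nat.card_eq_fintype_card, Fintype.card_fin]; exact hk)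

theorem perfect_of_simple (Y : Type) [Group Y] (h : IsSimpleGroup Y)
    (h2 : ∃ a b : Y, a * b ≠ b * a) : commutator Y = ⊤ := by
  rcases (inferInstance : (commutator Y).Normal).eq_bot_or_eq_top with h4 | h4
  · exfalso
    obtain ⟨x, y, hxy⟩ := h2
    apply hxy
    have h5 : ⁅x, y⁆ ∈ commutator Y := commutator_mem_commutator (mem_top x) (mem_top y)
    rw [h4, mem_bot, commutatorElement_eq_one_iff_mul_comm] at h5
    exact h5
  · exact h4

/-- The natural alternating group on the points of a finset. -/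
theorem exists_natural (Ω : Type) [Fintype Ω] [DecidableEq Ω] (s : Finset Ω) (k : ℕ)
    (hs : s.card = k) : ∃ φ : Al (Fin k) →* Al Ω, Function.Injective φ ∧
      ∀ x : Al Ω, x ∈ φ.range ↔ (x : Equiv.Perm Ω).support ⊆ s := by
  have e : Fin k ≃ s := Fintype.equivOfCardEq (by rw [Fintype.card_fin, Fintype.card_coe, hs])
  refine ⟨(alternatingGroup.ofSubtype s).comp e.altCongrHom.toMonoidHom, ?_, ?_⟩
  · exact alternatingGroup.ofSubtype_injective.comp e.altCongrHom.injective
  · intro x
    rw [← alternatingGroup.mem_range_ofSubtype_iff]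
    constructor
    · rintro ⟨y, rfl⟩
      exact ⟨_, rfl⟩
    · rintro ⟨y, rfl⟩
      obtain ⟨z, rfl⟩ := e.altCongrHom.surjective y
      exact ⟨z, rfl⟩

end XG_Emb

open XG_Emb in
theorem prf_G_Emb (hYG : G_YG) (hIso : G_Iso) : G_Emb := by
  intro p hp k hk hF T _ _ φ hφ P Q hQ hQP hrel w x hx
  have e : Al (Fin k) ≃* φ.range := φ.ofInjective hφ
  have h1 : IsSimpleGroup φ.range := by
    have := alt_simple k hk
    exact e.symm.isSimpleGroup
  have h2 : ∃ a b : φ.range, a * b ≠ b * a := by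
    obtain ⟨a, b, hab⟩ := alt_nonab k hk
    refine ⟨e a, e b, fun h => hab ?_⟩
    apply e.injective
    rw [map_mul, map_mul, h]
  exact Or.inl ⟨φ.range, Q, hYG p hp φ.range h1 h2 (hIso p _ _ ⟨e⟩ hF),
    perfect_of_simple _ h1 h2, hQ, hQP, hrel, hx⟩

end Pool.Agent.Work.MP_8aaf67_al.AF
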