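import Pool.Agent.Work.MP_8aaf67_al.AF.StmtsG

/-!
# Item G_W
-/

set_option autoImplicit false

namespace Pool.Agent.Work.MP_8aaf67_al.AF

open Subgroup
open scoped commutatorElement
open Pool.Agent.Work.MP_8aaf67_al.SR (MW val ver Good Qs GV AD VS Fil)

namespace XG_W

section
variable {p m : ℕ}

/-- translations of the blocks -/
def tr (f : Fin m → ZMod p) : Equiv.Perm (ZMod p × Fin m) where
  toFun x := (x.1 + f x.2, x.2)
  invFun x := (x.1 - f x.2, x.2)
  left_inv x := by simp
  right_inv x := by simp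

theorem tr_apply (f : Fin m → ZMod p) (x : ZMod p × Fin m) : tr f x = (x.1 + f x.2, x.2) := rfl

theorem dg_apply (s : Equiv.Perm (Fin m)) (x : ZMod p × Fin m) :
    (dg s : Equiv.Perm (ZMod p × Fin m)) x = (x.1, s x.2) := rfl

theorem tr_add (f g : Fin m → ZMod p) : tr (f + g) = tr f * tr g := by
  apply Equiv.ext
  intro x
  rw [Equiv.Perm.mul_apply, tr_apply, tr_apply, tr_apply]
  simp only [Pi.add_apply, Prod.mk.injEq, and_true]
  ring

theorem tr_zero : tr (0 : Fin m → ZMod p) = 1 := by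
  apply Equiv.ext
  intro x
  rw [tr_apply]
  simp

theorem tr_inv (f : Fin m → ZMod p) : (tr f)⁻¹ = tr (-f) := by
  rw [inv_eq_iff_mul_eq_one, ← tr_add, add_neg_cancel, tr_zero]

theorem rot_eq (j : Fin m) : rot p m j = tr (Pi.single j 1) := by
  apply Equiv.ext
  rintro ⟨a, b⟩
  rw [tr_apply]
  change (if b = j then (a + 1, b) else (a, b)) = _
  by_cases h : b = j
  · subst h; simp
  · simp [h]

theorem dg_mul (s t : Equiv.Perm (Fin m)) :
    (dg (s * t) : Equiv.Perm (ZMod p × Fin m)) = dg s * dg t := rfl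

theorem dg_one : (dg (1 : Equiv.Perm (Fin m)) : Equiv.Perm (ZMod p × Fin m)) = 1 := rfl

theorem dg_inv (s : Equiv.Perm (Fin m)) :
    (dg s⁻¹ : Equiv.Perm (ZMod p × Fin m)) = (dg s)⁻¹ := rfl

theorem dg_tr (s : Equiv.Perm (Fin m)) (f : Fin m → ZMod p) :
    dg s * tr f = tr (f ∘ ⇑s⁻¹) * dg s := by
  apply Equiv.ext
  intro x
  rw [Equiv.Perm.mul_apply, Equiv.Perm.mul_apply, tr_apply, dg_apply, dg_apply, tr_apply]
  simp

/-- The wreath product. -/
def K (Q : Subgroup (Equiv.Perm (Fin m))) : Subgroup (Equiv.Perm (ZMod p × Fin m)) where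
  carrier := {x | ∃ f : Fin m → ZMod p, ∃ s ∈ Q, x = tr f * dg s}
  one_mem' := ⟨0, 1, one_mem _, by rw [tr_zero, dg_one, mul_one]⟩
  mul_mem' := by
    rintro _ _ ⟨f, s, hs, rfl⟩ ⟨g, t, ht, rfl⟩
    refine ⟨f + g ∘ ⇑s⁻¹, s * t, mul_mem hs ht, ?_⟩
    rw [tr_add, dg_mul, mul_assoc, ← mul_assoc (dg s), dg_tr]
    simp only [mul_assoc]
  inv_mem' := by
    rintro _ ⟨f, s, hs, rfl⟩
    refine ⟨-(f ∘ ⇑s), s⁻¹, inv_mem hs, ?_⟩
    rw [mul_inv_rev, tr_inv, ← dg_inv, dg_tr, inv_inv]
    rfl

theorem card_K (Q : Subgroup (Equiv.Perm (Fin m))) :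
    Nat.card (K (p := p) Q) = Nat.card (Fin m → ZMod p) * Nat.card Q := by
  rw [← Nat.card_prod]
  symm
  apply Nat.card_congr
  let F : (Fin m → ZMod p) × Q → K (p := p) Q := fun x => ⟨tr x.1 * dg x.2.1, x.1, x.2.1, x.2.2, rfl⟩
  apply Equiv.ofBijective F
  constructor
  · rintro ⟨f, s, hs⟩ ⟨g, t, ht⟩ h
    have h1 : tr f * dg s = tr g * dg t := congrArg Subtype.val h
    have h2 : ∀ j, f (s j) = g (t j) ∧ s j = t j := by
      intro j
      have h3 := DFunLike.congr_fun h1 ((0 : ZMod p), j)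
      rw [Equiv.Perm.mul_apply, Equiv.Perm.mul_apply, dg_apply, dg_apply, tr_apply, tr_apply] at h3
      simpa using h3
    have h3 : s = t := Equiv.ext fun j => (h2 j).2
    subst h3
    have h4 : f = g := by
      funext j
      have := (h2 (s⁻¹ j)).1
      simpa using this
    subst h4
    rfl
  · rintro ⟨_, f, s, hs, rfl⟩
    exact ⟨(f, ⟨s, hs⟩), rfl⟩

theorem K_eq [NeZero p] (Q : Subgroup (Equiv.Perm (Fin m))) :
    K (p := p) Q = closure ({x | ∃ j, x = rot p m j} ∪ {x | ∃ s ∈ Q, x = dg s}) := by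
  apply le_antisymm
  · rintro _ ⟨f, s, hs, rfl⟩
    refine mul_mem ?_ (subset_closure (Or.inr ⟨s, hs, rfl⟩))
    set C := closure ({x | ∃ j, x = rot p m j} ∪
      {x : Equiv.Perm (ZMod p × Fin m) | ∃ s ∈ Q, x = dg s}) with hC
    let A : AddSubgroup (Fin m → ZMod p) :=
      { carrier := {f | tr f ∈ C}
        zero_mem' := by
          change tr 0 ∈ C
          rw [tr_zero]; exact one_mem _
        add_mem' := by
          intro a b ha hb
          change tr (a + b) ∈ C
          rw [tr_add]; exact mul_mem ha hb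
        neg_mem' := by
          intro a ha
          change tr (-a) ∈ C
          rw [← tr_inv]; exact inv_mem ha }
    have h1 : ∀ j : Fin m, ∀ c : ZMod p, Pi.single j c ∈ A := by
      intro j c
      have h2 : (Pi.single j 1 : Fin m → ZMod p) ∈ A := by
        change tr _ ∈ C
        rw [← rot_eq]
        exact subset_closure (Or.inl ⟨j, rfl⟩)
      have h3 : (Pi.single j c : Fin m → ZMod p) = c.val • Pi.single j 1 := by
        rw [← Pi.single_smul]
        congr 1
        rw [nsmul_eq_mul, mul_one, ZMod.natCast_zmod_val]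
      rw [h3]
      exact nsmul_mem h2 _
    have h2 : f ∈ A := by
      rw [← Finset.univ_sum_single f]
      exact sum_mem fun j _ => h1 j (f j)
    exact h2
  · rw [closure_le]
    rintro _ (⟨j, rfl⟩ | ⟨s, hs, rfl⟩)
    · exact ⟨Pi.single j 1, 1, one_mem _, by rw [dg_one, mul_one, rot_eq]⟩
    · exact ⟨0, s, hs, by rw [tr_zero, one_mul]⟩

end

end XG_W

open XG_W in
theorem prf_G_W : G_W := by
  intro p _ hp m hp2 hm Q
  have hpF : Fact p.Prime := ⟨hp⟩
  have h2p : 2 < p := lt_of_le_of_ne hp.two_le (Ne.symm hp2)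
  have hodd : Odd p := hp.odd_of_ne_two hp2
  have hcQ := Q.card_eq_multiplicity
  rw [Nat.card_perm, Nat.card_eq_fintype_card (α := Fin m), Fintype.card_fin] at hcQ
  have hcK : Nat.card (K (p := p) (Q : Subgroup (Equiv.Perm (Fin m)))) =
      p ^ (m + (m.factorial).factorization p) := by
    rw [card_K, pow_add]
    congr 1
    rw [Nat.card_eq_fintype_card, Fintype.card_fun, Fintype.card_fin, ZMod.card]
  have hKA : K (p := p) (Q : Subgroup (Equiv.Perm (Fin m))) ≤ alternatingGroup _ := by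
    intro x hx
    rw [Equiv.Perm.mem_alternatingGroup]
    have h1 : x ^ (p ^ (m + (m.factorial).factorization p)) = 1 := by
      have h2 := pow_card_eq_one' (x := (⟨x, hx⟩ : K (p := p) (Q : Subgroup _)))
      rw [hcK] at h2
      exact congrArg Subtype.val h2
    have h3 : (Equiv.Perm.sign x) ^ (p ^ (m + (m.factorial).factorization p)) = 1 := by
      rw [← map_pow, h1, map_one]
    rcases Int.units_eq_one_or (Equiv.Perm.sign x) with h2 | h2
    · exact h2
    · rw [h2, (hodd.pow).neg_one_pow] at h3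
      exact absurd h3 (by decide)
  have hnt : Nontrivial (ZMod p × Fin m) := by
    refine ⟨⟨((0 : ZMod p), ⟨0, hm⟩), ((1 : ZMod p), ⟨0, hm⟩), ?_⟩⟩
    intro h
    exact zero_ne_one (congrArg Prod.fst h)
  have hcA : (Nat.card (Al (ZMod p × Fin m))).factorization p =
      m + (m.factorial).factorization p := by
    have h1 : 2 * Nat.card (Al (ZMod p × Fin m)) = (p * m).factorial := by
      rw [two_mul_nat_card_alternatingGroup, Nat.card_perm, Nat.card_prod, Nat.card_zmod,
        Nat.card_eq_fintype_card (α := Fin m), Fintype.card_fin]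
    have h2 : (2 * Nat.card (Al (ZMod p × Fin m))).factorization p =
        (Nat.card (Al (ZMod p × Fin m))).factorization p := by
      rw [Nat.factorization_mul (by norm_num) Nat.card_pos.ne', Finsupp.add_apply,
        Nat.factorization_eq_zero_of_not_dvd, zero_add]
      intro h
      exact absurd (Nat.le_of_dvd (by norm_num) h) (by omega)
    rw [← h2, h1]
    have h3 := padicValNat_factorial_mul (p := p) m
    rw [← Nat.factorization_def _ hp, ← Nat.factorization_def _ hp] at h3
    rw [h3, add_comm]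
  refine ⟨Sylow.ofCard ((K (p := p) (Q : Subgroup (Equiv.Perm (Fin m)))).subgroupOf
    (alternatingGroup (ZMod p × Fin m))) ?_, ?_⟩
  · rw [Nat.card_congr (subgroupOfEquivOfLe hKA).toEquiv, hcK, hcA]
  · rw [← K_eq]
    exact map_subgroupOf_eq_of_le hKA

end Pool.Agent.Work.MP_8aaf67_al.AF
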