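import Pool.Agent.Work.MP_8aaf67_al.AF.I_G_S2
import Pool.Agent.Work.MP_8aaf67_al.AF.I_G_W
import Pool.Agent.Work.MP_8aaf67_al.AF.I_G_Emb

/-!
# Item G_123
-/

set_option autoImplicit false

namespace Pool.Agent.Work.MP_8aaf67_al.AF

open Subgroup
open scoped commutatorElement
open Pool.Agent.Work.MP_8aaf67_al.SR (MW val ver Good Qs GV AD VS Fil)

namespace XG_123

abbrev Om : Type := ZMod 3 × Fin 4

def c : Equiv.Perm (Fin 4) := Equiv.swap 0 1 * Equiv.swap 1 2

theorem c3 : c ^ 3 = 1 := by decide +kernel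
theorem c1 : c ≠ 1 := by decide +kernel
theorem cfix : c 3 = 3 := by decide +kernel

theorem order_c : orderOf c = 3 := by
  have : Fact (Nat.Prime 3) := ⟨Nat.prime_three⟩
  exact orderOf_eq_prime c3 c1

theorem exQ : ∃ Q : Sylow 3 (Equiv.Perm (Fin 4)),
    (Q : Subgroup (Equiv.Perm (Fin 4))) = zpowers c := by
  have : Fact (Nat.Prime 3) := ⟨Nat.prime_three⟩
  refine ⟨Sylow.ofCard (zpowers c) ?_, rfl⟩
  rw [Nat.card_zpowers, order_c, Nat.card_perm, Nat.card_eq_fintype_card, Fintype.card_fin]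
  have h2 : (Nat.factorial 4).factorization 3 = 1 := by
    have : Nat.factorial 4 = 3 * 8 := by decide
    rw [this, Nat.factorization_mul (by norm_num) (by norm_num)]
    rw [Finsupp.add_apply, Nat.Prime.factorization_self (by norm_num),
      Nat.factorization_eq_zero_of_not_dvd (by norm_num)]
  rw [h2, pow_one]

/-- extension by zero -/
def ex0 (f : Fin 3 → ZMod 3) (j : Fin 4) : ZMod 3 := if h : j.val < 3 then f ⟨j.val, h⟩ else 0

theorem ex0_inj {f g : Fin 3 → ZMod 3} (h : ex0 f = ex0 g) : f = g := by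
  funext j
  have h1 := congrFun h ⟨j.val, by omega⟩
  unfold ex0 at h1
  rw [dif_pos (show (⟨j.val, by omega⟩ : Fin 4).val < 3 from j.2),
    dif_pos (show (⟨j.val, by omega⟩ : Fin 4).val < 3 from j.2)] at h1
  exact h1

theorem tr_dg_inj {f g : Fin 4 → ZMod 3} {s t : Equiv.Perm (Fin 4)}
    (h1 : XG_W.tr f * dg s = XG_W.tr g * dg t) : f = g ∧ s = t := by
  have h2 : ∀ j, f (s j) = g (t j) ∧ s j = t j := by
    intro j
    have h3 := DFunLike.congr_fun h1 ((0 : ZMod 3), j)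
    rw [Equiv.Perm.mul_apply, Equiv.Perm.mul_apply, XG_W.dg_apply, XG_W.dg_apply,
      XG_W.tr_apply, XG_W.tr_apply] at h3
    simpa using h3
  have h3 : s = t := Equiv.ext fun j => (h2 j).2
  subst h3
  refine ⟨?_, rfl⟩
  funext j
  have := (h2 (s⁻¹ j)).1
  simpa using this

end XG_123

open XG_123 XG_S2 XG_Emb in
theorem prf_G_123 (hFG : G_FG) (hIso : G_Iso) (hW : G_W) (hRot : G_Rot) (hNat : G_Nat)
    (hEmb : G_Emb) : G_123 := by
  intro h5 h9
  have hp : Nat.Prime 3 := Nat.prime_three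
  have hpF : Fact (Nat.Prime 3) := ⟨hp⟩
  obtain ⟨Q, hQ⟩ := exQ
  obtain ⟨P, hP⟩ := hW 3 hp 4 (by norm_num) (by norm_num) Q
  have hcard : Fintype.card Om = Fintype.card (Fin 12) := by decide
  refine hIso 3 (Al Om) (Al (Fin 12)) ⟨(Fintype.equivOfCardEq hcard).altCongrHom⟩
    (hFG 3 hp (Al Om) P fun w => ?_)
  have hPK : (P : Subgroup (Al Om)).map (alternatingGroup Om).subtype =
      XG_W.K (p := 3) (zpowers c) := by
    rw [XG_W.K_eq, hP, hQ]
  set s : Finset Om := Finset.univ.filter fun x => x.2 ≠ 3 with hs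
  have hcs : s.card = 9 := by rw [hs]; decide
  obtain ⟨φ, hφ, hr⟩ := exists_natural Om s 9 hcs
  set Q' : Subgroup (Al Om) := (P : Subgroup (Al Om)) ⊓ φ.range with hQ'
  have hfix : ∀ t ∈ zpowers c, t 3 = 3 := by
    intro t ht
    have h1 : zpowers c ≤ MulAction.stabilizer (Equiv.Perm (Fin 4)) (3 : Fin 4) := by
      rw [zpowers_le]
      exact cfix
    exact h1 ht
  have hF : ∀ a : (Fin 3 → ZMod 3) × zpowers c, ∃ x : Q',
      ((x : Al Om) : Equiv.Perm Om) = XG_W.tr (ex0 a.1) * dg (a.2 : Equiv.Perm (Fin 4)) := by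
    rintro ⟨f, t, ht⟩
    have h1 : XG_W.tr (ex0 f) * dg t ∈
        (P : Subgroup (Al Om)).map (alternatingGroup Om).subtype := by
      rw [hPK]
      exact ⟨ex0 f, t, ht, rfl⟩
    obtain ⟨x, hx, h⟩ := h1
    have hx' : (x : Equiv.Perm Om) = XG_W.tr (ex0 f) * dg t := h
    refine ⟨⟨x, hx, (hr x).2 ?_⟩, h⟩
    intro u hu
    rw [hs, Finset.mem_filter]
    refine ⟨Finset.mem_univ _, ?_⟩
    intro h3
    rw [Equiv.Perm.mem_support] at hu
    apply hu
    rw [hx', Equiv.Perm.mul_apply, XG_W.dg_apply, XG_W.tr_apply]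
    obtain ⟨a, b⟩ := u
    simp only at h3
    subst h3
    simp only [hfix t ht]
    have : ex0 f 3 = 0 := by unfold ex0; simp
    rw [this, add_zero]
  choose F hF' using hF
  have hFi : Function.Injective F := by
    rintro ⟨f, t, ht⟩ ⟨g, u, hu⟩ h
    have h1 := hF' (f, ⟨t, ht⟩)
    rw [h, hF' (g, ⟨u, hu⟩)] at h1
    obtain ⟨h2, h3⟩ := tr_dg_inj h1
    have h4 := ex0_inj h2
    simp only at h3
    subst h4
    subst h3
    rfl
  have h81 : 81 ≤ Nat.card Q' := by
    have h1 := Nat.card_le_card_of_injective F hFi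
    rw [Nat.card_prod, Nat.card_zpowers, order_c, Nat.card_eq_fintype_card,
      Fintype.card_fun, ZMod.card, Fintype.card_fin] at h1
    exact h1
  have hQp : IsPGroup 3 Q' := P.isPGroup'.to_le inf_le_left
  obtain ⟨e, he⟩ := IsPGroup.iff_card.1 hQp
  have he3 : 4 ≤ e := by
    by_contra h
    have : e ≤ 3 := by omega
    have h6 : 3 ^ e ≤ 3 ^ 3 := Nat.pow_le_pow_right (by norm_num) this
    omega
  have h1 : Nat.card Q' * Q'.relIndex φ.range = Nat.card φ.range := by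
    have := relIndex_mul_relIndex (⊥ : Subgroup (Al Om)) Q' φ.range bot_le inf_le_right
    rwa [relIndex_bot_left, relIndex_bot_left] at this
  have h2 : Nat.card φ.range = 181440 := by
    rw [← Nat.card_congr (φ.ofInjective hφ).toEquiv, nat_card_alternatingGroup,
      Nat.card_eq_fintype_card, Fintype.card_fin]
    decide
  have h3 : ¬ 3 ∣ Q'.relIndex φ.range := by
    rintro ⟨d, hd⟩
    obtain ⟨f, rfl⟩ : ∃ f, e = 4 + f := ⟨e - 4, by omega⟩
    rw [h2, he, hd, pow_add] at h1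
    have : 243 ∣ 181440 := ⟨3 ^ f * d, by rw [← h1]; ring⟩
    omega
  have hG := hEmb 3 hp 9 (by norm_num) h9 (Al Om) φ hφ P Q' inf_le_right inf_le_left h3 w
  apply le_of_gen _ _ _ hP
  rintro g (⟨j, rfl⟩ | ⟨t, ht, rfl⟩)
  · have h1 : rot 3 4 j ∈ (P : Subgroup (Al Om)).map (alternatingGroup Om).subtype := by
      rw [hP]; exact subset_closure (Or.inl ⟨j, rfl⟩)
    obtain ⟨x, hx, h⟩ := h1
    have hx' : (x : Equiv.Perm Om) = rot 3 4 j := h
    refine ⟨x, subset_closure ?_, h⟩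
    exact hNat 3 hp 5 (by norm_num) (by norm_num) (by norm_num) (by norm_num) h5 Om
      (by decide) P x hx (by rw [hx']; exact hRot 3 hp 4 j (by norm_num)) w
  · rw [hQ] at ht
    have h4 := hF' (0, ⟨t, ht⟩)
    refine ⟨(F (0, ⟨t, ht⟩) : Al Om), subset_closure (hG (F (0, ⟨t, ht⟩)).2), ?_⟩
    change ((F (0, ⟨t, ht⟩) : Al Om) : Equiv.Perm Om) = _
    rw [h4]
    have : ex0 0 = 0 := by
      funext j
      unfold ex0
      split <;> rfl
    rw [this, XG_W.tr_zero, one_mul]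

end Pool.Agent.Work.MP_8aaf67_al.AF
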