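import Pool.Agent.Work.MP_8aaf67_al.AF.StmtsG

/-!
# Item G_52: the alternating group of degree 5, p = 2
-/

set_option autoImplicit false

namespace Pool.Agent.Work.MP_8aaf67_al.AF

open Subgroup
open scoped commutatorElement
open Pool.Agent.Work.MP_8aaf67_al.SR (MW val ver Good Qs GV AD VS Fil)

namespace G_52

def v1 : Equiv.Perm (Fin 5) := Equiv.swap 0 1 * Equiv.swap 2 3
def v2 : Equiv.Perm (Fin 5) := Equiv.swap 0 2 * Equiv.swap 1 3
def v3 : Equiv.Perm (Fin 5) := Equiv.swap 0 3 * Equiv.swap 1 2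
def tt : Equiv.Perm (Fin 5) := Equiv.swap 1 2 * Equiv.swap 1 3

/-- the elements of the Klein four group -/
def L : Finset (Equiv.Perm (Fin 5)) := {1, v1, v2, v3}

theorem L_mul : ∀ a ∈ L, ∀ b ∈ L, a * b ∈ L := by decide +kernel
theorem L_inv : ∀ a ∈ L, a⁻¹ ∈ L := by decide +kernel
theorem L_one : (1 : Equiv.Perm (Fin 5)) ∈ L := by decide +kernel
theorem L_card : L.card = 4 := by decide +kernel
theorem L_sign : ∀ a ∈ L, Equiv.Perm.sign a = 1 := by decide +kernel
theorem L_com : ∀ z ∈ L, ∃ y ∈ L, tt * y * tt⁻¹ ∈ L ∧ z = y * tt * y⁻¹ * tt⁻¹ := by decide +kernel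

/-- the Klein four group -/
def K : Subgroup (Al (Fin 5)) where
  carrier := {g | (g : Equiv.Perm (Fin 5)) ∈ L}
  mul_mem' := fun ha hb => L_mul _ ha _ hb
  one_mem' := L_one
  inv_mem' := fun ha => L_inv _ ha

theorem mem_K (g : Al (Fin 5)) : g ∈ K ↔ (g : Equiv.Perm (Fin 5)) ∈ L := Iff.rfl

theorem card_K : Nat.card K = 4 := by
  have e : K ≃ {x // x ∈ L} :=
    { toFun := fun g => ⟨g.1.1, g.2⟩
      invFun := fun x => ⟨⟨x.1, Equiv.Perm.mem_alternatingGroup.mpr (L_sign _ x.2)⟩, x.2⟩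
      left_inv := fun g => rfl
      right_inv := fun x => rfl }
  rw [Nat.card_congr e, Nat.card_eq_fintype_card, Fintype.card_coe, L_card]

theorem card_A : Nat.card (Al (Fin 5)) = 60 := by
  rw [nat_card_alternatingGroup, Nat.card_eq_fintype_card, Fintype.card_fin]
  rfl

theorem index_K : K.index = 15 := by
  have h := K.card_mul_index
  rw [card_K, card_A] at h
  omega

theorem isP : IsPGroup 2 K := IsPGroup.of_card (n := 2) (by rw [card_K]; rfl)

end G_52

open G_52 in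
theorem prf_G_52 (hVS : G_VS) (hFG : G_FG) (hXT : G_XT) : G_52 := by
  intro h5
  have : Fact (Nat.Prime 2) := ⟨Nat.prime_two⟩
  obtain ⟨X, hX, hX3⟩ := hXT 5 {3} h5
  have hdvd : ¬ 2 ∣ K.index := by
    rw [index_K]
    omega
  refine hFG 2 Nat.prime_two (Al (Fin 5)) (isP.toSylow hdvd) fun w => ?_
  have ht3 : tt.IsThreeCycle := Equiv.Perm.isThreeCycle_swap_mul_swap_same (by decide) (by decide)
    (by decide)
  let t : Al (Fin 5) := ⟨tt, ht3.mem_alternatingGroup⟩
  have htX : t ∈ X := hX3 t ht3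
  have hZ := hVS 2 Nat.prime_two (Al (Fin 5)) X (K : Set (Al (Fin 5))) K isP hX (le_refl _)
    (fun z hz => by
      obtain ⟨y, hy, h1, h2⟩ := L_com _ ((mem_K z).mp hz)
      refine ⟨⟨y, Equiv.Perm.mem_alternatingGroup.mpr (L_sign _ hy)⟩, hy, t, htX, h1, ?_⟩
      apply Subtype.ext
      exact h2) w
  intro z hz
  exact Subgroup.subset_closure (Or.inr (Or.inr (hZ hz)))

end Pool.Agent.Work.MP_8aaf67_al.AF
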