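import Pool.Agent.Work.MP_8aaf67_al.AF.StmtsG

/-!
# Item G_53: `A_5` and the prime 3
-/

set_option autoImplicit false

namespace Pool.Agent.Work.MP_8aaf67_al.AF

open Subgroup
open scoped commutatorElement
open Pool.Agent.Work.MP_8aaf67_al.SR (MW val ver Good Qs GV AD VS Fil)

namespace XG_53

abbrev T : Type := Al (Fin 5)

theorem tz : (Equiv.swap (0 : Fin 5) 2 * Equiv.swap 0 1).IsThreeCycle :=
  Equiv.Perm.isThreeCycle_swap_mul_swap_same (by decide) (by decide) (by decide)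

theorem ta : (Equiv.swap (0 : Fin 5) 3 * Equiv.swap 0 1).IsThreeCycle :=
  Equiv.Perm.isThreeCycle_swap_mul_swap_same (by decide) (by decide) (by decide)

theorem tb : (Equiv.swap (0 : Fin 5) 4 * Equiv.swap 0 1).IsThreeCycle :=
  Equiv.Perm.isThreeCycle_swap_mul_swap_same (by decide) (by decide) (by decide)

theorem tc : (Equiv.swap (3 : Fin 5) 4 * Equiv.swap 3 2).IsThreeCycle :=
  Equiv.Perm.isThreeCycle_swap_mul_swap_same (by decide) (by decide) (by decide)

/-- the cycle `0 1 2` -/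
def az : T := ⟨Equiv.swap (0 : Fin 5) 2 * Equiv.swap 0 1, tz.mem_alternatingGroup⟩
/-- the cycle `0 1 3` -/
def aa : T := ⟨Equiv.swap (0 : Fin 5) 3 * Equiv.swap 0 1, ta.mem_alternatingGroup⟩
/-- the cycle `0 1 4` -/
def ab : T := ⟨Equiv.swap (0 : Fin 5) 4 * Equiv.swap 0 1, tb.mem_alternatingGroup⟩
/-- the cycle `3 2 4` -/
def ac : T := ⟨Equiv.swap (3 : Fin 5) 4 * Equiv.swap 3 2, tc.mem_alternatingGroup⟩

theorem r1 : az * aa⁻¹ = (ab * aa⁻¹) * ac := Subtype.ext (by decide +kernel)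
theorem r2 : az * (az * aa⁻¹) = aa * az := Subtype.ext (by decide +kernel)
theorem r3 : az⁻¹ * aa = (ab⁻¹ * aa) * ac := Subtype.ext (by decide +kernel)
theorem r5 : az * (az * (az⁻¹ * aa)) = aa⁻¹ * (az * az) := Subtype.ext (by decide +kernel)
theorem r6 : az * ac = (aa * ab⁻¹) * az := Subtype.ext (by decide +kernel)
theorem r7 : az * (az * ac) = (aa⁻¹ * ab) * (az * az) := Subtype.ext (by decide +kernel)
theorem r8 : az * (az * az) = 1 := Subtype.ext (by decide +kernel)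
theorem r9 : ⁅aa, ab⁆ * az * ⁅aa, ab⁆⁻¹ = az⁻¹ := by
  rw [commutatorElement_def]
  exact Subtype.ext (by decide +kernel)

section module

variable {M : Type} [AddCommGroup M] [DistribMulAction T M]

/-- the vectors fixed by `az` -/
def C (M : Type) [AddCommGroup M] [DistribMulAction T M] : AddSubgroup M where
  carrier := {x | az • x = x}
  zero_mem' := smul_zero _
  add_mem' := by
    intro x y hx hy
    simp only [Set.mem_ofPred_eq] at *
    rw [smul_add, hx, hy]
  neg_mem' := by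
    intro x hx
    simp only [Set.mem_ofPred_eq] at *
    rw [smul_neg, hx]

theorem mem_C {x : M} : x ∈ C M ↔ az • x = x := Iff.rfl

/-- the group generated by the `u x - x` -/
def I (M : Type) [AddCommGroup M] [DistribMulAction T M] : AddSubgroup M :=
  AddSubgroup.closure {y : M | ∃ g ∈ closure ({aa, ab} : Set T), ∃ x : M, y = g • x - x}

theorem norm_mem (x : M) : x + az • x + az • (az • x) ∈ C M := by
  rw [mem_C, smul_add, smul_add]
  have h : az • (az • (az • x)) = x := by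
    rw [smul_smul, smul_smul, mul_assoc, r8, one_smul]
  rw [h]
  abel

theorem cor_mem {u : T} (hu : u ∈ closure ({aa, ab} : Set T)) (x : M) : u • x - x ∈ I M :=
  AddSubgroup.subset_closure ⟨u, hu, x, rfl⟩

theorem tri (h u0 u1 u2 x0 x1 x2 : T) (h0 : u0 ∈ closure ({aa, ab} : Set T))
    (h1 : u1 ∈ closure ({aa, ab} : Set T)) (h2 : u2 ∈ closure ({aa, ab} : Set T))
    (e0 : h = u0 * x0) (e1 : az * h = u1 * x1) (e2 : az * (az * h) = u2 * x2) (m : M) :
    x0 • m + x1 • m + x2 • m ∈ I M ⊔ C M := by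
  have g0 : h • m = u0 • (x0 • m) := by rw [smul_smul, e0]
  have g1 : az • (h • m) = u1 • (x1 • m) := by rw [smul_smul, smul_smul, e1]
  have g2 : az • (az • (h • m)) = u2 • (x2 • m) := by rw [smul_smul, smul_smul, smul_smul, mul_assoc, e2]
  have k0 := norm_mem (h • m)
  rw [g2, g1, g0] at k0
  have key : x0 • m + x1 • m + x2 • m =
      (u0 • (x0 • m) + u1 • (x1 • m) + u2 • (x2 • m)) -
        ((u0 • (x0 • m) - x0 • m) + (u1 • (x1 • m) - x1 • m) + (u2 • (x2 • m) - x2 • m)) := by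
    abel
  rw [key]
  exact sub_mem ((le_sup_right : C M ≤ I M ⊔ C M) k0) ((le_sup_left : I M ≤ I M ⊔ C M)
    (add_mem (add_mem (cor_mem h0 _) (cor_mem h1 _)) (cor_mem h2 _)))

theorem three_mem (m : M) : m + m + m ∈ I M ⊔ C M := by
  have ha : aa ∈ closure ({aa, ab} : Set T) := subset_closure (Or.inl rfl)
  have hb : ab ∈ closure ({aa, ab} : Set T) := subset_closure (Or.inr rfl)
  have t1 : m + az • m + (az * az) • m ∈ I M ⊔ C M := by
    have h := (le_sup_right : C M ≤ I M ⊔ C M) (norm_mem m)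
    rwa [smul_smul] at h
  have t2 := tri aa⁻¹ aa⁻¹ (ab * aa⁻¹) aa 1 ac az (inv_mem ha) (mul_mem hb (inv_mem ha)) ha
    (mul_one _).symm r1 r2 m
  have t3 := tri (az⁻¹ * aa) (ab⁻¹ * aa) aa aa⁻¹ ac 1 (az * az) (mul_mem (inv_mem hb) ha) ha
    (inv_mem ha) r3 (by rw [mul_inv_cancel_left, mul_one]) r5 m
  have t4 := tri ac 1 (aa * ab⁻¹) (aa⁻¹ * ab) ac az (az * az) (one_mem _)
    (mul_mem ha (inv_mem hb)) (mul_mem (inv_mem ha) hb) (one_mul _).symm r6 r7 m
  rw [one_smul] at t2 t3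
  have key : m + m + m = (m + az • m + (az * az) • m) + (m + ac • m + az • m) +
      (ac • m + m + (az * az) • m) - (ac • m + az • m + (az * az) • m) -
      (ac • m + az • m + (az * az) • m) := by
    abel
  rw [key]
  exact sub_mem (sub_mem (add_mem (add_mem t1 t2) t3) t4) t4

end module

theorem fil (z' : T) (hz' : z' ∈ zpowers az) : Fil 3 (zpowers z') (closure {aa, ab}) := by
  intro M _ _ _ hM _ _ m
  have hco : IsCoprime ((3 : ℕ) : ℤ) ((Nat.card M : ℕ) : ℤ) :=
    Nat.isCoprime_iff_coprime.2 ((Nat.Prime.coprime_iff_not_dvd Nat.prime_three).2 hM)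
  obtain ⟨a, b, hab⟩ := hco
  have hm : m ∈ I M ⊔ C M := by
    have h1 : (Nat.card M) • m = 0 := card_nsmul_eq_zero'
    have h2 : (a * ((3 : ℕ) : ℤ) + b * ((Nat.card M : ℕ) : ℤ)) • m = m := by rw [hab, one_smul]
    rw [add_smul, mul_smul, mul_smul, natCast_zsmul, natCast_zsmul, h1, smul_zero, add_zero] at h2
    rw [← h2]
    have h3 : (3 : ℕ) • m = m + m + m := by
      rw [show (3 : ℕ) = 2 + 1 from rfl, succ_nsmul, two_nsmul]
    rw [h3]
    exact AddSubgroup.zsmul_mem _ (three_mem m) a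
  obtain ⟨m₁, h1, m₂, h2, h3⟩ := AddSubgroup.mem_sup.1 hm
  refine ⟨m₁, h1, m₂, ?_, h3.symm⟩
  intro r hr
  have h4 : zpowers az ≤ MulAction.stabilizer T m₂ := by
    rw [zpowers_le]
    exact MulAction.mem_stabilizer_iff.2 (mem_C.1 h2)
  have h5 : zpowers z' ≤ zpowers az := by
    rw [zpowers_le]
    exact hz'
  exact MulAction.mem_stabilizer_iff.1 (h4 (h5 hr))

theorem cube {y : T} (hy : y ∈ zpowers az) : y * (y * y) = 1 := by
  obtain ⟨k, rfl⟩ := mem_zpowers_iff.1 hy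
  rw [← zpow_add, ← zpow_add]
  have h1 : az ^ (3 : ℤ) = 1 := by
    rw [← r8, ← mul_assoc, ← sq, ← pow_succ]
    rfl
  rw [show k + (k + k) = 3 * k by ring, zpow_mul, h1, one_zpow]

theorem conj {y : T} (hy : y ∈ zpowers az) : ⁅aa, ab⁆ * y * ⁅aa, ab⁆⁻¹ = y⁻¹ := by
  obtain ⟨k, rfl⟩ := mem_zpowers_iff.1 hy
  rw [← conj_zpow, r9, inv_zpow]

theorem comm {y : T} (hy : y ∈ zpowers az) : y = ⁅y * y, ⁅aa, ab⁆⁆ := by
  have h1 := cube hy
  have h2 := conj (mul_mem hy hy)
  have h3 : ⁅y * y, ⁅aa, ab⁆⁆ = (y * y) * (⁅aa, ab⁆ * (y * y) * ⁅aa, ab⁆⁻¹)⁻¹ := by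
    rw [commutatorElement_def (y * y)]
    group
  rw [h3, h2, inv_inv, mul_assoc, h1, mul_one]

theorem VS_all (X : Set T) (hX : Clo X) (ha : aa ∈ X) (hb : ab ∈ X) (w : MW) :
    ∀ y ∈ zpowers az, y ∈ VS 3 (zpowers az) w := by
  induction w with
  | var => exact fun y hy => hy
  | comm u v hu hv =>
    intro y hy
    left
    have h1 := mul_mem hy hy
    have h2 : ⁅aa, ab⁆ * (y * y) * ⁅aa, ab⁆⁻¹ ∈ zpowers az := by
      rw [conj h1]
      exact inv_mem h1
    refine ⟨y * y, hu _ h1, ⁅aa, ab⁆, h2, ?_, comm hy⟩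
    cases v with
    | var => exact trivial
    | comm v₁ v₂ =>
      exact ⟨aa, SR.GV_of X hX v₁ ha, ab, SR.GV_of X hX v₂ hb, rfl, fil _ h2⟩

theorem exP : ∃ P : Sylow 3 T, (P : Subgroup T) = zpowers az := by
  have : Fact (Nat.Prime 3) := ⟨Nat.prime_three⟩
  have h0 : az ≠ 1 := by
    intro h
    have h1 := congrArg (fun g : T => (g : Equiv.Perm (Fin 5)) 0) h
    revert h1
    decide +kernel
  have h1 : orderOf az = 3 := by
    refine orderOf_eq_prime ?_ h0
    rw [← r8, ← mul_assoc, ← sq, ← pow_succ]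
  refine ⟨Sylow.ofCard (zpowers az) ?_, rfl⟩
  rw [Nat.card_zpowers, h1, nat_card_alternatingGroup, Nat.card_eq_fintype_card, Fintype.card_fin]
  have h2 : (Nat.factorial 5 / 2).factorization 3 = 1 := by
    have : Nat.factorial 5 / 2 = 3 * 20 := by decide
    rw [this, Nat.factorization_mul (by norm_num) (by norm_num)]
    rw [Finsupp.add_apply, Nat.Prime.factorization_self (by norm_num),
      Nat.factorization_eq_zero_of_not_dvd (by norm_num)]
  rw [h2, pow_one]

end XG_53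

open XG_53 in
theorem prf_G_53 (hFG : G_FG) (hXT : G_XT) : G_53 := by
  intro h
  obtain ⟨X, hX, hX3⟩ := hXT 5 {3} h
  obtain ⟨P, hP⟩ := exP
  refine hFG 3 Nat.prime_three (Al (Fin 5)) P fun w => ?_
  rw [hP]
  intro y hy
  exact subset_closure (Or.inr (Or.inr (VS_all X hX (hX3 aa ta) (hX3 ab tb) w y hy)))

end Pool.Agent.Work.MP_8aaf67_al.AF
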