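import Pool.Agent.Work.MP_8aaf67_al.AF.StmtsG

/-!
# Item G_62: the alternating group of degree 6, p = 2
-/

set_option autoImplicit false

namespace Pool.Agent.Work.MP_8aaf67_al.AF

open Subgroup
open scoped commutatorElement
open Pool.Agent.Work.MP_8aaf67_al.SR (MW val ver Good Qs GV AD VS Fil)

namespace G_62

def v1 : Equiv.Perm (Fin 6) := Equiv.swap 0 1 * Equiv.swap 2 3
def v2 : Equiv.Perm (Fin 6) := Equiv.swap 0 2 * Equiv.swap 1 3
def v3 : Equiv.Perm (Fin 6) := Equiv.swap 0 3 * Equiv.swap 1 2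
def u1 : Equiv.Perm (Fin 6) := Equiv.swap 0 1 * Equiv.swap 4 5
def u2 : Equiv.Perm (Fin 6) := Equiv.swap 2 3 * Equiv.swap 4 5

def t1 : Equiv.Perm (Fin 6) := Equiv.swap 1 2 * Equiv.swap 4 5
def t2 : Equiv.Perm (Fin 6) := Equiv.swap 2 3 * Equiv.swap 4 5
def t3 : Equiv.Perm (Fin 6) := Equiv.swap 1 3 * Equiv.swap 4 5
def t4 : Equiv.Perm (Fin 6) := Equiv.swap 0 4 * Equiv.swap 1 5
def t5 : Equiv.Perm (Fin 6) := Equiv.swap 2 4 * Equiv.swap 3 5

/-- the elements of the Sylow subgroup -/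
def L : Finset (Equiv.Perm (Fin 6)) := {1, v1, v2, v3, u1, u2, v2 * u1, v3 * u1}
/-- its involutions and the neutral element -/
def Z : Finset (Equiv.Perm (Fin 6)) := {1, v1, v2, v3, u1, u2}
/-- the moving elements -/
def TT : Finset (Equiv.Perm (Fin 6)) := {t1, t2, t3, t4, t5}

theorem L_mul : ∀ a ∈ L, ∀ b ∈ L, a * b ∈ L := by decide +kernel
theorem L_inv : ∀ a ∈ L, a⁻¹ ∈ L := by decide +kernel
theorem L_one : (1 : Equiv.Perm (Fin 6)) ∈ L := by decide +kernel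
theorem L_card : L.card = 8 := by decide +kernel
theorem L_sign : ∀ a ∈ L, Equiv.Perm.sign a = 1 := by decide +kernel
theorem T_sign : ∀ a ∈ TT, Equiv.Perm.sign a = 1 := by decide +kernel
theorem Z_sub : ∀ a ∈ Z, a ∈ L := by decide +kernel
theorem L_prod : ∀ g ∈ L, ∃ a ∈ Z, ∃ b ∈ Z, g = a * b := by decide +kernel
theorem L_com : ∀ z ∈ Z, ∃ y ∈ Z, ∃ t ∈ TT, t * y * t⁻¹ ∈ L ∧ z = y * t * y⁻¹ * t⁻¹ := by
  decide +kernel

theorem ct (a b c d : Fin 6) (h : [a, b, c, d].Nodup) :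
    (Equiv.swap a b * Equiv.swap c d).cycleType = {2, 2} := by
  have hab : a ≠ b := by
    rintro rfl
    simp at h
  have hcd : c ≠ d := by
    rintro rfl
    simp at h
  have hD := Equiv.Perm.disjoint_swap_swap h
  rw [hD.cycleType_mul, Equiv.Perm.isSwap_iff_cycleType.mp ⟨a, b, hab, rfl⟩,
    Equiv.Perm.isSwap_iff_cycleType.mp ⟨c, d, hcd, rfl⟩]
  rfl

theorem T_ct : ∀ t ∈ TT, t.cycleType = {2, 2} := by
  intro t ht
  have h : t = t1 ∨ t = t2 ∨ t = t3 ∨ t = t4 ∨ t = t5 := by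
    simpa [TT] using ht
  rcases h with rfl | rfl | rfl | rfl | rfl
  · exact ct _ _ _ _ (by decide)
  · exact ct _ _ _ _ (by decide)
  · exact ct _ _ _ _ (by decide)
  · exact ct _ _ _ _ (by decide)
  · exact ct _ _ _ _ (by decide)

/-- the Sylow subgroup -/
def K : Subgroup (Al (Fin 6)) where
  carrier := {g | (g : Equiv.Perm (Fin 6)) ∈ L}
  mul_mem' := fun ha hb => L_mul _ ha _ hb
  one_mem' := L_one
  inv_mem' := fun ha => L_inv _ ha

theorem mem_K (g : Al (Fin 6)) : g ∈ K ↔ (g : Equiv.Perm (Fin 6)) ∈ L := Iff.rfl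

theorem card_K : Nat.card K = 8 := by
  have e : K ≃ {x // x ∈ L} :=
    { toFun := fun g => ⟨g.1.1, g.2⟩
      invFun := fun x => ⟨⟨x.1, Equiv.Perm.mem_alternatingGroup.mpr (L_sign _ x.2)⟩, x.2⟩
      left_inv := fun g => rfl
      right_inv := fun x => rfl }
  rw [Nat.card_congr e, Nat.card_eq_fintype_card, Fintype.card_coe, L_card]

theorem card_A : Nat.card (Al (Fin 6)) = 360 := by
  rw [nat_card_alternatingGroup, Nat.card_eq_fintype_card, Fintype.card_fin]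
  rfl

theorem index_K : K.index = 45 := by
  have h := K.card_mul_index
  rw [card_K, card_A] at h
  omega

theorem isP : IsPGroup 2 K := IsPGroup.of_card (n := 3) (by rw [card_K]; rfl)

end G_62

open G_62 in
theorem prf_G_62 (hXT : G_XT) (hVS : G_VS) (hFG : G_FG) : G_62 := by
  intro h6
  have : Fact (Nat.Prime 2) := ⟨Nat.prime_two⟩
  obtain ⟨X, hX, hX2⟩ := hXT 6 {2, 2} h6
  have hdvd : ¬ 2 ∣ K.index := by
    rw [index_K]
    omega
  refine hFG 2 Nat.prime_two (Al (Fin 6)) (isP.toSylow hdvd) fun w => ?_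
  let ZZ : Set (Al (Fin 6)) := {g | (g : Equiv.Perm (Fin 6)) ∈ Z}
  have hZ := hVS 2 Nat.prime_two (Al (Fin 6)) X ZZ K isP hX (fun g hg => Z_sub _ hg)
    (fun z hz => by
      obtain ⟨y, hy, t, ht, h1, h2⟩ := L_com _ hz
      refine ⟨⟨y, Equiv.Perm.mem_alternatingGroup.mpr (L_sign _ (Z_sub _ hy))⟩, hy,
        ⟨t, Equiv.Perm.mem_alternatingGroup.mpr (T_sign _ ht)⟩, hX2 _ (T_ct _ ht), h1, ?_⟩
      apply Subtype.ext
      exact h2) w
  intro g hg
  obtain ⟨a, ha, b, hb, hab⟩ := L_prod _ ((mem_K g).mp hg)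
  have hag : g = (⟨a, Equiv.Perm.mem_alternatingGroup.mpr (L_sign _ (Z_sub _ ha))⟩ : Al (Fin 6)) *
      ⟨b, Equiv.Perm.mem_alternatingGroup.mpr (L_sign _ (Z_sub _ hb))⟩ := by
    apply Subtype.ext
    exact hab
  rw [hag]
  refine mul_mem (Subgroup.subset_closure (Or.inr (Or.inr (hZ ?_))))
    (Subgroup.subset_closure (Or.inr (Or.inr (hZ ?_))))
  · exact ha
  · exact hb

end Pool.Agent.Work.MP_8aaf67_al.AF
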