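import Pool.Agent.Work.MP_8aaf67_al.AF.StmtsG

/-!
# Item G_65: the alternating group of degree 6 and the prime 5
-/

set_option autoImplicit false

namespace Pool.Agent.Work.MP_8aaf67_al.AF

open Subgroup
open scoped commutatorElement
open Pool.Agent.Work.MP_8aaf67_al.SR (MW val ver Good Qs GV AD VS Fil)

namespace G_65

theorem cycleType_two {α : Type} [Fintype α] [DecidableEq α] (t : Equiv.Perm α) (k : ℕ)
    (h : t ^ 2 = 1) (hs : t.support.card = 2 * k) : t.cycleType = two k := by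
  have h1 : ∀ n ∈ t.cycleType, n = 2 := by
    intro n hn
    have h2 := Equiv.Perm.two_le_of_mem_cycleType hn
    have h3 : n ∣ 2 := (Equiv.Perm.dvd_of_mem_cycleType hn).trans (orderOf_dvd_of_pow_eq_one h)
    have h4 := Nat.le_of_dvd two_pos h3
    omega
  have h2 : t.cycleType = Multiset.replicate (Multiset.card t.cycleType) 2 :=
    Multiset.eq_replicate.2 ⟨rfl, h1⟩
  have h3 : t.cycleType.sum = 2 * k := by rw [Equiv.Perm.sum_cycleType, hs]
  have h4 : Multiset.card t.cycleType = k := by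
    rw [h2, Multiset.sum_replicate, smul_eq_mul] at h3
    omega
  rw [h2, h4]
  rfl

/-- the five cycle -/
def c0 : Equiv.Perm (Fin 6) :=
  Equiv.swap 0 1 * Equiv.swap 1 2 * Equiv.swap 2 3 * Equiv.swap 3 4

/-- the involution inverting it -/
def t0 : Equiv.Perm (Fin 6) := Equiv.swap 1 4 * Equiv.swap 2 3

theorem c0_pow : c0 ^ 5 = 1 := by decide

theorem c0_ne : c0 ≠ 1 := by decide

theorem t0_sq : t0 ^ 2 = 1 := by decide

theorem t0_supp : t0.support.card = 2 * 2 := by decide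

theorem t0_conj : t0 * c0 * t0⁻¹ = c0⁻¹ := by decide

theorem c0_even : Equiv.Perm.sign c0 = 1 := by decide

theorem t0_even : Equiv.Perm.sign t0 = 1 := by decide

end G_65

open G_65 in
/-- Item [G_65] -/
theorem prf_G_65 (hVS : G_VS) (hFG : G_FG) (hXT : G_XT) : G_65 := by
  intro hxt
  have hp : Nat.Prime 5 := by norm_num
  have : Fact (Nat.Prime 5) := ⟨hp⟩
  obtain ⟨X, hX, hXmem⟩ := hXT 6 _ hxt
  have hct : t0.cycleType = {2, 2} := (cycleType_two t0 2 t0_sq t0_supp).trans rfl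
  obtain ⟨t, ht⟩ : ∃ t : Al (Fin 6), (t : Equiv.Perm (Fin 6)) = t0 :=
    ⟨⟨t0, Equiv.Perm.mem_alternatingGroup.2 t0_even⟩, rfl⟩
  obtain ⟨c, hc⟩ : ∃ c : Al (Fin 6), (c : Equiv.Perm (Fin 6)) = c0 :=
    ⟨⟨c0, Equiv.Perm.mem_alternatingGroup.2 c0_even⟩, rfl⟩
  have htX : t ∈ X := hXmem t (by rw [ht]; exact hct)
  have hc5 : c ^ 5 = 1 := by
    apply Subtype.ext
    rw [SubmonoidClass.coe_pow, hc]
    exact c0_pow
  have hc1 : c ≠ 1 := by
    intro h
    apply c0_ne
    rw [← hc, h]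
    rfl
  have hord : orderOf c = 5 := orderOf_eq_prime hc5 hc1
  have hconj : t * c * t⁻¹ = c⁻¹ := by
    apply Subtype.ext
    show (t : Equiv.Perm (Fin 6)) * (c : Equiv.Perm (Fin 6)) * (t : Equiv.Perm (Fin 6))⁻¹ =
      (c : Equiv.Perm (Fin 6))⁻¹
    rw [ht, hc]
    exact t0_conj
  have hcard : Nat.card (zpowers c) = 5 := by rw [Nat.card_zpowers, hord]
  have hPp : IsPGroup 5 (zpowers c) := IsPGroup.of_card (n := 1) (by rw [pow_one, hcard])
  have hindex : ¬ 5 ∣ (zpowers c).index := by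
    have : Nontrivial (Fin 6) := Fin.nontrivial_iff_two_le.2 (by norm_num)
    have h1 := (zpowers c).card_mul_index
    rw [hcard] at h1
    have h2 := two_mul_nat_card_alternatingGroup (α := Fin 6)
    rw [← h1, Nat.card_perm, Nat.card_fin] at h2
    have h3 : Nat.factorial 6 = 720 := rfl
    rw [h3] at h2
    omega
  have hconjz : ∀ k : ℤ, t * c ^ k * t⁻¹ = (c ^ k)⁻¹ := by
    intro k
    rw [← conj_zpow, hconj, inv_zpow]
  have hvs : ∀ w : MW, ((zpowers c : Subgroup (Al (Fin 6))) : Set (Al (Fin 6))) ⊆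
      VS 5 (zpowers c) w := by
    refine hVS 5 hp (Al (Fin 6)) X _ (zpowers c) hPp hX subset_rfl ?_
    rintro z ⟨k, rfl⟩
    refine ⟨c ^ (3 * k), ⟨3 * k, rfl⟩, t, htX, ?_, ?_⟩
    · rw [hconjz]
      exact inv_mem ⟨3 * k, rfl⟩
    · rw [commutatorElement_def]
      have h2 : c ^ (3 * k) * t * (c ^ (3 * k))⁻¹ * t⁻¹ =
          c ^ (3 * k) * (t * c ^ (3 * k) * t⁻¹)⁻¹ := by group
      rw [h2, hconjz, inv_inv, ← zpow_add]
      have h3 : 3 * k + 3 * k = 5 * k + k := by ring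
      rw [h3, zpow_add, zpow_mul]
      have h4 : c ^ (5 : ℤ) = 1 := by
        rw [← hc5]
        exact zpow_natCast c 5
      rw [h4, one_zpow, one_mul]
  refine hFG 5 hp (Al (Fin 6)) (hPp.toSylow hindex) fun w => ?_
  rw [IsPGroup.toSylow_coe]
  intro x hx
  exact subset_closure (Or.inr (Or.inr (hvs w hx)))

end Pool.Agent.Work.MP_8aaf67_al.AF
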