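import Pool.Agent.Work.MP_8aaf67_al.AF.StmtsG

/-!
# Item G_82: the alternating group of degree 8 and the prime 2
-/

set_option autoImplicit false

namespace Pool.Agent.Work.MP_8aaf67_al.AF

open Subgroup
open scoped commutatorElement
open Pool.Agent.Work.MP_8aaf67_al.SR (MW val ver Good Qs GV AD VS Fil)

namespace G_82

theorem cycleType_three {α : Type} [Fintype α] [DecidableEq α] (t : Equiv.Perm α) (k : ℕ)
    (h : t ^ 3 = 1) (hs : t.support.card = 3 * k) :
    t.cycleType = Multiset.replicate k 3 := by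
  have h1 : ∀ n ∈ t.cycleType, n = 3 := by
    intro n hn
    have h2 := Equiv.Perm.two_le_of_mem_cycleType hn
    have h3 : n ∣ 3 := (Equiv.Perm.dvd_of_mem_cycleType hn).trans (orderOf_dvd_of_pow_eq_one h)
    rcases (Nat.dvd_prime Nat.prime_three).1 h3 with h4 | h4
    · omega
    · exact h4
  have h2 : t.cycleType = Multiset.replicate (Multiset.card t.cycleType) 3 :=
    Multiset.eq_replicate.2 ⟨rfl, h1⟩
  have h3 : t.cycleType.sum = 3 * k := by rw [Equiv.Perm.sum_cycleType, hs]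
  have h4 : Multiset.card t.cycleType = k := by
    rw [h2, Multiset.sum_replicate, smul_eq_mul] at h3
    omega
  rw [h2, h4]

/-- closed sets under isomorphisms -/
theorem clo_preimage {T T' : Type} [Group T] [Group T'] (E : T ≃* T') (X : Set T')
    (hX : Clo X) : Clo (E ⁻¹' X) := by
  intro t ht
  obtain ⟨a, ha, b, hb, hab, htab⟩ := hX (E t) ht
  refine ⟨E.symm a, ?_, E.symm b, ?_, ?_, ?_⟩
  · show E (E.symm a) ∈ X
    rw [E.apply_symm_apply]; exact ha
  · show E (E.symm b) ∈ X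
    rw [E.apply_symm_apply]; exact hb
  · have h1 : (closure {a, b}).map E.symm.toMonoidHom = ⊤ := by
      rw [hab, ← MonoidHom.range_eq_map]
      exact MonoidHom.range_eq_top.2 E.symm.surjective
    rw [MonoidHom.map_closure, Set.image_pair] at h1
    exact h1
  · have h1 := congrArg E.symm htab
    rw [E.symm_apply_apply, map_commutatorElement] at h1
    exact h1

/-- points -/
abbrev Om : Type := Fin 2 × Fin 4

/-- the element of order three -/
def t0 : Equiv.Perm Om :=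
  (Equiv.swap (1, 0) (0, 2) * Equiv.swap (0, 2) (1, 2)) *
    (Equiv.swap (1, 1) (0, 3) * Equiv.swap (0, 3) (1, 3))

/-- the permutation of the blocks -/
def sg : Equiv.Perm (Fin 4) := Equiv.swap 0 2 * Equiv.swap 1 3

/-- the central involution -/
def z0 : Equiv.Perm (Fin 4) := Equiv.swap 0 1 * Equiv.swap 2 3

/-- the product of the block transpositions -/
def u0 : Equiv.Perm Om := (tau 4 0 * tau 4 1) * (tau 4 2 * tau 4 3)

/-- the block permutation -/
def s0 : Equiv.Perm Om := dg sg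

theorem t0_pow : t0 ^ 3 = 1 := by decide

theorem t0_even : Equiv.Perm.sign t0 = 1 := by decide

theorem c_u : s0 * t0 * s0⁻¹ * t0⁻¹ = u0 := by decide

theorem c_s : (u0 * s0) * t0 * (u0 * s0)⁻¹ * t0⁻¹ = s0 := by decide

theorem c_us : u0 * t0 * u0⁻¹ * t0⁻¹ = u0 * s0 := by decide

theorem k_u : t0 * u0 * t0⁻¹ = s0 := by decide

theorem k_s : t0 * s0 * t0⁻¹ = u0 * s0 := by decide

theorem k_us : t0 * (u0 * s0) * t0⁻¹ = u0 := by decide

/-- the Sylow subgroup of the symmetric group of degree 4 -/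
def D : Subgroup (Equiv.Perm (Fin 4)) where
  carrier := {g | g * z0 = z0 * g}
  one_mem' := by simp
  mul_mem' := by
    intro a b ha hb
    change _ * _ = _ at ha
    change _ * _ = _ at hb
    change _ * _ = _
    rw [mul_assoc, hb, ← mul_assoc, ha, mul_assoc]
  inv_mem' := by
    intro a ha
    change _ * _ = _ at ha
    change _ * _ = _
    rw [inv_mul_eq_iff_eq_mul, ← mul_assoc, ha, mul_assoc, mul_inv_cancel, mul_one]

theorem mem_D (g : Equiv.Perm (Fin 4)) : g ∈ D ↔ g * z0 = z0 * g := Iff.rfl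

theorem card_filter : (Finset.univ.filter (fun g : Equiv.Perm (Fin 4) => g * z0 = z0 * g)).card = 8 := by
  decide

theorem D_elt : ∀ g : Equiv.Perm (Fin 4), g * z0 = z0 * g →
    ∃ i j k : Fin 2, g = Equiv.swap 0 1 ^ (i : ℕ) * Equiv.swap 2 3 ^ (j : ℕ) * sg ^ (k : ℕ) := by
  decide

theorem card_D : Nat.card D = 8 := by
  have h1 : Nat.card D = Nat.card {g : Equiv.Perm (Fin 4) // g * z0 = z0 * g} := rfl
  rw [h1, Nat.card_eq_fintype_card, Fintype.card_subtype, card_filter]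

theorem index_D : ¬ 2 ∣ D.index := by
  have h1 := D.card_mul_index
  rw [card_D, Nat.card_perm, Nat.card_fin] at h1
  have h2 : Nat.factorial 4 = 24 := rfl
  rw [h2] at h1
  omega

theorem dg_mul {A : Type} {m : ℕ} (s t : Equiv.Perm (Fin m)) :
    (dg (s * t) : Equiv.Perm (A × Fin m)) = dg s * dg t := by
  ext x <;> rfl

theorem dg_one {A : Type} {m : ℕ} : (dg (1 : Equiv.Perm (Fin m)) : Equiv.Perm (A × Fin m)) = 1 := by
  ext x <;> rfl

theorem dg_pow {A : Type} {m : ℕ} (s : Equiv.Perm (Fin m)) (k : ℕ) :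
    (dg (s ^ k) : Equiv.Perm (A × Fin m)) = dg s ^ k := by
  induction k with
  | zero => rw [pow_zero, pow_zero, dg_one]
  | succ k ih => rw [pow_succ, dg_mul, ih, pow_succ]

theorem supp_card : ((finProdFinEquiv : Om ≃ Fin 8).permCongr t0).support.card = 3 * 2 := by
  decide

end G_82

open G_82 in
/-- Item [G_82] -/
theorem prf_G_82 (hVS : G_VS) (hFG : G_FG) (hXT : G_XT) (hIso : G_Iso) (hW2 : G_W2)
    (hN6 : G_N6) : G_82 := by
  intro hxt h6
  obtain ⟨X0, hX0, hX0mem⟩ := hXT 8 _ hxt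
  obtain ⟨E, hE⟩ : ∃ E : Al Om ≃* Al (Fin 8), ∀ x : Al Om,
      ((E x : Al (Fin 8)) : Equiv.Perm (Fin 8)) =
        (finProdFinEquiv : Om ≃ Fin 8).permCongr (x : Equiv.Perm Om) :=
    ⟨Equiv.altCongrHom (finProdFinEquiv : Om ≃ Fin 8), fun x => rfl⟩
  refine hIso 2 (Al Om) (Al (Fin 8)) ⟨E⟩ ?_
  set X : Set (Al Om) := E ⁻¹' X0 with hXdef
  have hX : Clo X := clo_preimage E X0 hX0
  obtain ⟨t, ht⟩ : ∃ t : Al Om, (t : Equiv.Perm Om) = t0 :=
    ⟨⟨t0, Equiv.Perm.mem_alternatingGroup.2 t0_even⟩, rfl⟩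
  have htX : t ∈ X := by
    show E t ∈ X0
    apply hX0mem
    have h1 : (E t) ^ 3 = 1 := by
      rw [← map_pow]
      have h2 : t ^ 3 = 1 := by
        apply Subtype.ext
        rw [SubmonoidClass.coe_pow, ht]
        exact t0_pow
      rw [h2, map_one]
    have h3 : ((E t : Al (Fin 8)) : Equiv.Perm (Fin 8)) ^ 3 = 1 := by
      rw [← SubmonoidClass.coe_pow, h1]
      rfl
    refine (cycleType_three _ 2 h3 ?_).trans rfl
    rw [hE, ht]
    exact supp_card
  have hDp : IsPGroup 2 D := IsPGroup.of_card (n := 3) (by rw [card_D]; norm_num)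
  obtain ⟨P₀, hP₀⟩ := hW2 4 (by norm_num) (hDp.toSylow index_D)
  rw [IsPGroup.toSylow_coe] at hP₀
  refine hFG 2 Nat.prime_two (Al Om) P₀ fun w => ?_
  -- elements of the generating set
  have hlift : ∀ x : Equiv.Perm Om, x ∈ closure ({x | ∃ i j, x = tau 4 i * tau 4 j} ∪
      {x | ∃ s ∈ D, x = dg s}) → ∃ y : Al Om, y ∈ (P₀ : Subgroup (Al Om)) ∧
        (y : Equiv.Perm Om) = x := by
    intro x hx
    rw [← hP₀] at hx
    obtain ⟨y, hy, hyx⟩ := hx
    exact ⟨y, hy, hyx⟩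
  have htt : ∀ i j : Fin 4, ∃ y : Al Om, y ∈ (P₀ : Subgroup (Al Om)) ∧
        (y : Equiv.Perm Om) = tau 4 i * tau 4 j := fun i j =>
    hlift _ (subset_closure (Or.inl ⟨i, j, rfl⟩))
  have hdg : ∀ s ∈ D, ∃ y : Al Om, y ∈ (P₀ : Subgroup (Al Om)) ∧
        (y : Equiv.Perm Om) = dg s := fun s hs =>
    hlift _ (subset_closure (Or.inr ⟨s, hs, rfl⟩))
  -- the controlled subgroup
  set M : Subgroup (Equiv.Perm Om) :=
    (closure (GA 2 w (P₀ : Subgroup (Al Om)))).map (alternatingGroup Om).subtype with hM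
  have hMmem : ∀ y : Al Om, y ∈ GA 2 w (P₀ : Subgroup (Al Om)) → (y : Equiv.Perm Om) ∈ M :=
    fun y hy => ⟨y, subset_closure hy, rfl⟩
  have hn6 : ∀ i j l : Fin 4, i ≠ j → j ≠ l → i ≠ l → Equiv.swap i j ∈ D →
      tau 4 i * tau 4 j ∈ M ∧ tau 4 j * tau 4 l ∈ M ∧ dg (Equiv.swap i j) ∈ M := by
    intro i j l hij hjl hil hs
    obtain ⟨x, hx, hxe⟩ := htt i j
    obtain ⟨y, hy, hye⟩ := htt j l
    obtain ⟨z, hz, hze⟩ := hdg _ hs
    obtain ⟨h1, h2, h3⟩ := hN6 4 i j l hij hjl hil h6 P₀ x y z hxe hye hze hx hy hz w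
    refine ⟨?_, ?_, ?_⟩
    · rw [← hxe]; exact hMmem x h1
    · rw [← hye]; exact hMmem y h2
    · rw [← hze]; exact hMmem z h3
  have e1 := hn6 0 1 2 (by decide) (by decide) (by decide) ((mem_D _).2 (by decide))
  have e2 := hn6 0 1 3 (by decide) (by decide) (by decide) ((mem_D _).2 (by decide))
  have e3 := hn6 2 3 0 (by decide) (by decide) (by decide) ((mem_D _).2 (by decide))
  have e4 := hn6 1 0 2 (by decide) (by decide) (by decide) ((mem_D _).2 (by decide))
  have h1i : ∀ i : Fin 4, tau 4 1 * tau 4 i ∈ M := by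
    intro i
    fin_cases i
    · exact e4.1
    · have h1 : tau 4 1 * tau 4 1 = 1 := by decide
      show tau 4 1 * tau 4 1 ∈ M
      rw [h1]
      exact M.one_mem
    · exact e1.2.1
    · exact e2.2.1
  have htau : ∀ i j : Fin 4, tau 4 i * tau 4 j ∈ M := by
    intro i j
    have h1 := M.mul_mem (M.inv_mem (h1i i)) (h1i j)
    have h2 : (tau 4 1 * tau 4 i)⁻¹ * (tau 4 1 * tau 4 j) = tau 4 i * tau 4 j := by
      rw [mul_inv_rev, mul_assoc, inv_mul_cancel_left]
      unfold tau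
      rw [Equiv.swap_inv]
    rwa [h2] at h1
  -- the four group
  obtain ⟨u, huP, hu⟩ : ∃ y : Al Om, y ∈ (P₀ : Subgroup (Al Om)) ∧
      (y : Equiv.Perm Om) = u0 := by
    apply hlift
    exact mul_mem (subset_closure (Or.inl ⟨0, 1, rfl⟩)) (subset_closure (Or.inl ⟨2, 3, rfl⟩))
  obtain ⟨s, hsP, hs⟩ : ∃ y : Al Om, y ∈ (P₀ : Subgroup (Al Om)) ∧
      (y : Equiv.Perm Om) = s0 := hdg sg ((mem_D _).2 (by decide))
  have ku : t * u * t⁻¹ = s := by
    apply Subtype.ext
    show (t : Equiv.Perm Om) * u * (t : Equiv.Perm Om)⁻¹ = s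
    rw [ht, hu, hs]
    exact k_u
  have ks : t * s * t⁻¹ = u * s := by
    apply Subtype.ext
    show (t : Equiv.Perm Om) * s * (t : Equiv.Perm Om)⁻¹ = u * s
    rw [ht, hu, hs]
    exact k_s
  have kus : t * (u * s) * t⁻¹ = u := by
    apply Subtype.ext
    show (t : Equiv.Perm Om) * (u * s) * (t : Equiv.Perm Om)⁻¹ = u
    rw [ht, hu, hs]
    exact k_us
  have cu : u = ⁅s, t⁆ := by
    apply Subtype.ext
    show (u : Equiv.Perm Om) = s * t * (s : Equiv.Perm Om)⁻¹ * (t : Equiv.Perm Om)⁻¹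
    rw [ht, hu, hs]
    exact c_u.symm
  have cs : s = ⁅u * s, t⁆ := by
    apply Subtype.ext
    show (s : Equiv.Perm Om) = (u * s) * t * (u * s : Equiv.Perm Om)⁻¹ * (t : Equiv.Perm Om)⁻¹
    rw [ht, hu, hs]
    exact c_s.symm
  have cus : u * s = ⁅u, t⁆ := by
    apply Subtype.ext
    show (u * s : Equiv.Perm Om) = u * t * (u : Equiv.Perm Om)⁻¹ * (t : Equiv.Perm Om)⁻¹
    rw [ht, hu, hs]
    exact c_us.symm
  have hvs : ({1, u, s, u * s} : Set (Al Om)) ⊆ VS 2 (P₀ : Subgroup (Al Om)) w := by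
    refine hVS 2 Nat.prime_two (Al Om) X _ (P₀ : Subgroup (Al Om)) P₀.isPGroup' hX ?_ ?_ w
    · rintro z (h | h | h | h) <;> rw [h]
      · exact one_mem _
      · exact huP
      · exact hsP
      · exact mul_mem huP hsP
    · rintro z (h | h | h | h) <;> rw [h]
      · refine ⟨1, by simp, t, htX, ?_, ?_⟩
        · simp
        · simp
      · exact ⟨s, by simp, t, htX, by rw [ks]; exact mul_mem huP hsP, cu⟩
      · exact ⟨u * s, by simp, t, htX, by rw [kus]; exact huP, cs⟩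
      · exact ⟨u, by simp, t, htX, by rw [ku]; exact hsP, cus⟩
  have hsM : dg sg ∈ M := by
    have h1 := hMmem s (Or.inr (Or.inr (hvs (by simp))))
    rw [hs] at h1
    exact h1
  have hle : (P₀ : Subgroup (Al Om)).map (alternatingGroup Om).subtype ≤ M := by
    rw [hP₀, closure_le]
    rintro x (⟨i, j, rfl⟩ | ⟨g, hg, rfl⟩)
    · exact htau i j
    · obtain ⟨i, j, k, rfl⟩ := D_elt g hg
      show dg _ ∈ M
      rw [dg_mul, dg_mul, dg_pow, dg_pow, dg_pow]
      exact mul_mem (mul_mem (pow_mem e1.2.2 _) (pow_mem e3.2.2 _)) (pow_mem hsM _)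
  exact (map_le_map_iff_of_injective (alternatingGroup Om).subtype_injective).1 hle

end Pool.Agent.Work.MP_8aaf67_al.AF
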