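import Pool.Agent.Work.MP_8aaf67_al.AF.CDefs

/-!
# Alternating composition factors: combinatorial statements

All statements were checked by computer for all `n ≤ 300` in the stated range.
Suggested way of working: everything on `Fin n` reduces to statements about natural numbers
(`split_ifs`, `omega`); `n` is `4 q + 1` or `4 q + 3`.
-/

set_option autoImplicit false

namespace Pool.Agent.Work.MP_8aaf67_al.AF

open scoped commutatorElement

/-- (EASY) Existence. Build the `Equiv` from `f` and `g`. -/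
def C_Ex : Prop := ∀ (n : ℕ) (f g : ℕ → ℕ), (∀ x < n, f x < n) → (∀ x < n, g x < n) →
  (∀ x < n, g (f x) = x) → (∀ x < n, f (g x) = x) →
  ∃ σ : Equiv.Perm (Fin n), Is n f σ ∧ Is n g σ⁻¹

/-- (EASY) The formula for a commutator: unfold `commutatorElement_def`. -/
def C_Com : Prop := ∀ (n : ℕ) (f f1 g g1 : ℕ → ℕ) (a b : Equiv.Perm (Fin n)),
  Is n f a → Is n f1 a⁻¹ → Is n g b → Is n g1 b⁻¹ →
  Is n (fun x => g (f (g1 (f1 x)))) ⁅b, a⁆

/-- (EASY-MEDIUM) Type of an involution with exactly `2 k` moved points. All cycles have length 2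
(`cycleType` elements divide `orderOf σ`, `Equiv.Perm.dvd_of_mem_cycleType`,
`two_le_of_mem_cycleType`, `Multiset.eq_replicate`), and the sum of the cycle type is the number of
moved points (`sum_cycleType`). -/
def C_Ti : Prop := ∀ (n k : ℕ) (σ : Equiv.Perm (Fin n)), σ * σ = 1 →
  (Finset.univ.filter fun x => σ x ≠ x).card = 2 * k → σ.cycleType = two k

/-- (EASY) A permutation with a single orbit, `n ≥ 2`: it is a cycle with full support. -/
def C_Tc : Prop := ∀ (n : ℕ) (σ : Equiv.Perm (Fin n)) (x₀ : Fin n), 2 ≤ n →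
  (∀ x, σ.SameCycle x₀ x) → σ.cycleType = {n}

/-- (MEDIUM) Two orbits `A`, `B` of `m ≥ 2` elements each, all other points fixed. `σ` is the
product of the two disjoint cycles `σ.cycleOf a`, `σ.cycleOf b` (`a ∈ A`, `b ∈ B`) with supports
`A`, `B`; or: restrict `σ` to `A` and `B`. -/
def C_Tm : Prop := ∀ (n m : ℕ) (σ : Equiv.Perm (Fin n)) (A B : Finset (Fin n)), 2 ≤ m →
  Disjoint A B → A.card = m → B.card = m → (∀ x, x ∉ A → x ∉ B → σ x = x) →
  (∀ x ∈ A, ∀ y ∈ A, σ.SameCycle x y) → (∀ x ∈ B, ∀ y ∈ B, σ.SameCycle x y) →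
  (∀ x ∈ A, σ x ∈ A) → (∀ x ∈ B, σ x ∈ B) → σ.cycleType = {m, m}

/-- (MEDIUM) Type `3, 2^k`, `n = 2 k + 3`: a 3-cycle `u → v → w → u` and a fixed point free
involution on the other points. Let `τ = swap u v * swap v w` (the 3-cycle with `τ u = v`,
`τ v = w`, `τ w = u`); `ρ = τ⁻¹ * σ` is an involution which moves exactly the `2 k` points outside
`u, v, w` (`C_Ti`), it is disjoint from `τ` (`Equiv.Perm.Disjoint.cycleType_mul`). -/
def C_Tb : Prop := ∀ (n k : ℕ) (σ : Equiv.Perm (Fin n)) (u v w : Fin n), n = 2 * k + 3 →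
  u ≠ v → v ≠ w → u ≠ w → σ u = v → σ v = w → σ w = u →
  (∀ x, x ≠ u → x ≠ v → x ≠ w → σ (σ x) = x ∧ σ x ≠ x) → σ.cycleType = 3 ::ₘ two k

/-- (EASY-MEDIUM) If the type of `σ` is `3, 2^k` then `σ * σ` is a three cycle. E.g. by
`Equiv.Perm.cycleType` facts: `σ` is conjugate to `τ * ρ` with disjoint `τ`, `ρ`, `τ` a 3-cycle and
`ρ * ρ = 1` (decompose `σ` by `Equiv.Perm.mem_cycleType_iff`: there are disjoint `c`, `ρ` with
`σ = c * ρ`, `c.IsCycle`, `c.support.card = 3`, and the type of `ρ` is `2^k`, so `ρ * ρ = 1` since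
`orderOf ρ` divides 2, `Equiv.Perm.lcm_cycleType`). Then `σ * σ = c * c = c⁻¹`. -/
def C_B3 : Prop := ∀ (n k : ℕ) (σ : Equiv.Perm (Fin n)), σ.cycleType = 3 ::ₘ two k →
  (σ * σ).IsThreeCycle

/-- (EASY-MEDIUM) Generation, `n` prime: a subgroup containing the shift is transitive of prime
degree, hence primitive (Mathlib: a transitive action of prime degree is primitive,
`MulAction.IsPreprimitive.of_prime_card` or blocks of prime card); with a three cycle use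
`Equiv.Perm.alternatingGroup_le_of_isPreprimitive_of_isThreeCycle_mem`. -/
def C_Gp : Prop := ∀ (n : ℕ) (G : Subgroup (Equiv.Perm (Fin n))) (a g : Equiv.Perm (Fin n)),
  n.Prime → Is n (fa n) a → a ∈ G → g ∈ G → g.IsThreeCycle → alternatingGroup (Fin n) ≤ G

/-- (MEDIUM) If the supports of `g` and `h` have exactly the point `x` in common then `⁅g, h⁆` is a
three cycle: put `y = g x`, `z = h x`; then `⁅g, h⁆ = g h g⁻¹ h⁻¹` fixes every point different from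
`x, y, z`, maps `x ↦ ` one of the others, and `x, y, z` are different. Computation: a point `t`
outside both supports is fixed; `h⁻¹` moves `t` to the support of `h`; go through the cases. In
detail: `⁅g, h⁆ = (g h g⁻¹) h⁻¹`; `g h g⁻¹` has support `g (supp h)`, which is
`(supp h without x) ∪ {g x}`, and it agrees with `h` except near `x`: `g h g⁻¹` is obtained from
`h` by replacing the point `x` by `y = g x`. So `g h g⁻¹ = swap x y * h * swap x y` and
`⁅g, h⁆ = swap x y * (h * swap x y * h⁻¹) = swap x y * swap (h x) (h y) = swap x y * swap z y`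
(`h y = y` since `y ∉ supp h`), a three cycle (`Equiv.Perm.isThreeCycle_swap_mul_swap_same`). -/
def C_Op : Prop := ∀ (n : ℕ) (g h : Equiv.Perm (Fin n)) (x : Fin n), g x ≠ x → h x ≠ x →
  (∀ t, t ≠ x → g t = t ∨ h t = t) → (⁅g, h⁆ : Equiv.Perm (Fin n)).IsThreeCycle

/-- (EASY-MEDIUM) Generation for small `n`: from two-transitivity (given by: `G` is transitive and
the elements of `G` fixing `u` are transitive on the other points) and a three cycle. Mathlib: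
2-pretransitive actions are primitive
(`MulAction.isPreprimitive_of_is_two_pretransitive` or similar),
`alternatingGroup_le_of_isPreprimitive_of_isThreeCycle_mem`. -/
def C_G2 : Prop := ∀ (n : ℕ) (G : Subgroup (Equiv.Perm (Fin n))) (u v : Fin n)
  (g : Equiv.Perm (Fin n)), u ≠ v → (∀ x, ∃ h ∈ G, h u = x) →
  (∀ x, x ≠ u → ∃ h ∈ G, h u = u ∧ h v = x) → g ∈ G → g.IsThreeCycle →
  alternatingGroup (Fin n) ≤ G

/-! ## Family I -/

/-- (EASY) Type of family I: an involution, only `0` is fixed. Uses `C_Ti`. -/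
def C_I1 : Prop := ∀ (q n : ℕ), 4 ≤ q → n = 4 * q + 1 → ∀ σ : Equiv.Perm (Fin n),
  Is n (fI n) σ → σ.cycleType = two (2 * q)

/-- (EASY-MEDIUM) `cI` is an `n`-cycle (`C_Tc`): the orbit of `0` is
`0 → n-2 → n-4 → … → 5 → 3 → 1 → 2 → n-3 → n-5 → … → 6 → 4 → n-1 → 0`. Show that every `x` is in
the cycle of `0`: odd `x ≤ n - 2` by downward induction from `n - 2` (`cI` maps `x` to `x - 2` for
odd `x ≥ 3`), then `2`, then even `x ≥ 4` by downward induction from `n - 3`, then `n - 1`. -/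
def C_I2 : Prop := ∀ (q n : ℕ), 4 ≤ q → n = 4 * q + 1 → ∀ σ : Equiv.Perm (Fin n),
  Is n (cI n) σ → σ.cycleType = {n}

/-- (EASY) Arithmetic of family I (`unfold`, `split_ifs`, `omega`). -/
def C_I3 : Prop := ∀ (q n : ℕ), 4 ≤ q → n = 4 * q + 1 → ∀ x < n,
  fI n x < n ∧ fI n (fI n x) = x ∧ fI n (fa n (fI n (fa1 n x))) = cI n x

/-- (EASY-MEDIUM) A three cycle in family I. With `c = ⁅b, a⁆` (given by `cI`), the permutation
`s = c * (a * a)` has support `{0, n-3, n-1, 2}` (it exchanges `0, n-3` and `n-1, 2`), and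
`s' = a * s * a⁻¹` has support `{1, n-2, 0, 3}`. The common point is `0`: use `C_Op`. -/
def C_I4 : Prop := ∀ (q n : ℕ), 4 ≤ q → n = 4 * q + 1 → ∀ a c : Equiv.Perm (Fin n),
  Is n (fa n) a → Is n (cI n) c → ∃ g ∈ Subgroup.closure {a, c}, g.IsThreeCycle

/-! ## Family D1 -/

/-- (EASY) Type of family D1 (`C_Tb` with the 3-cycle `n-3 → n-2 → 2 → n-3`). -/
def C_D11 : Prop := ∀ (q n : ℕ), 3 ≤ q → n = 4 * q + 3 → ∀ σ : Equiv.Perm (Fin n),
  Is n (fD1 n) σ → σ.cycleType = 3 ::ₘ two (2 * q)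

/-- (EASY-MEDIUM) `cD1` is an `n`-cycle (`C_Tc`):
`0 → n-3 → n-5 → … → 6 → 4 → n-1 → 2 → 3 → 1 → n-4 → n-6 → … → 7 → 5 → n-2 → 0`. -/
def C_D12 : Prop := ∀ (q n : ℕ), 3 ≤ q → n = 4 * q + 3 → ∀ σ : Equiv.Perm (Fin n),
  Is n (cD1 n) σ → σ.cycleType = {n}

/-- (EASY) Arithmetic of family D1. -/
def C_D13 : Prop := ∀ (q n : ℕ), 3 ≤ q → n = 4 * q + 3 → ∀ x < n,
  fD1 n x < n ∧ fD1i n x < n ∧ fD1i n (fD1 n x) = x ∧ fD1 n (fD1i n x) = x ∧
    fD1 n (fa n (fD1i n (fa1 n x))) = cD1 n x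

/-! ## Family D4 -/

/-- (EASY) Type of family D4 (`C_Tb` with the 3-cycle `0 → 1 → n-1 → 0`). -/
def C_D41 : Prop := ∀ (q n : ℕ), 3 ≤ q → n = 4 * q + 3 → ∀ σ : Equiv.Perm (Fin n),
  Is n (fD4 n) σ → σ.cycleType = 3 ::ₘ two (2 * q)

/-- (EASY-MEDIUM) `cD4` has type `m, m` with `m = 2 q + 1` (`C_Tm`): it fixes `1`, the even numbers
`2, 4, …, n-1` form the cycle `n-1 → n-3 → … → 4 → 2 → n-1` and `0, 3, 5, …, n-2` the cycle
`3 → 0 → n-2 → n-4 → … → 5 → 3`. -/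
def C_D42 : Prop := ∀ (q n : ℕ), 3 ≤ q → n = 4 * q + 3 → ∀ σ : Equiv.Perm (Fin n),
  Is n (cD4 n) σ → σ.cycleType = {2 * q + 1, 2 * q + 1}

/-- (EASY) Arithmetic of family D4. -/
def C_D43 : Prop := ∀ (q n : ℕ), 3 ≤ q → n = 4 * q + 3 → ∀ x < n,
  fD4 n x < n ∧ fD4i n x < n ∧ fD4i n (fD4 n x) = x ∧ fD4 n (fD4i n x) = x ∧
    fD4 n (fa n (fD4i n (fa1 n x))) = cD4 n x

/-! ## Family S -/

/-- (EASY-MEDIUM) Type of family S: an involution which moves the even numbers below `4 q`. -/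
def C_S1 : Prop := ∀ (q n : ℕ), 2 ≤ q → n = 4 * q + 1 → ∀ σ : Equiv.Perm (Fin n),
  Is n (fS q) σ → σ.cycleType = two q

/-- (EASY) Type of `cS`: an involution which fixes only `4 q`. -/
def C_S2 : Prop := ∀ (q n : ℕ), 2 ≤ q → n = 4 * q + 1 → ∀ σ : Equiv.Perm (Fin n),
  Is n (cS q) σ → σ.cycleType = two (2 * q)

/-- (EASY) Arithmetic of family S. -/
def C_S3 : Prop := ∀ (q n : ℕ), 2 ≤ q → n = 4 * q + 1 → ∀ x < n,
  fS q x < n ∧ fS q (fS q x) = x ∧ fS q (fa n (fS q (fa1 n x))) = cS q x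

/-- (EASY-MEDIUM) A three cycle in family S: `b * (a ^ 2 * b * a ^ (-2))` is the three cycle on
`0, 2 q, 4 q`: the second factor exchanges `2 i + 2` and `2 i + 2 + 2 q` (`i < q`), so the product is
`swap 0 (2 q) * swap (2 q) (4 q)`. -/
def C_S4 : Prop := ∀ (q n : ℕ), 2 ≤ q → n = 4 * q + 1 → ∀ a b : Equiv.Perm (Fin n),
  Is n (fa n) a → Is n (fS q) b → ∃ g ∈ Subgroup.closure {a, b}, g.IsThreeCycle

/-! ## Family S' -/

/-- (EASY-MEDIUM) Type of family S'. -/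
def C_Sp1 : Prop := ∀ (q n : ℕ), 2 ≤ q → n = 4 * q + 3 → ∀ σ : Equiv.Perm (Fin n),
  Is n (fSp q) σ → σ.cycleType = two (q + 1)

/-- (EASY) Type of `cSp` (`C_Tb` with `4q → 4q+1 → 4q+2 → 4q`). -/
def C_Sp2 : Prop := ∀ (q n : ℕ), 2 ≤ q → n = 4 * q + 3 → ∀ σ : Equiv.Perm (Fin n),
  Is n (cSp q) σ → σ.cycleType = 3 ::ₘ two (2 * q)

/-- (EASY) Arithmetic of family S'. -/
def C_Sp3 : Prop := ∀ (q n : ℕ), 2 ≤ q → n = 4 * q + 3 → ∀ x < n,
  fSp q x < n ∧ fSp q (fSp q x) = x ∧ fSp q (fa n (fSp q (fa1 n x))) = cSp q x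

/-! ## Family G -/

/-- (EASY-MEDIUM) Type of family G: moved points are `0, 1, 2 q, 4 q`, the even `x` with
`2 ≤ x < 2 q` and the odd `x` with `2 q + 1 ≤ x ≤ 4 q - 3`: `2 q + 2` points. -/
def C_G1 : Prop := ∀ (q n : ℕ), 2 ≤ q → n = 4 * q + 1 → ∀ σ : Equiv.Perm (Fin n),
  Is n (fG q) σ → σ.cycleType = two (q + 1)

/-- (EASY) Type of `cG`: an involution which fixes only `4 q - 1`. -/
def C_G2' : Prop := ∀ (q n : ℕ), 2 ≤ q → n = 4 * q + 1 → ∀ σ : Equiv.Perm (Fin n),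
  Is n (cG q) σ → σ.cycleType = two (2 * q)

/-- (EASY) Arithmetic of family G. -/
def C_G3 : Prop := ∀ (q n : ℕ), 2 ≤ q → n = 4 * q + 1 → ∀ x < n,
  fG q x < n ∧ fG q (fG q x) = x ∧ fG q (fa n (fG q (fa1 n x))) = cG q x

/-- (MEDIUM) A three cycle in family G, `q ≥ 5`. `w = b * (a ^ 2 * b * a ^ (-2))` moves exactly the
points `n-2, n-1, 0, 1, 2, 3, 2q, 2q+1, 2q+2` (the second factor exchanges `2, 3`; `1, 2q+2`;
`2q, n-2`; `2j, 2q+2j-1` for `2 ≤ j ≤ q`), `a ^ 5 * w * a ^ (-5)` moves exactly the points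
`3, 4, 5, 6, 7, 8, 2q+5, 2q+6, 2q+7`; the common point is `3`: use `C_Op`. It is enough to know that
`w` fixes every other point and moves `3` and `n - 2`. -/
def C_G4 : Prop := ∀ (q n : ℕ), 5 ≤ q → n = 4 * q + 1 → ∀ a b : Equiv.Perm (Fin n),
  Is n (fa n) a → Is n (fG q) b → ∃ g ∈ Subgroup.closure {a, b}, g.IsThreeCycle

/-! ## Family G' -/

/-- (EASY-MEDIUM) Type of family G'. -/
def C_Gp1 : Prop := ∀ (q n : ℕ), 2 ≤ q → n = 4 * q + 3 → ∀ σ : Equiv.Perm (Fin n),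
  Is n (fGp q) σ → σ.cycleType = two (q + 2)

/-- (EASY) Type of `cGp` (`C_Tb` with `4q-1 → 4q → 4q+1 → 4q-1`). -/
def C_Gp2 : Prop := ∀ (q n : ℕ), 2 ≤ q → n = 4 * q + 3 → ∀ σ : Equiv.Perm (Fin n),
  Is n (cGp q) σ → σ.cycleType = 3 ::ₘ two (2 * q)

/-- (EASY) Arithmetic of family G'. -/
def C_Gp3 : Prop := ∀ (q n : ℕ), 2 ≤ q → n = 4 * q + 3 → ∀ x < n,
  fGp q x < n ∧ fGp q (fGp q x) = x ∧ fGp q (fa n (fGp q (fa1 n x))) = cGp q x

/-! ## Family K -/

/-- (EASY-MEDIUM) Type of family K: the moved points are `x < 3 k` with `x % 3 ≠ 2` and these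
numbers plus `3 k + 1` (`2 k + 2 k` points). -/
def C_K1 : Prop := ∀ (k n : ℕ), 1 ≤ k → 6 * k + 3 ≤ n → ∀ σ : Equiv.Perm (Fin n),
  Is n (fK k) σ → σ.cycleType = two (2 * k)

/-- (EASY-MEDIUM) Type of `cK`, the same with `x % 3 ≠ 1`. -/
def C_K2 : Prop := ∀ (k n : ℕ), 1 ≤ k → 6 * k + 3 ≤ n → ∀ σ : Equiv.Perm (Fin n),
  Is n (cK k) σ → σ.cycleType = two (2 * k)

/-- (EASY) Arithmetic of family K. -/
def C_K3 : Prop := ∀ (k n : ℕ), 1 ≤ k → 6 * k + 3 ≤ n → ∀ x < n,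
  fK k x < n ∧ fK k (fK k x) = x ∧ fK k (fa n (fK k (fa1 n x))) = cK k x

/-- (MEDIUM) A three cycle in family K: with `h = 3 k + 1`, `w = b * (a ^ 3 * b * a ^ (-3))` is the
product of a three cycle on `0, h, 2 h` and the transpositions `(1, h + 1)` and `(3 k, 3 k + h)`, so
`w * w` is a three cycle. (The second factor exchanges `3 i, 3 i + h` and `3 i + 1, 3 i + 1 + h` for
`1 ≤ i ≤ k`; `w = swap 0 h * swap 1 (h+1) * swap (3k) (3k+h) * swap (3k+1) (3k+1+h)`.) -/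
def C_K4 : Prop := ∀ (k n : ℕ), 1 ≤ k → 6 * k + 3 ≤ n → ∀ a b : Equiv.Perm (Fin n),
  Is n (fa n) a → Is n (fK k) b → ∃ g ∈ Subgroup.closure {a, b}, g.IsThreeCycle

/-! ## Assembly -/

/-- (EASY-MEDIUM) One relation from its data, `n` prime. `a` from `C_Ex` with `fa`, `fa1`; it is an
`n`-cycle (`C_Tc`); `b` from `C_Ex`; `⁅b, a⁆` is given by `c` (`C_Com`); the evenness of `a` and `b`
follows from the cycle types (hypotheses `hβ`; an `n`-cycle with `n` odd is even); generation by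
`C_Gp`. -/
def C_As : Prop := ∀ (n : ℕ) (f f1 c : ℕ → ℕ) (β σ : Multiset ℕ), n.Prime → 5 ≤ n →
  (∀ x < n, f x < n ∧ f1 x < n ∧ f1 (f x) = x ∧ f (f1 x) = x ∧ f (fa n (f1 (fa1 n x))) = c x) →
  (∀ b : Equiv.Perm (Fin n), Is n f b → b.cycleType = β) →
  (∀ d : Equiv.Perm (Fin n), Is n c d → d.cycleType = σ) →
  (∀ b : Equiv.Perm (Fin n), b.cycleType = β → b ∈ alternatingGroup (Fin n)) →
  (∀ a b : Equiv.Perm (Fin n), Is n (fa n) a → Is n f b → Is n c ⁅b, a⁆ →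
    ∃ g ∈ Subgroup.closure {a, b}, g.IsThreeCycle) →
  Rel n σ {n} β

/-- (MEDIUM) Primes `n = 4 q + 1 ≥ 17`: the set `{n}, 2^(2q), 2^(2k)` with `k = q / 2` (`q` even, so
`q = 2 k`, family S) or `k = (q + 1) / 2` (`q ≥ 5` odd, `q + 1 = 2 k`, family G) is closed:
`{n}` by family I, `2^(2q)` by S or G, `2^(2k)` by K (`6 k + 3 ≤ n`). Uses `C_As`, the family items
(as hypotheses), and `sign_of_cycleType` for the evenness of the types `2^(2j)`. -/
def C_XT1 : Prop := ∀ (q n : ℕ), n.Prime → n = 4 * q + 1 → 4 ≤ q → XT n (two (2 * q))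

/-- (MEDIUM) Primes `n = 4 q + 3 ≥ 23`: the set `{n}, 3 2^(2q), 2^(2k), {m, m}`, `m = 2 q + 1`, with
`2 k = q + 1` (`q ≥ 5` odd, family S') or `2 k = q + 2` (`q ≥ 6` even, family G') is closed: `{n}` by
D1, `{m, m}` by D4, `3 2^(2q)` by S' or G', `2^(2k)` by K (`6 k + 3 ≤ n`); three cycles by `C_B3`
(from `b` for D1, D4; from `⁅b, a⁆` for S', G'). -/
def C_XT3 : Prop := ∀ (q n : ℕ), n.Prime → n = 4 * q + 3 → 5 ≤ q →
  XT n {2 * q + 1, 2 * q + 1}

end Pool.Agent.Work.MP_8aaf67_al.AF
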