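import Pool.Agent.Work.MP_8aaf67_al.AF.StmtsG
import Pool.Agent.Work.MP_8aaf67_al.AF.StmtsC

/-!
# MP_8aaf67_al, block AF, item G_93 (helper37)
-/

set_option autoImplicit false

namespace Pool.Agent.Work.MP_8aaf67_al.AF

open Subgroup
open scoped commutatorElement
open Pool.Agent.Work.MP_8aaf67_al.SR (MW val ver Good Qs GV AD VS Fil)

namespace XG_93

abbrev Om : Type := ZMod 3 × Fin 3

/-- a numbering of the points -/
def f : Om ≃ Fin 9 := (finProdFinEquiv : Fin 3 × Fin 3 ≃ Fin (3 * 3))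

/-- the inversion -/
def tO : Equiv.Perm Om where
  toFun x := (-x.1, -x.2)
  invFun x := (-x.1, -x.2)
  left_inv x := by simp
  right_inv x := by simp

def T2 : Equiv.Perm Om := dg (finRotate 3)

def t9 : Equiv.Perm (Fin 9) := f.permCongr tO

theorem t23 : T2 ^ 3 = 1 := by decide +kernel
theorem ct : tO * T2 * tO⁻¹ = T2⁻¹ := by decide +kernel
theorem t9sq : t9 * t9 = 1 := by decide +kernel
theorem t9card : (Finset.univ.filter fun x => t9 x ≠ x).card = 2 * 4 := by decide +kernel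
theorem t9O : f.symm.permCongr t9 = tO := by decide +kernel

theorem even_of_pow {g : Equiv.Perm Om} (h : g ^ 3 = 1) : g ∈ alternatingGroup Om := by
  rw [Equiv.Perm.mem_alternatingGroup]
  have h1 : (Equiv.Perm.sign g) ^ 3 = 1 := by rw [← map_pow, h, map_one]
  rcases Int.units_eq_one_or (Equiv.Perm.sign g) with h2 | h2
  · exact h2
  · rw [h2] at h1
    exact absurd h1 (by decide)

theorem t9type (hTi : C_Ti) : t9.cycleType = two 4 := hTi 9 4 t9 t9sq t9card

theorem t9even (hTi : C_Ti) : t9 ∈ alternatingGroup (Fin 9) := by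
  rw [Equiv.Perm.mem_alternatingGroup, Equiv.Perm.sign_of_cycleType, t9type hTi]
  unfold two
  rw [Multiset.sum_replicate, Multiset.card_replicate]
  decide

theorem clo_map {T T' : Type} [Group T] [Group T'] (e : T ≃* T') (X : Set T) (h : Clo X) :
    Clo (e '' X) := by
  rintro _ ⟨t, ht, rfl⟩
  obtain ⟨a, ha, b, hb, hcl, hab⟩ := h t ht
  refine ⟨e a, ⟨a, ha, rfl⟩, e b, ⟨b, hb, rfl⟩, ?_, ?_⟩
  · have h1 := MonoidHom.map_closure e.toMonoidHom {a, b}
    rw [hcl, Set.image_pair, Subgroup.map_top_of_surjective _ e.surjective] at h1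
    exact h1.symm
  · rw [hab, commutatorElement_def, commutatorElement_def, map_mul, map_mul, map_mul, map_inv,
      map_inv]

theorem exQ : ∃ Q : Sylow 3 (Equiv.Perm (Fin 3)),
    (Q : Subgroup (Equiv.Perm (Fin 3))) = zpowers (finRotate 3) := by
  have : Fact (Nat.Prime 3) := ⟨by norm_num⟩
  have h1 : orderOf (finRotate 3) = 3 := orderOf_eq_prime (by decide +kernel) (by decide +kernel)
  refine ⟨Sylow.ofCard (zpowers (finRotate 3)) ?_, rfl⟩
  rw [Nat.card_zpowers, h1, Nat.card_perm, Nat.card_eq_fintype_card, Fintype.card_fin]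
  have h2 : (Nat.factorial 3).factorization 3 = 1 := by
    have : Nat.factorial 3 = 3 * 2 := by decide
    rw [this, Nat.factorization_mul (by norm_num) (by norm_num)]
    rw [Finsupp.add_apply, Nat.Prime.factorization_self (by norm_num),
      Nat.factorization_eq_zero_of_not_dvd (by norm_num)]
  rw [h2, pow_one]

end XG_93

open XG_93 in
theorem prf_G_93 (hVS : G_VS) (hFG : G_FG) (hIso : G_Iso) (hW : G_W) (hRot : G_Rot)
    (hNat : G_Nat) (hXT : G_XT) (hTi : C_Ti) : G_93 := by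
  intro h9 h5
  have hp : Nat.Prime 3 := by norm_num
  obtain ⟨Q, hQ⟩ := exQ
  obtain ⟨P, hP⟩ := hW 3 hp 3 (by norm_num) (by norm_num) Q
  have hcard : Fintype.card Om = Fintype.card (Fin 9) := by decide
  refine hIso 3 (Al Om) (Al (Fin 9)) ⟨(Fintype.equivOfCardEq hcard).altCongrHom⟩
    (hFG 3 hp (Al Om) P fun w => ?_)
  have hmem : ∀ x : Al Om, (x : Equiv.Perm Om) ∈
      (P : Subgroup (Al Om)).map (alternatingGroup Om).subtype → x ∈ (P : Subgroup (Al Om)) := by
    rintro x ⟨x', hx', h⟩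
    have : x' = x := Subtype.ext h
    rwa [this] at hx'
  have hrot : ∀ j : Fin 3, rot 3 3 j ∈
      (P : Subgroup (Al Om)).map (alternatingGroup Om).subtype := by
    intro j
    rw [hP]
    exact subset_closure (Or.inl ⟨j, rfl⟩)
  obtain ⟨X9, hX9, hX9m⟩ := hXT 9 (two 4) h9
  let e : Al (Fin 9) ≃* Al Om := f.symm.altCongrHom
  have hX : Clo (e '' X9) := clo_map e X9 hX9
  obtain ⟨t, ht⟩ : ∃ t, t = e ⟨t9, t9even hTi⟩ := ⟨_, rfl⟩
  have htX : t ∈ e '' X9 := ⟨⟨t9, t9even hTi⟩, hX9m _ (t9type hTi), ht.symm⟩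
  have htO : (t : Equiv.Perm Om) = tO := by
    rw [ht]
    exact t9O
  obtain ⟨a2, ha2⟩ : ∃ a2 : Al Om, a2 = ⟨T2, even_of_pow t23⟩ := ⟨_, rfl⟩
  have h2P : a2 ∈ (P : Subgroup (Al Om)) := by
    apply hmem
    rw [ha2, hP]
    exact subset_closure (Or.inr ⟨finRotate 3, by rw [hQ]; exact mem_zpowers _, rfl⟩)
  have h23 : a2 ^ 3 = 1 := by
    rw [ha2]
    exact Subtype.ext t23
  have h2t : t * a2 * t⁻¹ = a2⁻¹ := by
    apply Subtype.ext
    show (t : Equiv.Perm Om) * (a2 : Equiv.Perm Om) * (t : Equiv.Perm Om)⁻¹ =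
      (a2 : Equiv.Perm Om)⁻¹
    rw [htO, ha2]
    exact ct
  have hvs : {z : Al Om | z ∈ (P : Subgroup (Al Om)) ∧ z ^ 3 = 1 ∧ t * z * t⁻¹ = z⁻¹} ⊆
      VS 3 (P : Subgroup (Al Om)) w := by
    refine hVS 3 hp (Al Om) (e '' X9) _ (P : Subgroup (Al Om)) P.isPGroup' hX
      (fun z hz => hz.1) ?_ w
    rintro z ⟨h1, h2, h3⟩
    have h4 : t * (z * z) * t⁻¹ = (z * z)⁻¹ := by
      have : t * (z * z) * t⁻¹ = (t * z * t⁻¹) * (t * z * t⁻¹) := by group
      rw [this, h3]
      group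
    refine ⟨z * z, ⟨mul_mem h1 h1, ?_, h4⟩, t, htX, ?_, ?_⟩
    · rw [← pow_two, ← pow_mul, mul_comm, pow_mul, h2, one_pow]
    · rw [h4]
      exact inv_mem (mul_mem h1 h1)
    · have h5 : ⁅z * z, t⁆ = (z * z) * (t * (z * z) * t⁻¹)⁻¹ := by
        rw [commutatorElement_def]
        group
      rw [h5, h4, inv_inv]
      have h6 : z * z * (z * z) = z ^ 3 * z := by
        rw [pow_succ, pow_two]
        simp only [mul_assoc]
      rw [h6, h2, one_mul]
  have h2GA : a2 ∈ GA 3 w (P : Subgroup (Al Om)) :=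
    Or.inr (Or.inr (hvs ⟨h2P, h23, h2t⟩))
  have key : (P : Subgroup (Al Om)).map (alternatingGroup Om).subtype ≤
      (closure (GA 3 w (P : Subgroup (Al Om)))).map (alternatingGroup Om).subtype := by
    conv_lhs => rw [hP]
    rw [closure_le]
    rintro g (⟨j, rfl⟩ | ⟨s, hs, rfl⟩)
    · obtain ⟨x, hx, h⟩ := hrot j
      have hx' : (x : Equiv.Perm Om) = rot 3 3 j := h
      refine ⟨x, subset_closure ?_, h⟩
      exact hNat 3 hp 5 (by norm_num) (by norm_num) (by norm_num) (by norm_num) h5 Om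
        (by decide) P x hx (by rw [hx']; exact hRot 3 hp 3 j (by norm_num)) w
    · rw [hQ] at hs
      obtain ⟨k, rfl⟩ := hs
      refine ⟨a2 ^ k, zpow_mem (subset_closure h2GA) k, ?_⟩
      have h1 : (dg : Equiv.Perm (Fin 3) → Equiv.Perm Om) (finRotate 3 ^ k) = T2 ^ k := by
        let f : Equiv.Perm (Fin 3) →* Equiv.Perm Om :=
          { toFun := dg
            map_one' := by ext x <;> rfl
            map_mul' := fun a b => by ext x <;> rfl }
        exact map_zpow f (finRotate 3) k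
      change _ = dg (finRotate 3 ^ k)
      rw [h1, map_zpow, ha2]
      rfl
  intro x hx
  obtain ⟨x', hx', h⟩ := key (mem_map_of_mem (alternatingGroup Om).subtype hx)
  have : x' = x := Subtype.ext h
  rwa [this] at hx'

end Pool.Agent.Work.MP_8aaf67_al.AF
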