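import Pool.Agent.Work.MP_8aaf67_al.AF.StmtsG

/-!
# Items G_All, G_End
-/

set_option autoImplicit false

namespace Pool.Agent.Work.MP_8aaf67_al.AF

open Subgroup
open scoped commutatorElement
open Pool.Agent.Work.MP_8aaf67_al.SR (MW val ver Good Qs GV AD VS Fil)

theorem prf_G_All (hS1 : G_S1) (hS2 : G_S2) (hS3 : G_S3) (hP1 : G_P1) (hP3 : G_P3)
    (h52 : G_52) (h53 : G_53) (h62 : G_62) (h65 : G_65) (h82 : G_82) (h93 : G_93)
    (h123 : G_123) (h255 : G_255) (x5 : X_5) (x6 : X_6) (x8 : X_8) (x9 : X_9) : G_All := by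
  intro hx1 hx3 p hp n
  induction n using Nat.strong_induction_on with
  | _ n ih =>
  intro hn5 hpn hne
  rcases hp.eq_two_or_odd' with rfl | hodd
  · -- p = 2
    have f6 : FG 2 (Al (Fin 6)) := h62 x6
    by_cases e5 : n = 5
    · subst e5; exact h52 x5
    by_cases e6 : n = 6
    · subst e6; exact f6
    by_cases e8 : n = 8
    · subst e8; exact h82 x8 f6
    by_cases hd : 2 ∣ n
    · obtain ⟨m, rfl⟩ := hd
      exact hS3 m (by omega) f6 (ih m (by omega) (by omega) (by omega) (by omega))
    · exact hS1 2 hp n (by omega) hd (ih (n - 1) (by omega) (by omega) (by omega) (by omega))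
  · have h3 : 3 ≤ p := by
      rcases hodd with ⟨k, hk⟩
      have := hp.two_le
      omega
    have hp2 : p ≠ 2 := by omega
    by_cases hd : p ∣ n
    · obtain ⟨m, rfl⟩ := hd
      by_cases e3 : p = 3
      · subst e3
        have f5 : FG 3 (Al (Fin 5)) := h53 x5
        by_cases m2 : m = 2
        · subst m2
          exact hS2 3 hp 2 5 (by norm_num) (by norm_num) (by norm_num) (by norm_num)
            (by norm_num) (by norm_num) f5 (Or.inl (by norm_num))
        by_cases m3 : m = 3
        · subst m3; exact h93 x9 f5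
        by_cases m4 : m = 4
        · subst m4; exact h123 f5 (h93 x9 f5)
        exact hS2 3 hp m 5 (by norm_num) (by omega) (by norm_num) (by norm_num)
          (by norm_num) (by omega) f5 (Or.inr ⟨by omega, ih m (by omega) (by omega) (by omega)
            (by omega)⟩)
      by_cases e5 : p = 5
      · subst e5
        have f6 : FG 5 (Al (Fin 6)) := h65 x6
        have hm1 : m ≠ 1 := by rintro rfl; exact hne ⟨rfl, rfl⟩
        have hm0 : m ≠ 0 := by rintro rfl; omega
        by_cases m5 : m = 5
        · subst m5; exact h255 f6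
        refine hS2 5 hp m 6 (by norm_num) (by omega) (by norm_num) (by norm_num)
          (by norm_num) (by omega) f6 ?_
        by_cases hlt : m < 5
        · exact Or.inl hlt
        · exact Or.inr ⟨by omega, ih m (by omega) (by omega) (by omega) (by omega)⟩
      have h7 : 7 ≤ p := by
        rcases hodd with ⟨k, hk⟩
        omega
      have hm0 : m ≠ 0 := by rintro rfl; omega
      by_cases hm1 : m = 1
      · subst hm1
        rw [mul_one]
        have h4 : p % 4 = 1 ∨ p % 4 = 3 := by
          rcases hodd with ⟨k, hk⟩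
          omega
        rcases h4 with h4 | h4
        · exact hP1 p hp (by omega) h4 (hx1 p hp h7 h4)
        · exact hP3 p hp h7 h4 (hx3 p hp h7 h4)
      · have hlt : p < p * m := by nlinarith [Nat.two_le_iff m |>.2 ⟨hm0, hm1⟩]
        have hmlt : m < p * m := by nlinarith [Nat.pos_of_ne_zero hm0]
        refine hS2 p hp m p hp2 (Nat.two_le_iff m |>.2 ⟨hm0, hm1⟩) (by omega) le_rfl (by omega)
          hlt.le (ih p hlt (by omega) le_rfl (by omega)) ?_
        by_cases hmp : m < p
        · exact Or.inl hmp
        · exact Or.inr ⟨by omega, ih m hmlt (by omega) (by omega) (by omega)⟩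
    · have hpn' : p < n := lt_of_le_of_ne hpn (by rintro rfl; exact hd dvd_rfl)
      by_cases e6 : n = 6 ∧ p = 5
      · obtain ⟨rfl, rfl⟩ := e6
        exact h65 x6
      by_cases e5 : n = 5
      · subst e5
        have : p = 3 := by
          rcases hodd with ⟨k, hk⟩
          omega
        subst this
        exact h53 x5
      exact hS1 p hp n (by omega) hd (ih (n - 1) (by omega) (by omega) (by omega) (by omega))

theorem prf_G_End (hall : ∀ (p : ℕ), p.Prime → ∀ n : ℕ, 5 ≤ n → p ≤ n → ¬ (p = 5 ∧ n = 5) →
    FG p (Al (Fin n))) (hIso : G_Iso) (hCF : G_CF) : G_End := by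
  intro p hp G _ _ hG
  apply hCF p hp G
  intro N hN H _ f hf hs hab hpH
  obtain ⟨n, hn5, hne, ⟨e⟩⟩ := hG N H f hN hf hs hab hpH
  refine hIso p _ _ ⟨e.symm⟩ (hall p hp n hn5 ?_ hne)
  have h1 : Nat.card H = Nat.card (Al (Fin n)) := Nat.card_congr e.toEquiv
  have hnt : Nontrivial (Fin n) := Fin.nontrivial_iff_two_le.2 (by omega)
  have h3 : 2 * Nat.card (Al (Fin n)) = n.factorial := by
    rw [two_mul_nat_card_alternatingGroup, Nat.card_perm, Nat.card_eq_fintype_card,
      Fintype.card_fin]
  rw [← hp.dvd_factorial, ← h3, ← h1]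
  exact hpH.mul_left 2

end Pool.Agent.Work.MP_8aaf67_al.AF
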