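import Pool.Agent.Work.MP_8aaf67_al.AF.StmtsG
import Pool.Agent.Work.MP_8aaf67_al.H5.Class

/-!
# Alternating composition factors: the reduction to composition factors
-/

set_option autoImplicit false

namespace Pool.Agent.Work.MP_8aaf67_al.AF

open Subgroup
open scoped commutatorElement
open Pool.Agent.Work.MP_8aaf67_al.SR (MW val ver Good Qs GV AD VS Fil)

namespace G_CF

/-- the tree of a word -/
def ofMW : MW → Pool.MP_8aaf67_al.H5.Tree
  | .var => .leaf
  | .comm u v => .node (ofMW u) (ofMW v)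

/-- the word of a tree -/
def toMW : Pool.MP_8aaf67_al.H5.Tree → MW
  | .leaf => .var
  | .node u v => .comm (toMW u) (toMW v)

lemma toMW_ofMW (w : MW) : toMW (ofMW w) = w := by
  induction w with
  | var => rfl
  | comm u v hu hv => simp only [ofMW, toMW, hu, hv]

variable {G : Type} [Group G]

lemma vals_eq (t : Pool.MP_8aaf67_al.H5.Tree) :
    Pool.MP_8aaf67_al.H5.vals G t = val G (toMW t) := by
  induction t with
  | leaf => rfl
  | node u v hu hv =>
    ext x
    constructor
    · rintro ⟨a, ha, b, hb, rfl⟩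
      rw [hu] at ha
      rw [hv] at hb
      exact ⟨a, ha, b, hb, rfl⟩
    · rintro ⟨a, ha, b, hb, rfl⟩
      exact ⟨a, hu ▸ ha, b, hv ▸ hb, rfl⟩

lemma verb_eq (t : Pool.MP_8aaf67_al.H5.Tree) :
    Pool.MP_8aaf67_al.H5.verb G t = ver G (toMW t) := by
  rw [Pool.MP_8aaf67_al.H5.verb, ver, vals_eq]

lemma gen_eq (t : Pool.MP_8aaf67_al.H5.Tree) (P : Subgroup G) :
    Pool.MP_8aaf67_al.H5.gen P t = Qs (toMW t) P := by
  rw [Pool.MP_8aaf67_al.H5.gen, Qs, ← vals_eq]
  congr 1
  ext x
  exact And.comm

/-- the two notions of a good group agree -/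
lemma good_iff (p : ℕ) (t : Pool.MP_8aaf67_al.H5.Tree) :
    Pool.MP_8aaf67_al.H5.Good p G t ↔ Good p G (toMW t) := by
  constructor
  · intro h S
    have h1 := h S
    rw [verb_eq, gen_eq] at h1
    exact h1
  · intro h S
    rw [verb_eq, gen_eq]
    exact h S

/-- a subgroup which is never a proper supplement lies in the Frattini subgroup -/
lemma le_frat (Q : Subgroup G) (h : ∀ H : Subgroup G, H ⊔ Q = ⊤ → H = ⊤) : Q ≤ frattini G := by
  rw [frattini, Order.radical]
  refine le_iInf₂ fun M hM => ?_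
  have h1 : M ⊔ Q = M ∨ M ⊔ Q = ⊤ := by
    rcases eq_or_lt_of_le (le_sup_left : M ≤ M ⊔ Q) with h2 | h2
    · exact Or.inl h2.symm
    · exact Or.inr (hM.2 _ h2)
  rcases h1 with h1 | h1
  · exact sup_eq_left.1 h1
  · exact absurd (h M h1) hM.1

/-- the theorem for the words of the library `H5` -/
theorem good_of_CF {p : ℕ} [hp : Fact p.Prime] (N : ℕ) : ∀ (G : Type) [Group G] [Finite G],
    Nat.card G = N → Pool.MP_8aaf67_al.H5.CF (fun H [Group H] => FG p H) p G →
    ∀ w, Pool.MP_8aaf67_al.H5.Good p G w := by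
  induction N using Nat.strong_induction_on with
  | _ N ih =>
  intro G _ _ hcard hG
  have hlt : ∀ M : Subgroup G, M ≠ ⊤ → Nat.card M < N := by
    intro M hM
    rw [← hcard, ← card_top (G := G)]
    refine lt_of_le_of_ne (card_le_of_le le_top) (fun h => hM ?_)
    exact eq_of_le_of_card_ge le_top h.ge
  rcases Pool.MP_8aaf67_al.H5.reduction (G := G) (p := p)
    (fun E _ hE w => ih _ (hlt E hE) E rfl (hG.normal E) w)
    (fun Y N _ hN hs w => ih _ (hlt N hN) N rfl
      (Pool.MP_8aaf67_al.H5.CF.supp Y N (hG.of_surj _ (QuotientGroup.mk'_surjective Y)) hs) w)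
    (fun M _ hM w => ih _ (by
      rw [← hcard, ← card_mul_index M]
      have h1 : 1 < Nat.card M := by
        rw [Finite.one_lt_card_iff_nontrivial]
        exact (nontrivial_iff_ne_bot M).mpr hM
      have h2 : 0 < M.index := Nat.pos_of_ne_zero FiniteIndex.index_ne_zero
      change M.index < _
      exact lt_mul_of_one_lt_left h2 h1) (G ⧸ M) rfl
      (hG.of_surj _ (QuotientGroup.mk'_surjective M)) w) with h | ⟨Q, hQ⟩
  · exact h
  · have hQn := hQ.normal
    -- the simple quotient
    have hnt : Nontrivial (G ⧸ Q) := by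
      rw [← Finite.one_lt_card_iff_nontrivial]
      have h1 : 0 < Q.index := Nat.pos_of_ne_zero FiniteIndex.index_ne_zero
      have h2 := Nat.le_of_dvd h1 hQ.dvd
      exact lt_of_lt_of_le hp.out.one_lt h2
    have hsimple : IsSimpleGroup (G ⧸ Q) := by
      refine ⟨fun M hM => ?_⟩
      have hπs := QuotientGroup.mk'_surjective Q
      have h1 := hQ.simple (M.comap (QuotientGroup.mk' Q)) (hM.comap _) (by
        intro x hx
        change QuotientGroup.mk' Q x ∈ M
        rw [(QuotientGroup.eq_one_iff x).mpr hx |> (fun h => (h : QuotientGroup.mk' Q x = 1))]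
        exact M.one_mem)
      have h2 : M = (M.comap (QuotientGroup.mk' Q)).map (QuotientGroup.mk' Q) :=
        (map_comap_eq_self_of_surjective hπs M).symm
      rcases h1 with h | h
      · left
        rw [h2, h]
        exact (Subgroup.map_eq_bot_iff _).mpr (by rw [QuotientGroup.ker_mk'])
      · right
        rw [h2, h, map_top_of_surjective _ hπs]
    have hna : ∃ a b : G ⧸ Q, a * b ≠ b * a := by
      by_contra hcon
      push Not at hcon
      have h1 : ⁅(⊤ : Subgroup G), (⊤ : Subgroup G)⁆ ≤ Q := by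
        rw [commutator_le]
        intro a _ b _
        rw [← QuotientGroup.eq_one_iff]
        change QuotientGroup.mk' Q ⁅a, b⁆ = 1
        rw [map_commutatorElement, commutatorElement_eq_one_iff_mul_comm]
        exact hcon _ _
      rw [hQ.perfect] at h1
      have h2 : Q = ⊤ := top_le_iff.mp h1
      have h3 := hQ.dvd
      rw [h2, index_top] at h3
      exact hp.out.one_lt.ne' (Nat.dvd_one.mp h3)
    have hFG : FG p (G ⧸ Q) := by
      have htop : Pool.MP_8aaf67_al.H5.CF (fun H [Group H] => FG p H) p (G ⧸ Q) :=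
        hG.of_surj _ (QuotientGroup.mk'_surjective Q)
      exact htop ⊤ IsSubnormal.top (G ⧸ Q) (⊤ : Subgroup (G ⧸ Q)).subtype
        (fun x => ⟨⟨x, mem_top x⟩, rfl⟩) hsimple hna hQ.dvd
    intro w
    rw [good_iff]
    refine hFG G (QuotientGroup.mk' Q) (QuotientGroup.mk'_surjective Q) ?_ ?_ ?_ _
    · rw [commutator_def]
      exact hQ.perfect
    · rw [QuotientGroup.ker_mk']
      exact le_frat Q hQ.frattini
    · rw [QuotientGroup.ker_mk']
      exact (Nat.Prime.coprime_iff_not_dvd hp.out).1 hQ.coprime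

end G_CF

open G_CF in
theorem prf_G_CF : G_CF := by
  intro p hp G _ _ h w
  haveI : Fact p.Prime := ⟨hp⟩
  have h1 := G_CF.good_of_CF (p := p) (Nat.card G) G rfl
    (fun N hN H _ f hf hs hna hpH => h N hN H f hf hs hna hpH) (ofMW w)
  rw [good_iff, toMW_ofMW] at h1
  exact h1

end Pool.Agent.Work.MP_8aaf67_al.AF
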