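import Pool.Agent.Work.MP_8aaf67_al.AF.StmtsG

/-!
# Alternating composition factors: item G_Dg (the diagonal)
-/

set_option autoImplicit false

namespace Pool.Agent.Work.MP_8aaf67_al.AF

open Subgroup
open scoped commutatorElement
open Pool.Agent.Work.MP_8aaf67_al.SR (MW val ver Good Qs GV AD VS Fil)

namespace G_Dg

lemma dg_mul {A : Type} {m : ℕ} (s t : Equiv.Perm (Fin m)) :
    (dg (s * t) : Equiv.Perm (A × Fin m)) = dg s * dg t := by
  ext x <;> rfl

lemma dg_one {A : Type} {m : ℕ} : (dg (1 : Equiv.Perm (Fin m)) : Equiv.Perm (A × Fin m)) = 1 := by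
  ext x <;> rfl

lemma sign_dg {A : Type} [Fintype A] [DecidableEq A] {m : ℕ} (s : Equiv.Perm (Fin m))
    (hs : s ∈ alternatingGroup (Fin m)) :
    (dg s : Equiv.Perm (A × Fin m)) ∈ alternatingGroup (A × Fin m) := by
  rw [Equiv.Perm.mem_alternatingGroup] at hs ⊢
  have h1 : (dg s : Equiv.Perm (A × Fin m)) = Equiv.prodCongrRight (fun _ : A => s) := by
    ext x <;> rfl
  rw [h1, Equiv.Perm.sign_prodCongrRight]
  exact Finset.prod_eq_one fun _ _ => hs

/-- the diagonal homomorphism -/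
def φ (A : Type) [Fintype A] [DecidableEq A] (m : ℕ) : Al (Fin m) →* Al (A × Fin m) where
  toFun s := ⟨dg (s : Equiv.Perm (Fin m)), sign_dg _ s.2⟩
  map_one' := Subtype.ext dg_one
  map_mul' _ _ := Subtype.ext (dg_mul _ _)

lemma φ_inj (A : Type) [Fintype A] [DecidableEq A] [Nonempty A] (m : ℕ) :
    Function.Injective (φ A m) := by
  intro s t h
  apply Subtype.ext
  have h1 : (dg (s : Equiv.Perm (Fin m)) : Equiv.Perm (A × Fin m)) = dg (t : Equiv.Perm (Fin m)) :=
    congrArg Subtype.val h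
  obtain ⟨a⟩ := ‹Nonempty A›
  apply Equiv.ext
  intro j
  have h2 := congrArg (fun f : Equiv.Perm (A × Fin m) => (f (a, j)).2) h1
  exact h2

lemma index {G : Type} [Group G] [Finite G] (p : ℕ) (hp : p.Prime) (R : Sylow p G)
    (C : Subgroup G) [C.Normal] : ¬ p ∣ ((R : Subgroup G).subgroupOf C).index := by
  have := Fact.mk hp
  have h1 := relIndex_mul_relIndex ((R : Subgroup G) ⊓ C) C ((R : Subgroup G) ⊔ C) inf_le_right
    le_sup_right
  have h2 := relIndex_mul_relIndex ((R : Subgroup G) ⊓ C) (R : Subgroup G) ((R : Subgroup G) ⊔ C)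
    inf_le_left le_sup_left
  rw [inf_relIndex_left] at h2
  rw [relIndex_sup_right, inf_relIndex_right] at h1
  have h3 : C.relIndex (R : Subgroup G) ≠ 0 := by
    show (C.subgroupOf (R : Subgroup G)).index ≠ 0
    exact index_ne_zero_of_finite
  have h4 : (R : Subgroup G).relIndex C = (R : Subgroup G).relIndex ((R : Subgroup G) ⊔ C) := by
    have h5 : (R : Subgroup G).relIndex C * C.relIndex (R : Subgroup G) =
        (R : Subgroup G).relIndex ((R : Subgroup G) ⊔ C) * C.relIndex (R : Subgroup G) := by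
      rw [h1, ← h2, mul_comm]
    exact Nat.eq_of_mul_eq_mul_right (Nat.pos_of_ne_zero h3) h5
  intro h
  have h6 : p ∣ (R : Subgroup G).relIndex C := h
  rw [h4] at h6
  exact R.not_dvd_index (h6.trans (relIndex_dvd_index_of_le le_sup_left))

end G_Dg

theorem prf_G_Dg (hEmb : G_Emb) : G_Dg := by
  intro p hp m hm hFG A _ _ _ Q₀ P hP s hs hse x hx w
  let Q₁ : Subgroup (Al (Fin m)) :=
    (Q₀ : Subgroup (Equiv.Perm (Fin m))).subgroupOf (alternatingGroup (Fin m))
  have h1 := hEmb p hp m hm hFG (Al (A × Fin m)) (G_Dg.φ A m) (G_Dg.φ_inj A m) P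
    (Q₁.map (G_Dg.φ A m)) (map_le_range _ _) (by
      rintro _ ⟨q, hq, rfl⟩
      exact hP q hq q.2 _ rfl) (by
      rw [MonoidHom.range_eq_map, relIndex_map_map_of_injective _ _ (G_Dg.φ_inj A m),
        relIndex_top_right]
      exact G_Dg.index p hp Q₀ _) w
  apply h1
  exact ⟨⟨s, hse⟩, hs, Subtype.ext hx.symm⟩

end Pool.Agent.Work.MP_8aaf67_al.AF
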