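import Pool.Agent.Work.MP_8aaf67_al.AF.StmtsG

/-!
# MP_8aaf67_al, block AF, items G_FG and G_Iso
-/

set_option autoImplicit false

namespace Pool.Agent.Work.MP_8aaf67_al.AF

open Subgroup
open scoped commutatorElement
open Pool.Agent.Work.MP_8aaf67_al.SR (MW val ver Good Qs GV AD VS Fil)

theorem prf_G_FG (hStr : G_Str) (hOne : G_One) : G_FG := by
  intro p hp T _ _ P₀ h E _ _ π hs hc hf hk w
  exact hStr p hp T w (hOne p hp T w P₀ (h w)) E π hs hc hf hk

theorem prf_G_Iso : G_Iso := by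
  rintro p T T' _ _ ⟨e⟩ h E _ _ π hs hc hf hk w
  have hker : (e.symm.toMonoidHom.comp π).ker = π.ker := by
    ext x
    rw [MonoidHom.mem_ker, MonoidHom.mem_ker]
    show e.symm (π x) = 1 ↔ π x = 1
    exact e.symm.map_eq_one_iff
  refine h E (e.symm.toMonoidHom.comp π) ?_ hc ?_ ?_ w
  · intro t
    obtain ⟨x, hx⟩ := hs (e t)
    refine ⟨x, ?_⟩
    show e.symm (π x) = t
    rw [hx, e.symm_apply_apply]
  · rw [hker]; exact hf
  · rw [hker]; exact hk

end Pool.Agent.Work.MP_8aaf67_al.AF
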