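import Pool.Agent.Work.MP_8aaf67_al.AF.StmtsG

/-!
# Item G_W2
-/

set_option autoImplicit false

namespace Pool.Agent.Work.MP_8aaf67_al.AF

open Subgroup
open scoped commutatorElement
open Pool.Agent.Work.MP_8aaf67_al.SR (MW val ver Good Qs GV AD VS Fil)

namespace XG_W2

section
variable {m : ℕ}

/-- translations of the blocks -/
def tr (f : Fin m → Fin 2) : Equiv.Perm (Fin 2 × Fin m) where
  toFun x := (x.1 + f x.2, x.2)
  invFun x := (x.1 - f x.2, x.2)
  left_inv x := by simp
  right_inv x := by simp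

theorem tr_apply (f : Fin m → Fin 2) (x : Fin 2 × Fin m) : tr f x = (x.1 + f x.2, x.2) := rfl

theorem dg_apply (s : Equiv.Perm (Fin m)) (x : Fin 2 × Fin m) :
    (dg s : Equiv.Perm (Fin 2 × Fin m)) x = (x.1, s x.2) := rfl

theorem tr_add (f g : Fin m → Fin 2) : tr (f + g) = tr f * tr g := by
  apply Equiv.ext
  intro x
  rw [Equiv.Perm.mul_apply, tr_apply, tr_apply, tr_apply]
  simp only [Pi.add_apply, Prod.mk.injEq, and_true]
  abel

theorem tr_zero : tr (0 : Fin m → Fin 2) = 1 := by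
  apply Equiv.ext
  intro x
  rw [tr_apply]
  simp

theorem tr_inv (f : Fin m → Fin 2) : (tr f)⁻¹ = tr (-f) := by
  rw [inv_eq_iff_mul_eq_one, ← tr_add, add_neg_cancel, tr_zero]

theorem tau_eq (j : Fin m) : tau m j = tr (Pi.single j 1) := by
  apply Equiv.ext
  rintro ⟨a, b⟩
  rw [tr_apply, tau]
  by_cases h : b = j
  · subst h
    have : ∀ a : Fin 2, a = 0 ∨ a = 1 := by decide
    rcases this a with rfl | rfl
    · simp
    · simp
  · rw [Equiv.swap_apply_of_ne_of_ne]
    · simp [h]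
    · intro h1; exact h (congrArg Prod.snd h1)
    · intro h1; exact h (congrArg Prod.snd h1)

theorem dg_mul (s t : Equiv.Perm (Fin m)) :
    (dg (s * t) : Equiv.Perm (Fin 2 × Fin m)) = dg s * dg t := rfl

theorem dg_one : (dg (1 : Equiv.Perm (Fin m)) : Equiv.Perm (Fin 2 × Fin m)) = 1 := rfl

theorem dg_inv (s : Equiv.Perm (Fin m)) :
    (dg s⁻¹ : Equiv.Perm (Fin 2 × Fin m)) = (dg s)⁻¹ := rfl

theorem dg_tr (s : Equiv.Perm (Fin m)) (f : Fin m → Fin 2) :
    dg s * tr f = tr (f ∘ ⇑s⁻¹) * dg s := by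
  apply Equiv.ext
  intro x
  rw [Equiv.Perm.mul_apply, Equiv.Perm.mul_apply, tr_apply, dg_apply, dg_apply, tr_apply]
  simp

/-- The wreath product. -/
def K (Q : Subgroup (Equiv.Perm (Fin m))) : Subgroup (Equiv.Perm (Fin 2 × Fin m)) where
  carrier := {x | ∃ f : Fin m → Fin 2, ∃ s ∈ Q, x = tr f * dg s}
  one_mem' := ⟨0, 1, one_mem _, by rw [tr_zero, dg_one, mul_one]⟩
  mul_mem' := by
    rintro _ _ ⟨f, s, hs, rfl⟩ ⟨g, t, ht, rfl⟩
    refine ⟨f + g ∘ ⇑s⁻¹, s * t, mul_mem hs ht, ?_⟩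
    rw [tr_add, dg_mul, mul_assoc, ← mul_assoc (dg s), dg_tr]
    simp only [mul_assoc]
  inv_mem' := by
    rintro _ ⟨f, s, hs, rfl⟩
    refine ⟨-(f ∘ ⇑s), s⁻¹, inv_mem hs, ?_⟩
    rw [mul_inv_rev, tr_inv, ← dg_inv, dg_tr, inv_inv]
    rfl

theorem card_K (Q : Subgroup (Equiv.Perm (Fin m))) :
    Nat.card (K Q) = Nat.card (Fin m → Fin 2) * Nat.card Q := by
  rw [← Nat.card_prod]
  symm
  apply Nat.card_congr
  let F : (Fin m → Fin 2) × Q → K Q := fun x => ⟨tr x.1 * dg x.2.1, x.1, x.2.1, x.2.2, rfl⟩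
  apply Equiv.ofBijective F
  constructor
  · rintro ⟨f, s, hs⟩ ⟨g, t, ht⟩ h
    have h1 : tr f * dg s = tr g * dg t := congrArg Subtype.val h
    have h2 : ∀ j, f (s j) = g (t j) ∧ s j = t j := by
      intro j
      have h3 := DFunLike.congr_fun h1 ((0 : Fin 2), j)
      rw [Equiv.Perm.mul_apply, Equiv.Perm.mul_apply, dg_apply, dg_apply, tr_apply, tr_apply] at h3
      simpa using h3
    have h3 : s = t := Equiv.ext fun j => (h2 j).2
    subst h3
    have h4 : f = g := by
      funext j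
      have := (h2 (s⁻¹ j)).1
      simpa using this
    subst h4
    rfl
  · rintro ⟨_, f, s, hs, rfl⟩
    exact ⟨(f, ⟨s, hs⟩), rfl⟩

/-- The generators. -/
def S (Q : Subgroup (Equiv.Perm (Fin m))) : Set (Equiv.Perm (Fin 2 × Fin m)) :=
  {x | ∃ i j, x = tau m i * tau m j} ∪ {x | ∃ s ∈ Q, x = dg s}

theorem sign_dg (s : Equiv.Perm (Fin m)) :
    Equiv.Perm.sign (dg s : Equiv.Perm (Fin 2 × Fin m)) = 1 := by
  have h1 : (dg s : Equiv.Perm (Fin 2 × Fin m)) = Equiv.prodCongrRight fun _ => s := rfl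
  rw [h1, Equiv.Perm.sign_prodCongrRight]
  rw [Fin.prod_univ_two, Int.units_mul_self]

theorem sign_tau (j : Fin m) : Equiv.Perm.sign (tau m j) = -1 := by
  rw [tau, Equiv.Perm.sign_swap]
  intro h
  exact zero_ne_one (congrArg Prod.fst h)

theorem CA (Q : Subgroup (Equiv.Perm (Fin m))) : closure (S Q) ≤ alternatingGroup _ := by
  rw [closure_le]
  rintro _ (⟨i, j, rfl⟩ | ⟨s, hs, rfl⟩)
  · rw [SetLike.mem_coe, Equiv.Perm.mem_alternatingGroup, map_mul, sign_tau, sign_tau]
    decide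
  · rw [SetLike.mem_coe, Equiv.Perm.mem_alternatingGroup, sign_dg]

theorem tr_mem (Q : Subgroup (Equiv.Perm (Fin m))) (j₀ : Fin m) (f : Fin m → Fin 2)
    (hf : ∑ j, f j = 0) : tr f ∈ closure (S Q) := by
  let A : AddSubgroup (Fin m → Fin 2) :=
    { carrier := {f | tr f ∈ closure (S Q)}
      zero_mem' := by
        change tr 0 ∈ closure (S Q)
        rw [tr_zero]; exact one_mem _
      add_mem' := by
        intro a b ha hb
        change tr (a + b) ∈ closure (S Q)
        rw [tr_add]; exact mul_mem ha hb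
      neg_mem' := by
        intro a ha
        change tr (-a) ∈ closure (S Q)
        rw [← tr_inv]; exact inv_mem ha }
  have h1 : ∀ j : Fin m, ∀ c : Fin 2, Pi.single j c + Pi.single j₀ c ∈ A := by
    intro j c
    have h2 : (Pi.single j 1 + Pi.single j₀ 1 : Fin m → Fin 2) ∈ A := by
      change tr _ ∈ closure (S Q)
      rw [tr_add, ← tau_eq, ← tau_eq]
      exact subset_closure (Or.inl ⟨j, j₀, rfl⟩)
    have : ∀ a : Fin 2, a = 0 ∨ a = 1 := by decide
    rcases this c with rfl | rfl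
    · rw [Pi.single_zero, Pi.single_zero, add_zero]; exact zero_mem _
    · exact h2
  have h2 : f = ∑ j, (Pi.single j (f j) + Pi.single j₀ (f j)) := by
    rw [Finset.sum_add_distrib, Finset.univ_sum_single]
    have h3 : ∑ j, (Pi.single j₀ (f j) : Fin m → Fin 2) = Pi.single j₀ (∑ j, f j) := by
      ext k
      rw [Finset.sum_apply]
      by_cases h : k = j₀
      · subst h; simp
      · simp [h]
    rw [h3, hf, Pi.single_zero, add_zero]
  have h3 : f ∈ A := by
    rw [h2]
    exact sum_mem fun j _ => h1 j (f j)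
  exact h3

theorem KA_eq (Q : Subgroup (Equiv.Perm (Fin m))) (j₀ : Fin m) :
    K Q ⊓ alternatingGroup _ = closure (S Q) := by
  apply le_antisymm
  · rintro _ ⟨⟨f, s, hs, rfl⟩, hA⟩
    refine mul_mem ?_ (subset_closure (Or.inr ⟨s, hs, rfl⟩))
    replace hA : tr f * dg s ∈ alternatingGroup (Fin 2 × Fin m) := hA
    rw [Equiv.Perm.mem_alternatingGroup, map_mul, sign_dg, mul_one] at hA
    have h1 : ∑ j, (f - (Pi.single j₀ (∑ k, f k) : Fin m → Fin 2)) j = 0 := by
      simp
    have h2 := tr_mem Q j₀ _ h1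
    have : ∀ a : Fin 2, a = 0 ∨ a = 1 := by decide
    rcases this (∑ j, f j) with h3 | h3
    · exact tr_mem Q j₀ f h3
    · exfalso
      have h4 : tr f = tr (f - Pi.single j₀ (∑ j, f j)) * tau m j₀ := by
        rw [tau_eq, ← tr_add, h3, sub_add_cancel]
      have h5 := CA Q h2
      rw [Equiv.Perm.mem_alternatingGroup] at h5
      rw [h4, map_mul, h5, sign_tau] at hA
      exact absurd hA (by decide)
  · refine le_inf ?_ (CA Q)
    rw [closure_le]
    rintro _ (⟨i, j, rfl⟩ | ⟨s, hs, rfl⟩)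
    · exact ⟨Pi.single i 1 + Pi.single j 1, 1, one_mem _, by
        rw [dg_one, mul_one, tau_eq, tau_eq, tr_add]⟩
    · exact ⟨0, s, hs, by rw [tr_zero, one_mul]⟩

end

end XG_W2

open XG_W2 in
theorem prf_G_W2 : G_W2 := by
  intro m hm Q
  have hpF : Fact (Nat.Prime 2) := ⟨Nat.prime_two⟩
  have hcQ := Q.card_eq_multiplicity
  rw [Nat.card_perm, Nat.card_eq_fintype_card (α := Fin m), Fintype.card_fin] at hcQ
  let j₀ : Fin m := ⟨0, by omega⟩
  set Q' : Subgroup (Equiv.Perm (Fin m)) := (Q : Subgroup (Equiv.Perm (Fin m))) with hQ'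
  have hcK : Nat.card (K Q') = 2 ^ (m + (m.factorial).factorization 2) := by
    rw [card_K, pow_add]
    congr 1
    rw [Nat.card_eq_fintype_card, Fintype.card_fun, Fintype.card_fin, Fintype.card_fin]
  have hnt : Nontrivial (Fin 2 × Fin m) := by
    refine ⟨⟨((0 : Fin 2), j₀), ((1 : Fin 2), j₀), ?_⟩⟩
    intro h
    exact zero_ne_one (congrArg Prod.fst h)
  have h1 : 2 * Nat.card (Al (Fin 2 × Fin m)) = (2 * m).factorial := by
    rw [two_mul_nat_card_alternatingGroup, Nat.card_perm, Nat.card_prod,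
      Nat.card_eq_fintype_card (α := Fin m), Nat.card_eq_fintype_card (α := Fin 2),
      Fintype.card_fin, Fintype.card_fin]
  have hcA : 1 + (Nat.card (Al (Fin 2 × Fin m))).factorization 2 =
      m + (m.factorial).factorization 2 := by
    have h2 : (2 * Nat.card (Al (Fin 2 × Fin m))).factorization 2 =
        1 + (Nat.card (Al (Fin 2 × Fin m))).factorization 2 := by
      rw [Nat.factorization_mul (by norm_num) Nat.card_pos.ne', Finsupp.add_apply,
        Nat.Prime.factorization_self Nat.prime_two]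
    rw [← h2, h1]
    have h3 := padicValNat_factorial_mul (p := 2) m
    rw [← Nat.factorization_def _ Nat.prime_two, ← Nat.factorization_def _ Nat.prime_two] at h3
    rw [h3, add_comm]
  have hrel : (alternatingGroup (Fin 2 × Fin m)).relIndex (K Q') = 2 := by
    have h2 : (alternatingGroup (Fin 2 × Fin m)).relIndex (K Q') ∣ 2 := by
      have h3 := relIndex_dvd_index_of_normal (alternatingGroup (Fin 2 × Fin m)) (K Q')
      rwa [alternatingGroup.index_eq_two] at h3
    rcases (Nat.dvd_prime Nat.prime_two).1 h2 with h3 | h3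
    · exfalso
      rw [relIndex_eq_one] at h3
      have h4 : tau m j₀ ∈ K Q' := ⟨Pi.single j₀ 1, 1, one_mem _, by
        rw [dg_one, mul_one, tau_eq]⟩
      have h5 := h3 h4
      rw [Equiv.Perm.mem_alternatingGroup, sign_tau] at h5
      exact absurd h5 (by decide)
    · exact h3
  have hcard : 2 * Nat.card ↥((K Q') ⊓ alternatingGroup (Fin 2 × Fin m)) =
      2 ^ (m + (m.factorial).factorization 2) := by
    have h2 := card_mul_index ((alternatingGroup (Fin 2 × Fin m)).subgroupOf (K Q'))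
    have h3 : ((alternatingGroup (Fin 2 × Fin m)).subgroupOf (K Q')).index = 2 := hrel
    have h4 : Nat.card ↥((K Q') ⊓ alternatingGroup (Fin 2 × Fin m)) =
        Nat.card ((alternatingGroup (Fin 2 × Fin m)).subgroupOf (K Q')) := by
      rw [inf_comm]
      exact (Nat.card_congr (subgroupOfEquivOfLe (inf_le_right :
        alternatingGroup (Fin 2 × Fin m) ⊓ K Q' ≤ K Q')).toEquiv).symm.trans
        (by rw [inf_subgroupOf_right])
    rw [h4, ← hcK, ← h2, h3, mul_comm]
  refine ⟨Sylow.ofCard ((K Q' ⊓ alternatingGroup (Fin 2 × Fin m)).subgroupOf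
    (alternatingGroup (Fin 2 × Fin m))) ?_, ?_⟩
  · rw [Nat.card_congr (subgroupOfEquivOfLe inf_le_right).toEquiv]
    apply Nat.eq_of_mul_eq_mul_left (show 0 < 2 by norm_num)
    rw [hcard, ← hcA, pow_add, pow_one]
  · change map _ ((K Q' ⊓ alternatingGroup (Fin 2 × Fin m)).subgroupOf
      (alternatingGroup (Fin 2 × Fin m))) = closure (S Q')
    rw [← KA_eq Q' j₀]
    exact map_subgroupOf_eq_of_le inf_le_right

end Pool.Agent.Work.MP_8aaf67_al.AF
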