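import Pool.Agent.Work.MP_8aaf67_al.AF.I_G_Emb
import Pool.Agent.Work.MP_8aaf67_al.AF.I_G_W2

/-!
# Item G_N6
-/

set_option autoImplicit false

namespace Pool.Agent.Work.MP_8aaf67_al.AF

open Subgroup
open scoped commutatorElement
open Pool.Agent.Work.MP_8aaf67_al.SR (MW val ver Good Qs GV AD VS Fil)

namespace XG_N6

theorem tau_fix {m : ℕ} {i : Fin m} {x : Fin 2 × Fin m} (h : x.2 ≠ i) : tau m i x = x := by
  rw [tau]
  apply Equiv.swap_apply_of_ne_of_ne
  · rintro rfl; exact h rfl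
  · rintro rfl; exact h rfl

theorem tau_zero {m : ℕ} (i : Fin m) : tau m i (0, i) = (1, i) := by
  rw [tau, Equiv.swap_apply_left]

theorem dg_ap {m : ℕ} (s : Equiv.Perm (Fin m)) (x : Fin 2 × Fin m) :
    (dg s : Equiv.Perm (Fin 2 × Fin m)) x = (x.1, s x.2) := rfl

end XG_N6

open XG_Emb XG_N6 in
theorem prf_G_N6 (hEmb : G_Emb) : G_N6 := by
  intro m i j l hij hjl hil hF P x y z hx hy hz hxP hyP hzP w
  set s : Finset (Fin 2 × Fin m) := Finset.univ ×ˢ {i, j, l} with hs
  have hcs : s.card = 6 := by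
    rw [hs, Finset.card_product, Finset.card_univ, Fintype.card_fin]
    rw [Finset.card_eq_three.2 ⟨i, j, l, hij, hil, hjl, rfl⟩]
  have hms : ∀ u : Fin 2 × Fin m, u ∉ s → u.2 ≠ i ∧ u.2 ≠ j ∧ u.2 ≠ l := by
    intro u hu
    refine ⟨?_, ?_, ?_⟩ <;>
    · intro h
      apply hu
      rw [hs, Finset.mem_product]
      exact ⟨Finset.mem_univ _, by simp [h]⟩
  obtain ⟨φ, hφ, hr⟩ := exists_natural (Fin 2 × Fin m) s 6 hcs
  have hsup : ∀ g : Al (Fin 2 × Fin m), (∀ u, u ∉ s → (g : Equiv.Perm (Fin 2 × Fin m)) u = u) →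
      g ∈ φ.range := by
    intro g hg
    rw [hr]
    intro u hu
    by_contra h
    rw [Equiv.Perm.mem_support] at hu
    exact hu (hg u h)
  have hxr : x ∈ φ.range := by
    apply hsup
    intro u hu
    obtain ⟨h1, h2, h3⟩ := hms u hu
    rw [hx, Equiv.Perm.mul_apply, tau_fix h2, tau_fix h1]
  have hyr : y ∈ φ.range := by
    apply hsup
    intro u hu
    obtain ⟨h1, h2, h3⟩ := hms u hu
    rw [hy, Equiv.Perm.mul_apply, tau_fix h3, tau_fix h2]
  have hzr : z ∈ φ.range := by
    apply hsup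
    intro u hu
    obtain ⟨h1, h2, h3⟩ := hms u hu
    rw [hz, dg_ap, Equiv.swap_apply_of_ne_of_ne h1 h2]
  set Q := closure {x, y, z} with hQ
  have hQr : Q ≤ φ.range := by
    rw [hQ, closure_le]
    rintro g (rfl | rfl | rfl)
    · exact hxr
    · exact hyr
    · exact hzr
  have hQP : Q ≤ P := by
    rw [hQ, closure_le]
    rintro g (rfl | rfl | rfl)
    · exact hxP
    · exact hyP
    · exact hzP
  have hxQ : x ∈ Q := subset_closure (by simp)
  have hyQ : y ∈ Q := subset_closure (by simp)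
  have hzQ : z ∈ Q := subset_closure (by simp)
  -- Q is a 2-group
  have hpow : ∃ e, Nat.card Q = 2 ^ e := by
    have hF2 : Fact (Nat.Prime 2) := ⟨Nat.prime_two⟩
    set Z := zpowers (Equiv.swap i j) with hZ
    have hK : IsPGroup 2 (XG_W2.K Z) := by
      apply IsPGroup.of_card (n := m + 1)
      rw [XG_W2.card_K, hZ, Nat.card_zpowers, Nat.card_eq_fintype_card, Fintype.card_fun,
        Fintype.card_fin, Fintype.card_fin, pow_succ]
      congr 1
      apply orderOf_eq_prime
      · rw [pow_two, Equiv.swap_mul_self]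
      · intro h
        have := DFunLike.congr_fun h i
        rw [Equiv.swap_apply_left] at this
        exact hij this.symm
    have hQK : Q.map (alternatingGroup (Fin 2 × Fin m)).subtype ≤ XG_W2.K Z := by
      rw [hQ, MonoidHom.map_closure, closure_le]
      rintro _ ⟨g, hg, rfl⟩
      rcases hg with rfl | rfl | rfl
      · change (g : Equiv.Perm (Fin 2 × Fin m)) ∈ _
        rw [hx]
        exact ⟨Pi.single i 1 + Pi.single j 1, 1, one_mem _, by
          rw [XG_W2.dg_one, mul_one, XG_W2.tau_eq, XG_W2.tau_eq, XG_W2.tr_add]⟩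
      · change (g : Equiv.Perm (Fin 2 × Fin m)) ∈ _
        rw [hy]
        exact ⟨Pi.single j 1 + Pi.single l 1, 1, one_mem _, by
          rw [XG_W2.dg_one, mul_one, XG_W2.tau_eq, XG_W2.tau_eq, XG_W2.tr_add]⟩
      · change (g : Equiv.Perm (Fin 2 × Fin m)) ∈ _
        rw [hz]
        exact ⟨0, Equiv.swap i j, mem_zpowers _, by rw [XG_W2.tr_zero, one_mul]⟩
    have h1 : IsPGroup 2 (Q.map (alternatingGroup (Fin 2 × Fin m)).subtype) := hK.to_le hQK
    have h2 : IsPGroup 2 Q :=
      h1.of_equiv (Q.equivMapOfInjective _ (subtype_injective _)).symm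
    exact IsPGroup.iff_card.1 h2
  obtain ⟨e, he⟩ := hpow
  -- five elements
  have h5 : 5 ≤ Nat.card Q := by
    let F : Fin 5 → Q := ![1, ⟨x, hxQ⟩, ⟨y, hyQ⟩, ⟨x * y, mul_mem hxQ hyQ⟩, ⟨z, hzQ⟩]
    have hFi : Function.Injective F := by
      let V : Q → (Fin 2 × Fin m) × (Fin 2 × Fin m) := fun g =>
        ((g : Al (Fin 2 × Fin m)).1 (0, i), (g : Al (Fin 2 × Fin m)).1 (0, l))
      have v0 : V (F 0) = ((0, i), (0, l)) := rfl
      have v1 : V (F 1) = ((1, i), (0, l)) := by
        change (((x : Equiv.Perm (Fin 2 × Fin m)) (0, i)), ((x : Equiv.Perm (Fin 2 × Fin m)) (0, l)))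
          = _
        rw [hx, Equiv.Perm.mul_apply, Equiv.Perm.mul_apply, tau_fix (i := j) (x := (0, i)) hij,
          tau_zero, tau_fix (i := j) (x := (0, l)) hjl.symm, tau_fix (i := i) (x := (0, l)) hil.symm]
      have v2 : V (F 2) = ((0, i), (1, l)) := by
        change (((y : Equiv.Perm (Fin 2 × Fin m)) (0, i)), ((y : Equiv.Perm (Fin 2 × Fin m)) (0, l)))
          = _
        rw [hy, Equiv.Perm.mul_apply, Equiv.Perm.mul_apply, tau_fix (i := l) (x := (0, i)) hil,
          tau_fix (i := j) (x := (0, i)) hij, tau_zero, tau_fix (i := j) (x := (1, l)) hjl.symm]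
      have v3 : V (F 3) = ((1, i), (1, l)) := by
        change ((((x : Equiv.Perm (Fin 2 × Fin m)) * (y : Equiv.Perm (Fin 2 × Fin m))) (0, i)),
          (((x : Equiv.Perm (Fin 2 × Fin m)) * (y : Equiv.Perm (Fin 2 × Fin m))) (0, l))) = _
        rw [hx, hy]
        simp only [Equiv.Perm.mul_apply]
        rw [tau_fix (i := l) (x := (0, i)) hil, tau_fix (i := j) (x := (0, i)) hij,
          tau_fix (i := j) (x := (0, i)) hij, tau_zero, tau_zero,
          tau_fix (i := j) (x := (1, l)) hjl.symm, tau_fix (i := j) (x := (1, l)) hjl.symm,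
          tau_fix (i := i) (x := (1, l)) hil.symm]
      have v4 : (V (F 4)).1 = (0, j) := by
        change (z : Equiv.Perm (Fin 2 × Fin m)) (0, i) = _
        rw [hz, dg_ap, Equiv.swap_apply_left]
      have v4' : ∀ a b, V (F 4) ≠ ((a, i), b) := by
        intro a b h
        rw [h] at v4
        exact hij (congrArg Prod.snd v4)
      have hW : ∀ a b : Fin 5, V (F a) = V (F b) → a = b := by
        intro a b h
        fin_cases a <;> fin_cases b <;> first | rfl | (exfalso; revert h; simp only [Fin.zero_eta, Fin.mk_one, Fin.reduceFinMk]; first | (rw [v0, v1]; simp) | (rw [v0, v2]; simp) | (rw [v0, v3]; simp) | (rw [v1, v2]; simp) | (rw [v1, v3]; simp) | (rw [v2, v3]; simp) | (rw [v1, v0]; simp) | (rw [v2, v0]; simp) | (rw [v3, v0]; simp) | (rw [v2, v1]; simp) | (rw [v3, v1]; simp) | (rw [v3, v2]; simp) | (rw [v0]; exact v4' _ _) | (rw [v1]; exact v4' _ _) | (rw [v2]; exact v4' _ _) | (rw [v3]; exact v4' _ _) | (rw [v0]; exact fun h => v4' _ _ h.symm) | (rw [v1];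 exact fun h => v4' _ _ h.symm) | (rw [v2]; exact fun h => v4' _ _ h.symm) | (rw [v3]; exact fun h => v4' _ _ h.symm))
      intro a b h
      exact hW a b (by rw [h])
    have := Nat.card_le_card_of_injective F hFi
    rwa [Nat.card_eq_fintype_card, Fintype.card_fin] at this
  have he3 : 3 ≤ e := by
    by_contra h
    have : e ≤ 2 := by omega
    have h6 : 2 ^ e ≤ 2 ^ 2 := Nat.pow_le_pow_right (by norm_num) this
    omega
  have h1 : Nat.card Q * Q.relIndex φ.range = Nat.card φ.range := by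
    have := relIndex_mul_relIndex (⊥ : Subgroup (Al (Fin 2 × Fin m))) Q φ.range bot_le hQr
    rwa [relIndex_bot_left, relIndex_bot_left] at this
  have h2 : Nat.card φ.range = 360 := by
    rw [← Nat.card_congr (φ.ofInjective hφ).toEquiv, nat_card_alternatingGroup,
      Nat.card_eq_fintype_card, Fintype.card_fin]
    decide
  have h3 : ¬ 2 ∣ Q.relIndex φ.range := by
    rintro ⟨c, hc⟩
    obtain ⟨f, rfl⟩ : ∃ f, e = 3 + f := ⟨e - 3, by omega⟩
    rw [h2, he, hc, pow_add] at h1
    have : 16 ∣ 360 := ⟨2 ^ f * c, by rw [← h1]; ring⟩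
    omega
  have hG := hEmb 2 Nat.prime_two 6 (by norm_num) hF (Al (Fin 2 × Fin m)) φ hφ P Q hQr hQP h3 w
  exact ⟨hG hxQ, hG hyQ, hG hzQ⟩

end Pool.Agent.Work.MP_8aaf67_al.AF
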