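import Pool.Agent.Work.MP_8aaf67_al.AF.I_G_Emb

/-!
# Item G_Nat
-/

set_option autoImplicit false

namespace Pool.Agent.Work.MP_8aaf67_al.AF

open Subgroup
open scoped commutatorElement
open Pool.Agent.Work.MP_8aaf67_al.SR (MW val ver Good Qs GV AD VS Fil)

open XG_Emb in
theorem prf_G_Nat (hEmb : G_Emb) : G_Nat := by
  intro p hp k hp2 hk5 hpk hk2 hF Ω _ _ hkΩ P x hxP hx w
  have hpF : Fact p.Prime := ⟨hp⟩
  have hsupp : (x : Equiv.Perm Ω).support.card = p := by
    rw [← Equiv.Perm.sum_cycleType, hx, Multiset.sum_singleton]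
  have hord : orderOf x = p := by
    rw [← orderOf_coe, ← Equiv.Perm.lcm_cycleType, hx]
    simp
  obtain ⟨s, hs1, hs2⟩ := Finset.exists_superset_card_eq
    (s := (x : Equiv.Perm Ω).support) (n := k) (by rw [hsupp]; exact hpk) hkΩ
  obtain ⟨φ, hφ, hr⟩ := exists_natural Ω s k hs2
  have hxr : x ∈ φ.range := (hr x).2 hs1
  have hQr : zpowers x ≤ φ.range := by rw [zpowers_le]; exact hxr
  have hQP : zpowers x ≤ P := by rw [zpowers_le]; exact hxP
  have h1 : Nat.card (zpowers x) * (zpowers x).relIndex φ.range = Nat.card φ.range := by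
    have := relIndex_mul_relIndex (⊥ : Subgroup (Al Ω)) (zpowers x) φ.range bot_le hQr
    rwa [relIndex_bot_left, relIndex_bot_left] at this
  have h2 : Nat.card φ.range = Nat.card (Al (Fin k)) :=
    (Nat.card_congr (φ.ofInjective hφ).toEquiv).symm
  have hnt : Nontrivial (Fin k) := Fin.nontrivial_iff_two_le.2 (by omega)
  have h3 : 2 * Nat.card (Al (Fin k)) = k.factorial := by
    rw [two_mul_nat_card_alternatingGroup, Nat.card_perm, Nat.card_eq_fintype_card,
      Fintype.card_fin]
  have h4 : k.factorial.factorization p = 1 := by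
    rw [Nat.factorization_def _ hp]
    have h5 := padicValNat_factorial_mul_add (p := p) (n := k - p) 1 (by omega)
    rw [mul_one, Nat.add_sub_cancel' hpk] at h5
    rw [h5]
    have h6 := padicValNat_factorial_mul (p := p) 1
    rw [mul_one] at h6
    rw [h6]
    simp
  have h5 : ¬ p ∣ (zpowers x).relIndex φ.range := by
    intro h
    obtain ⟨c, hc⟩ := h
    have h6 : p ^ 2 ∣ k.factorial := by
      rw [← h3, ← h2, ← h1, hc, Nat.card_zpowers, hord]
      exact ⟨2 * c, by ring⟩
    have h7 := (hp.pow_dvd_iff_le_factorization (Nat.factorial_ne_zero k)).1 h6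
    omega
  exact hEmb p hp k hk5 hF (Al Ω) φ hφ P (zpowers x) hQr hQP h5 w (mem_zpowers x)

end Pool.Agent.Work.MP_8aaf67_al.AF
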