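import Pool.Agent.Work.MP_8aaf67_al.AF.StmtsG

/-!
# One Sylow subgroup is enough (item G_One)
-/

set_option autoImplicit false

namespace Pool.Agent.Work.MP_8aaf67_al.AF

open Subgroup
open scoped commutatorElement
open Pool.Agent.Work.MP_8aaf67_al.SR (MW val ver Good Qs GV AD VS Fil)

namespace G_One

section conj

variable {T : Type} [Group T]

/-- conjugation -/
def cj (g : T) : T →* T := (MulAut.conj g).toMonoidHom

theorem cj_apply (g x : T) : cj g x = g * x * g⁻¹ := rfl

theorem cj_inj (g : T) : Function.Injective (cj g) := (MulAut.conj g).injective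

theorem cj_surj (g : T) : Function.Surjective (cj g) := (MulAut.conj g).surjective

theorem clo_pair (g a b : T) : closure {cj g a, cj g b} = (closure {a, b}).map (cj g) := by
  rw [MonoidHom.map_closure, Set.image_pair]

theorem gv (g : T) : ∀ (w : MW) (x : T), x ∈ GV T w → cj g x ∈ GV T w := by
  intro w
  induction w with
  | var => intro x _; exact Set.mem_univ _
  | comm u v hu hv =>
    rintro x ⟨a, ha, b, hb, hc, rfl⟩
    refine ⟨cj g a, hu a ha, cj g b, hv b hb, ?_, map_commutatorElement (cj g) a b⟩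
    rw [clo_pair, hc]
    exact map_top_of_surjective _ (cj_surj g)

theorem fil {p : ℕ} (g : T) {R U : Subgroup T} (h : Fil p R U) :
    Fil p (R.map (cj g)) (U.map (cj g)) := by
  intro M _ _ _ h1 h2 h3 m
  obtain ⟨m₁, hm₁, m₂, hm₂, hm⟩ := h M h1 h2 h3 (g⁻¹ • m)
  refine ⟨g • m₁, ?_, g • m₂, ?_, ?_⟩
  · have e1 : g • m₁ ∈ (AddSubgroup.closure {y : M | ∃ g ∈ U, ∃ x : M, y = g • x - x}).map
        (DistribSMul.toAddMonoidHom M g) := ⟨m₁, hm₁, rfl⟩
    rw [AddMonoidHom.map_closure] at e1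
    refine AddSubgroup.closure_mono ?_ e1
    rintro y ⟨z, ⟨u, hu, x, rfl⟩, rfl⟩
    refine ⟨cj g u, mem_map_of_mem _ hu, g • x, ?_⟩
    show g • (u • x - x) = _
    rw [smul_sub, cj_apply, smul_smul, smul_smul, inv_mul_cancel_right]
  · rintro r ⟨r', hr', rfl⟩
    rw [cj_apply, smul_smul, inv_mul_cancel_right, ← smul_smul, hm₂ r' hr']
  · rw [← smul_add, ← hm, smul_smul, mul_inv_cancel, one_smul]

theorem ad {p : ℕ} (g : T) (v : MW) (t z : T) (h : AD p T v t z) :
    AD p T v (cj g t) (cj g z) := by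
  cases v with
  | var => exact trivial
  | comm u v =>
    obtain ⟨a, ha, b, hb, rfl, hF⟩ := h
    refine ⟨cj g a, gv g u a ha, cj g b, gv g v b hb, map_commutatorElement (cj g) a b, ?_⟩
    rw [clo_pair, ← MonoidHom.map_zpowers]
    exact fil g hF

theorem vs {p : ℕ} (g : T) (P : Subgroup T) : ∀ (w : MW) (x : T), x ∈ VS p P w →
    cj g x ∈ VS p (P.map (cj g)) w := by
  have key : ∀ y t : T, cj g t * cj g y * (cj g t)⁻¹ = cj g (t * y * t⁻¹) := by
    intro y t
    rw [map_mul, map_mul, map_inv]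
  intro w
  induction w with
  | var => intro x hx; exact mem_map_of_mem (cj g) hx
  | comm u v hu hv =>
    rintro x (⟨y, hy, t, ht, hA, rfl⟩ | ⟨y, hy, t, ht, hA, rfl⟩)
    · refine Or.inl ⟨cj g y, hu y hy, cj g t, ?_, ?_, map_commutatorElement (cj g) y t⟩
      · rw [key]
        exact mem_map_of_mem (cj g) ht
      · rw [key]
        exact ad g v t _ hA
    · refine Or.inr ⟨cj g y, hv y hy, cj g t, ?_, ?_, map_commutatorElement (cj g) t y⟩
      · rw [key]
        exact mem_map_of_mem (cj g) ht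
      · rw [key]
        exact ad g u t _ hA

end conj

theorem yg {p : ℕ} {Y Y' : Type} [Group Y] [Group Y'] (e : Y ≃* Y') (h : YG p Y) : YG p Y' := by
  intro Z _ _ f hf hk w
  have hker : (e.symm.toMonoidHom.comp f).ker = f.ker := by
    ext z
    rw [MonoidHom.mem_ker, MonoidHom.mem_ker, MonoidHom.comp_apply]
    exact e.symm.map_eq_one_iff
  refine h Z (e.symm.toMonoidHom.comp f) (e.symm.surjective.comp hf) ?_ w
  rw [hker]
  exact hk

theorem comm_top {Y Y' : Type} [Group Y] [Group Y'] (e : Y ≃* Y') (h : commutator Y = ⊤) :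
    commutator Y' = ⊤ := by
  have h1 := map_commutator (⊤ : Subgroup Y) ⊤ e.toMonoidHom
  have h2 : (⊤ : Subgroup Y).map e.toMonoidHom = ⊤ := map_top_of_surjective _ e.surjective
  have h3 : ⁅(⊤ : Subgroup Y), (⊤ : Subgroup Y)⁆ = ⊤ := h
  rw [h3, h2] at h1
  exact h1.symm

theorem ga {p : ℕ} {T : Type} [Group T] (g : T) (w : MW) (P : Subgroup T) (x : T)
    (hx : x ∈ GA p w P) : cj g x ∈ GA p w (P.map (cj g)) := by
  rcases hx with ⟨Y, Q, hY, hc, hQY, hQP, hd, hxQ⟩ | ⟨R, L, hRP, hL, hLL, hx⟩ | hx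
  · have e : Y ≃* Y.map (cj g) := Y.equivMapOfInjective (cj g) (cj_inj g)
    refine Or.inl ⟨Y.map (cj g), Q.map (cj g), yg e hY, comm_top e hc, map_mono hQY,
      map_mono hQP, ?_, mem_map_of_mem _ hxQ⟩
    rw [relIndex_map_map_of_injective _ _ (cj_inj g)]
    exact hd
  · refine Or.inr (Or.inl ⟨R.map (cj g), L.map (cj g), map_mono hRP, ?_, ?_, ?_⟩)
    · rw [← map_normalizer_eq_of_bijective R ⟨cj_inj g, cj_surj g⟩]
      exact map_mono hL
    · rw [← map_commutator, hLL]
    · rw [← map_commutator]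
      exact mem_map_of_mem _ hx
  · exact Or.inr (Or.inr (vs g P w x hx))

end G_One

open G_One in
theorem prf_G_One : G_One := by
  intro p hp T _ _ w P₀ h P
  have : Fact p.Prime := ⟨hp⟩
  obtain ⟨g, hg⟩ := MulAction.exists_smul_eq T P₀ P
  have hP : (P : Subgroup T) = (P₀ : Subgroup T).map (cj g) := by
    rw [← hg]
    rfl
  rw [hP]
  calc (P₀ : Subgroup T).map (cj g) ≤ (closure (GA p w (P₀ : Subgroup T))).map (cj g) :=
        map_mono h
    _ = closure (cj g '' GA p w (P₀ : Subgroup T)) := MonoidHom.map_closure _ _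
    _ ≤ closure (GA p w ((P₀ : Subgroup T).map (cj g))) := by
        apply Subgroup.closure_mono
        rintro _ ⟨x, hx, rfl⟩
        exact ga g w _ x hx

end Pool.Agent.Work.MP_8aaf67_al.AF
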