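import Pool.Agent.Work.MP_8aaf67_al.AF.StmtsG

/-!
# Item G_P1: the alternating group of prime degree p congruent 1 modulo 4

The general part is copied from `I_G_P3.lean` (helper32).
-/

set_option autoImplicit false

namespace Pool.Agent.Work.MP_8aaf67_al.AF

open Subgroup
open scoped commutatorElement
open Pool.Agent.Work.MP_8aaf67_al.SR (MW val ver Good Qs GV AD VS Fil)

namespace G_P1

theorem cycleType_two {α : Type} [Fintype α] [DecidableEq α] (t : Equiv.Perm α) (k : ℕ)
    (h : t ^ 2 = 1) (hs : t.support.card = 2 * k) : t.cycleType = two k := by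
  have h1 : ∀ n ∈ t.cycleType, n = 2 := by
    intro n hn
    have h2 := Equiv.Perm.two_le_of_mem_cycleType hn
    have h3 : n ∣ 2 := (Equiv.Perm.dvd_of_mem_cycleType hn).trans (orderOf_dvd_of_pow_eq_one h)
    have h4 := Nat.le_of_dvd two_pos h3
    omega
  have h2 : t.cycleType = Multiset.replicate (Multiset.card t.cycleType) 2 :=
    Multiset.eq_replicate.2 ⟨rfl, h1⟩
  have h3 : t.cycleType.sum = 2 * k := by rw [Equiv.Perm.sum_cycleType, hs]
  have h4 : Multiset.card t.cycleType = k := by
    rw [h2, Multiset.sum_replicate, smul_eq_mul] at h3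
    omega
  rw [h2, h4]
  rfl

theorem even_two {α : Type} [Fintype α] [DecidableEq α] (t : Equiv.Perm α) (k : ℕ)
    (hk : Even k) (h : t.cycleType = two k) : Equiv.Perm.sign t = 1 := by
  rw [Equiv.Perm.sign_of_cycleType, h]
  unfold two
  rw [Multiset.sum_replicate, Multiset.card_replicate, smul_eq_mul]
  exact Even.neg_one_pow ((Even.mul_left (by decide : Even 2) k).add hk)

/-- an element of odd order is even -/
theorem even_of_odd {α : Type} [Fintype α] [DecidableEq α] (t : Equiv.Perm α) (m : ℕ)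
    (hm : Odd m) (h : t ^ m = 1) : Equiv.Perm.sign t = 1 := by
  have h1 : Equiv.Perm.sign t ^ m = 1 := by rw [← map_pow, h, map_one]
  rcases Int.units_eq_one_or (Equiv.Perm.sign t) with h2 | h2
  · exact h2
  · rw [h2, Odd.neg_one_pow hm] at h1
    exact absurd h1 (by decide)

section
variable (p : ℕ) [Fact p.Prime]

/-- some numbering -/
noncomputable def e : ZMod p ≃ Fin p := Fintype.equivFinOfCardEq (ZMod.card p)

/-- translations -/
noncomputable def tr (c : ZMod p) : Equiv.Perm (Fin p) := (e p).permCongr (Equiv.addRight c)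

theorem tr_apply (c : ZMod p) (x : Fin p) : tr p c x = e p ((e p).symm x + c) := rfl

theorem tr_add (c d : ZMod p) : tr p (c + d) = tr p c * tr p d := by
  ext x
  rw [Equiv.Perm.mul_apply, tr_apply, tr_apply, tr_apply, Equiv.symm_apply_apply]
  congr 2
  ring

theorem tr_zero : tr p 0 = 1 := by
  ext x
  rw [tr_apply, add_zero, Equiv.apply_symm_apply]
  rfl

theorem tr_inj {c d : ZMod p} (h : tr p c = tr p d) : c = d := by
  have h1 := DFunLike.congr_fun h (e p 0)
  rw [tr_apply, tr_apply, Equiv.symm_apply_apply] at h1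
  have h2 := (e p).injective h1
  simpa using h2

theorem tr_nsmul (c : ZMod p) (k : ℕ) : tr p (k • c) = tr p c ^ k := by
  induction k with
  | zero => rw [zero_smul, tr_zero, pow_zero]
  | succ k ih => rw [succ_nsmul, tr_add, ih, pow_succ]

/-- multiplications -/
noncomputable def ml (u : (ZMod p)ˣ) : Equiv.Perm (Fin p) := (e p).permCongr (Units.mulLeft u)

theorem ml_apply (u : (ZMod p)ˣ) (x : Fin p) : ml p u x = e p ((u : ZMod p) * (e p).symm x) := rfl

theorem ml_mul (u v : (ZMod p)ˣ) : ml p (u * v) = ml p u * ml p v := by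
  ext x
  rw [Equiv.Perm.mul_apply, ml_apply, ml_apply, ml_apply, Equiv.symm_apply_apply, Units.val_mul,
    mul_assoc]

theorem ml_one : ml p 1 = 1 := by
  ext x
  rw [ml_apply, Units.val_one, one_mul, Equiv.apply_symm_apply]
  rfl

theorem ml_pow (u : (ZMod p)ˣ) (k : ℕ) : ml p (u ^ k) = ml p u ^ k := by
  induction k with
  | zero => rw [pow_zero, pow_zero, ml_one]
  | succ k ih => rw [pow_succ, ml_mul, ih, pow_succ]

theorem conj (u : (ZMod p)ˣ) (c : ZMod p) : ml p u * tr p c * (ml p u)⁻¹ = tr p ((u : ZMod p) * c) := by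
  rw [mul_inv_eq_iff_eq_mul]
  ext x
  rw [Equiv.Perm.mul_apply, Equiv.Perm.mul_apply, ml_apply, tr_apply, ml_apply, tr_apply,
    Equiv.symm_apply_apply, Equiv.symm_apply_apply]
  congr 2
  ring

theorem ml_fix (u : (ZMod p)ˣ) (x : Fin p) (hx : (e p).symm x ≠ 0) : ml p u x = x ↔ u = 1 := by
  rw [ml_apply]
  constructor
  · intro h
    have h1 := congrArg (e p).symm h
    rw [Equiv.symm_apply_apply] at h1
    ext
    rw [Units.val_one]
    exact mul_right_cancel₀ hx (h1.trans (one_mul _).symm)
  · rintro rfl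
    rw [Units.val_one, one_mul, Equiv.apply_symm_apply]

theorem ml_cycleType (u : (ZMod p)ˣ) (m : ℕ) (hp : p = 2 * m + 1)
    (hu1 : u ≠ 1) (hu2 : u ^ 2 = 1) : (ml p u).cycleType = two m := by
  have hmove : ∀ x, ml p u x ≠ x ↔ (e p).symm x ≠ 0 := by
    intro x
    constructor
    · intro h h0
      apply h
      rw [ml_apply, h0, mul_zero, ← h0, Equiv.apply_symm_apply]
    · intro h h1
      exact hu1 ((ml_fix p u x h).1 h1)
  apply cycleType_two _ m
  · rw [← ml_pow, hu2, ml_one]
  · have h1 : (ml p u).support = Finset.univ.erase (e p 0) := by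
      ext x
      rw [Equiv.Perm.mem_support, hmove, Finset.mem_erase]
      constructor
      · intro h
        refine ⟨fun h' => h ?_, Finset.mem_univ _⟩
        rw [h', Equiv.symm_apply_apply]
      · rintro ⟨h, -⟩ h'
        apply h
        rw [← h', Equiv.apply_symm_apply]
    rw [h1, Finset.card_erase_of_mem (Finset.mem_univ _), Finset.card_univ, Fintype.card_fin]
    omega

/-- even translations -/
noncomputable def TT (hodd : Odd p) : Multiplicative (ZMod p) →* alternatingGroup (Fin p) where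
  toFun c := ⟨tr p c.toAdd, Equiv.Perm.mem_alternatingGroup.2
    (even_of_odd _ p hodd (by rw [← tr_nsmul]; simp [tr_zero]))⟩
  map_one' := Subtype.ext (tr_zero p)
  map_mul' c d := Subtype.ext (tr_add p _ _)

theorem TT_coe (hodd : Odd p) (c : Multiplicative (ZMod p)) :
    ((TT p hodd c : alternatingGroup (Fin p)) : Equiv.Perm (Fin p)) = tr p c.toAdd := rfl

theorem TT_inj (hodd : Odd p) : Function.Injective (TT p hodd) := by
  intro c d h
  have h1 := congrArg (fun x : alternatingGroup (Fin p) => (x : Equiv.Perm (Fin p))) h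
  exact tr_inj p h1

theorem card_range (hodd : Odd p) : Nat.card (TT p hodd).range = p := by
  rw [← Nat.card_congr (MonoidHom.ofInjective (TT_inj p hodd)).toEquiv,
    Nat.card_congr (Multiplicative.toAdd (α := ZMod p)), Nat.card_zmod]

theorem index_range (hodd : Odd p) : ¬ p ∣ (TT p hodd).range.index := by
  have hp := (Fact.out : p.Prime)
  have : Nontrivial (Fin p) := Fin.nontrivial_iff_two_le.2 hp.two_le
  have h1 := (TT p hodd).range.card_mul_index
  rw [card_range] at h1
  have h2 := two_mul_nat_card_alternatingGroup (α := Fin p)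
  rw [← h1, Nat.card_perm, Nat.card_fin] at h2
  intro hd
  obtain ⟨n, hn⟩ : ∃ n, p = n + 1 := ⟨p - 1, by have := hp.pos; omega⟩
  have h3 : Nat.factorial p = p * Nat.factorial (p - 1) := by
    rw [hn, Nat.factorial_succ]; rfl
  rw [h3] at h2
  have h4 : 2 * (TT p hodd).range.index = Nat.factorial (p - 1) := by
    apply Nat.eq_of_mul_eq_mul_left hp.pos
    rw [← h2]; ring
  have h5 : p ∣ Nat.factorial (p - 1) := by
    rw [← h4]; exact hd.mul_left 2
  have h6 := (Nat.Prime.dvd_factorial hp).1 h5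
  have := hp.pos
  omega

end

end G_P1

open G_P1 in
/-- Item [G_P1] -/
theorem prf_G_P1 (hVS : G_VS) (hFG : G_FG) (hXT : G_XT) : G_P1 := by
  intro p hp h5 h4 hxt
  have : Fact p.Prime := ⟨hp⟩
  have hodd : Odd p := Nat.odd_iff.2 (by omega)
  obtain ⟨m, hm⟩ : ∃ m, m = (p - 1) / 2 := ⟨_, rfl⟩
  have hpm : p = 2 * m + 1 := by omega
  have hmeven : Even m := Nat.even_iff.2 (by omega)
  rw [← hm] at hxt
  obtain ⟨X, hX, hXmem⟩ := hXT p _ hxt
  obtain ⟨u, hu⟩ : ∃ u : (ZMod p)ˣ, u = -1 := ⟨_, rfl⟩
  have huv : (u : ZMod p) = -1 := by rw [hu, Units.val_neg, Units.val_one]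
  have h20 : (2 : ZMod p) ≠ 0 := by
    have h1 : ((2 : ℕ) : ZMod p) ≠ 0 := by
      rw [Ne, ZMod.natCast_eq_zero_iff]
      intro hd
      have := Nat.le_of_dvd two_pos hd
      omega
    exact_mod_cast h1
  have hu1' : (1 : ZMod p) - (u : ZMod p) ≠ 0 := by
    rw [huv, sub_neg_eq_add, one_add_one_eq_two]
    exact h20
  have hu1 : u ≠ 1 := by
    intro h
    apply hu1'
    rw [h, Units.val_one, sub_self]
  have hu2 : u ^ 2 = 1 := by
    rw [hu]
    exact neg_one_sq
  have hct := ml_cycleType p u m hpm hu1 hu2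
  have hteven : Equiv.Perm.sign (ml p u) = 1 := even_two _ m hmeven hct
  set t : Al (Fin p) := ⟨ml p u, Equiv.Perm.mem_alternatingGroup.2 hteven⟩ with ht
  have htX : t ∈ X := hXmem t hct
  set P : Subgroup (Al (Fin p)) := (TT p hodd).range with hP
  have hPp : IsPGroup p P := IsPGroup.of_card (n := 1) (by rw [pow_one, hP, card_range])
  have hvs : ∀ w : MW, (P : Set (Al (Fin p))) ⊆ VS p P w := by
    refine hVS p hp (Al (Fin p)) X (P : Set (Al (Fin p))) P hPp hX subset_rfl ?_
    rintro z ⟨d, rfl⟩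
    set c : ZMod p := (1 - (u : ZMod p))⁻¹ * d.toAdd with hc
    have hcd : c - (u : ZMod p) * c = d.toAdd := by
      have h1 : c - (u : ZMod p) * c = (1 - (u : ZMod p)) * c := by ring
      rw [h1, hc, ← mul_assoc, mul_inv_cancel₀ hu1', one_mul]
    have hconj : t * TT p hodd (Multiplicative.ofAdd c) * t⁻¹ =
        TT p hodd (Multiplicative.ofAdd ((u : ZMod p) * c)) := by
      apply Subtype.ext
      exact conj p u c
    refine ⟨TT p hodd (Multiplicative.ofAdd c), ⟨_, rfl⟩, t, htX, ?_, ?_⟩
    · rw [hconj]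
      exact ⟨_, rfl⟩
    · rw [commutatorElement_def]
      have h2 : TT p hodd (Multiplicative.ofAdd c) * t * (TT p hodd (Multiplicative.ofAdd c))⁻¹ *
          t⁻¹ = TT p hodd (Multiplicative.ofAdd c) *
          (t * TT p hodd (Multiplicative.ofAdd c) * t⁻¹)⁻¹ := by group
      rw [h2, hconj, ← map_inv, ← map_mul]
      congr 1
      apply Multiplicative.toAdd.injective
      rw [← hcd]
      show _ = c + -((u : ZMod p) * c)
      ring
  refine hFG p hp (Al (Fin p)) (hPp.toSylow (index_range p hodd)) fun w => ?_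
  rw [IsPGroup.toSylow_coe]
  intro x hx
  exact subset_closure (Or.inr (Or.inr (hvs w hx)))

end Pool.Agent.Work.MP_8aaf67_al.AF
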