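import Pool.Agent.Work.MP_8aaf67_al.AF.StmtsG

/-!
# MP_8aaf67_al, block AF, item G_Rot (helper37)
-/

set_option autoImplicit false

namespace Pool.Agent.Work.MP_8aaf67_al.AF

open Subgroup
open scoped commutatorElement

namespace G_Rot

theorem rot_apply (p m : ℕ) (j : Fin m) (x : ZMod p × Fin m) :
    rot p m j x = if x.2 = j then (x.1 + 1, x.2) else x := rfl

theorem rot_pow (p m : ℕ) (j : Fin m) (k : ℕ) (x : ZMod p × Fin m) :
    (rot p m j ^ k) x = if x.2 = j then (x.1 + k, x.2) else x := by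
  induction k with
  | zero =>
    rw [pow_zero, Equiv.Perm.one_apply, Nat.cast_zero, add_zero]
    split_ifs <;> rfl
  | succ k ih =>
    rw [pow_succ', Equiv.Perm.mul_apply, ih]
    by_cases h : x.2 = j
    · rw [if_pos h, if_pos h, rot_apply]
      show (if x.2 = j then (x.1 + k + 1, x.2) else (x.1 + k, x.2)) = _
      rw [if_pos h, Nat.cast_succ, add_assoc]
    · rw [if_neg h, if_neg h, rot_apply, if_neg h]

end G_Rot

open G_Rot in
theorem prf_G_Rot : G_Rot := by
  intro p _ hp m j _
  have hF : Fact p.Prime := ⟨hp⟩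
  have hne : ∀ y : ZMod p × Fin m, rot p m j y ≠ y → y.2 = j := by
    intro y hy
    by_contra h
    exact hy (by rw [rot_apply, if_neg h])
  have h0 : rot p m j (0, j) ≠ (0, j) := by
    rw [rot_apply, if_pos rfl]
    intro h
    have h1 : (0 : ZMod p) + 1 = 0 := congrArg Prod.fst h
    rw [zero_add] at h1
    exact one_ne_zero h1
  have hc : (rot p m j).IsCycle := by
    refine ⟨(0, j), h0, fun y hy => ⟨(y.1.val : ℤ), ?_⟩⟩
    rw [zpow_natCast, rot_pow, if_pos rfl]
    refine Prod.ext ?_ (hne y hy).symm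
    show (0 : ZMod p) + (y.1.val : ZMod p) = y.1
    rw [zero_add, ZMod.natCast_zmod_val]
  have ho : orderOf (rot p m j) = p := by
    refine orderOf_eq_prime ?_ ?_
    · ext1 x
      rw [rot_pow, ZMod.natCast_self, add_zero, Equiv.Perm.one_apply]
      split_ifs <;> rfl
    · intro h
      exact h0 (by rw [h, Equiv.Perm.one_apply])
  rw [hc.cycleType, ← hc.orderOf, ho]

end Pool.Agent.Work.MP_8aaf67_al.AF
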