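import Pool.Agent.Work.MP_8aaf67_al.AF.StmtsG

/-!
# Alternating composition factors: step 1
-/

set_option autoImplicit false

namespace Pool.Agent.Work.MP_8aaf67_al.AF

open Subgroup
open scoped commutatorElement
open Pool.Agent.Work.MP_8aaf67_al.SR (MW val ver Good Qs GV AD VS Fil)

namespace G_S1

/-- The natural homomorphism of the alternating group of degree `k` to the one of degree `k + 1`. -/
def nat (k : ℕ) : Al (Fin k) →* Al (Fin (k + 1)) :=
  ((Equiv.Perm.extendDomainHom (finSuccAboveEquiv (Fin.last k))).comp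
    (alternatingGroup (Fin k)).subtype).codRestrict (alternatingGroup (Fin (k + 1))) fun x =>
      Equiv.Perm.mem_alternatingGroup.2
        ((Equiv.Perm.sign_extendDomain (x : Equiv.Perm (Fin k))
          (finSuccAboveEquiv (Fin.last k))).trans
          (Equiv.Perm.mem_alternatingGroup.1 x.2))

theorem nat_injective (k : ℕ) : Function.Injective (nat k) := by
  intro x y h
  have h1 := congrArg (fun z : Al (Fin (k + 1)) => (z : Equiv.Perm (Fin (k + 1)))) h
  exact Subtype.ext (Equiv.Perm.extendDomainHom_injective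
    (finSuccAboveEquiv (Fin.last k)) h1)

theorem card_succ (k : ℕ) (hk : 2 ≤ k) :
    Nat.card (Al (Fin (k + 1))) = (k + 1) * Nat.card (Al (Fin k)) := by
  have : Nontrivial (Fin k) := Fin.nontrivial_iff_two_le.2 hk
  have : Nontrivial (Fin (k + 1)) := Fin.nontrivial_iff_two_le.2 (by omega)
  have h1 := two_mul_nat_card_alternatingGroup (α := Fin k)
  have h2 := two_mul_nat_card_alternatingGroup (α := Fin (k + 1))
  rw [Nat.card_perm, Nat.card_fin] at h1 h2
  rw [Nat.factorial_succ, ← h1] at h2
  have h3 : 2 * Nat.card (Al (Fin (k + 1))) = 2 * ((k + 1) * Nat.card (Al (Fin k))) := by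
    rw [h2]
    ring
  exact Nat.eq_of_mul_eq_mul_left two_pos h3

end G_S1

open G_S1 in
theorem prf_G_S1 (hFG : G_FG) (hEmb : G_Emb) : G_S1 := by
  intro p hp n hn hpn h
  obtain ⟨k, rfl⟩ : ∃ k, n = k + 1 := ⟨n - 1, by omega⟩
  have h' : FG p (Al (Fin k)) := h
  have hk : 5 ≤ k := by omega
  have : Fact p.Prime := ⟨hp⟩
  obtain ⟨Q₀⟩ : Nonempty (Sylow p (Al (Fin k))) := inferInstance
  have hinj := nat_injective k
  have hc : (nat k).range.index = k + 1 := by
    have h1 := (nat k).range.card_mul_index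
    rw [← Nat.card_congr (MonoidHom.ofInjective hinj).toEquiv, card_succ k (by omega),
      mul_comm] at h1
    exact Nat.eq_of_mul_eq_mul_right Nat.card_pos h1
  have hidx : ¬ p ∣ ((Q₀ : Subgroup (Al (Fin k))).map (nat k)).index := by
    rw [Subgroup.index_map_of_injective _ hinj, hc]
    intro hd
    rcases (Nat.Prime.dvd_mul hp).1 hd with hd | hd
    · exact Q₀.not_dvd_index hd
    · exact hpn hd
  have hpg : IsPGroup p ((Q₀ : Subgroup (Al (Fin k))).map (nat k)) := Q₀.isPGroup'.map _
  refine hFG p hp _ (hpg.toSylow hidx) fun w => ?_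
  refine Set.Subset.trans ?_ Subgroup.subset_closure
  refine hEmb p hp k hk h' _ (nat k) hinj _ _ ?_ le_rfl ?_ w
  · exact (Subgroup.map_le_range _ _)
  · rw [MonoidHom.range_eq_map]
    show ¬ p ∣ ((Q₀ : Subgroup (Al (Fin k))).map (nat k)).relIndex (Subgroup.map (nat k) ⊤)
    rw [Subgroup.relIndex_map_map_of_injective _ _ hinj, Subgroup.relIndex_top_right]
    exact Q₀.not_dvd_index

end Pool.Agent.Work.MP_8aaf67_al.AF
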