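import Pool.Agent.Work.MP_8aaf67_al.AF.StmtsG

/-!
# Item G_S2
-/

set_option autoImplicit false

namespace Pool.Agent.Work.MP_8aaf67_al.AF

open Subgroup
open scoped commutatorElement
open Pool.Agent.Work.MP_8aaf67_al.SR (MW val ver Good Qs GV AD VS Fil)

namespace XG_S2

/-- Generation from generators in the symmetric group. -/
theorem le_of_gen {Ω : Type} [Fintype Ω] [DecidableEq Ω] (P C : Subgroup (Al Ω))
    (S : Set (Equiv.Perm Ω)) (h : P.map (alternatingGroup Ω).subtype = closure S)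
    (h2 : ∀ g ∈ S, g ∈ C.map (alternatingGroup Ω).subtype) : P ≤ C := by
  have key : P.map (alternatingGroup Ω).subtype ≤ C.map (alternatingGroup Ω).subtype := by
    rw [h, closure_le]
    exact h2
  intro x hx
  obtain ⟨x', hx', h3⟩ := key (mem_map_of_mem (alternatingGroup Ω).subtype hx)
  have : x' = x := Subtype.ext h3
  rwa [this] at hx'

theorem odd_even {Ω : Type} [Fintype Ω] [DecidableEq Ω] (p : ℕ) (hp : p.Prime) (hp2 : p ≠ 2)
    (Q : Subgroup (Equiv.Perm Ω)) (hQ : IsPGroup p Q) (s : Equiv.Perm Ω) (hs : s ∈ Q) :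
    s ∈ alternatingGroup Ω := by
  obtain ⟨k, hk⟩ := hQ ⟨s, hs⟩
  have h1 : s ^ (p ^ k) = 1 := congrArg Subtype.val hk
  rw [Equiv.Perm.mem_alternatingGroup]
  have h3 : (Equiv.Perm.sign s) ^ (p ^ k) = 1 := by rw [← map_pow, h1, map_one]
  rcases Int.units_eq_one_or (Equiv.Perm.sign s) with h2 | h2
  · exact h2
  · rw [h2, ((hp.odd_of_ne_two hp2).pow).neg_one_pow] at h3
    exact absurd h3 (by decide)

end XG_S2

open XG_S2 in
theorem prf_G_S2 (hFG : G_FG) (hIso : G_Iso) (hW : G_W) (hRot : G_Rot) (hNat : G_Nat)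
    (hDg : G_Dg) : G_S2 := by
  intro p hp m k hp2 hm hk5 hpk hk2 hkm hF hmm
  have hpF : Fact p.Prime := ⟨hp⟩
  have hne : NeZero p := ⟨hp.pos.ne'⟩
  obtain ⟨Q⟩ : Nonempty (Sylow p (Equiv.Perm (Fin m))) := inferInstance
  obtain ⟨P, hP⟩ := hW p hp m hp2 (by omega) Q
  have hcard : Fintype.card (ZMod p × Fin m) = Fintype.card (Fin (p * m)) := by
    rw [Fintype.card_prod, ZMod.card, Fintype.card_fin, Fintype.card_fin]
  refine hIso p (Al (ZMod p × Fin m)) (Al (Fin (p * m)))
    ⟨(Fintype.equivOfCardEq hcard).altCongrHom⟩ (hFG p hp _ P fun w => ?_)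
  apply le_of_gen _ _ _ hP
  rintro g (⟨j, rfl⟩ | ⟨s, hs, rfl⟩)
  · have h1 : rot p m j ∈ (P : Subgroup (Al (ZMod p × Fin m))).map
        (alternatingGroup (ZMod p × Fin m)).subtype := by
      rw [hP]; exact subset_closure (Or.inl ⟨j, rfl⟩)
    obtain ⟨x, hx, h⟩ := h1
    have hx' : (x : Equiv.Perm (ZMod p × Fin m)) = rot p m j := h
    refine ⟨x, subset_closure ?_, h⟩
    refine hNat p hp k hp2 hk5 hpk hk2 hF (ZMod p × Fin m) ?_ P x hx
      (by rw [hx']; exact hRot p hp m j hp2) w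
    rw [Fintype.card_prod, ZMod.card, Fintype.card_fin]
    exact hkm
  · rcases hmm with hmp | ⟨hm5, hFm⟩
    · have h1 : Nat.card Q = 1 := by
        rw [Q.card_eq_multiplicity, Nat.card_perm, Nat.card_eq_fintype_card, Fintype.card_fin,
          Nat.factorization_eq_zero_of_not_dvd, pow_zero]
        rw [hp.dvd_factorial]
        omega
      have h2 : (Q : Subgroup (Equiv.Perm (Fin m))) = ⊥ := Subgroup.eq_bot_of_card_eq _ h1
      rw [h2, mem_bot] at hs
      subst hs
      exact ⟨1, one_mem _, rfl⟩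
    · have hse : s ∈ alternatingGroup (Fin m) := odd_even p hp hp2 _ Q.isPGroup' s hs
      have h1 : dg s ∈ (P : Subgroup (Al (ZMod p × Fin m))).map
          (alternatingGroup (ZMod p × Fin m)).subtype := by
        rw [hP]; exact subset_closure (Or.inr ⟨s, hs, rfl⟩)
      obtain ⟨x, hx, h⟩ := h1
      refine ⟨x, subset_closure ?_, h⟩
      refine hDg p hp m hm5 hFm (ZMod p) Q P ?_ s hs hse x h w
      intro t ht hte y hy
      have h2 : dg t ∈ (P : Subgroup (Al (ZMod p × Fin m))).map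
          (alternatingGroup (ZMod p × Fin m)).subtype := by
        rw [hP]; exact subset_closure (Or.inr ⟨t, ht, rfl⟩)
      obtain ⟨y', hy', h'⟩ := h2
      have : y' = y := Subtype.ext (h'.trans hy.symm)
      rwa [this] at hy'

end Pool.Agent.Work.MP_8aaf67_al.AF
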