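import Pool.Agent.Work.MP_8aaf67_al.AF.StmtsG

/-!
# Item G_Str: the strong criterion
-/

set_option autoImplicit false

namespace Pool.Agent.Work.MP_8aaf67_al.AF

open Subgroup
open scoped commutatorElement
open Pool.Agent.Work.MP_8aaf67_al.SR (MW val ver Good Qs GV AD VS Fil)

namespace G_Str

open Pool.Agent.Work.MP_8aaf67_al.SR

section

variable {p : ℕ} [hp : Fact p.Prime] {E T : Type} [Group E] [Group T] [Finite E]

/-- Case (a): the extension of `Y` inside `E` is good. -/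
theorem caseA' (π : E →* T) (hπ : Function.Surjective π)
    (hpK : ¬ p ∣ Nat.card π.ker) (w : MW)
    (S : Sylow p E) (Y Q : Subgroup T) (hgood : Good p (Y.comap π) w) (hQY : Q ≤ Y)
    (hQS : Q ≤ (S : Subgroup E).map π) (hQ : ¬ p ∣ Q.relIndex Y) (x : T) (hxQ : x ∈ Q)
    (hx : x ∈ (ver Y w).map Y.subtype) : x ∈ (Qs w (S : Subgroup E)).map π := by
  obtain ⟨Y', hY', hg⟩ : ∃ Y' : Subgroup E, Y' = Y.comap π ∧ Good p Y' w := ⟨_, rfl, hgood⟩
  obtain ⟨Q', hQ'⟩ : ∃ Q', Q' = (S : Subgroup E) ⊓ Q.comap π := ⟨_, rfl⟩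
  have hQ'S : Q' ≤ (S : Subgroup E) := by rw [hQ']; exact inf_le_left
  have hQ'Q : Q' ≤ Q.comap π := by rw [hQ']; exact inf_le_right
  have hQY' : Q' ≤ Y' := by rw [hY']; exact hQ'Q.trans (comap_mono hQY)
  have hQ'p : IsPGroup p Q' := S.isPGroup'.to_le hQ'S
  have hsyl : IsSyl p Q' Y' := by
    refine ⟨hQY', hQ'p, ?_⟩
    have h1 : Q.comap π ≤ Q' ⊔ π.ker := by
      intro e he
      obtain ⟨s, hs, hse⟩ := hQS (show π e ∈ Q from he)
      have h2 : s⁻¹ * e ∈ π.ker := by rw [MonoidHom.mem_ker, map_mul, map_inv, hse, inv_mul_cancel]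
      have h3 : e = s * (s⁻¹ * e) := by group
      rw [h3]
      refine mul_mem_sup ?_ h2
      rw [hQ']
      refine ⟨hs, ?_⟩
      show π s ∈ Q
      rw [hse]; exact he
    have h2 := relIndex_mul_relIndex Q' (Q.comap π) Y' hQ'Q (by rw [hY']; exact comap_mono hQY)
    have h3 : (Q.comap π).relIndex Y' = Q.relIndex Y := by
      rw [relIndex_comap, hY', map_comap_eq_self_of_surjective hπ]
    have h4 : Q'.relIndex (Q.comap π) ∣ Nat.card π.ker := by
      have h5 : Q'.relIndex (Q.comap π) ∣ Q'.relIndex (Q' ⊔ π.ker) :=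
        ⟨_, (relIndex_mul_relIndex Q' (Q.comap π) (Q' ⊔ π.ker) hQ'Q h1).symm⟩
      have h6 := relIndex_mul_relIndex (Q' ⊓ π.ker) π.ker (Q' ⊔ π.ker) inf_le_right le_sup_right
      have h7 := relIndex_mul_relIndex (Q' ⊓ π.ker) Q' (Q' ⊔ π.ker) inf_le_left le_sup_left
      rw [inf_relIndex_left] at h7
      rw [relIndex_sup_right] at h6
      have h8 : π.ker.relIndex Q' ≠ 0 := by
        have := relIndex_dvd_card π.ker Q'
        intro h0
        rw [h0, zero_dvd_iff] at this
        exact Nat.card_pos.ne' this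
      have h9 : (Q' ⊓ π.ker).relIndex π.ker = Q'.relIndex (Q' ⊔ π.ker) := by
        apply Nat.eq_of_mul_eq_mul_right (Nat.pos_of_ne_zero h8)
        rw [h6, ← h7, mul_comm]
      rw [← h9] at h5
      exact h5.trans (relIndex_dvd_card _ _)
    rw [h3] at h2
    rw [← h2]
    intro h
    rcases hp.out.dvd_mul.1 h with h | h
    · exact hpK (h.trans h4)
    · exact hQ h
  -- the Sylow subgroup of `Y'`
  obtain ⟨P, hP⟩ : ∃ P : Sylow p Y', (P : Subgroup Y') = Q'.subgroupOf Y' :=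
    ⟨(hQ'p.comap_subtype : IsPGroup p (Q'.subgroupOf Y')).toSylow (by exact hsyl.2.2), by simp⟩
  obtain ⟨x', hx'S, hx'⟩ := hQS hxQ
  have hx'Q : x' ∈ Q' := by
    rw [hQ']
    exact ⟨hx'S, by show π x' ∈ Q; rw [hx']; exact hxQ⟩
  have hx'Y : x' ∈ Y' := hQY' hx'Q
  -- it lies in `w(Y')`
  obtain ⟨y, hy, hyx⟩ := hx
  have hver : (⟨x', hx'Y⟩ : Y') ∈ ver Y' w := by
    subst hY'
    have h1 := ver_map (π.subgroupComap Y) (MonoidHom.subgroupComap_surjective_of_surjective π Y hπ) w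
    rw [← h1] at hy
    obtain ⟨z, hz, hzy⟩ := hy
    have h2 : π z = x := by
      rw [← hyx, ← hzy]; rfl
    have h3 : (z : E)⁻¹ * x' ∈ π.ker := by
      rw [MonoidHom.mem_ker, map_mul, map_inv, h2, hx', inv_mul_cancel]
    rw [← QuotientGroup.eq_one_iff, ← orderOf_eq_one_iff]
    obtain ⟨k, hk⟩ := S.isPGroup' ⟨x', hx'S⟩
    have h4 : x' ^ p ^ k = 1 := congrArg (fun z : (S : Subgroup E) => (z : E)) hk
    have h5 : (QuotientGroup.mk ⟨x', hx'Y⟩ : Y.comap π ⧸ ver (Y.comap π) w) ^ p ^ k = 1 := by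
      rw [← QuotientGroup.mk_pow]
      have : (⟨x', hx'Y⟩ : Y.comap π) ^ p ^ k = 1 := Subtype.ext h4
      rw [this]; rfl
    have h6 : ((z : E)⁻¹ * x') ^ Nat.card π.ker = 1 := by
      have := pow_card_eq_one' (x := (⟨(z : E)⁻¹ * x', h3⟩ : π.ker))
      exact congrArg (fun z : π.ker => (z : E)) this
    have h7 : (QuotientGroup.mk ⟨x', hx'Y⟩ : Y.comap π ⧸ ver (Y.comap π) w) ^ Nat.card π.ker = 1 := by
      have h8 : (QuotientGroup.mk ⟨x', hx'Y⟩ : Y.comap π ⧸ ver (Y.comap π) w) =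
          QuotientGroup.mk (z⁻¹ * ⟨x', hx'Y⟩) := by
        rw [QuotientGroup.mk_mul, QuotientGroup.mk_inv, (QuotientGroup.eq_one_iff z).2 hz]
        simp
      rw [h8, ← QuotientGroup.mk_pow]
      have : (z⁻¹ * ⟨x', hx'Y⟩ : Y.comap π) ^ Nat.card π.ker = 1 := Subtype.ext h6
      rw [this]; rfl
    exact Nat.eq_one_of_dvd_coprimes (Nat.Coprime.pow_left k
      ((Nat.Prime.coprime_iff_not_dvd hp.out).2 hpK)) (orderOf_dvd_of_pow_eq_one h5)
      (orderOf_dvd_of_pow_eq_one h7)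
  have h1 := hg P ⟨show (⟨x', hx'Y⟩ : Y') ∈ (P : Subgroup Y') by rw [hP]; exact hx'Q, hver⟩
  have h2 := Qs_map w Y'.subtype _ (mem_map_of_mem Y'.subtype h1)
  rw [hP, map_subgroupOf_eq_of_le hQY'] at h2
  exact ⟨x', Qs_mono w hQ'S h2, hx'⟩

omit hp in
/-- A perfect subgroup lies in every verbal subgroup. -/
theorem perfect_le {N : Type*} [Group N] (L : Subgroup N) (hL : ⁅L, L⁆ = L) (w : MW) :
    L ≤ ver N w := by
  induction w with
  | var =>
    intro x _
    rw [ver, val, Subgroup.closure_univ]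
    exact mem_top x
  | comm u v hu hv =>
    rw [ver_comm]
    calc L = ⁅L, L⁆ := hL.symm
      _ ≤ ⁅ver N u, ver N v⁆ := commutator_mono hu hv

end

end G_Str

open G_Str in
/-- **G_Str.** -/
theorem prf_G_Str : G_Str := by
  intro p hp T _ _ w hT E _ _ π hπ hE hK hpK
  haveI : Fact p.Prime := ⟨hp⟩
  intro S
  rw [SR.ver_perfect E hE, inf_top_eq]
  have hS1 := hT (S.mapSurjective hπ)
  rw [Sylow.coe_mapSurjective] at hS1
  have key : GA p w ((S : Subgroup E).map π) ⊆ (Qs w (S : Subgroup E)).map π := by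
    rintro x (⟨Y, Q, hYG, hYp, hQY, hQS, hQ, hxQ⟩ | ⟨R, L, hR, hL, hLL, hx⟩ | h1)
    · -- case (a)
      have hgood : Good p (Y.comap π) w := by
        refine hYG (Y.comap π) (π.subgroupComap Y)
          (MonoidHom.subgroupComap_surjective_of_surjective π Y hπ) ?_ w
        intro hdvd
        apply hpK
        refine hdvd.trans ?_
        -- the kernel embeds into the kernel of `π`
        have hmem : ∀ z : (π.subgroupComap Y).ker, ((z : Y.comap π) : E) ∈ π.ker := by
          intro z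
          have hz := z.2
          rw [MonoidHom.mem_ker] at hz ⊢
          exact congrArg (fun t : Y => (t : T)) hz
        refine Subgroup.card_dvd_of_injective
          (((Y.comap π).subtype.comp (π.subgroupComap Y).ker.subtype).codRestrict π.ker hmem) ?_
        intro a b hab
        have h1 : ((a : Y.comap π) : E) = ((b : Y.comap π) : E) :=
          congrArg (fun t : π.ker => (t : E)) hab
        exact Subtype.ext (Subtype.ext h1)
      refine caseA' π hπ hpK w S Y Q hgood hQY hQS hQ x hxQ ?_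
      rw [SR.ver_perfect Y hYp]
      exact ⟨⟨x, hQY hxQ⟩, mem_top _, rfl⟩
    · -- case (b)
      have h1 := SR.caseC π hπ hpK w S R hR
      refine h1 (commutator_mono le_rfl ?_ hx)
      have h2 : ⁅L.subgroupOf (normalizer (R : Set T)), L.subgroupOf (normalizer (R : Set T))⁆ =
          L.subgroupOf (normalizer (R : Set T)) := by
        apply Subgroup.map_injective (normalizer (R : Set T)).subtype_injective
        rw [map_commutator, map_subgroupOf_eq_of_le hL, hLL]
      have h3 := Subgroup.map_mono (f := (normalizer (R : Set T)).subtype)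
        (perfect_le (L.subgroupOf (normalizer (R : Set T))) h2 w)
      rw [map_subgroupOf_eq_of_le hL] at h3
      exact h3
    · -- case (c)
      obtain ⟨x', hx'S, hx'⟩ := SR.VS_sub _ w h1
      exact ⟨x', Subgroup.subset_closure
        ⟨SR.caseB π hπ hK hpK S w x h1 x' hx'S hx', hx'S⟩, hx'⟩
  intro x hx
  have h1 : π x ∈ (Qs w (S : Subgroup E)).map π :=
    ((hS1.trans ((closure_le _).2 key)) (mem_map_of_mem π hx))
  obtain ⟨y, hy, hyx⟩ := h1
  rw [← SR.inj_on π hpK S.isPGroup' y (SR.Qs_le w _ hy) x hx hyx]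
  exact hy

end Pool.Agent.Work.MP_8aaf67_al.AF
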