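import Pool.Agent.Work.MP_8aaf67_al.AF.StmtsG

/-!
# Theorem AF, item G_VS (helper30)
-/

set_option autoImplicit false

namespace Pool.Agent.Work.MP_8aaf67_al.AF

open Subgroup
open scoped commutatorElement
open Pool.Agent.Work.MP_8aaf67_al.SR (MW val ver Good Qs GV AD VS Fil)

theorem prf_G_VS : G_VS := by
  intro p hp T _ _ X Z P hP hX hZP hZ w
  have : Fact p.Prime := ⟨hp⟩
  induction w with
  | var => exact hZP
  | comm u v hu _ =>
    intro z hz
    obtain ⟨y, hy, t, ht, hty, rfl⟩ := hZ z hz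
    refine Or.inl ⟨y, hu hy, t, hty, ?_, rfl⟩
    cases v with
    | var => exact trivial
    | comm v1 v2 =>
      obtain ⟨a, ha, b, hb, hab, htab⟩ := hX t ht
      refine ⟨a, SR.GV_of X hX v1 ha, b, SR.GV_of X hX v2 hb, htab, ?_⟩
      apply SR.fil_of_le
      · exact hP.to_le ((zpowers_le).2 hty)
      · rw [hab]
        exact le_top

end Pool.Agent.Work.MP_8aaf67_al.AF
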