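import Pool.Agent.Work.MP_8aaf67_al.AF.StmtsG

/-!
# Item G_XT: closed sets from cycle types
-/

set_option autoImplicit false

namespace Pool.Agent.Work.MP_8aaf67_al.AF

open Subgroup
open scoped commutatorElement

theorem prf_G_XT : G_XT := by
  classical
  rintro n τ ⟨Ty, hτ, hTy⟩
  refine ⟨{x | (x : Equiv.Perm (Fin n)).cycleType ∈ Ty}, ?_, ?_⟩
  · intro t ht
    obtain ⟨α, hα, β, hβ, a, b, ha, hb, haα, hbβ, hab, hcl⟩ := hTy _ ht
    have hconj : IsConj (⁅b, a⁆ : Equiv.Perm (Fin n)) (t : Equiv.Perm (Fin n)) :=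
      Equiv.Perm.isConj_iff_cycleType_eq.mpr hab
    obtain ⟨g, hg⟩ := isConj_iff.mp hconj
    have hnA : (alternatingGroup (Fin n)).Normal := inferInstance
    have hb' : g * b * g⁻¹ ∈ alternatingGroup (Fin n) := hnA.conj_mem b hb g
    have ha' : g * a * g⁻¹ ∈ alternatingGroup (Fin n) := hnA.conj_mem a ha g
    refine ⟨⟨g * b * g⁻¹, hb'⟩, ?_, ⟨g * a * g⁻¹, ha'⟩, ?_, ?_, ?_⟩
    · show (g * b * g⁻¹).cycleType ∈ Ty
      rw [Equiv.Perm.cycleType_conj, hbβ]
      exact hβ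
    · show (g * a * g⁻¹).cycleType ∈ Ty
      rw [Equiv.Perm.cycleType_conj, haα]
      exact hα
    · rw [eq_top_iff]
      rintro ⟨y, hy⟩ -
      have h1 : g⁻¹ * y * g⁻¹⁻¹ ∈ alternatingGroup (Fin n) := hnA.conj_mem y hy g⁻¹
      have h2 : (MulAut.conj g).toMonoidHom (g⁻¹ * y * g⁻¹⁻¹) ∈
          (closure {a, b}).map (MulAut.conj g).toMonoidHom :=
        Subgroup.mem_map_of_mem _ (hcl h1)
      have h3 : (MulAut.conj g).toMonoidHom (g⁻¹ * y * g⁻¹⁻¹) = y := by
        show g * (g⁻¹ * y * g⁻¹⁻¹) * g⁻¹ = y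
        group
      have h4 : (closure {a, b}).map (MulAut.conj g).toMonoidHom =
          (closure ({⟨g * b * g⁻¹, hb'⟩, ⟨g * a * g⁻¹, ha'⟩} : Set (Al (Fin n)))).map
            (alternatingGroup (Fin n)).subtype := by
        rw [MonoidHom.map_closure, MonoidHom.map_closure, Set.image_pair, Set.image_pair,
          Set.pair_comm]
        rfl
      rw [h3, h4] at h2
      obtain ⟨z, hz, hzy⟩ := h2
      have h5 : z = ⟨y, hy⟩ := Subtype.ext hzy
      rw [← h5]
      exact hz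
    · apply Subtype.ext
      show (t : Equiv.Perm (Fin n)) = ⁅g * b * g⁻¹, g * a * g⁻¹⁆
      rw [← hg, commutatorElement_def, commutatorElement_def]
      group
  · intro x hx
    show (x : Equiv.Perm (Fin n)).cycleType ∈ Ty
    rw [hx]
    exact hτ

end Pool.Agent.Work.MP_8aaf67_al.AF
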