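import Pool.Agent.Work.MP_8aaf67_al.AF.StmtsG

/-!
# Item G_YG
-/

set_option autoImplicit false

namespace Pool.Agent.Work.MP_8aaf67_al.AF

open Subgroup
open scoped commutatorElement
open Pool.Agent.Work.MP_8aaf67_al.SR (MW val ver Good Qs GV AD VS Fil)

theorem prf_G_YG (hCF : G_CF) (hIso : G_Iso) : G_YG := by
  intro p hp Y _ _ hY hY2 hF Z _ _ f hf hk
  apply hCF p hp Z
  intro N hN H _ g hg hH hab hpH
  have hNt : Nontrivial H := hH.toNontrivial
  -- the image of the kernel
  set K := f.ker.subgroupOf N with hK
  have h1 : (K.map g).Normal := (inferInstance : K.Normal).map g hg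
  have h2 : K.map g = ⊥ := by
    rcases h1.eq_bot_or_eq_top with h | h
    · exact h
    · exfalso
      have h3 : Nat.card (K.map g) ∣ Nat.card K := card_map_dvd K g
      have h4 : Nat.card K ∣ Nat.card f.ker := by
        have := card_comap_dvd_of_injective f.ker N.subtype N.subtype_injective
        exact this
      rw [h, card_top] at h3
      exact hk (hpH.trans (h3.trans h4))
  have h3 : K ≤ g.ker := by
    rwa [Subgroup.map_eq_bot_iff] at h2
  have hM : (N.map f).IsSubnormal := hN.map hf
  rcases hM.eq_bot_or_top_of_isSimpleGroup hY with h4 | h4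
  · exfalso
    rw [Subgroup.map_eq_bot_iff] at h4
    have h5 : ∀ x : N, g x = 1 := fun x => h3 (show x ∈ K from h4 x.2)
    obtain ⟨a, b, hne⟩ := hab
    obtain ⟨a', rfl⟩ := hg a
    obtain ⟨b', rfl⟩ := hg b
    rw [h5, h5] at hne
    exact hne rfl
  · set f' : N →* Y := f.comp N.subtype with hf'
    have hfs : Function.Surjective f' := by
      intro y
      have : y ∈ N.map f := by rw [h4]; exact mem_top y
      obtain ⟨x, hx, rfl⟩ := this
      exact ⟨⟨x, hx⟩, rfl⟩
    have hker : f'.ker ≤ g.ker := by
      intro x hx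
      apply h3
      exact hx
    set h : Y →* H := f'.liftOfSurjective hfs ⟨g, hker⟩ with hh
    have hcomp : ∀ x : N, h (f' x) = g x := by
      intro x
      rw [hh]
      exact MonoidHom.liftOfRightInverse_comp_apply f' _ _ ⟨g, hker⟩ x
    have hsur : Function.Surjective h := by
      intro y
      obtain ⟨x, rfl⟩ := hg y
      exact ⟨f' x, hcomp x⟩
    have hbot : h.ker = ⊥ := by
      rcases (inferInstance : h.ker.Normal).eq_bot_or_eq_top with h5 | h5
      · exact h5
      · exfalso
        obtain ⟨a, b, hne⟩ := hab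
        obtain ⟨a', rfl⟩ := hsur a
        obtain ⟨b', rfl⟩ := hsur b
        have e1 : ∀ y : Y, h y = 1 := by
          intro y
          have : y ∈ h.ker := by rw [h5]; exact mem_top y
          exact this
        rw [e1, e1] at hne
        exact hne rfl
    have hinj : Function.Injective h := by rwa [← MonoidHom.ker_eq_bot_iff]
    exact hIso p Y H ⟨MulEquiv.ofBijective h ⟨hinj, hsur⟩⟩ hF

end Pool.Agent.Work.MP_8aaf67_al.AF
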