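import Pool.Agent.Work.MP_8aaf67_al.AF.StmtsG
import Pool.Agent.Work.MP_8aaf67_al.AF.StmtsC

/-!
# Item X_11: the closed set `{5, 5}` for `n = 11`

The points are renamed so that `a * b` is the shift; then `C_Gp` gives the generation.
-/

set_option autoImplicit false

namespace Pool.Agent.Work.MP_8aaf67_al.AF

open scoped commutatorElement

namespace X_11

theorem five (σ : Equiv.Perm (Fin 11)) (x : Fin 11) (hx : σ x ≠ x)
    (h : ∀ y, σ y ≠ y → ∃ i : Fin 5, (σ ^ (i : ℕ)) x = y) (hs : σ.support.card = 5) :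
    σ.cycleType = {5} := by
  have hc : σ.IsCycle := ⟨x, hx, fun y hy => by
    obtain ⟨i, hi⟩ := h y hy
    exact ⟨(i : ℕ), by rw [zpow_natCast]; exact hi⟩⟩
  rw [hc.cycleType, hs]

theorem two5 (σ c d : Equiv.Perm (Fin 11)) (hc : c.cycleType = {5}) (hd : d.cycleType = {5})
    (h : Equiv.Perm.Disjoint c d) (he : σ = c * d) : σ.cycleType = {5, 5} := by
  rw [he, h.cycleType_mul, hc, hd]
  rfl

theorem even (σ : Equiv.Perm (Fin 11)) (h : σ.cycleType = {5, 5}) :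
    σ ∈ alternatingGroup (Fin 11) := by
  rw [Equiv.Perm.mem_alternatingGroup, Equiv.Perm.sign_of_cycleType, h]
  decide

def a : Equiv.Perm (Fin 11) :=
  ⟨![1, 7, 5, 9, 10, 4, 6, 3, 2, 0, 8], ![9, 0, 8, 7, 5, 2, 6, 1, 10, 3, 4], by decide, by decide⟩

def a1 : Equiv.Perm (Fin 11) :=
  ⟨![1, 7, 2, 9, 4, 5, 6, 3, 8, 0, 10], ![9, 0, 2, 7, 4, 5, 6, 1, 8, 3, 10], by decide, by decide⟩

theorem a1_type : a1.cycleType = {5} :=
  five a1 0 (by decide) (by decide) (by decide)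

def a2 : Equiv.Perm (Fin 11) :=
  ⟨![0, 1, 5, 3, 10, 4, 6, 7, 2, 9, 8], ![0, 1, 8, 3, 5, 2, 6, 7, 10, 9, 4], by decide, by decide⟩

theorem a2_type : a2.cycleType = {5} :=
  five a2 2 (by decide) (by decide) (by decide)

def b : Equiv.Perm (Fin 11) :=
  ⟨![0, 8, 7, 5, 2, 6, 1, 10, 3, 4, 9], ![0, 6, 4, 8, 9, 3, 5, 2, 1, 10, 7], by decide, by decide⟩

def b1 : Equiv.Perm (Fin 11) :=
  ⟨![0, 8, 2, 5, 4, 6, 1, 7, 3, 9, 10], ![0, 6, 2, 8, 4, 3, 5, 7, 1, 9, 10], by decide, by decide⟩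

theorem b1_type : b1.cycleType = {5} :=
  five b1 1 (by decide) (by decide) (by decide)

def b2 : Equiv.Perm (Fin 11) :=
  ⟨![0, 1, 7, 3, 2, 5, 6, 10, 8, 4, 9], ![0, 1, 4, 3, 9, 5, 6, 2, 8, 10, 7], by decide, by decide⟩

theorem b2_type : b2.cycleType = {5} :=
  five b2 2 (by decide) (by decide) (by decide)

def c1 : Equiv.Perm (Fin 11) :=
  ⟨![3, 1, 10, 6, 4, 5, 2, 7, 8, 9, 0], ![10, 1, 6, 0, 4, 5, 3, 7, 8, 9, 2], by decide, by decide⟩

theorem c1_type : c1.cycleType = {5} :=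
  five c1 0 (by decide) (by decide) (by decide)

def c2 : Equiv.Perm (Fin 11) :=
  ⟨![0, 8, 2, 3, 4, 9, 6, 1, 5, 7, 10], ![0, 7, 2, 3, 4, 8, 6, 9, 1, 5, 10], by decide, by decide⟩

theorem c2_type : c2.cycleType = {5} :=
  five c2 1 (by decide) (by decide) (by decide)

theorem a_type : a.cycleType = {5, 5} :=
  two5 a a1 a2 a1_type a2_type (fun x => by revert x; decide) (by decide)

theorem b_type : b.cycleType = {5, 5} :=
  two5 b b1 b2 b1_type b2_type (fun x => by revert x; decide) (by decide)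

theorem c_type : (⁅b, a⁆ : Equiv.Perm (Fin 11)).cycleType = {5, 5} :=
  two5 _ c1 c2 c1_type c2_type (fun x => by revert x; decide) (by decide)

theorem shift : Is 11 (fa 11) (a * b) := by
  intro x
  revert x
  decide

theorem g_three : ((a * b⁻¹) ^ 4).IsThreeCycle := by
  rw [← card_support_eq_three_iff]
  decide

end X_11

/-- **X_11** -/
theorem prf_X_11 (hGp : C_Gp) : X_11 := by
  refine ⟨{{5, 5}}, by simp, ?_⟩
  intro σ hσ
  rw [Set.mem_singleton_iff] at hσ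
  subst hσ
  refine ⟨{5, 5}, by simp, {5, 5}, by simp, X_11.a, X_11.b, X_11.even _ X_11.a_type,
    X_11.even _ X_11.b_type, X_11.a_type, X_11.b_type, X_11.c_type, ?_⟩
  have ha : X_11.a ∈ Subgroup.closure {X_11.a, X_11.b} := Subgroup.subset_closure (by simp)
  have hb : X_11.b ∈ Subgroup.closure {X_11.a, X_11.b} := Subgroup.subset_closure (by simp)
  exact hGp 11 _ (X_11.a * X_11.b) _ (by norm_num) X_11.shift (mul_mem ha hb)
    (pow_mem (mul_mem ha (inv_mem hb)) 4) X_11.g_three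

end Pool.Agent.Work.MP_8aaf67_al.AF
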