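import Pool.Agent.Work.MP_8aaf67_al.AF.StmtsG
import Pool.Agent.Work.MP_8aaf67_al.AF.StmtsC

/-!
# Item X_13: the closed set `{13}, 2^6` for `n = 13`
-/

set_option autoImplicit false

namespace Pool.Agent.Work.MP_8aaf67_al.AF

open scoped commutatorElement

namespace X_13

/-- a permutation with a single orbit, visited from `0` -/
theorem type13 (σ : Equiv.Perm (Fin 13)) (h : ∀ x : Fin 13, ∃ i : Fin 13, (σ ^ (i : ℕ)) 0 = x) :
    σ.cycleType = {13} := by
  have hs : ∀ x, σ.SameCycle 0 x := by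
    intro x
    obtain ⟨i, hi⟩ := h x
    exact ⟨(i : ℕ), by rw [zpow_natCast]; exact hi⟩
  have hne : ∀ x, σ x ≠ x := by
    intro x hx
    have h0 : ∀ y, σ.SameCycle x y := fun y => (hs x).symm.trans (hs y)
    have h1 : ∀ y, y = x := by
      intro y
      obtain ⟨i, hi⟩ := h0 y
      rw [← hi]
      exact Equiv.Perm.zpow_apply_eq_self_of_apply_eq_self hx i
    have h2 := (h1 0).trans (h1 1).symm
    exact absurd h2 (by decide)
  have hc : σ.IsCycle := ⟨0, hne 0, fun y _ => hs y⟩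
  rw [hc.cycleType]
  congr 1
  have h3 : σ.support = Finset.univ := by
    ext x
    simp [Equiv.Perm.mem_support, hne x]
  rw [h3]
  rfl

theorem even13 (σ : Equiv.Perm (Fin 13)) (h : σ.cycleType = {13}) :
    σ ∈ alternatingGroup (Fin 13) := by
  rw [Equiv.Perm.mem_alternatingGroup, Equiv.Perm.sign_of_cycleType, h]
  decide

/-- an involution with one fixed point -/
theorem typeTwo (σ : Equiv.Perm (Fin 13)) (h : ∀ x, σ (σ x) = x) (h0 : σ.support.card = 12) :
    σ.cycleType = two 6 := by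
  have h2 : σ ^ 2 = 1 := by
    ext x
    rw [pow_two, Equiv.Perm.mul_apply, h x]
    rfl
  have h1 : σ ≠ 1 := by
    rintro rfl
    simp at h0
  have ho : orderOf σ = 2 := orderOf_eq_prime h2 h1
  obtain ⟨k, hk⟩ := Equiv.Perm.cycleType_prime_order (σ := σ) (by rw [ho]; exact Nat.prime_two)
  rw [ho] at hk
  have hs := Equiv.Perm.sum_cycleType σ
  rw [hk, h0, Multiset.sum_replicate, smul_eq_mul] at hs
  have hk6 : k + 1 = 6 := by omega
  rw [hk, hk6]
  rfl

/-- the shift -/
def a : Equiv.Perm (Fin 13) :=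
  ⟨![1, 2, 3, 4, 5, 6, 7, 8, 9, 10, 11, 12, 0], ![12, 0, 1, 2, 3, 4, 5, 6, 7, 8, 9, 10, 11],
    by decide, by decide⟩

def b : Equiv.Perm (Fin 13) :=
  ⟨![9, 0, 5, 8, 10, 4, 11, 2, 1, 6, 12, 7, 3], ![1, 8, 7, 12, 5, 2, 9, 11, 3, 0, 4, 6, 10],
    by decide, by decide⟩

def b' : Equiv.Perm (Fin 13) :=
  ⟨![6, 3, 11, 12, 10, 4, 8, 2, 7, 5, 1, 9, 0], ![12, 10, 7, 1, 5, 9, 0, 8, 6, 11, 4, 2, 3],
    by decide, by decide⟩

theorem a_type : a.cycleType = {13} := type13 a (by decide +kernel)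
theorem b_type : b.cycleType = {13} := type13 b (by decide +kernel)
theorem b'_type : b'.cycleType = {13} := type13 b' (by decide +kernel)
theorem c_type : (⁅b, a⁆ : Equiv.Perm (Fin 13)).cycleType = {13} := type13 _ (by decide +kernel)

theorem a_is : Is 13 (fa 13) a := by
  intro x
  revert x
  decide

theorem g_three : ((a * b⁻¹) ^ 8).IsThreeCycle := by
  rw [← card_support_eq_three_iff]
  decide +kernel

theorem g'_three : ((a * b' * b') ^ 8).IsThreeCycle := by
  rw [← card_support_eq_three_iff]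
  decide +kernel

theorem c'_type : (⁅b', a⁆ : Equiv.Perm (Fin 13)).cycleType = two 6 :=
  typeTwo _ (by decide +kernel) (by decide +kernel)

theorem gen (hGp : C_Gp) (d g : Equiv.Perm (Fin 13)) (hg : g ∈ Subgroup.closure {a, d})
    (h3 : g.IsThreeCycle) : alternatingGroup (Fin 13) ≤ Subgroup.closure {a, d} :=
  hGp 13 _ a g (by decide) a_is (Subgroup.subset_closure (by simp)) hg h3

theorem mem_a (d : Equiv.Perm (Fin 13)) : a ∈ Subgroup.closure {a, d} :=
  Subgroup.subset_closure (by simp)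

theorem mem_d (d : Equiv.Perm (Fin 13)) : d ∈ Subgroup.closure {a, d} :=
  Subgroup.subset_closure (by simp)

end X_13

/-- **X_13** -/
theorem prf_X_13 (hGp : C_Gp) : X_13 := by
  refine ⟨{{13}, two 6}, by simp, ?_⟩
  intro σ hσ
  rw [Set.mem_insert_iff, Set.mem_singleton_iff] at hσ
  rcases hσ with rfl | rfl
  · refine ⟨{13}, by simp, {13}, by simp, X_13.a, X_13.b, X_13.even13 _ X_13.a_type,
      X_13.even13 _ X_13.b_type, X_13.a_type, X_13.b_type, X_13.c_type, ?_⟩
    exact X_13.gen hGp _ _ (pow_mem (mul_mem (X_13.mem_a _) (inv_mem (X_13.mem_d _))) 8)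
      X_13.g_three
  · refine ⟨{13}, by simp, {13}, by simp, X_13.a, X_13.b', X_13.even13 _ X_13.a_type,
      X_13.even13 _ X_13.b'_type, X_13.a_type, X_13.b'_type, X_13.c'_type, ?_⟩
    exact X_13.gen hGp _ _ (pow_mem (mul_mem (mul_mem (X_13.mem_a _) (X_13.mem_d _))
      (X_13.mem_d _)) 8) X_13.g'_three

end Pool.Agent.Work.MP_8aaf67_al.AF
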