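import Pool.Agent.Work.MP_8aaf67_al.AF.StmtsG
import Pool.Agent.Work.MP_8aaf67_al.AF.StmtsC

/-!
# A closed set of cycle types for `n = 19` (item X_19)
-/

set_option autoImplicit false

namespace Pool.Agent.Work.MP_8aaf67_al.AF

open scoped commutatorElement

namespace X_19

theorem is_pow {n : ℕ} {f : ℕ → ℕ} {σ : Equiv.Perm (Fin n)} (h : Is n f σ) (k : ℕ) :
    Is n (f^[k]) (σ ^ k) := by
  intro x
  induction k with
  | zero => rfl
  | succ k ih =>
    rw [pow_succ', Equiv.Perm.mul_apply, h, ih, Function.iterate_succ_apply']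

theorem is_mul {n : ℕ} {f g : ℕ → ℕ} {a b : Equiv.Perm (Fin n)} (ha : Is n f a) (hb : Is n g b) :
    Is n (fun x => f (g x)) (a * b) := by
  intro x
  rw [Equiv.Perm.mul_apply, ha, hb]

theorem same {n : ℕ} {f : ℕ → ℕ} {σ : Equiv.Perm (Fin n)} (h : Is n f σ) {x y : Fin n}
    (hk : ∃ k < n, f^[k] x = y) : σ.SameCycle x y := by
  obtain ⟨k, -, hk⟩ := hk
  refine ⟨k, ?_⟩
  rw [zpow_natCast]
  apply Fin.ext
  rw [is_pow h]
  exact hk

theorem even19 {σ : Equiv.Perm (Fin 19)} (h : σ.cycleType = {19}) :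
    σ ∈ alternatingGroup (Fin 19) := by
  rw [Equiv.Perm.mem_alternatingGroup, Equiv.Perm.sign_of_cycleType, h, Multiset.sum_singleton,
    Multiset.card_singleton]
  decide

theorem three {n : ℕ} {G : ℕ → ℕ} {g : Equiv.Perm (Fin n)} (h : Is n G g) (u v w : Fin n)
    (huv : u ≠ v) (huw : u ≠ w) (hvw : v ≠ w)
    (hG : ∀ x : Fin n, (G x = x ↔ (x ≠ u ∧ x ≠ v ∧ x ≠ w))) : g.IsThreeCycle := by
  rw [← card_support_eq_three_iff, Finset.card_eq_three]
  refine ⟨u, v, w, huv, huw, hvw, ?_⟩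
  ext x
  rw [Equiv.Perm.mem_support]
  simp only [Finset.mem_insert, Finset.mem_singleton]
  have h1 : g x = x ↔ G x = x := by
    rw [← h x]
    exact Fin.ext_iff
  rw [ne_eq, h1, hG x]
  tauto

/-- the second generator of the first pair and its inverse -/
def b1 (x : ℕ) : ℕ := [16, 0, 7, 15, 18, 6, 12, 14, 17, 3, 9, 5, 1, 10, 4, 8, 13, 2, 11].getD x 0
def b1i (x : ℕ) : ℕ := [1, 12, 17, 9, 14, 11, 5, 2, 15, 10, 13, 18, 6, 16, 7, 3, 0, 8, 4].getD x 0

/-- the second generator of the second pair and its inverse -/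
def b2 (x : ℕ) : ℕ := [4, 9, 8, 10, 5, 12, 0, 18, 14, 6, 11, 2, 13, 15, 16, 3, 7, 1, 17].getD x 0
def b2i (x : ℕ) : ℕ := [6, 17, 11, 15, 0, 4, 9, 16, 2, 1, 3, 10, 5, 12, 8, 13, 14, 18, 7].getD x 0

end X_19

open X_19 in
theorem prf_X_19 (hEx : C_Ex) (hCom : C_Com) (hTc : C_Tc) (hTm : C_Tm) (hGp : C_Gp) : X_19 := by
  obtain ⟨a, ha, ha'⟩ := hEx 19 (fa 19) (fa1 19) (by decide +kernel) (by decide +kernel)
    (by decide +kernel) (by decide +kernel)
  obtain ⟨b, hb, hb'⟩ := hEx 19 b1 b1i (by decide +kernel) (by decide +kernel)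
    (by decide +kernel) (by decide +kernel)
  obtain ⟨c, hc, hc'⟩ := hEx 19 b2 b2i (by decide +kernel) (by decide +kernel)
    (by decide +kernel) (by decide +kernel)
  have hab := hCom 19 _ _ _ _ a b ha ha' hb hb'
  have hac := hCom 19 _ _ _ _ a c ha ha' hc hc'
  have hpr : Nat.Prime 19 := by norm_num
  -- cycle types
  have ta : a.cycleType = {19} := hTc 19 a 0 (by norm_num) fun x => same ha
    ((by decide +kernel : ∀ x : Fin 19, ∃ k < 19, (fa 19)^[k] (0 : Fin 19) = x) x)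
  have tb : b.cycleType = {19} := hTc 19 b 0 (by norm_num) fun x => same hb
    ((by decide +kernel : ∀ x : Fin 19, ∃ k < 19, b1^[k] (0 : Fin 19) = x) x)
  have tc : c.cycleType = {19} := hTc 19 c 0 (by norm_num) fun x => same hc
    ((by decide +kernel : ∀ x : Fin 19, ∃ k < 19, b2^[k] (0 : Fin 19) = x) x)
  have tab : (⁅b, a⁆ : Equiv.Perm (Fin 19)).cycleType = {19} :=
    hTc 19 _ 0 (by norm_num) fun x => same hab
    ((by decide +kernel : ∀ x : Fin 19, ∃ k < 19,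
      (fun x => b1 (fa 19 (b1i (fa1 19 x))))^[k] (0 : Fin 19) = x) x)
  have tac : (⁅c, a⁆ : Equiv.Perm (Fin 19)).cycleType = {9, 9} := by
    obtain ⟨A, hA⟩ : ∃ A : Finset (Fin 19), A = {0, 14, 15, 6, 12, 2, 17, 3, 13} := ⟨_, rfl⟩
    obtain ⟨B, hB⟩ : ∃ B : Finset (Fin 19), B = {1, 18, 4, 7, 11, 5, 9, 10, 8} := ⟨_, rfl⟩
    have sA : ∀ x ∈ A, (⁅c, a⁆ : Equiv.Perm (Fin 19)).SameCycle 0 x := by
      rw [hA]
      exact fun x hx => same hac ((by decide +kernel : ∀ x ∈ ({0, 14, 15, 6, 12, 2, 17, 3, 13} :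
        Finset (Fin 19)), ∃ k < 19,
        (fun x => b2 (fa 19 (b2i (fa1 19 x))))^[k] (0 : Fin 19) = x) x hx)
    have sB : ∀ x ∈ B, (⁅c, a⁆ : Equiv.Perm (Fin 19)).SameCycle 1 x := by
      rw [hB]
      exact fun x hx => same hac ((by decide +kernel : ∀ x ∈ ({1, 18, 4, 7, 11, 5, 9, 10, 8} :
        Finset (Fin 19)), ∃ k < 19,
        (fun x => b2 (fa 19 (b2i (fa1 19 x))))^[k] (1 : Fin 19) = x) x hx)
    refine hTm 19 9 _ A B (by norm_num) (by rw [hA, hB]; decide +kernel)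
      (by rw [hA]; decide +kernel) (by rw [hB]; decide +kernel) ?_
      (fun x hx y hy => (sA x hx).symm.trans (sA y hy))
      (fun x hx y hy => (sB x hx).symm.trans (sB y hy)) ?_ ?_
    · intro x hxA hxB
      apply Fin.ext
      rw [hac]
      rw [hA] at hxA
      rw [hB] at hxB
      exact (by decide +kernel : ∀ x : Fin 19, x ∉ ({0, 14, 15, 6, 12, 2, 17, 3, 13} :
        Finset (Fin 19)) → x ∉ ({1, 18, 4, 7, 11, 5, 9, 10, 8} : Finset (Fin 19)) →
        b2 (fa 19 (b2i (fa1 19 x))) = x) x hxA hxB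
    · intro x hx
      rw [hA] at hx ⊢
      exact (by decide +kernel : ∀ x ∈ ({0, 14, 15, 6, 12, 2, 17, 3, 13} : Finset (Fin 19)),
        ∀ y : Fin 19, (y : ℕ) = b2 (fa 19 (b2i (fa1 19 x))) →
        y ∈ ({0, 14, 15, 6, 12, 2, 17, 3, 13} : Finset (Fin 19))) x hx _ (hac x)
    · intro x hx
      rw [hB] at hx ⊢
      exact (by decide +kernel : ∀ x ∈ ({1, 18, 4, 7, 11, 5, 9, 10, 8} : Finset (Fin 19)),
        ∀ y : Fin 19, (y : ℕ) = b2 (fa 19 (b2i (fa1 19 x))) →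
        y ∈ ({1, 18, 4, 7, 11, 5, 9, 10, 8} : Finset (Fin 19))) x hx _ (hac x)
  -- three cycles
  have h3b : ((a * b) ^ 20).IsThreeCycle := three (is_pow (is_mul ha hb) 20) 6 11 13
    (by decide) (by decide) (by decide) (by decide +kernel)
  have h3c : ((a * c⁻¹) ^ 13).IsThreeCycle := three (is_pow (is_mul ha hc') 13) 0 7 17
    (by decide) (by decide) (by decide) (by decide +kernel)
  have r1 : Rel 19 {19} {19} {19} := by
    refine ⟨a, b, even19 ta, even19 tb, ta, tb, tab, ?_⟩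
    have m1 : a ∈ Subgroup.closure {a, b} := Subgroup.subset_closure (by simp)
    have m2 : b ∈ Subgroup.closure {a, b} := Subgroup.subset_closure (by simp)
    exact hGp 19 _ a _ hpr ha m1 (Subgroup.pow_mem _ (Subgroup.mul_mem _ m1 m2) 20) h3b
  have r2 : Rel 19 {9, 9} {19} {19} := by
    refine ⟨a, c, even19 ta, even19 tc, ta, tc, tac, ?_⟩
    have m1 : a ∈ Subgroup.closure {a, c} := Subgroup.subset_closure (by simp)
    have m2 : c ∈ Subgroup.closure {a, c} := Subgroup.subset_closure (by simp)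
    exact hGp 19 _ a _ hpr ha m1
      (Subgroup.pow_mem _ (Subgroup.mul_mem _ m1 (Subgroup.inv_mem _ m2)) 13) h3c
  refine ⟨{{19}, {9, 9}}, Or.inr rfl, ?_⟩
  rintro σ (rfl | rfl)
  · exact ⟨{19}, Or.inl rfl, {19}, Or.inl rfl, r1⟩
  · exact ⟨{19}, Or.inl rfl, {19}, Or.inl rfl, r2⟩

end Pool.Agent.Work.MP_8aaf67_al.AF
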