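import Mathlib

/-!
# Alternating composition factors: combinatorial definitions

Everything is about permutations of `Fin n`; products are compositions of functions,
`⁅b, a⁆ = b * a * b⁻¹ * a⁻¹`, so `⁅b, a⁆ x = b (a (b⁻¹ (a⁻¹ x)))`.
-/

set_option autoImplicit false

namespace Pool.Agent.Work.MP_8aaf67_al.AF

open scoped commutatorElement

/-- `σ` is the cycle type of the commutator of a pair of even permutations of types `α`, `β`
generating a group which contains the alternating group. -/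
def Rel (n : ℕ) (σ α β : Multiset ℕ) : Prop :=
  ∃ a b : Equiv.Perm (Fin n), a ∈ alternatingGroup (Fin n) ∧ b ∈ alternatingGroup (Fin n) ∧
    a.cycleType = α ∧ b.cycleType = β ∧ (⁅b, a⁆ : Equiv.Perm (Fin n)).cycleType = σ ∧
    alternatingGroup (Fin n) ≤ Subgroup.closure {a, b}

/-- `τ` belongs to a set of cycle types closed under such relations. -/
def XT (n : ℕ) (τ : Multiset ℕ) : Prop :=
  ∃ Ty : Set (Multiset ℕ), τ ∈ Ty ∧ ∀ σ ∈ Ty, ∃ α ∈ Ty, ∃ β ∈ Ty, Rel n σ α β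

/-- `σ` is given by the function `f` on natural numbers. -/
def Is (n : ℕ) (f : ℕ → ℕ) (σ : Equiv.Perm (Fin n)) : Prop :=
  ∀ x : Fin n, ((σ x : Fin n) : ℕ) = f x

/-- `k` transpositions. -/
def two (k : ℕ) : Multiset ℕ := Multiset.replicate k 2

/-- the shift and its inverse -/
def fa (n x : ℕ) : ℕ := if x + 1 = n then 0 else x + 1
def fa1 (n x : ℕ) : ℕ := if x = 0 then n - 1 else x - 1

/-- Family I, `n = 4 q + 1`: `0` fixed, `1 ↔ 2`, `n-1 ↔ n-2`, `x ↔ n - x`. -/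
def fI (n x : ℕ) : ℕ :=
  if x = 0 then 0 else if x = 1 then 2 else if x = 2 then 1 else if x = n - 1 then n - 2
  else if x = n - 2 then n - 1 else n - x
def cI (n x : ℕ) : ℕ :=
  if x = 0 then n - 2 else if x = 1 then 2 else if x = 2 then n - 3 else if x = 4 then n - 1
  else if x = n - 1 then 0 else x - 2

/-- Family D1, `n = 4 q + 3`: `n-3 → n-2 → 2 → n-3`, `0 ↔ 3`, `x ↔ n - x`. -/
def fD1 (n x : ℕ) : ℕ :=
  if x = n - 3 then n - 2 else if x = n - 2 then 2 else if x = 2 then n - 3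
  else if x = 0 then 3 else if x = 3 then 0 else n - x
def fD1i (n x : ℕ) : ℕ :=
  if x = n - 2 then n - 3 else if x = 2 then n - 2 else if x = n - 3 then 2
  else if x = 0 then 3 else if x = 3 then 0 else n - x
def cD1 (n x : ℕ) : ℕ :=
  if x = 0 then n - 3 else if x = 1 then n - 4 else if x = 2 then 3 else if x = 4 then n - 1
  else if x = 5 then n - 2 else if x = n - 2 then 0 else if x = n - 1 then 2 else x - 2

/-- Family D4, `n = 4 q + 3`: `0 → 1 → n-1 → 0`, `x ↔ n - x`. -/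
def fD4 (n x : ℕ) : ℕ :=
  if x = 0 then 1 else if x = 1 then n - 1 else if x = n - 1 then 0 else n - x
def fD4i (n x : ℕ) : ℕ :=
  if x = 1 then 0 else if x = n - 1 then 1 else if x = 0 then n - 1 else n - x
def cD4 (n x : ℕ) : ℕ :=
  if x = 1 then 1 else if x = 2 then n - 1 else if x = 3 then 0 else if x = 0 then n - 2
  else x - 2

/-- Family S, `n = 4 q + 1`: even `x < 2 q ↔ x + 2 q`. -/
def fS (q x : ℕ) : ℕ :=
  if x < 2 * q ∧ x % 2 = 0 then x + 2 * q
  else if 2 * q ≤ x ∧ x < 4 * q ∧ x % 2 = 0 then x - 2 * q else x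
def cS (q x : ℕ) : ℕ :=
  if x < 2 * q then x + 2 * q else if x < 4 * q then x - 2 * q else x

/-- Family S', `n = 4 q + 3`: family S and `4 q ↔ 4 q + 1`. -/
def fSp (q x : ℕ) : ℕ :=
  if x = 4 * q then 4 * q + 1 else if x = 4 * q + 1 then 4 * q else fS q x
def cSp (q x : ℕ) : ℕ :=
  if x = 4 * q then 4 * q + 1 else if x = 4 * q + 1 then 4 * q + 2
  else if x = 4 * q + 2 then 4 * q else cS q x

/-- Family G, `n = 4 q + 1`: `0 ↔ 1`, `4 q ↔ 2 q`, `2 j ↔ 2 q + 2 j - 1` for `1 ≤ j < q`. -/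
def fG (q x : ℕ) : ℕ :=
  if x = 0 then 1 else if x = 1 then 0 else if x = 4 * q then 2 * q else if x = 2 * q then 4 * q
  else if x < 2 * q ∧ x % 2 = 0 then x + 2 * q - 1
  else if 2 * q + 1 ≤ x ∧ x < 4 * q - 1 ∧ x % 2 = 1 then x + 1 - 2 * q else x
def cG (q x : ℕ) : ℕ :=
  if x = 0 then 2 else if x = 2 then 0 else if x = 1 then 2 * q + 1 else if x = 2 * q + 1 then 1
  else if x < 2 * q then x + 2 * q - 1 else if x = 2 * q then 4 * q
  else if x < 4 * q - 1 then x + 1 - 2 * q else if x = 4 * q - 1 then 4 * q - 1 else 2 * q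

/-- Family G', `n = 4 q + 3`: `0 ↔ 1`, `4 q + 2 ↔ 2 q`, `4 q - 1 ↔ 4 q`,
`2 j ↔ 2 q + 2 j - 1` for `1 ≤ j < q`. -/
def fGp (q x : ℕ) : ℕ :=
  if x = 0 then 1 else if x = 1 then 0 else if x = 4 * q + 2 then 2 * q
  else if x = 2 * q then 4 * q + 2 else if x = 4 * q - 1 then 4 * q else if x = 4 * q then 4 * q - 1
  else if x < 2 * q ∧ x % 2 = 0 then x + 2 * q - 1
  else if 2 * q + 1 ≤ x ∧ x < 4 * q - 1 ∧ x % 2 = 1 then x + 1 - 2 * q else x
def cGp (q x : ℕ) : ℕ :=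
  if x = 0 then 2 else if x = 2 then 0 else if x = 1 then 2 * q + 1 else if x = 2 * q + 1 then 1
  else if x < 2 * q then x + 2 * q - 1 else if x = 2 * q then 4 * q + 2
  else if x < 4 * q - 1 then x + 1 - 2 * q else if x = 4 * q - 1 then 4 * q
  else if x = 4 * q then 4 * q + 1 else if x = 4 * q + 1 then 4 * q - 1 else 2 * q

/-- Family K, `6 k + 3 ≤ n`, `h = 3 k + 1`: `x ↔ x + h` for `x < 3 k`, `x % 3 ≠ 2`. -/
def fK (k x : ℕ) : ℕ :=
  if x < 3 * k ∧ x % 3 ≠ 2 then x + (3 * k + 1)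
  else if 3 * k + 1 ≤ x ∧ x < 6 * k + 1 ∧ (x - (3 * k + 1)) % 3 ≠ 2 then x - (3 * k + 1) else x
def cK (k x : ℕ) : ℕ :=
  if x < 3 * k ∧ x % 3 ≠ 1 then x + (3 * k + 1)
  else if 3 * k + 1 ≤ x ∧ x < 6 * k + 1 ∧ (x - (3 * k + 1)) % 3 ≠ 1 then x - (3 * k + 1) else x

end Pool.Agent.Work.MP_8aaf67_al.AF
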