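import Pool.Agent.Work.MP_8aaf67_al.AF.GDefs
import Pool.Agent.Work.MP_8aaf67_al.AF.CDefs

/-!
# Alternating composition factors: group theoretic statements
-/

set_option autoImplicit false

namespace Pool.Agent.Work.MP_8aaf67_al.AF

open Subgroup
open scoped commutatorElement
open Pool.Agent.Work.MP_8aaf67_al.SR (MW val ver Good Qs GV AD VS Fil)

/-! ## The criterion -/

/-- (EASY) If every element of `Z` is `[y, t]` with `y ∈ Z`, `t` in a closed set `X` and
`t y t⁻¹ ∈ P` then `Z` lies in `VS p P w` for all `w`. Induction on `w`: for a variable `VS = P`;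
for `[u, v]` use the left alternative with `y ∈ VS u`; `AD v t _`: `v` a variable is trivial;
otherwise `t = [a, b]`, `a, b ∈ X ⊆ GV` (`SR.GV_of`), and `Fil` holds by `SR.fil_of_le` because
`closure {a, b} = ⊤` (see the proof of `SR.SO_GS`). -/
def G_VS : Prop := ∀ (p : ℕ) (_ : p.Prime) (T : Type) [Group T] [Finite T] (X Z : Set T)
  (P : Subgroup T), IsPGroup p P → Clo X → Z ⊆ P →
  (∀ z ∈ Z, ∃ y ∈ Z, ∃ t ∈ X, t * y * t⁻¹ ∈ P ∧ z = ⁅y, t⁆) → ∀ w : MW, Z ⊆ VS p P w

/-- (MEDIUM) The strong criterion. This is `SR.strong` with part (a) restricted: copy the proofs of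
`SR.caseA` and `SR.strong`. In part (a) the subgroup `Y` is perfect (`ver Y w = ⊤` by
`SR.ver_perfect`), and instead of the goodness of all proper subgroups one uses only
`Good p (Y.comap π) w`, which follows from `YG p Y` applied to `π.subgroupComap Y`, whose kernel has
order dividing that of `π.ker`. Part (b) is `SR.caseC` (a perfect `L ≤ N(R)` lies in
`(ver N(R) w).map subtype` because `L = w(L)`), part (c) is `SR.caseB`. -/
def G_Str : Prop := ∀ (p : ℕ) (_ : p.Prime) (T : Type) [Group T] [Finite T] (w : MW),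
  (∀ P : Sylow p T, (P : Subgroup T) ≤ closure (GA p w (P : Subgroup T))) →
  ∀ (E : Type) [Group E] [Finite E] (π : E →* T), Function.Surjective π → commutator E = ⊤ →
    π.ker ≤ frattini E → ¬ p ∣ Nat.card π.ker → Good p E w

/-- (EASY-MEDIUM) One Sylow subgroup is enough: `GA` is invariant under conjugation (transport
everything by the automorphism `MulAut.conj g`; for `VS` by induction on `w`, with `GV`, `AD`, `Fil`
invariant: for `Fil` twist the module; or prove the general statement for an isomorphism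
`e : T ≃* T'`), and all Sylow subgroups are conjugate. -/
def G_One : Prop := ∀ (p : ℕ) (_ : p.Prime) (T : Type) [Group T] [Finite T] (w : MW)
  (P₀ : Sylow p T), (P₀ : Subgroup T) ≤ closure (GA p w (P₀ : Subgroup T)) →
  ∀ P : Sylow p T, (P : Subgroup T) ≤ closure (GA p w (P : Subgroup T))

/-- (EASY) `FG` from one Sylow subgroup (`G_Str`, `G_One`). -/
def G_FG : Prop := ∀ (p : ℕ) (_ : p.Prime) (T : Type) [Group T] [Finite T] (P₀ : Sylow p T),
  (∀ w : MW, (P₀ : Subgroup T) ≤ closure (GA p w (P₀ : Subgroup T))) → FG p T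

/-- (EASY) `FG` is invariant under isomorphisms (compose `π` with the isomorphism). -/
def G_Iso : Prop := ∀ (p : ℕ) (T T' : Type) [Group T] [Group T'], Nonempty (T ≃* T') →
  FG p T → FG p T'

/-- (MEDIUM) The reduction to composition factors: this is `H5.good_of_CF` (file H5/Class.lean,
namespace `Pool.MP_8aaf67_al.H5`) with `PGood p H` replaced by `FG p H`. Copy the proof of
`good_of_CF`; at the end `G ⧸ Q` is simple nonabelian of order divisible by `p`, hence satisfies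
`FG`; apply it to `E = G`, `π = QuotientGroup.mk' Q`, whose kernel `Q` has order prime to `p` and
lies in the Frattini subgroup because `H ⊔ Q = ⊤` implies `H = ⊤` (`hQ.frattini`). The words:
translate `H5.Tree` to `SR.MW` (both use `⁅a, b⁆`): `H5.vals G t = SR.val G (tr t)`, so
`H5.Good p G t ↔ SR.Good p G (tr t)`, and `tr` is onto. -/
def G_CF : Prop := ∀ (p : ℕ) (_ : p.Prime) (G : Type) [Group G] [Finite G],
  (∀ N : Subgroup G, N.IsSubnormal → ∀ (H : Type) [Group H] (f : N →* H), Function.Surjective f →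
    IsSimpleGroup H → (∃ a b : H, a * b ≠ b * a) → p ∣ Nat.card H → FG p H) →
  ∀ w : MW, Good p G w

/-- (EASY-MEDIUM) `FG` gives `YG` for simple nonabelian groups (uses `G_CF`, `G_Iso`). Let `N` be
subnormal in `Z`, `g : N → H` onto, `H` simple nonabelian, `p ∣ |H|`. The image under `g` of
`f.ker ⊓ N` is normal in `H` and of order prime to `p`, so it is trivial and `g` factors through
`N → f(N)`; `f(N)` is subnormal in the simple group `Y`, hence `⊥` or `⊤`
(`IsSubnormal.eq_bot_or_top_of_isSimpleGroup`); `⊥` is impossible, so `H` is a nontrivial quotient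
of the simple group `Y`, hence isomorphic to `Y`. -/
def G_YG : Prop := ∀ (p : ℕ) (_ : p.Prime) (Y : Type) [Group Y] [Finite Y], IsSimpleGroup Y →
  (∃ a b : Y, a * b ≠ b * a) → FG p Y → YG p Y

/-- (EASY) A Sylow subgroup `Q ≤ P` of the image of an injective homomorphism from `A_k` consists
of controlled elements (uses `G_YG`, `G_Iso` type transport of `YG` along `φ.range ≃* Al (Fin k)`;
`A_k` is simple for `k ≥ 5`: Mathlib, or ask; perfect since simple and nonabelian). -/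
def G_Emb : Prop := ∀ (p : ℕ) (_ : p.Prime) (k : ℕ), 5 ≤ k → FG p (Al (Fin k)) →
  ∀ (T : Type) [Group T] [Finite T] (φ : Al (Fin k) →* T), Function.Injective φ →
  ∀ (P Q : Subgroup T), Q ≤ φ.range → Q ≤ P → ¬ p ∣ Q.relIndex φ.range →
  ∀ w : MW, (Q : Set T) ⊆ GA p w P

/-! ## Induction steps -/

/-- (EASY-MEDIUM) Step 1: `p` does not divide `n`: the image of a Sylow subgroup of the natural
`A_(n-1)` is a Sylow subgroup of `A_n` (index `n`). Uses `G_FG`, `G_Emb`. -/
def G_S1 : Prop := ∀ (p : ℕ) (_ : p.Prime) (n : ℕ), 6 ≤ n → ¬ p ∣ n → FG p (Al (Fin (n - 1))) →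
  FG p (Al (Fin n))

/-- (MEDIUM) A `p`-cycle in `P` is controlled: `5 ≤ k ≤ |Ω|`, `p ≤ k < 2 p`, `FG p A_k`. Choose an
embedding `Fin k ↪ Ω` whose range contains the support of `x` (`p` points); `φ : A_k → A_Ω` is the
natural homomorphism (`Equiv.Perm.viaEmbeddingHom` or `extendDomain`, sign preserved), `Q` the group
generated by `x`, of order `p`; `|A_k| = k!/2` is divisible by `p` but not by `p²`. Use `G_Emb`. -/
def G_Nat : Prop := ∀ (p : ℕ) (_ : p.Prime) (k : ℕ), p ≠ 2 → 5 ≤ k → p ≤ k → k < 2 * p →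
  FG p (Al (Fin k)) → ∀ (Ω : Type) [Fintype Ω] [DecidableEq Ω], k ≤ Fintype.card Ω →
  ∀ (P : Subgroup (Al Ω)) (x : Al Ω), x ∈ P → (x : Equiv.Perm Ω).cycleType = {p} →
  ∀ w : MW, x ∈ GA p w P

/-- (MEDIUM) The wreath product is a Sylow subgroup: `p` odd, `Q₀` a Sylow `p`-subgroup of `S_m`.
The set `W` of all permutations `(i, j) ↦ (i + f (s j), s j)`, `s ∈ Q₀`, `f : Fin m → ZMod p`, is a
subgroup of order `p^m |Q₀|`, it is the closure of the rotations and of `dg s`, it consists of even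
permutations (it is a `p`-group, `p` odd), and the exponent of `p` in `(p m)!` is `m` plus the
exponent of `p` in `m!` (Mathlib: `padicValNat_factorial_mul` or `Nat.Prime.multiplicity_factorial_mul`). -/
def G_W : Prop := ∀ (p : ℕ) [NeZero p] (_ : p.Prime) (m : ℕ), p ≠ 2 → 1 ≤ m →
  ∀ Q₀ : Sylow p (Equiv.Perm (Fin m)),
  ∃ P₀ : Sylow p (Al (ZMod p × Fin m)),
    (P₀ : Subgroup (Al (ZMod p × Fin m))).map (alternatingGroup (ZMod p × Fin m)).subtype =
      closure ({x | ∃ j, x = rot p m j} ∪ {x | ∃ s ∈ (Q₀ : Subgroup (Equiv.Perm (Fin m))), x = dg s})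

/-- (EASY) Rotations are `p`-cycles (`p` odd prime). -/
def G_Rot : Prop := ∀ (p : ℕ) [NeZero p] (_ : p.Prime) (m : ℕ) (j : Fin m), p ≠ 2 →
  (rot p m j).cycleType = {p}

/-- (EASY-MEDIUM) The diagonal: `A` has an odd number of elements (or any number, for even `s`), so
`dg` maps even permutations to even ones; `FG p A_m`, `m ≥ 5`: if `Q₀` is a Sylow `p`-subgroup of
`S_m` and `P` contains `dg s` for all even `s ∈ Q₀`, then these `dg s` are controlled. Take
`φ : A_m → A_Ω`, `s ↦ dg s`, injective because `A` is nonempty; `Q = φ(Q₀ ⊓ A_m)`, a Sylow subgroup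
of the image (`Q₀ ⊓ A_m` is Sylow in the normal subgroup `A_m`). Use `G_Emb`. -/
def G_Dg : Prop := ∀ (p : ℕ) (_ : p.Prime) (m : ℕ), 5 ≤ m → FG p (Al (Fin m)) →
  ∀ (A : Type) [Fintype A] [DecidableEq A] [Nonempty A] (Q₀ : Sylow p (Equiv.Perm (Fin m)))
    (P : Subgroup (Al (A × Fin m))),
    (∀ s ∈ (Q₀ : Subgroup (Equiv.Perm (Fin m))), s ∈ alternatingGroup (Fin m) →
      ∀ x : Al (A × Fin m), (x : Equiv.Perm (A × Fin m)) = dg s → x ∈ P) →
    ∀ s ∈ (Q₀ : Subgroup (Equiv.Perm (Fin m))), s ∈ alternatingGroup (Fin m) →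
      ∀ x : Al (A × Fin m), (x : Equiv.Perm (A × Fin m)) = dg s → ∀ w : MW, x ∈ GA p w P

/-- (EASY-MEDIUM) Step 2: `n = p m`, `p` odd. Uses `G_FG`, `G_Iso` (the alternating groups on
`ZMod p × Fin m` and `Fin (p m)` are isomorphic), `G_W`, `G_Rot`, `G_Nat` (with `k`), `G_Dg`. If
`m < p` then `Q₀` is trivial. -/
def G_S2 : Prop := ∀ (p : ℕ) (_ : p.Prime) (m k : ℕ), p ≠ 2 → 2 ≤ m → 5 ≤ k → p ≤ k → k < 2 * p →
  k ≤ p * m → FG p (Al (Fin k)) → (m < p ∨ (5 ≤ m ∧ FG p (Al (Fin m)))) →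
  FG p (Al (Fin (p * m)))

/-- (MEDIUM) The Sylow 2-subgroup of `A_(2m)`: the permutations `(∏_{j ∈ J} tau j) dg s` with `|J|`
even, `s ∈ S₀` form a subgroup of order `2^(m-1) |S₀|`, generated by the `tau i * tau j` and `dg s`;
`dg s` is even (`sign (dg s) = sign s ^ 2`), and the exponent of 2 in `(2 m)!` is `m` plus the
exponent in `m!`. -/
def G_W2 : Prop := ∀ (m : ℕ), 2 ≤ m → ∀ S₀ : Sylow 2 (Equiv.Perm (Fin m)),
  ∃ P₀ : Sylow 2 (Al (Fin 2 × Fin m)),
    (P₀ : Subgroup (Al (Fin 2 × Fin m))).map (alternatingGroup (Fin 2 × Fin m)).subtype =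
      closure ({x | ∃ i j, x = tau m i * tau m j} ∪
        {x | ∃ s ∈ (S₀ : Subgroup (Equiv.Perm (Fin m))), x = dg s})

/-- (MEDIUM) The natural `A_6` on three blocks `i, j, l` (`FG 2 A_6`, `m ≥ 4`): if the subgroup `P`
contains `tau i * tau j`, `tau j * tau l` and `dg (swap i j)` then these elements are controlled:
they generate a group `Q` of order 8 inside the natural `A_6` on the six points of the blocks, and
`|A_6| / 8 = 45` is odd. Use `G_Emb`. -/
def G_N6 : Prop := ∀ (m : ℕ) (i j l : Fin m), i ≠ j → j ≠ l → i ≠ l → FG 2 (Al (Fin 6)) →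
  ∀ (P : Subgroup (Al (Fin 2 × Fin m))) (x y z : Al (Fin 2 × Fin m)),
    (x : Equiv.Perm (Fin 2 × Fin m)) = tau m i * tau m j →
    (y : Equiv.Perm (Fin 2 × Fin m)) = tau m j * tau m l →
    (z : Equiv.Perm (Fin 2 × Fin m)) = dg (Equiv.swap i j) → x ∈ P → y ∈ P → z ∈ P →
    ∀ w : MW, x ∈ GA 2 w P ∧ y ∈ GA 2 w P ∧ z ∈ GA 2 w P

/-- (EASY-MEDIUM) Step 3: `p = 2`, `n = 2 m`, `m ≥ 5`. Choose a Sylow 2-subgroup `S₀` of `S_m`
containing `s = swap 0 1`. `S₀` is generated by `s` and `S₀ ⊓ A_m`. `P₀` from `G_W2` (order of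
factors: `tau i * tau j = (tau 0 * tau i)⁻¹ …`, all `tau i * tau j` are products of the
`tau 0 * tau 1` and `tau 1 * tau l`, `l ≥ 2`, and their inverses, the `tau` commute and are
involutions). `tau 0 * tau 1`, `tau 1 * tau l`, `dg s` are controlled by `G_N6`, `dg` of the even
elements of `S₀` by `G_Dg`. Conclude with `G_FG`, `G_Iso`. -/
def G_S3 : Prop := ∀ (m : ℕ), 5 ≤ m → FG 2 (Al (Fin 6)) → FG 2 (Al (Fin m)) →
  FG 2 (Al (Fin (2 * m)))

/-! ## Base cases -/

/-- (EASY-MEDIUM) Closed sets from cycle types: if `XT n τ` then the elements of `A_n` of cycle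
type `τ` lie in a closed set: `X` = all elements of `A_n` whose type is in `Ty`. Given `t ∈ X` of
type `σ`, take `a, b` from `Rel n σ α β`; `⁅b, a⁆` and `t` have the same type, so
`t = g ⁅b, a⁆ g⁻¹ = ⁅g b g⁻¹, g a g⁻¹⁆` with `g ∈ S_n` (`Equiv.Perm.isConj_iff_cycleType_eq`); the
conjugates again generate a group containing `A_n`, and inside the type `Al (Fin n)` the closure of
the pair is `⊤`. -/
def G_XT : Prop := ∀ (n : ℕ) (τ : Multiset ℕ), XT n τ →
  ∃ X : Set (Al (Fin n)), Clo X ∧ ∀ x : Al (Fin n), (x : Equiv.Perm (Fin n)).cycleType = τ → x ∈ X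

/-- (MEDIUM) `n = p ≡ 1 mod 4`: work in `Al (ZMod p)` or `Al (Fin p)`: `P₀` is generated by the
shift `y` (order `p`, Sylow), `t : x ↦ -x` has type `2^((p-1)/2)` (even) and inverts `y`, so it is
in the closed set of `G_XT` and `⁅y, t⁆ = y * y`; take `Z = P₀` in `G_VS`: every element of `P₀` is
`y' * y' = ⁅y', t⁆` with `y' ∈ P₀` since squaring is bijective on `P₀`. Then `G_FG`. -/
def G_P1 : Prop := ∀ (p : ℕ) (_ : p.Prime), 5 ≤ p → p % 4 = 1 → XT p (two ((p - 1) / 2)) →
  FG p (Al (Fin p))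

/-- (MEDIUM) `n = p ≡ 3 mod 4`, `m = (p - 1) / 2 ≥ 3` odd: `t : x ↦ u x` on `ZMod p` with `u` a unit
of order `m` (it exists, `(ZMod p)ˣ` is cyclic of order `2 m`): `t` fixes `0` and has two orbits of
length `m`, type `m, m` (all cycle lengths are `m`: `t^i x = x`, `x ≠ 0` iff `u^i = 1`), it is even
and normalises the group `P₀` of the translations: `t y t⁻¹ = y^u`, so `⁅y', t⁆ = y'^(1-u)` and
`1 - u` is invertible mod `p`. As in `G_P1`. -/
def G_P3 : Prop := ∀ (p : ℕ) (_ : p.Prime), 7 ≤ p → p % 4 = 3 →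
  XT p {(p - 1) / 2, (p - 1) / 2} → FG p (Al (Fin p))

/-- (EASY-MEDIUM) `A_5`, `p = 2`: `P₀` the Klein four group on `0,1,2,3`, `t` a three cycle on
`1,2,3`: `y ↦ ⁅y, t⁆` is a bijection of `P₀`; `t` is in a closed set by `XT 5 {3}`. -/
def G_52 : Prop := XT 5 {3} → FG 2 (Al (Fin 5))

/-- (MEDIUM) `A_5`, `p = 3`. `P₀ = ⟨z⟩`, `z = (0 1 2)`, `t = (0 1)(3 4)` inverts `z` and
`t = ⁅a, b⁆` with three cycles `a, b` on `{0, 1, 3, 4}` which generate `U`, the stabiliser of the
point `2`; `a, b` are in a closed set (`XT 5 {3}`), so in all `GV`. For each word `w` the elements of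
`P₀` are in `VS 3 P₀ w` by induction on `w` (left alternative, `⁅y, t⁆ = y * y`), where
`AD 3 T v t _` needs `Fil 3 (zpowers z') U` for `z' ∈ P₀`: let `M` be a module of order prime to 3
and `N` the subgroup `[M, U] + C_M(z)` (if `z' = 1` then `C_M = M`). The subgroup `(1+z+z²)M` lies in
`C_M(z)`. Let `q : M → M / N`; for `i ∈ Fin 5` put `q_i = q ∘ g` with any `g ∈ A_5`, `g i = 2`
(well defined because `q (u m) = q m` for `u ∈ U`, and `U` is the stabiliser of `2`). From
`q (m + z m + z² m) = 0` we get `q_0 + q_1 + q_2 = 0`, and composing with `g ∈ A_5`, which is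
3-transitive on 5 points as a set of triples, `q_i + q_j + q_l = 0` for all different `i, j, l`. So
all `q_i` are equal and `3 q = 0`; the order of `M / N` is prime to 3, so `q = 0` and `N = M`. -/
def G_53 : Prop := XT 5 {3} → FG 3 (Al (Fin 5))

/-- (MEDIUM) `A_6`, `p = 2`. `P₀ = closure {(01)(23), (02)(13), (01)(45)}` has order 8.
`Z` = the involutions (and 1) of the two Klein four groups
`V = {1, (01)(23), (02)(13), (03)(12)}` and `V' = {1, (01)(23), (01)(45), (23)(45)}`; each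
nontrivial `z ∈ V` is `y y'` with the other two, and `y' = t y t⁻¹` with `t ∈ A_6` of type `2, 2`
(e.g. `(12)(45)` maps `(02)(13)` to `(01)(23)`; `(24)(35)` maps `(01)(23)` to `(01)(45)`). Use
`G_VS`, `G_FG`. -/
def G_62 : Prop := XT 6 {2, 2} → FG 2 (Al (Fin 6))

/-- (EASY-MEDIUM) `A_6`, `p = 5`: `P₀` generated by the five cycle `(0 1 2 3 4)`, inverted by
`t = (1 4)(2 3)`. -/
def G_65 : Prop := XT 6 {2, 2} → FG 5 (Al (Fin 6))

/-- (MEDIUM) `A_8`, `p = 2` (points `Fin 2 × Fin 4`, `G_W2` with `m = 4` and `S₀` the Sylow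
2-subgroup of `S_4` generated by `swap 0 1`, `swap 2 3`, `(02)(13)`). The `tau i * tau j`,
`dg (swap 0 1)`, `dg (swap 2 3)` are controlled by `G_N6`. `σ = dg ((02)(13))` lies in the Klein
four group `R = {1, u, σ, u σ}`, `u = tau 0 * tau 1 * tau 2 * tau 3`, which is normalised by an
element `t` of type `3, 3` acting without fixed points on `R` (on each of the two orbits
`blocks 0, 2` and `blocks 1, 3` of `R` a three cycle): `G_VS` with `Z = R`, `t` in a closed set
(`XT 8 {3, 3}`). -/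
def G_82 : Prop := XT 8 {3, 3} → FG 2 (Al (Fin 6)) → FG 2 (Al (Fin 8))

/-- (MEDIUM) `A_9`, `p = 3` (points `ZMod 3 × Fin 3`, `G_W` with `m = 3`, `Q₀` generated by the
three cycle `c = (0 1 2)`). The rotations are controlled (`G_Nat`, `k = 5`). `R` = the 9
translations of `ZMod 3 × Fin 3` (generated by the product of the rotations and `dg c`) is inverted
by `t : (i, j) ↦ (-i, -j)` of type `2, 2, 2, 2`; `⁅y, t⁆ = y * y` is bijective on `R`: `G_VS` with
`Z = R`. -/
def G_93 : Prop := XT 9 (two 4) → FG 3 (Al (Fin 5)) → FG 3 (Al (Fin 9))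

/-- (MEDIUM) `A_12`, `p = 3` (points `ZMod 3 × Fin 4`, `G_W` with `m = 4`, `Q₀` generated by
`c = (0 1 2)`). The rotations are controlled (`G_Nat`, `k = 5`); `dg c` lies in the Sylow
3-subgroup `Q` (order 81) generated by the rotations of the blocks 0, 1, 2 and `dg c` of the natural
`A_9` on the blocks 0, 1, 2 (`G_Emb`, `k = 9`; `|A_9| = 181440 = 81 * 2240`). -/
def G_123 : Prop := FG 3 (Al (Fin 5)) → FG 3 (Al (Fin 9)) → FG 3 (Al (Fin 12))

/-- (MEDIUM) `A_25`, `p = 5` (points `ZMod 5 × Fin 5`, `G_W` with `m = 5`, `Q₀` generated by the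
five cycle `c = finRotate 5`). The rotations are controlled (`G_Nat`, `k = 6`). `R` = the 25
translations (generated by the product of the rotations and `dg c`, `Fin 5` identified with
`ZMod 5`); `L` = the group of the permutations `v ↦ g v`, `g ∈ SL(2, 5)`; `L ≤ N(R)`, `L` is perfect
(`SL(2, 5)` is generated by transvections `u(x)`, `u'(x)` and
`h u(x) h⁻¹ u(x)⁻¹ = u((d² - 1) x)` for `h = diag(d, d⁻¹)`, `d = 2`, and `h` is a product of
transvections), so it consists of even permutations, and `dg c`, the translation by `(0, 1)`, is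
`⁅r, g⁆` with `r ∈ R` a translation by `v`, `g ∈ L`, `v - g v = (0, 1)`: part (b) of `GA`. -/
def G_255 : Prop := FG 5 (Al (Fin 6)) → FG 5 (Al (Fin 25))

/-! ## Small closed sets -/

/-- (EASY-MEDIUM) `{3}` is closed: `a = (0 1 2)`, `b = (2 3 4)`, `⁅b, a⁆` is a three cycle, `C_Gp` is
not applicable (a is not the shift) but `C_G2` is, or `a b` is a five cycle and `n = 5` is prime. -/
def X_5 : Prop := XT 5 {3}

/-- (EASY-MEDIUM) `{5}, {2, 2}`: `a = (0 1 2 3 4)` (`5` fixed). `b = [2,5,4,3,1,0]` (the list of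
values), type `5`: `⁅b, a⁆` has type 5, and `a * a * b⁻¹` is a three cycle. `b = [1,2,3,5,4,0]`, type
`5`: `⁅b, a⁆` has type `2, 2`, and `a * b⁻¹` is a three cycle. Generation by `C_G2` with `u = 5`
(powers of `a` are transitive on the other points). -/
def X_6 : Prop := XT 6 {2, 2}

/-- (EASY-MEDIUM) `{7}, {3, 3}`, `n = 7`: `a` the shift `x + 1`. `b = [3,5,1,6,2,0,4]`: `b` and
`⁅b, a⁆` are 7-cycles, `(a * b⁻¹)^2` is a three cycle; `b = [3,2,6,4,5,1,0]` is a 7-cycle, `⁅b, a⁆`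
has type `3, 3`, `a * b⁻¹` is a three cycle. Generation by `C_Gp`. -/
def X_7 : Prop := XT 7 {3, 3}

/-- (EASY-MEDIUM) `{7}, {3, 3}`, `n = 8`: `a = (0 1 2 3 4 5 6)`. `b = [0,6,1,4,5,2,7,3]`: `b` and
`⁅b, a⁆` have type 7, `(a * b)^2` is a three cycle; `b = [2,1,3,4,7,6,0,5]` has type 7, `⁅b, a⁆` has
type `3, 3`, `(a * b)^5` is a three cycle. Generation by `C_G2` with `u = 7`. -/
def X_8 : Prop := XT 8 {3, 3}

/-- (EASY-MEDIUM) `{9}, {2, 2, 2, 2}`, `n = 9`: `a` the shift `x + 1`. `b = [5,7,4,1,6,3,0,8,2]`: `b`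
and `⁅b, a⁆` are 9-cycles, `(a * b⁻¹)^5` is a three cycle; `b = [8,3,7,2,0,6,4,5,1]` is a 9-cycle,
`⁅b, a⁆` has type `2, 2, 2, 2`, `(a * b)^2` is a three cycle. Generation by `C_G2` (both pairs
generate a 2-transitive group; find words by computer). -/
def X_9 : Prop := XT 9 (two 4)

/-- (EASY-MEDIUM) `{5, 5}`, `n = 11`: `a = (0 1 2 3 4)(5 6 7 8 9)` (`10` fixed),
`b = [0,9,8,6,7,2,10,5,4,3,1]` has type `5, 5`, `⁅b, a⁆` has type `5, 5`, `(a * b⁻¹)^4` is a three
cycle; the group is transitive, `n = 11` is prime (or `C_G2`). -/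
def X_11 : Prop := XT 11 {5, 5}

/-- (EASY-MEDIUM) `{13}, 2^6`, `n = 13`: `a` the shift `x + 1`. `b = [9,0,5,8,10,4,11,2,1,6,12,7,3]`:
`b` and `⁅b, a⁆` are 13-cycles, `(a * b⁻¹)^8` is a three cycle;
`b = [6,3,11,12,10,4,8,2,7,5,1,9,0]` is a 13-cycle, `⁅b, a⁆` has type `2^6`, `(a * b * b)^8` is a
three cycle. Generation by `C_Gp`. -/
def X_13 : Prop := XT 13 (two 6)

/-- (EASY-MEDIUM) `{19}, {9, 9}`, `n = 19`: `a` the shift `x + 1`.
`b = [16,0,7,15,18,6,12,14,17,3,9,5,1,10,4,8,13,2,11]`: `b` and `⁅b, a⁆` are 19-cycles, `(a * b)^20`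
is a three cycle; `b = [4,9,8,10,5,12,0,18,14,6,11,2,13,15,16,3,7,1,17]` is a 19-cycle, `⁅b, a⁆` has
type `9, 9`, `(a * b⁻¹)^13` is a three cycle. Generation by `C_Gp`. -/
def X_19 : Prop := XT 19 {9, 9}

/-! ## The end -/

/-- (EASY-MEDIUM) All alternating groups, by strong induction on `n`, from the steps and base cases
(as hypotheses: `G_S1`, `G_S2`, `G_S3`, `G_P1`, `G_P3`, `G_52`, `G_53`, `G_62`, `G_65`, `G_82`,
`G_93`, `G_123`, `G_255`, the `X_` statements, and for primes `XT p _` as given). `p = 2`: `n = 5, 6,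
8` base, `n` odd `≥ 7` by `G_S1`, `n = 2 m`, `m ≥ 5`, by `G_S3`. `p = 3`: `n = 5, 9, 12` base,
`3 ∤ n` by `G_S1`, `n = 6` by `G_S2` (`m = 2`, `k = 5`), `n = 3 m`, `m ≥ 5`, by `G_S2`. `p = 5`:
`n = 6, 25` base, `5 ∤ n`, `n ≥ 7`, by `G_S1`, `n = 5 m`, `m = 2, 3, 4` or `m ≥ 6`, by `G_S2`
(`k = 6`). `p ≥ 7`: `n = p` by `G_P1`, `G_P3`, `p ∤ n` by `G_S1`, `n = p m`, `m ≥ 2`, by `G_S2`
(`k = p`). -/
def G_All : Prop :=
  (∀ p : ℕ, p.Prime → 7 ≤ p → p % 4 = 1 → XT p (two ((p - 1) / 2))) →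
  (∀ p : ℕ, p.Prime → 7 ≤ p → p % 4 = 3 → XT p {(p - 1) / 2, (p - 1) / 2}) →
  ∀ (p : ℕ), p.Prime → ∀ n : ℕ, 5 ≤ n → p ≤ n → ¬ (p = 5 ∧ n = 5) → FG p (Al (Fin n))

/-- (EASY) The condition `p ∣ |A_n|` gives `p ≤ n`, so `FG p H` for all `H` isomorphic to an
alternating group of degree `n ≥ 5`, `(p, n) ≠ (5, 5)`, `p ∣ |H|` (uses the conclusion of `G_All`
and `G_Iso`); with `G_CF` all words are good. -/
def G_End : Prop := ∀ (p : ℕ) (_ : p.Prime) (G : Type) [Group G] [Finite G],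
  (∀ (H : Subgroup G) (X : Type) [Group X] (f : H →* X), H.IsSubnormal → Function.Surjective f →
    IsSimpleGroup X → (∃ a b : X, a * b ≠ b * a) → p ∣ Nat.card X →
    ∃ n : ℕ, 5 ≤ n ∧ ¬ (p = 5 ∧ n = 5) ∧ Nonempty (X ≃* Al (Fin n))) →
  ∀ w : MW, Good p G w

end Pool.Agent.Work.MP_8aaf67_al.AF
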