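import Pool.Agent.Work.MP_8aaf67_al.AF.StmtsC
import Pool.Agent.Work.MP_8aaf67_al.AF.StmtsG

/-!
# Item X_6: the closed set `{5}, {2, 2}` in degree 6
-/

set_option autoImplicit false

namespace Pool.Agent.Work.MP_8aaf67_al.AF

open scoped commutatorElement

namespace X_6

/-- The cycle type of a permutation of prime order. -/
theorem ct {n p m : ℕ} (hp : p.Prime) (σ : Equiv.Perm (Fin n)) (h1 : σ ^ p = 1)
    (h2 : σ.support.card = m * p) : σ.cycleType = Multiset.replicate m p := by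
  have : Fact p.Prime := ⟨hp⟩
  have h3 := (Equiv.Perm.pow_prime_eq_one_iff).1 h1
  have h4 : σ.cycleType = Multiset.replicate (Multiset.card σ.cycleType) p :=
    Multiset.eq_replicate_card.2 h3
  have h5 := σ.sum_cycleType
  rw [h4, Multiset.sum_replicate, smul_eq_mul, h2] at h5
  have h6 : Multiset.card σ.cycleType = m := Nat.eq_of_mul_eq_mul_right hp.pos h5
  rw [h6] at h4
  exact h4

/-- `(0 1 2 3 4)`. -/
def a : Equiv.Perm (Fin 6) where
  toFun := ![1, 2, 3, 4, 0, 5]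
  invFun := ![4, 0, 1, 2, 3, 5]
  left_inv := by decide
  right_inv := by decide

/-- `[2,5,4,3,1,0]` -/
def b : Equiv.Perm (Fin 6) where
  toFun := ![2, 5, 4, 3, 1, 0]
  invFun := ![5, 4, 0, 3, 2, 1]
  left_inv := by decide
  right_inv := by decide

/-- `[1,2,3,5,4,0]` -/
def b' : Equiv.Perm (Fin 6) where
  toFun := ![1, 2, 3, 5, 4, 0]
  invFun := ![5, 0, 1, 2, 4, 3]
  left_inv := by decide
  right_inv := by decide

theorem a5 : a.cycleType = {5} := ct (m := 1) (by norm_num) a (by decide) (by decide)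

theorem b5 : b.cycleType = {5} := ct (m := 1) (by norm_num) b (by decide) (by decide)

theorem b5' : b'.cycleType = {5} := ct (m := 1) (by norm_num) b' (by decide) (by decide)

theorem c5 : (⁅b, a⁆ : Equiv.Perm (Fin 6)).cycleType = {5} :=
  ct (m := 1) (by norm_num) _ (by decide) (by decide)

theorem c2 : (⁅b', a⁆ : Equiv.Perm (Fin 6)).cycleType = {2, 2} :=
  ct (m := 2) (by norm_num) _ (by decide) (by decide)

theorem t3 : (a * a * b⁻¹).IsThreeCycle :=
  ct (m := 1) (by norm_num) _ (by decide) (by decide)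

theorem t3' : (a * b'⁻¹).IsThreeCycle :=
  ct (m := 1) (by norm_num) _ (by decide) (by decide)

theorem even {n : ℕ} (σ : Equiv.Perm (Fin n)) (h : σ.cycleType = {5}) :
    σ ∈ alternatingGroup (Fin n) := by
  rw [Equiv.Perm.mem_alternatingGroup, Equiv.Perm.sign_of_cycleType, h]
  decide

theorem orb : ∀ x : Fin 6, x ≠ 5 → (a ^ (x : ℕ)) 5 = 5 ∧ (a ^ (x : ℕ)) 0 = x := by decide

theorem gen (hG : C_G2) (c g : Equiv.Perm (Fin 6)) (hc : c 5 = 0)
    (hg : g ∈ Subgroup.closure {a, c}) (h3 : g.IsThreeCycle) :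
    alternatingGroup (Fin 6) ≤ Subgroup.closure {a, c} := by
  have ha : a ∈ Subgroup.closure {a, c} := Subgroup.subset_closure (Set.mem_insert _ _)
  have hc' : c ∈ Subgroup.closure {a, c} :=
    Subgroup.subset_closure (Set.mem_insert_of_mem _ rfl)
  refine hG 6 _ 5 0 g (by decide) (fun x => ?_) (fun x hx => ?_) hg h3
  · by_cases hx : x = 5
    · exact ⟨1, Subgroup.one_mem _, by rw [hx]; rfl⟩
    · refine ⟨a ^ (x : ℕ) * c, Subgroup.mul_mem _ (Subgroup.pow_mem _ ha _) hc', ?_⟩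
      rw [Equiv.Perm.mul_apply, hc]
      exact (orb x hx).2
  · exact ⟨a ^ (x : ℕ), Subgroup.pow_mem _ ha _, orb x hx⟩

theorem rel5 (hG : C_G2) : Rel 6 {5} {5} {5} := by
  refine ⟨a, b, even a a5, even b b5, a5, b5, c5, ?_⟩
  have ha : a ∈ Subgroup.closure {a, b} := Subgroup.subset_closure (Set.mem_insert _ _)
  have hb : b ∈ Subgroup.closure {a, b} :=
    Subgroup.subset_closure (Set.mem_insert_of_mem _ rfl)
  exact gen hG b (a * a * b⁻¹) (by decide)
    (Subgroup.mul_mem _ (Subgroup.mul_mem _ ha ha) (Subgroup.inv_mem _ hb)) t3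

theorem rel2 (hG : C_G2) : Rel 6 {2, 2} {5} {5} := by
  refine ⟨a, b', even a a5, even b' b5', a5, b5', c2, ?_⟩
  have ha : a ∈ Subgroup.closure {a, b'} := Subgroup.subset_closure (Set.mem_insert _ _)
  have hb : b' ∈ Subgroup.closure {a, b'} :=
    Subgroup.subset_closure (Set.mem_insert_of_mem _ rfl)
  exact gen hG b' (a * b'⁻¹) (by decide)
    (Subgroup.mul_mem _ ha (Subgroup.inv_mem _ hb)) t3'

end X_6

theorem prf_X_6 (hG : C_G2) : X_6 := by
  refine ⟨{{5}, {2, 2}}, Set.mem_insert_of_mem _ rfl, ?_⟩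
  intro σ hσ
  rcases hσ with hσ | hσ
  · exact ⟨{5}, Set.mem_insert _ _, {5}, Set.mem_insert _ _, hσ ▸ X_6.rel5 hG⟩
  · exact ⟨{5}, Set.mem_insert _ _, {5}, Set.mem_insert _ _, hσ ▸ X_6.rel2 hG⟩

end Pool.Agent.Work.MP_8aaf67_al.AF
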