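import Pool.Agent.Work.MP_8aaf67_al.AF.StmtsG
import Pool.Agent.Work.MP_8aaf67_al.AF.StmtsC

/-!
# Item X_7: the closed set `{7}, {3, 3}` for `n = 7`
-/

set_option autoImplicit false

namespace Pool.Agent.Work.MP_8aaf67_al.AF

open scoped commutatorElement

namespace X_7

/-- a permutation with a single orbit, visited from `0` -/
theorem type7 (σ : Equiv.Perm (Fin 7)) (h : ∀ x : Fin 7, ∃ i : Fin 7, (σ ^ (i : ℕ)) 0 = x) :
    σ.cycleType = {7} := by
  have hs : ∀ x, σ.SameCycle 0 x := by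
    intro x
    obtain ⟨i, hi⟩ := h x
    exact ⟨(i : ℕ), by rw [zpow_natCast]; exact hi⟩
  have hne : ∀ x, σ x ≠ x := by
    intro x hx
    have h0 : ∀ y, σ.SameCycle x y := fun y => (hs x).symm.trans (hs y)
    have h1 : ∀ y, y = x := by
      intro y
      obtain ⟨i, hi⟩ := h0 y
      rw [← hi]
      exact Equiv.Perm.zpow_apply_eq_self_of_apply_eq_self hx i
    have h2 := (h1 0).trans (h1 1).symm
    exact absurd h2 (by decide)
  have hc : σ.IsCycle := ⟨0, hne 0, fun y _ => hs y⟩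
  rw [hc.cycleType]
  congr 1
  have h3 : σ.support = Finset.univ := by
    ext x
    simp [Equiv.Perm.mem_support, hne x]
  rw [h3]
  rfl

theorem even7 (σ : Equiv.Perm (Fin 7)) (h : σ.cycleType = {7}) : σ ∈ alternatingGroup (Fin 7) := by
  rw [Equiv.Perm.mem_alternatingGroup, Equiv.Perm.sign_of_cycleType, h]
  decide

/-- the shift -/
def a : Equiv.Perm (Fin 7) :=
  ⟨![1, 2, 3, 4, 5, 6, 0], ![6, 0, 1, 2, 3, 4, 5], by decide, by decide⟩

def b : Equiv.Perm (Fin 7) :=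
  ⟨![3, 5, 1, 6, 2, 0, 4], ![5, 2, 4, 0, 6, 1, 3], by decide, by decide⟩

def b' : Equiv.Perm (Fin 7) :=
  ⟨![3, 2, 6, 4, 5, 1, 0], ![6, 5, 1, 0, 3, 4, 2], by decide, by decide⟩

theorem a_type : a.cycleType = {7} := type7 a (by decide)
theorem b_type : b.cycleType = {7} := type7 b (by decide)
theorem b'_type : b'.cycleType = {7} := type7 b' (by decide)
theorem c_type : (⁅b, a⁆ : Equiv.Perm (Fin 7)).cycleType = {7} := type7 _ (by decide)

theorem a_is : Is 7 (fa 7) a := by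
  intro x
  revert x
  decide

theorem g_three : ((a * b⁻¹) ^ 2).IsThreeCycle := by
  rw [← card_support_eq_three_iff]
  decide

theorem g'_three : (a * b'⁻¹).IsThreeCycle := by
  rw [← card_support_eq_three_iff]
  decide

/-- the two cycles of `⁅b', a⁆` -/
def c1 : Equiv.Perm (Fin 7) :=
  ⟨![4, 1, 0, 3, 2, 5, 6], ![2, 1, 4, 3, 0, 5, 6], by decide, by decide⟩

def c2 : Equiv.Perm (Fin 7) :=
  ⟨![0, 3, 2, 6, 4, 5, 1], ![0, 6, 2, 1, 4, 5, 3], by decide, by decide⟩

theorem c1_three : c1.IsThreeCycle := by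
  rw [← card_support_eq_three_iff]
  decide

theorem c2_three : c2.IsThreeCycle := by
  rw [← card_support_eq_three_iff]
  decide

theorem c'_eq : (⁅b', a⁆ : Equiv.Perm (Fin 7)) = c1 * c2 := by
  decide

theorem c'_type : (⁅b', a⁆ : Equiv.Perm (Fin 7)).cycleType = {3, 3} := by
  have hd : Equiv.Perm.Disjoint c1 c2 := by
    intro x
    revert x
    decide
  rw [c'_eq, hd.cycleType_mul, c1_three.cycleType, c2_three.cycleType]
  rfl

theorem gen (hGp : C_Gp) (d g : Equiv.Perm (Fin 7)) (hg : g ∈ Subgroup.closure {a, d})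
    (h3 : g.IsThreeCycle) : alternatingGroup (Fin 7) ≤ Subgroup.closure {a, d} :=
  hGp 7 _ a g (by decide) a_is (Subgroup.subset_closure (by simp)) hg h3

theorem mem_a (d : Equiv.Perm (Fin 7)) : a ∈ Subgroup.closure {a, d} :=
  Subgroup.subset_closure (by simp)

theorem mem_d (d : Equiv.Perm (Fin 7)) : d ∈ Subgroup.closure {a, d} :=
  Subgroup.subset_closure (by simp)

end X_7

/-- **X_7** -/
theorem prf_X_7 (hGp : C_Gp) : X_7 := by
  refine ⟨{{7}, {3, 3}}, by simp, ?_⟩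
  intro σ hσ
  rw [Set.mem_insert_iff, Set.mem_singleton_iff] at hσ
  rcases hσ with rfl | rfl
  · refine ⟨{7}, by simp, {7}, by simp, X_7.a, X_7.b, X_7.even7 _ X_7.a_type,
      X_7.even7 _ X_7.b_type, X_7.a_type, X_7.b_type, X_7.c_type, ?_⟩
    exact X_7.gen hGp _ _ (pow_mem (mul_mem (X_7.mem_a _) (inv_mem (X_7.mem_d _))) 2) X_7.g_three
  · refine ⟨{7}, by simp, {7}, by simp, X_7.a, X_7.b', X_7.even7 _ X_7.a_type,
      X_7.even7 _ X_7.b'_type, X_7.a_type, X_7.b'_type, X_7.c'_type, ?_⟩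
    exact X_7.gen hGp _ _ (mul_mem (X_7.mem_a _) (inv_mem (X_7.mem_d _))) X_7.g'_three

end Pool.Agent.Work.MP_8aaf67_al.AF
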