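import Pool.Agent.Work.MP_8aaf67_al.AF.StmtsG
import Pool.Agent.Work.MP_8aaf67_al.AF.StmtsC

/-!
# Alternating composition factors: the closed set of types 7 and 3, 3 in degree 8
-/

set_option autoImplicit false

namespace Pool.Agent.Work.MP_8aaf67_al.AF

open scoped commutatorElement

namespace X_8

/-- cycle type of a permutation of prime order from the size of its support -/
theorem type_prime {n : ℕ} (p k : ℕ) (hp : p.Prime) (σ : Equiv.Perm (Fin n)) (h1 : σ ^ p = 1)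
    (h2 : σ ≠ 1) (h3 : σ.support.card = k * p) : σ.cycleType = Multiset.replicate k p := by
  have hf : Fact p.Prime := ⟨hp⟩
  have ho : orderOf σ = p := orderOf_eq_prime h1 h2
  obtain ⟨m, hm⟩ := Equiv.Perm.cycleType_prime_order (σ := σ) (by rw [ho]; exact hp)
  have hs := Equiv.Perm.sum_cycleType σ
  rw [hm, Multiset.sum_replicate, h3, ho, smul_eq_mul] at hs
  have : m + 1 = k := Nat.eq_of_mul_eq_mul_right hp.pos hs
  rw [hm, this, ho]

/-- `(0 1 2 3 4 5 6)` -/
def a8 : Equiv.Perm (Fin 8) where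
  toFun := ![1, 2, 3, 4, 5, 6, 0, 7]
  invFun := ![6, 0, 1, 2, 3, 4, 5, 7]
  left_inv := by decide
  right_inv := by decide

/-- type 7 -/
def b8 : Equiv.Perm (Fin 8) where
  toFun := ![0, 6, 1, 4, 5, 2, 7, 3]
  invFun := ![0, 2, 5, 7, 3, 4, 1, 6]
  left_inv := by decide
  right_inv := by decide

/-- type 7 -/
def d8 : Equiv.Perm (Fin 8) where
  toFun := ![2, 1, 3, 4, 7, 6, 0, 5]
  invFun := ![6, 1, 0, 2, 3, 7, 5, 4]
  left_inv := by decide
  right_inv := by decide

theorem ta : a8.cycleType = {7} :=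
  type_prime 7 1 (by norm_num) a8 (by decide) (by decide) (by decide)

theorem tb : b8.cycleType = {7} :=
  type_prime 7 1 (by norm_num) b8 (by decide) (by decide) (by decide)

theorem td : d8.cycleType = {7} :=
  type_prime 7 1 (by norm_num) d8 (by decide) (by decide) (by decide)

theorem tba : (⁅b8, a8⁆ : Equiv.Perm (Fin 8)).cycleType = {7} :=
  type_prime 7 1 (by norm_num) _ (by decide) (by decide) (by decide)

theorem tda : (⁅d8, a8⁆ : Equiv.Perm (Fin 8)).cycleType = {3, 3} :=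
  type_prime 3 2 (by norm_num) _ (by decide) (by decide) (by decide)

theorem g1 : ((a8 * b8) ^ 2).IsThreeCycle :=
  type_prime 3 1 (by norm_num) _ (by decide) (by decide) (by decide)

theorem g2 : ((a8 * d8) ^ 5).IsThreeCycle :=
  type_prime 3 1 (by norm_num) _ (by decide) (by decide) (by decide)

theorem alt7 (σ : Equiv.Perm (Fin 8)) (h : σ.cycleType = {7}) :
    σ ∈ alternatingGroup (Fin 8) := by
  rw [Equiv.Perm.mem_alternatingGroup, Equiv.Perm.sign_of_cycleType, h]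
  simp
  decide

theorem a8_pow (x : Fin 8) (hx : x ≠ 7) : (a8 ^ x.val) 7 = 7 ∧ (a8 ^ x.val) 0 = x := by
  revert x; decide

theorem b8_tr (x : Fin 8) (hx : x ≠ 7) : (a8 ^ (x.val + 4)) (b8 7) = x := by
  revert x; decide

theorem d8_tr (x : Fin 8) (hx : x ≠ 7) : (a8 ^ (x.val + 2)) (d8 7) = x := by
  revert x; decide

/-- generation -/
theorem gen (hG2 : C_G2) (b g : Equiv.Perm (Fin 8)) (k : ℕ)
    (hb : ∀ x : Fin 8, x ≠ 7 → (a8 ^ (x.val + k)) (b 7) = x)
    (hg : g ∈ Subgroup.closure {a8, b}) (h3 : g.IsThreeCycle) :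
    alternatingGroup (Fin 8) ≤ Subgroup.closure {a8, b} := by
  have ha : a8 ∈ Subgroup.closure ({a8, b} : Set (Equiv.Perm (Fin 8))) :=
    Subgroup.subset_closure (by simp)
  have hb' : b ∈ Subgroup.closure ({a8, b} : Set (Equiv.Perm (Fin 8))) :=
    Subgroup.subset_closure (by simp)
  refine hG2 8 _ 7 0 g (by decide) ?_ ?_ hg h3
  · intro x
    by_cases hx : x = 7
    · exact ⟨1, one_mem _, by rw [hx]; rfl⟩
    · exact ⟨a8 ^ (x.val + k) * b, mul_mem (pow_mem ha _) hb', hb x hx⟩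
  · intro x hx
    exact ⟨a8 ^ x.val, pow_mem ha _, a8_pow x hx⟩

end X_8

open X_8

theorem prf_X_8 (hG2 : C_G2) : X_8 := by
  have ha : ∀ b, a8 ∈ Subgroup.closure ({a8, b} : Set (Equiv.Perm (Fin 8))) := fun b =>
    Subgroup.subset_closure (by simp)
  have hb : ∀ b, b ∈ Subgroup.closure ({a8, b} : Set (Equiv.Perm (Fin 8))) := fun b =>
    Subgroup.subset_closure (by simp)
  refine ⟨{{7}, {3, 3}}, by simp, ?_⟩
  intro σ hσ
  refine ⟨{7}, by simp, {7}, by simp, ?_⟩
  rcases hσ with rfl | rfl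
  · exact ⟨a8, b8, alt7 _ ta, alt7 _ tb, ta, tb, tba,
      gen hG2 b8 _ 4 b8_tr (pow_mem (mul_mem (ha _) (hb _)) 2) g1⟩
  · exact ⟨a8, d8, alt7 _ ta, alt7 _ td, ta, td, tda,
      gen hG2 d8 _ 2 d8_tr (pow_mem (mul_mem (ha _) (hb _)) 5) g2⟩

end Pool.Agent.Work.MP_8aaf67_al.AF
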