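import Pool.Agent.Work.MP_8aaf67_al.AF.StmtsG
import Pool.Agent.Work.MP_8aaf67_al.AF.StmtsC

/-!
# Item X_9: the closed set `{9}, {2, 2, 2, 2}` for `n = 9`
-/

set_option autoImplicit false

namespace Pool.Agent.Work.MP_8aaf67_al.AF

open scoped commutatorElement

namespace X_9

/-- a permutation with a single orbit, visited from `0` -/
theorem type9 (σ : Equiv.Perm (Fin 9)) (h : ∀ x : Fin 9, ∃ i : Fin 9, (σ ^ (i : ℕ)) 0 = x) :
    σ.cycleType = {9} := by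
  have hs : ∀ x, σ.SameCycle 0 x := by
    intro x
    obtain ⟨i, hi⟩ := h x
    exact ⟨(i : ℕ), by rw [zpow_natCast]; exact hi⟩
  have hne : ∀ x, σ x ≠ x := by
    intro x hx
    have h0 : ∀ y, σ.SameCycle x y := fun y => (hs x).symm.trans (hs y)
    have h1 : ∀ y, y = x := by
      intro y
      obtain ⟨i, hi⟩ := h0 y
      rw [← hi]
      exact Equiv.Perm.zpow_apply_eq_self_of_apply_eq_self hx i
    have h2 := (h1 0).trans (h1 1).symm
    exact absurd h2 (by decide)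
  have hc : σ.IsCycle := ⟨0, hne 0, fun y _ => hs y⟩
  rw [hc.cycleType]
  congr 1
  have h3 : σ.support = Finset.univ := by
    ext x
    simp [Equiv.Perm.mem_support, hne x]
  rw [h3]
  rfl

theorem even9 (σ : Equiv.Perm (Fin 9)) (h : σ.cycleType = {9}) : σ ∈ alternatingGroup (Fin 9) := by
  rw [Equiv.Perm.mem_alternatingGroup, Equiv.Perm.sign_of_cycleType, h]
  decide

/-- the shift -/
def a : Equiv.Perm (Fin 9) :=
  ⟨![1, 2, 3, 4, 5, 6, 7, 8, 0], ![8, 0, 1, 2, 3, 4, 5, 6, 7], by decide, by decide⟩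

def b : Equiv.Perm (Fin 9) :=
  ⟨![5, 7, 4, 1, 6, 3, 0, 8, 2], ![6, 3, 8, 5, 2, 0, 4, 1, 7], by decide, by decide⟩

def b' : Equiv.Perm (Fin 9) :=
  ⟨![8, 3, 7, 2, 0, 6, 4, 5, 1], ![4, 8, 3, 1, 6, 7, 5, 2, 0], by decide, by decide⟩

theorem a_type : a.cycleType = {9} := type9 a (by decide)
theorem b_type : b.cycleType = {9} := type9 b (by decide)
theorem b'_type : b'.cycleType = {9} := type9 b' (by decide)
theorem c_type : (⁅b, a⁆ : Equiv.Perm (Fin 9)).cycleType = {9} := type9 _ (by decide)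

theorem g_three : ((a * b⁻¹) ^ 5).IsThreeCycle := by
  rw [← card_support_eq_three_iff]
  decide

theorem g'_three : ((a * b') ^ 2).IsThreeCycle := by
  rw [← card_support_eq_three_iff]
  decide

theorem c'_type : (⁅b', a⁆ : Equiv.Perm (Fin 9)).cycleType = two 4 := by
  have h2 : orderOf (⁅b', a⁆ : Equiv.Perm (Fin 9)) = 2 :=
    orderOf_eq_prime (by decide) (by decide)
  obtain ⟨k, hk⟩ := Equiv.Perm.cycleType_prime_order
    (σ := (⁅b', a⁆ : Equiv.Perm (Fin 9))) (by rw [h2]; exact Nat.prime_two)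
  have hs := Equiv.Perm.sum_cycleType (⁅b', a⁆ : Equiv.Perm (Fin 9))
  have hc : (⁅b', a⁆ : Equiv.Perm (Fin 9)).support.card = 8 := by decide
  rw [hk, h2, hc, Multiset.sum_replicate, smul_eq_mul] at hs
  have hk3 : k = 3 := by omega
  rw [hk, h2, hk3]
  rfl

theorem mem_a (d : Equiv.Perm (Fin 9)) : a ∈ Subgroup.closure {a, d} :=
  Subgroup.subset_closure (by simp)

theorem mem_d (d : Equiv.Perm (Fin 9)) : d ∈ Subgroup.closure {a, d} :=
  Subgroup.subset_closure (by simp)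

/-- transitivity: powers of the shift -/
theorem trans (G : Subgroup (Equiv.Perm (Fin 9))) (ha : a ∈ G) :
    ∀ x, ∃ h ∈ G, h 0 = x := by
  intro x
  have h : ∀ x : Fin 9, ∃ i : Fin 9, (a ^ (i : ℕ)) 0 = x := by decide
  obtain ⟨i, hi⟩ := h x
  exact ⟨_, pow_mem ha _, hi⟩

/-- transitivity of the stabiliser of `0` from a seven cycle and one more element -/
theorem stab (G : Subgroup (Equiv.Perm (Fin 9))) (s t : Equiv.Perm (Fin 9)) (v : Fin 9)
    (hs : s ∈ G) (ht : t ∈ G)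
    (h : ∀ x : Fin 9, x ≠ 0 → x = v ∨ ∃ i : Fin 9, (s ^ (i : ℕ) * t) 0 = 0 ∧
      (s ^ (i : ℕ) * t) v = x) :
    ∀ x, x ≠ 0 → ∃ h ∈ G, h 0 = 0 ∧ h v = x := by
  intro x hx
  rcases h x hx with h1 | ⟨i, hi0, hi⟩
  · exact ⟨1, one_mem _, rfl, by rw [h1]; rfl⟩
  · exact ⟨_, mul_mem (pow_mem hs _) ht, hi0, hi⟩

end X_9

/-- **X_9** -/
theorem prf_X_9 (hG2 : C_G2) : X_9 := by
  refine ⟨{{9}, two 4}, by simp, ?_⟩
  intro σ hσ
  rw [Set.mem_insert_iff, Set.mem_singleton_iff] at hσ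
  rcases hσ with rfl | rfl
  · refine ⟨{9}, by simp, {9}, by simp, X_9.a, X_9.b, X_9.even9 _ X_9.a_type,
      X_9.even9 _ X_9.b_type, X_9.a_type, X_9.b_type, X_9.c_type, ?_⟩
    have ha := X_9.mem_a X_9.b
    have hb := X_9.mem_d X_9.b
    exact hG2 9 _ 0 7 _ (by decide) (X_9.trans _ ha)
      (X_9.stab _ (X_9.a⁻¹ * X_9.a⁻¹ * X_9.b * X_9.a⁻¹) (X_9.b⁻¹ * X_9.a⁻¹ * X_9.b⁻¹) 7
        (mul_mem (mul_mem (mul_mem (inv_mem ha) (inv_mem ha)) hb) (inv_mem ha))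
        (mul_mem (mul_mem (inv_mem hb) (inv_mem ha)) (inv_mem hb)) (by decide))
      (pow_mem (mul_mem ha (inv_mem hb)) 5) X_9.g_three
  · refine ⟨{9}, by simp, {9}, by simp, X_9.a, X_9.b', X_9.even9 _ X_9.a_type,
      X_9.even9 _ X_9.b'_type, X_9.a_type, X_9.b'_type, X_9.c'_type, ?_⟩
    have ha := X_9.mem_a X_9.b'
    have hb := X_9.mem_d X_9.b'
    exact hG2 9 _ 0 2 _ (by decide) (X_9.trans _ ha)
      (X_9.stab _ (X_9.a⁻¹ * X_9.b' * X_9.a⁻¹) (X_9.b'⁻¹ * X_9.a⁻¹) 2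
        (mul_mem (mul_mem (inv_mem ha) hb) (inv_mem ha))
        (mul_mem (inv_mem hb) (inv_mem ha)) (by decide))
      (pow_mem (mul_mem ha hb) 2) X_9.g'_three

end Pool.Agent.Work.MP_8aaf67_al.AF
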