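import Pool.Agent.Work.MP_8aaf67_al.AF.Final
import Pool.Agent.Work.MP_8aaf67_al.AF.I_C_As
import Pool.Agent.Work.MP_8aaf67_al.AF.I_C_B3
import Pool.Agent.Work.MP_8aaf67_al.AF.I_C_D11
import Pool.Agent.Work.MP_8aaf67_al.AF.I_C_D12
import Pool.Agent.Work.MP_8aaf67_al.AF.I_C_D41
import Pool.Agent.Work.MP_8aaf67_al.AF.I_C_D42
import Pool.Agent.Work.MP_8aaf67_al.AF.I_C_Ex
import Pool.Agent.Work.MP_8aaf67_al.AF.I_C_G1
import Pool.Agent.Work.MP_8aaf67_al.AF.I_C_G2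
import Pool.Agent.Work.MP_8aaf67_al.AF.I_C_G4
import Pool.Agent.Work.MP_8aaf67_al.AF.I_C_Gp
import Pool.Agent.Work.MP_8aaf67_al.AF.I_C_Gp1
import Pool.Agent.Work.MP_8aaf67_al.AF.I_C_I1
import Pool.Agent.Work.MP_8aaf67_al.AF.I_C_I2
import Pool.Agent.Work.MP_8aaf67_al.AF.I_C_I4
import Pool.Agent.Work.MP_8aaf67_al.AF.I_C_K1
import Pool.Agent.Work.MP_8aaf67_al.AF.I_C_K4
import Pool.Agent.Work.MP_8aaf67_al.AF.I_C_Op
import Pool.Agent.Work.MP_8aaf67_al.AF.I_C_S1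
import Pool.Agent.Work.MP_8aaf67_al.AF.I_C_S4
import Pool.Agent.Work.MP_8aaf67_al.AF.I_C_Sp1
import Pool.Agent.Work.MP_8aaf67_al.AF.I_C_Tb
import Pool.Agent.Work.MP_8aaf67_al.AF.I_C_Tc
import Pool.Agent.Work.MP_8aaf67_al.AF.I_C_Ti
import Pool.Agent.Work.MP_8aaf67_al.AF.I_C_Tm
import Pool.Agent.Work.MP_8aaf67_al.AF.I_C_XT1
import Pool.Agent.Work.MP_8aaf67_al.AF.I_C_XT3
import Pool.Agent.Work.MP_8aaf67_al.AF.I_G_123
import Pool.Agent.Work.MP_8aaf67_al.AF.I_G_255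
import Pool.Agent.Work.MP_8aaf67_al.AF.I_G_52
import Pool.Agent.Work.MP_8aaf67_al.AF.I_G_53
import Pool.Agent.Work.MP_8aaf67_al.AF.I_G_62
import Pool.Agent.Work.MP_8aaf67_al.AF.I_G_65
import Pool.Agent.Work.MP_8aaf67_al.AF.I_G_82
import Pool.Agent.Work.MP_8aaf67_al.AF.I_G_93
import Pool.Agent.Work.MP_8aaf67_al.AF.I_G_All
import Pool.Agent.Work.MP_8aaf67_al.AF.I_G_CF
import Pool.Agent.Work.MP_8aaf67_al.AF.I_G_Dg
import Pool.Agent.Work.MP_8aaf67_al.AF.I_G_Emb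
import Pool.Agent.Work.MP_8aaf67_al.AF.I_G_FG
import Pool.Agent.Work.MP_8aaf67_al.AF.I_G_N6
import Pool.Agent.Work.MP_8aaf67_al.AF.I_G_Nat
import Pool.Agent.Work.MP_8aaf67_al.AF.I_G_One
import Pool.Agent.Work.MP_8aaf67_al.AF.I_G_P1
import Pool.Agent.Work.MP_8aaf67_al.AF.I_G_P3
import Pool.Agent.Work.MP_8aaf67_al.AF.I_G_Rot
import Pool.Agent.Work.MP_8aaf67_al.AF.I_G_S1
import Pool.Agent.Work.MP_8aaf67_al.AF.I_G_S2
import Pool.Agent.Work.MP_8aaf67_al.AF.I_G_S3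
import Pool.Agent.Work.MP_8aaf67_al.AF.I_G_Str
import Pool.Agent.Work.MP_8aaf67_al.AF.I_G_VS
import Pool.Agent.Work.MP_8aaf67_al.AF.I_G_W
import Pool.Agent.Work.MP_8aaf67_al.AF.I_G_W2
import Pool.Agent.Work.MP_8aaf67_al.AF.I_G_XT
import Pool.Agent.Work.MP_8aaf67_al.AF.I_G_YG
import Pool.Agent.Work.MP_8aaf67_al.AF.I_X_11
import Pool.Agent.Work.MP_8aaf67_al.AF.I_X_13
import Pool.Agent.Work.MP_8aaf67_al.AF.I_X_19
import Pool.Agent.Work.MP_8aaf67_al.AF.I_X_5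
import Pool.Agent.Work.MP_8aaf67_al.AF.I_X_6
import Pool.Agent.Work.MP_8aaf67_al.AF.I_X_7
import Pool.Agent.Work.MP_8aaf67_al.AF.I_X_8
import Pool.Agent.Work.MP_8aaf67_al.AF.I_X_9

/-!
# Alternating composition factors: assembly
-/

set_option autoImplicit false

namespace Pool.Agent.Work.MP_8aaf67_al.AF

/-! ## Combinatorics -/

theorem cTi : C_Ti := prf_C_Ti
theorem cTc : C_Tc := prf_C_Tc
theorem cTm : C_Tm := prf_C_Tm
theorem cTb : C_Tb := prf_C_Tb cTi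
theorem cOp : C_Op := prf_C_Op
theorem lemGp : C_Gp := prf_C_Gp
theorem cAs : C_As := prf_C_As prf_C_Ex prf_C_Com cTc lemGp
theorem cK1 : C_K1 := prf_C_K1 cTi
theorem cK2 : C_K2 := prf_C_K2 cTi

theorem cXT1 : C_XT1 :=
  prf_C_XT1 cAs (prf_C_I1 cTi) (prf_C_I2 cTc) prf_C_I3 (prf_C_I4 cOp) (prf_C_S1 cTi)
    (prf_C_S2 cTi) prf_C_S3 prf_C_S4 (prf_C_G1 cTi) (prf_C_G2' cTi) prf_C_G3 (prf_C_G4 cOp)
    cK1 cK2 prf_C_K3 prf_C_K4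

theorem cXT3 : C_XT3 :=
  prf_C_XT3 cAs prf_C_B3 (prf_C_D11 cTb) (prf_C_D12 cTc) prf_C_D13 (prf_C_D41 cTb)
    (prf_C_D42 cTm) prf_C_D43 (prf_C_Sp1 cTi) (prf_C_Sp2 cTb) prf_C_Sp3 (prf_C_Gp1 cTi)
    (prf_C_Gp2 cTb) prf_C_Gp3 cK1 cK2 prf_C_K3 prf_C_K4

/-- Primes congruent to 1 modulo 4. -/
theorem xt1 (p : ℕ) (hp : p.Prime) (h7 : 7 ≤ p) (h4 : p % 4 = 1) : XT p (two ((p - 1) / 2)) := by
  by_cases h13 : p = 13
  · subst h13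
    exact prf_X_13 lemGp
  · have h9 : p ≠ 9 := by rintro rfl; exact absurd hp (by norm_num)
    have h := cXT1 (p / 4) p hp (by omega) (by omega)
    have e : 2 * (p / 4) = (p - 1) / 2 := by omega
    rwa [e] at h

/-- Primes congruent to 3 modulo 4. -/
theorem xt3 (p : ℕ) (hp : p.Prime) (h7 : 7 ≤ p) (h4 : p % 4 = 3) :
    XT p {(p - 1) / 2, (p - 1) / 2} := by
  by_cases e7 : p = 7
  · subst e7; exact prf_X_7 lemGp
  by_cases e11 : p = 11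
  · subst e11; exact prf_X_11 lemGp
  by_cases e19 : p = 19
  · subst e19; exact prf_X_19 prf_C_Ex prf_C_Com cTc cTm lemGp
  have e15 : p ≠ 15 := by rintro rfl; exact absurd hp (by norm_num)
  have h := cXT3 (p / 4) p hp (by omega) (by omega)
  have e : 2 * (p / 4) + 1 = (p - 1) / 2 := by omega
  rwa [e] at h

/-! ## Groups -/

theorem gVS : G_VS := prf_G_VS
theorem gIso : G_Iso := prf_G_Iso
theorem gFG : G_FG := prf_G_FG prf_G_Str prf_G_One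
theorem gCF : G_CF := prf_G_CF
theorem gYG : G_YG := prf_G_YG gCF gIso
theorem gEmb : G_Emb := prf_G_Emb gYG gIso
theorem gXT : G_XT := prf_G_XT
theorem gW : G_W := prf_G_W
theorem gW2 : G_W2 := prf_G_W2
theorem gRot : G_Rot := prf_G_Rot
theorem gNat : G_Nat := prf_G_Nat gEmb
theorem gDg : G_Dg := prf_G_Dg gEmb
theorem gN6 : G_N6 := prf_G_N6 gEmb
theorem gS1 : G_S1 := prf_G_S1 gFG gEmb
theorem gS2 : G_S2 := prf_G_S2 gFG gIso gW gRot gNat gDg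
theorem gS3 : G_S3 := prf_G_S3 gFG gIso gW2 gN6 gDg

theorem g_all : ∀ (p : ℕ), p.Prime → ∀ n : ℕ, 5 ≤ n → p ≤ n → ¬ (p = 5 ∧ n = 5) →
    FG p (Al (Fin n)) :=
  prf_G_All gS1 gS2 gS3 (prf_G_P1 gVS gFG gXT) (prf_G_P3 gVS gFG gXT) (prf_G_52 gVS gFG gXT)
    (prf_G_53 gFG gXT) (prf_G_62 gXT gVS gFG) (prf_G_65 gVS gFG gXT)
    (prf_G_82 gVS gFG gXT gIso gW2 gN6) (prf_G_93 gVS gFG gIso gW gRot gNat gXT cTi)
    (prf_G_123 gFG gIso gW gRot gNat gEmb) (prf_G_255 gFG gIso gW gRot gNat)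
    (prf_X_5 lemGp) (prf_X_6 prf_C_G2) (prf_X_8 prf_C_G2) (prf_X_9 prf_C_G2) xt1 xt3

theorem g_end : G_End := prf_G_End g_all gIso gCF

end Pool.Agent.Work.MP_8aaf67_al.AF
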