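import Pool.Agent.Work.MP_8aaf67_al.AF.StmtsG

/-!
# Alternating composition factors: translation to words in a free group
-/

set_option autoImplicit false

namespace Pool.Agent.Work.MP_8aaf67_al.AF

open Subgroup
open scoped commutatorElement

/-- `w` is a multilinear commutator word in the variables `A`. -/
inductive IsML : FreeGroup ℕ → Finset ℕ → Prop
  | var (i : ℕ) : IsML (FreeGroup.of i) {i}
  | comm (u v : FreeGroup ℕ) (B C : Finset ℕ) : IsML u B → IsML v C →
      Disjoint B C → IsML (u * v * u⁻¹ * v⁻¹) (B ∪ C)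

theorem IsML.values {w : FreeGroup ℕ} {A : Finset ℕ} (h : IsML w A) :
    (∀ (G : Type) [Group G] (g g' : ℕ → G), (∀ i ∈ A, g i = g' i) →
      (FreeGroup.lift g : FreeGroup ℕ →* G) w = (FreeGroup.lift g' : FreeGroup ℕ →* G) w) ∧
    ∃ τ : SR.MW, ∀ (G : Type) [Group G], SR.wv G w = SR.val G τ := by
  induction h with
  | var i =>
    refine ⟨?_, .var, ?_⟩
    · intro G _ g g' hg
      simpa using hg i (Finset.mem_singleton_self i)
    · intro G _
      ext x
      refine ⟨fun _ => Set.mem_univ _, fun _ => ⟨fun _ => x, ?_⟩⟩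
      simp
  | comm u v B C _ _ hBC hu hv =>
    obtain ⟨hu1, σ, hu2⟩ := hu
    obtain ⟨hv1, τ, hv2⟩ := hv
    have key : ∀ (G : Type) [Group G] (g : ℕ → G),
        (FreeGroup.lift g : FreeGroup ℕ →* G) (u * v * u⁻¹ * v⁻¹) =
        ⁅(FreeGroup.lift g : FreeGroup ℕ →* G) u, (FreeGroup.lift g : FreeGroup ℕ →* G) v⁆ := by
      intro G _ g
      rw [commutatorElement_def, map_mul, map_mul, map_mul, map_inv, map_inv]
    refine ⟨?_, .comm σ τ, ?_⟩
    · intro G _ g g' hg
      rw [key, key, hu1 G g g' fun i hi => hg i (Finset.mem_union_left C hi),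
        hv1 G g g' fun i hi => hg i (Finset.mem_union_right B hi)]
    · intro G _
      ext x
      constructor
      · rintro ⟨g, hg⟩
        rw [key] at hg
        refine ⟨_, ?_, _, ?_, hg.symm⟩
        · rw [← hu2 G]; exact ⟨g, rfl⟩
        · rw [← hv2 G]; exact ⟨g, rfl⟩
      · rintro ⟨a, ha, b, hb, rfl⟩
        rw [← hu2 G] at ha
        rw [← hv2 G] at hb
        obtain ⟨g1, rfl⟩ := ha
        obtain ⟨g2, rfl⟩ := hb
        classical
        refine ⟨fun i => if i ∈ B then g1 i else g2 i, ?_⟩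
        rw [key]
        have h1 : (FreeGroup.lift (fun i => if i ∈ B then g1 i else g2 i) : FreeGroup ℕ →* G) u =
            (FreeGroup.lift g1 : FreeGroup ℕ →* G) u := hu1 G _ _ fun i hi => if_pos hi
        have h2 : (FreeGroup.lift (fun i => if i ∈ B then g1 i else g2 i) : FreeGroup ℕ →* G) v =
            (FreeGroup.lift g2 : FreeGroup ℕ →* G) v := hv1 G _ _ fun i hi =>
          if_neg fun hi' => Finset.disjoint_left.1 hBC hi' hi
        rw [h1, h2]

/-- The final statement from `G_End`. -/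
theorem final (hEnd : G_End) (w : FreeGroup ℕ) (A : Finset ℕ) (hw : IsML w A)
    (p : ℕ) (hp : p.Prime) (G : Type) [Group G] [Finite G]
    (hG : ∀ (K : Subgroup G) (X : Type) [Group X] (f : K →* X), K.IsSubnormal →
      Function.Surjective f → IsSimpleGroup X → (∃ a b : X, a * b ≠ b * a) →
      p ∣ Nat.card X →
      ∃ n : ℕ, 5 ≤ n ∧ ¬ (p = 5 ∧ n = 5) ∧ Nonempty (X ≃* alternatingGroup (Fin n))) :
    ∀ H : Subgroup G,
      H = Subgroup.closure
            {x : G | ∃ g : ℕ → G, (FreeGroup.lift g : FreeGroup ℕ →* G) w = x} →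
      ∀ P : Sylow p H,
        Subgroup.map H.subtype (P : Subgroup H) =
          Subgroup.closure
            {x : G | x ∈ Subgroup.map H.subtype (P : Subgroup H) ∧
              ∃ g : ℕ → G, (FreeGroup.lift g : FreeGroup ℕ →* G) w = x} := by
  have hp' : Fact p.Prime := ⟨hp⟩
  obtain ⟨-, τ, hτ⟩ := hw.values
  exact SR.sylgen_of_good (hτ G) (hEnd p hp G hG τ)

end Pool.Agent.Work.MP_8aaf67_al.AF
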