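import Pool.Agent.Work.MP_8aaf67_al.SR.Last

/-!
# Alternating composition factors: group theoretic definitions
-/

set_option autoImplicit false

namespace Pool.Agent.Work.MP_8aaf67_al.AF

open Subgroup
open scoped commutatorElement
open Pool.Agent.Work.MP_8aaf67_al.SR (MW val ver Good Qs GV AD VS Fil)

/-- All perfect Frattini `p'`-covers of `T` are good for all words. -/
def FG (p : ℕ) (T : Type) [Group T] : Prop :=
  ∀ (E : Type) [Group E] [Finite E] (π : E →* T), Function.Surjective π → commutator E = ⊤ →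
    π.ker ≤ frattini E → ¬ p ∣ Nat.card π.ker → ∀ w : MW, Good p E w

/-- All extensions of `Y` by groups of order prime to `p` are good for all words. -/
def YG (p : ℕ) (Y : Type) [Group Y] : Prop :=
  ∀ (Z : Type) [Group Z] [Finite Z] (f : Z →* Y), Function.Surjective f →
    ¬ p ∣ Nat.card f.ker → ∀ w : MW, Good p Z w

/-- The controlled elements of the `p`-subgroup `P` of `T`. -/
def GA (p : ℕ) (w : MW) {T : Type} [Group T] (P : Subgroup T) : Set T :=
  {x | (∃ Y Q : Subgroup T, YG p Y ∧ commutator Y = ⊤ ∧ Q ≤ Y ∧ Q ≤ P ∧ ¬ p ∣ Q.relIndex Y ∧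
      x ∈ Q) ∨
    (∃ R L : Subgroup T, R ≤ P ∧ L ≤ normalizer (R : Set T) ∧ ⁅L, L⁆ = L ∧ x ∈ ⁅R, L⁆) ∨
    x ∈ VS p P w}

/-- Every element of `X` is the commutator of a generating pair from `X`. -/
def Clo {T : Type} [Group T] (X : Set T) : Prop :=
  ∀ t ∈ X, ∃ a ∈ X, ∃ b ∈ X, closure {a, b} = ⊤ ∧ t = ⁅a, b⁆

/-- The alternating group on `Ω`. -/
abbrev Al (Ω : Type) [Fintype Ω] [DecidableEq Ω] : Type := alternatingGroup Ω

/-- Rotation of the block `j` of `ZMod p × Fin m`. -/
def rot (p m : ℕ) (j : Fin m) : Equiv.Perm (ZMod p × Fin m) where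
  toFun x := if x.2 = j then (x.1 + 1, x.2) else x
  invFun x := if x.2 = j then (x.1 - 1, x.2) else x
  left_inv x := by
    by_cases h : x.2 = j
    · simp [h, Prod.ext_iff]
    · simp [h]
  right_inv x := by
    by_cases h : x.2 = j
    · simp [h, Prod.ext_iff]
    · simp [h]

/-- The permutation `(i, j) ↦ (i, s j)`. -/
def dg {A : Type} {m : ℕ} (s : Equiv.Perm (Fin m)) : Equiv.Perm (A × Fin m) :=
  (Equiv.refl A).prodCongr s

/-- The transposition of the block `j` of `Fin 2 × Fin m`. -/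
def tau (m : ℕ) (j : Fin m) : Equiv.Perm (Fin 2 × Fin m) := Equiv.swap (0, j) (1, j)

end Pool.Agent.Work.MP_8aaf67_al.AF
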