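import Pool.Agent.Work.MP_8aaf67_al.AF.StmtsC

/-!
# Item C_G2: generation by a three cycle in a two-transitive group
-/

set_option autoImplicit false

namespace Pool.Agent.Work.MP_8aaf67_al.AF

namespace XC_G2

variable {n : ℕ} {G : Subgroup (Equiv.Perm (Fin n))} {u v : Fin n}

lemma ai (f : Equiv.Perm (Fin n)) (x : Fin n) : f (f⁻¹ x) = x := by simp

lemma ia (f : Equiv.Perm (Fin n)) (x : Fin n) : f⁻¹ (f x) = x := by simp

lemma twoPt (h1 : ∀ x, ∃ h ∈ G, h u = x) (h2 : ∀ x, x ≠ u → ∃ h ∈ G, h u = u ∧ h v = x)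
    {a b : Fin n} (hab : a ≠ b) : ∃ h ∈ G, h u = a ∧ h v = b := by
  obtain ⟨h, hG, ha⟩ := h1 a
  have hb : h⁻¹ b ≠ u := by
    intro hcon
    apply hab
    rw [← ha, ← hcon, ai]
  obtain ⟨k, kG, hu, hv⟩ := h2 _ hb
  refine ⟨h * k, G.mul_mem hG kG, ?_, ?_⟩
  · rw [Equiv.Perm.mul_apply, hu, ha]
  · rw [Equiv.Perm.mul_apply, hv, ai]

end XC_G2

open XC_G2 in
theorem prf_C_G2 : C_G2 := by
  intro n G u v g _ h1 h2 hg h3
  have htwo : MulAction.IsMultiplyPretransitive G (Fin n) 2 := by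
    rw [MulAction.is_two_pretransitive_iff]
    intro a b c d hab hcd
    obtain ⟨h, hG, ha, hb⟩ := twoPt h1 h2 hab
    obtain ⟨k, kG, hc, hd⟩ := twoPt h1 h2 hcd
    refine ⟨⟨k * h⁻¹, G.mul_mem kG (G.inv_mem hG)⟩, ?_, ?_⟩
    · show (k * h⁻¹) a = c
      rw [Equiv.Perm.mul_apply, ← ha, ia, hc]
    · show (k * h⁻¹) b = d
      rw [Equiv.Perm.mul_apply, ← hb, ia, hd]
  exact Equiv.Perm.alternatingGroup_le_of_isPreprimitive_of_isThreeCycle_mem
    (MulAction.isPreprimitive_of_is_two_pretransitive htwo) h3 hg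

end Pool.Agent.Work.MP_8aaf67_al.AF
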