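import Pool.Agent.Work.MP_8aaf67_al.AF.StmtsC

/-!
# Alternating composition factors: family S
-/

set_option autoImplicit false

namespace Pool.Agent.Work.MP_8aaf67_al.AF

open scoped commutatorElement

namespace C_S1

theorem fS_cases (q x : ℕ) :
    (x < 2 * q ∧ x % 2 = 0 ∧ fS q x = x + 2 * q) ∨
    (2 * q ≤ x ∧ x < 4 * q ∧ x % 2 = 0 ∧ fS q x + 2 * q = x) ∨
    ((4 * q ≤ x ∨ x % 2 = 1) ∧ fS q x = x) := by
  unfold fS
  split_ifs with h1 h2
  · exact Or.inl ⟨h1.1, h1.2, rfl⟩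
  · exact Or.inr (Or.inl ⟨h2.1, h2.2.1, h2.2.2, by omega⟩)
  · exact Or.inr (Or.inr ⟨by omega, rfl⟩)

theorem cS_cases (q x : ℕ) :
    (x < 2 * q ∧ cS q x = x + 2 * q) ∨ (2 * q ≤ x ∧ x < 4 * q ∧ cS q x + 2 * q = x) ∨
    (4 * q ≤ x ∧ cS q x = x) := by
  unfold cS
  split_ifs with h1 h2
  · exact Or.inl ⟨h1, rfl⟩
  · exact Or.inr (Or.inl ⟨by omega, h2, by omega⟩)
  · exact Or.inr (Or.inr ⟨by omega, rfl⟩)

theorem fa_cases (n x : ℕ) : (x + 1 = n ∧ fa n x = 0) ∨ (x + 1 ≠ n ∧ fa n x = x + 1) := by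
  unfold fa
  split_ifs with h
  · exact Or.inl ⟨h, rfl⟩
  · exact Or.inr ⟨h, rfl⟩

theorem fa1_cases (n x : ℕ) :
    (x = 0 ∧ fa1 n x = n - 1) ∨ (x ≠ 0 ∧ fa1 n x + 1 = x) := by
  unfold fa1
  split_ifs with h
  · exact Or.inl ⟨h, rfl⟩
  · exact Or.inr ⟨h, by omega⟩

end C_S1

open C_S1

theorem prf_C_S3 : C_S3 := by
  intro q n hq hn x hx
  refine ⟨?_, ?_, ?_⟩
  · have := fS_cases q x
    omega
  · have h1 := fS_cases q x
    have h2 := fS_cases q (fS q x)
    omega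
  · have h1 := fa1_cases n x
    have h2 := fS_cases q (fa1 n x)
    have h3 := fa_cases n (fS q (fa1 n x))
    have h4 := fS_cases q (fa n (fS q (fa1 n x)))
    have h5 := cS_cases q x
    omega

theorem prf_C_S1 (hTi : C_Ti) : C_S1 := by
  intro q n hq hn σ hσ
  have hs : σ * σ = 1 := by
    ext x
    rw [Equiv.Perm.mul_apply, Equiv.Perm.one_apply, hσ, hσ]
    exact (prf_C_S3 q n hq hn x x.2).2.1
  refine hTi n q σ hs ?_
  rw [← Finset.card_range (2 * q)]
  refine Finset.card_bij (fun x _ => x.val / 2) ?_ ?_ ?_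
  · intro x hx
    rw [Finset.mem_filter] at hx
    have h0 : (σ x).val ≠ x.val := fun h => hx.2 (Fin.ext h)
    rw [hσ] at h0
    have h1 := fS_cases q x
    rw [Finset.mem_range]
    omega
  · intro x hx y hy h
    rw [Finset.mem_filter] at hx hy
    have h0 : (σ x).val ≠ x.val := fun h => hx.2 (Fin.ext h)
    have h0' : (σ y).val ≠ y.val := fun h => hy.2 (Fin.ext h)
    rw [hσ] at h0 h0'
    have h1 := fS_cases q x
    have h1' := fS_cases q y
    apply Fin.ext
    omega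
  · intro j hj
    rw [Finset.mem_range] at hj
    refine ⟨⟨2 * j, by omega⟩, ?_, by simp⟩
    rw [Finset.mem_filter]
    refine ⟨Finset.mem_univ _, fun h => ?_⟩
    have h0 : (σ ⟨2 * j, by omega⟩).val = 2 * j := congrArg Fin.val h
    rw [hσ] at h0
    have h1 := fS_cases q (2 * j)
    change fS q (2 * j) = 2 * j at h0
    omega

theorem prf_C_S2 (hTi : C_Ti) : C_S2 := by
  intro q n hq hn σ hσ
  have hs : σ * σ = 1 := by
    ext x
    rw [Equiv.Perm.mul_apply, Equiv.Perm.one_apply, hσ, hσ]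
    have h1 := cS_cases q x
    have h2 := cS_cases q (cS q x)
    omega
  refine hTi n (2 * q) σ hs ?_
  rw [← Finset.card_range (2 * (2 * q))]
  refine Finset.card_bij (fun x _ => x.val) ?_ ?_ ?_
  · intro x hx
    rw [Finset.mem_filter] at hx
    have h0 : (σ x).val ≠ x.val := fun h => hx.2 (Fin.ext h)
    rw [hσ] at h0
    have h1 := cS_cases q x
    rw [Finset.mem_range]
    omega
  · intro x hx y hy h
    exact Fin.ext h
  · intro j hj
    rw [Finset.mem_range] at hj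
    refine ⟨⟨j, by omega⟩, ?_, rfl⟩
    rw [Finset.mem_filter]
    refine ⟨Finset.mem_univ _, fun h => ?_⟩
    have h0 : (σ ⟨j, by omega⟩).val = j := congrArg Fin.val h
    rw [hσ] at h0
    have h1 := cS_cases q j
    change cS q j = j at h0
    omega

end Pool.Agent.Work.MP_8aaf67_al.AF
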