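import Pool.Agent.Work.MP_8aaf67_al.AF.StmtsG

/-!
# Item G_255
-/

set_option autoImplicit false

namespace Pool.Agent.Work.MP_8aaf67_al.AF

open Subgroup
open scoped commutatorElement
open Pool.Agent.Work.MP_8aaf67_al.SR (MW val ver Good Qs GV AD VS Fil)

namespace XG_255

abbrev Om : Type := ZMod 5 × Fin 5

def z (j : Fin 5) : ZMod 5 := j
def y (i : ZMod 5) : Fin 5 := i

def U : Equiv.Perm Om where
  toFun x := (x.1 + z x.2, x.2)
  invFun x := (x.1 - z x.2, x.2)
  left_inv x := by simp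
  right_inv x := by simp

def V : Equiv.Perm Om where
  toFun x := (x.1, x.2 + y x.1)
  invFun x := (x.1, x.2 - y x.1)
  left_inv x := by simp
  right_inv x := by simp

def T1 : Equiv.Perm Om where
  toFun x := (x.1 + 1, x.2)
  invFun x := (x.1 - 1, x.2)
  left_inv x := by simp
  right_inv x := by simp

def T2 : Equiv.Perm Om := dg (finRotate 5)

def H : Equiv.Perm Om := U * U * V⁻¹ * V⁻¹ * V⁻¹ * U * U * U⁻¹ * V * U⁻¹

theorem u5 : U ^ 5 = 1 := by decide +kernel
theorem v5 : V ^ 5 = 1 := by decide +kernel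
theorem t15 : T1 ^ 5 = 1 := by decide +kernel
theorem t25 : T2 ^ 5 = 1 := by decide +kernel
theorem ut1 : U * T1 * U⁻¹ = T1 := by decide +kernel
theorem ut2 : U * T2 * U⁻¹ = T1 * T2 := by decide +kernel
theorem vt1 : V * T1 * V⁻¹ = T1 * T2 := by decide +kernel
theorem vt2 : V * T2 * V⁻¹ = T2 := by decide +kernel
theorem hu : (H * U * H⁻¹ * U⁻¹) * (H * U * H⁻¹ * U⁻¹) = U := by decide +kernel
theorem hv : (H⁻¹ * V * H * V⁻¹) * (H⁻¹ * V * H * V⁻¹) = V := by decide +kernel
theorem t2 : (T1 * V * T1⁻¹ * V⁻¹)⁻¹ = T2 := by decide +kernel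
theorem t1 : T1 = rot 5 5 0 * rot 5 5 1 * rot 5 5 2 * rot 5 5 3 * rot 5 5 4 := by decide +kernel

theorem even_of_pow {g : Equiv.Perm Om} (h : g ^ 5 = 1) : g ∈ alternatingGroup Om := by
  rw [Equiv.Perm.mem_alternatingGroup]
  have h1 : (Equiv.Perm.sign g) ^ 5 = 1 := by rw [← map_pow, h, map_one]
  rcases Int.units_eq_one_or (Equiv.Perm.sign g) with h2 | h2
  · exact h2
  · rw [h2] at h1
    exact absurd h1 (by decide)

def aU : Al Om := ⟨U, even_of_pow u5⟩
def aV : Al Om := ⟨V, even_of_pow v5⟩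
def a1 : Al Om := ⟨T1, even_of_pow t15⟩
def a2 : Al Om := ⟨T2, even_of_pow t25⟩
def aH : Al Om := aU * aU * aV⁻¹ * aV⁻¹ * aV⁻¹ * aU * aU * aU⁻¹ * aV * aU⁻¹

theorem aut1 : aU * a1 * aU⁻¹ = a1 := Subtype.ext ut1
theorem aut2 : aU * a2 * aU⁻¹ = a1 * a2 := Subtype.ext ut2
theorem avt1 : aV * a1 * aV⁻¹ = a1 * a2 := Subtype.ext vt1
theorem avt2 : aV * a2 * aV⁻¹ = a2 := Subtype.ext vt2
theorem ahu : (aH * aU * aH⁻¹ * aU⁻¹) * (aH * aU * aH⁻¹ * aU⁻¹) = aU := Subtype.ext hu
theorem ahv : (aH⁻¹ * aV * aH * aV⁻¹) * (aH⁻¹ * aV * aH * aV⁻¹) = aV := Subtype.ext hv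
theorem at2 : (a1 * aV * a1⁻¹ * aV⁻¹)⁻¹ = a2 := Subtype.ext t2

def R : Subgroup (Al Om) := closure {a1, a2}
def L : Subgroup (Al Om) := closure {aU, aV}

theorem a1R : a1 ∈ R := subset_closure (by simp)
theorem a2R : a2 ∈ R := subset_closure (by simp)
theorem uL : aU ∈ L := subset_closure (by simp)
theorem vL : aV ∈ L := subset_closure (by simp)

theorem norm_of (g : Al Om) (h1 : g * a1 * g⁻¹ ∈ R) (h2 : g * a2 * g⁻¹ ∈ R) :
    g ∈ normalizer (R : Set (Al Om)) := by
  have h3 : R.map (MulAut.conj g).toMonoidHom ≤ R := by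
    rw [R, MonoidHom.map_closure, closure_le]
    rintro _ ⟨x, hx, rfl⟩
    rcases hx with rfl | hx
    · exact h1
    · rw [Set.mem_singleton_iff] at hx
      subst hx
      exact h2
  have h4 : R.map (MulAut.conj g).toMonoidHom = R := by
    apply eq_of_le_of_card_ge h3
    exact (Nat.card_congr (R.equivMapOfInjective _ (MulAut.conj g).injective).toEquiv).le
  rw [mem_normalizer_iff_map_conj_eq]
  exact h4

theorem LR : L ≤ normalizer (R : Set (Al Om)) := by
  rw [L, closure_le]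
  rintro x hx
  rcases hx with rfl | hx
  · exact norm_of _ (by rw [aut1]; exact a1R) (by rw [aut2]; exact mul_mem a1R a2R)
  · rw [Set.mem_singleton_iff] at hx
    subst hx
    exact norm_of _ (by rw [avt1]; exact mul_mem a1R a2R) (by rw [avt2]; exact a2R)

theorem HL : aH ∈ L := by
  have u := uL
  have v := vL
  unfold aH
  exact mul_mem (mul_mem (mul_mem (mul_mem (mul_mem (mul_mem (mul_mem (mul_mem (mul_mem u u)
    (inv_mem v)) (inv_mem v)) (inv_mem v)) u) u) (inv_mem u)) v) (inv_mem u)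

theorem perf : ⁅L, L⁆ = L := by
  apply le_antisymm
  · rw [commutator_le]
    intro a ha b hb
    exact mul_mem (mul_mem (mul_mem ha hb) (inv_mem ha)) (inv_mem hb)
  · have e1 : aU ∈ ⁅L, L⁆ := by
      have h1 : ⁅aH, aU⁆ ∈ ⁅L, L⁆ := commutator_mem_commutator HL uL
      rw [commutatorElement_def] at h1
      have h2 := mul_mem h1 h1
      rwa [ahu] at h2
    have e2 : aV ∈ ⁅L, L⁆ := by
      have h1 : ⁅aH⁻¹, aV⁆ ∈ ⁅L, L⁆ := commutator_mem_commutator (inv_mem HL) vL
      rw [commutatorElement_def, inv_inv] at h1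
      have h2 := mul_mem h1 h1
      rwa [ahv] at h2
    conv_lhs => rw [L]
    rw [closure_le]
    rintro x hx
    rcases hx with rfl | hx
    · exact e1
    · rw [Set.mem_singleton_iff] at hx
      subst hx
      exact e2

theorem a2RL : a2 ∈ ⁅R, L⁆ := by
  have h1 : ⁅a1, aV⁆ ∈ ⁅R, L⁆ := commutator_mem_commutator a1R vL
  have h2 := inv_mem h1
  rw [commutatorElement_def, at2] at h2
  exact h2

theorem exQ : ∃ Q : Sylow 5 (Equiv.Perm (Fin 5)),
    (Q : Subgroup (Equiv.Perm (Fin 5))) = zpowers (finRotate 5) := by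
  have : Fact (Nat.Prime 5) := ⟨by norm_num⟩
  have h1 : orderOf (finRotate 5) = 5 := orderOf_eq_prime (by decide +kernel) (by decide +kernel)
  refine ⟨Sylow.ofCard (zpowers (finRotate 5)) ?_, rfl⟩
  rw [Nat.card_zpowers, h1, Nat.card_perm, Nat.card_eq_fintype_card, Fintype.card_fin]
  have h2 : (Nat.factorial 5).factorization 5 = 1 := by
    have : Nat.factorial 5 = 5 * 24 := by decide
    rw [this, Nat.factorization_mul (by norm_num) (by norm_num)]
    rw [Finsupp.add_apply, Nat.Prime.factorization_self (by norm_num),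
      Nat.factorization_eq_zero_of_not_dvd (by norm_num)]
  rw [h2, pow_one]

end XG_255

open XG_255 in
theorem prf_G_255 (hFG : G_FG) (hIso : G_Iso) (hW : G_W) (hRot : G_Rot) (hNat : G_Nat) :
    G_255 := by
  intro h6
  have hp : Nat.Prime 5 := by norm_num
  obtain ⟨Q, hQ⟩ := exQ
  obtain ⟨P, hP⟩ := hW 5 hp 5 (by norm_num) (by norm_num) Q
  have hcard : Fintype.card Om = Fintype.card (Fin 25) := by decide
  refine hIso 5 (Al Om) (Al (Fin 25)) ⟨(Fintype.equivOfCardEq hcard).altCongrHom⟩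
    (hFG 5 hp (Al Om) P fun w => ?_)
  have hmem : ∀ x : Al Om, (x : Equiv.Perm Om) ∈
      (P : Subgroup (Al Om)).map (alternatingGroup Om).subtype → x ∈ (P : Subgroup (Al Om)) := by
    rintro x ⟨x', hx', h⟩
    have : x' = x := Subtype.ext h
    rwa [this] at hx'
  have hrot : ∀ j : Fin 5, rot 5 5 j ∈
      (P : Subgroup (Al Om)).map (alternatingGroup Om).subtype := by
    intro j
    rw [hP]
    exact subset_closure (Or.inl ⟨j, rfl⟩)
  have h1P : a1 ∈ (P : Subgroup (Al Om)) := by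
    apply hmem
    change T1 ∈ _
    rw [t1]
    exact mul_mem (mul_mem (mul_mem (mul_mem (hrot 0) (hrot 1)) (hrot 2)) (hrot 3)) (hrot 4)
  have h2P : a2 ∈ (P : Subgroup (Al Om)) := by
    apply hmem
    rw [hP]
    exact subset_closure (Or.inr ⟨finRotate 5, by rw [hQ]; exact mem_zpowers _, rfl⟩)
  have hRP : R ≤ (P : Subgroup (Al Om)) := by
    rw [R, closure_le]
    rintro x hx
    rcases hx with rfl | hx
    · exact h1P
    · rw [Set.mem_singleton_iff] at hx
      subst hx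
      exact h2P
  have h2GA : a2 ∈ GA 5 w (P : Subgroup (Al Om)) :=
    Or.inr (Or.inl ⟨R, L, hRP, LR, perf, a2RL⟩)
  have key : (P : Subgroup (Al Om)).map (alternatingGroup Om).subtype ≤
      (closure (GA 5 w (P : Subgroup (Al Om)))).map (alternatingGroup Om).subtype := by
    conv_lhs => rw [hP]
    rw [closure_le]
    rintro g (⟨j, rfl⟩ | ⟨s, hs, rfl⟩)
    · obtain ⟨x, hx, h⟩ := hrot j
      have hx' : (x : Equiv.Perm Om) = rot 5 5 j := h
      refine ⟨x, subset_closure ?_, h⟩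
      exact hNat 5 hp 6 (by norm_num) (by norm_num) (by norm_num) (by norm_num) h6 Om
        (by decide) P x hx (by rw [hx']; exact hRot 5 hp 5 j (by norm_num)) w
    · rw [hQ] at hs
      obtain ⟨k, rfl⟩ := hs
      refine ⟨a2 ^ k, zpow_mem (subset_closure h2GA) k, ?_⟩
      have h1 : (dg : Equiv.Perm (Fin 5) → Equiv.Perm Om) (finRotate 5 ^ k) = T2 ^ k := by
        let f : Equiv.Perm (Fin 5) →* Equiv.Perm Om :=
          { toFun := dg
            map_one' := by ext x <;> rfl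
            map_mul' := fun a b => by ext x <;> rfl }
        exact map_zpow f (finRotate 5) k
      change _ = dg (finRotate 5 ^ k)
      rw [h1, map_zpow]
      rfl
  intro x hx
  obtain ⟨x', hx', h⟩ := key (mem_map_of_mem (alternatingGroup Om).subtype hx)
  have : x' = x := Subtype.ext h
  rwa [this] at hx'

end Pool.Agent.Work.MP_8aaf67_al.AF
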