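import Pool.Agent.Work.MP_8aaf67_al.AF.I_G_S2

/-!
# Item G_S3
-/

set_option autoImplicit false

namespace Pool.Agent.Work.MP_8aaf67_al.AF

open Subgroup
open scoped commutatorElement
open Pool.Agent.Work.MP_8aaf67_al.SR (MW val ver Good Qs GV AD VS Fil)

open XG_S2 in
theorem prf_G_S3 (hFG : G_FG) (hIso : G_Iso) (hW2 : G_W2) (hN6 : G_N6)
    (hDg : G_Dg) : G_S3 := by
  intro m hm h6 hFm
  have hpF : Fact (Nat.Prime 2) := ⟨Nat.prime_two⟩
  let i : Fin m := ⟨0, by omega⟩
  let j : Fin m := ⟨1, by omega⟩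
  have hij : i ≠ j := by
    intro h; exact absurd (congrArg Fin.val h) (by norm_num [i, j])
  have hsw : IsPGroup 2 (zpowers (Equiv.swap i j)) := by
    apply IsPGroup.of_card (n := 1)
    rw [Nat.card_zpowers, pow_one]
    apply orderOf_eq_prime
    · rw [pow_two, Equiv.swap_mul_self]
    · intro h
      have := DFunLike.congr_fun h i
      rw [Equiv.swap_apply_left] at this
      exact hij this.symm
  obtain ⟨Q, hQ⟩ := hsw.exists_le_sylow
  have hsQ : Equiv.swap i j ∈ (Q : Subgroup (Equiv.Perm (Fin m))) := hQ (mem_zpowers _)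
  obtain ⟨P, hP⟩ := hW2 m (by omega) Q
  have hcard : Fintype.card (Fin 2 × Fin m) = Fintype.card (Fin (2 * m)) := by
    rw [Fintype.card_prod, Fintype.card_fin, Fintype.card_fin, Fintype.card_fin]
  refine hIso 2 (Al (Fin 2 × Fin m)) (Al (Fin (2 * m)))
    ⟨(Fintype.equivOfCardEq hcard).altCongrHom⟩ (hFG 2 Nat.prime_two _ P fun w => ?_)
  set C := closure (GA 2 w (P : Subgroup (Al (Fin 2 × Fin m)))) with hC
  have hex : ∀ g ∈ ({x | ∃ i j, x = tau m i * tau m j} ∪
      {x | ∃ s ∈ (Q : Subgroup (Equiv.Perm (Fin m))), x = dg s} :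
        Set (Equiv.Perm (Fin 2 × Fin m))), ∃ x ∈ (P : Subgroup (Al (Fin 2 × Fin m))),
        (x : Equiv.Perm (Fin 2 × Fin m)) = g := by
    intro g hg
    have h1 : g ∈ (P : Subgroup (Al (Fin 2 × Fin m))).map
        (alternatingGroup (Fin 2 × Fin m)).subtype := by
      rw [hP]; exact subset_closure hg
    obtain ⟨x, hx, h⟩ := h1
    exact ⟨x, hx, h⟩
  -- the natural A_6
  have hN : ∀ l : Fin m, l ≠ i → l ≠ j →
      tau m i * tau m j ∈ C.map (alternatingGroup (Fin 2 × Fin m)).subtype ∧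
      tau m j * tau m l ∈ C.map (alternatingGroup (Fin 2 × Fin m)).subtype ∧
      dg (Equiv.swap i j) ∈ C.map (alternatingGroup (Fin 2 × Fin m)).subtype := by
    intro l hli hlj
    obtain ⟨x, hxP, hx⟩ := hex _ (Or.inl ⟨i, j, rfl⟩)
    obtain ⟨y, hyP, hy⟩ := hex _ (Or.inl ⟨j, l, rfl⟩)
    obtain ⟨z, hzP, hz⟩ := hex _ (Or.inr ⟨_, hsQ, rfl⟩)
    obtain ⟨h1, h2, h3⟩ := hN6 m i j l hij hlj.symm hli.symm h6 P x y z hx hy hz hxP hyP hzP w
    exact ⟨⟨x, subset_closure h1, hx⟩, ⟨y, subset_closure h2, hy⟩, ⟨z, subset_closure h3, hz⟩⟩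
  let l₀ : Fin m := ⟨2, by omega⟩
  have hl₀ := hN l₀ (by intro h; exact absurd (congrArg Fin.val h) (by norm_num [i, l₀]))
    (by intro h; exact absurd (congrArg Fin.val h) (by norm_num [j, l₀]))
  have htt : ∀ a : Fin m, tau m a * tau m a = 1 := fun a => Equiv.swap_mul_self _ _
  have hti : ∀ a : Fin m, (tau m a)⁻¹ = tau m a := fun a => Equiv.swap_inv _ _
  have hall : ∀ l : Fin m, tau m j * tau m l ∈
      C.map (alternatingGroup (Fin 2 × Fin m)).subtype := by
    intro l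
    by_cases hlj : l = j
    · rw [hlj, htt]; exact one_mem _
    · by_cases hli : l = i
      · have h1 := inv_mem hl₀.1
        rw [mul_inv_rev, hti, hti] at h1
        rwa [hli]
      · exact (hN l hli hlj).2.1
  have hdgC : ∀ s ∈ (Q : Subgroup (Equiv.Perm (Fin m))), s ∈ alternatingGroup (Fin m) →
      dg s ∈ C.map (alternatingGroup (Fin 2 × Fin m)).subtype := by
    intro s hs hse
    obtain ⟨x, hxP, hx⟩ := hex _ (Or.inr ⟨s, hs, rfl⟩)
    refine ⟨x, subset_closure ?_, hx⟩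
    refine hDg 2 Nat.prime_two m hm hFm (Fin 2) Q P ?_ s hs hse x hx w
    intro t ht hte y hy
    obtain ⟨y', hy', h'⟩ := hex _ (Or.inr ⟨t, ht, rfl⟩)
    have : y' = y := Subtype.ext (h'.trans hy.symm)
    rwa [this] at hy'
  apply le_of_gen _ _ _ hP
  rintro g (⟨a, b, rfl⟩ | ⟨s, hs, rfl⟩)
  · have h1 := mul_mem (inv_mem (hall a)) (hall b)
    rw [mul_inv_rev, hti, hti] at h1
    have h2 : tau m a * tau m j * (tau m j * tau m b) = tau m a * tau m b := by
      rw [mul_assoc, ← mul_assoc (tau m j), htt, one_mul]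
    rwa [h2] at h1
  · rcases Int.units_eq_one_or (Equiv.Perm.sign s) with h2 | h2
    · exact hdgC s hs (Equiv.Perm.mem_alternatingGroup.2 h2)
    · have h3 : dg (Equiv.swap i j * s) ∈ C.map (alternatingGroup (Fin 2 × Fin m)).subtype := by
        apply hdgC _ (mul_mem hsQ hs)
        rw [Equiv.Perm.mem_alternatingGroup, map_mul, h2, Equiv.Perm.sign_swap hij]
        decide
      have h4 := mul_mem hl₀.2.2 h3
      have h5 : (dg (Equiv.swap i j) : Equiv.Perm (Fin 2 × Fin m)) * dg (Equiv.swap i j * s) =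
          dg s := by
        have : (dg (Equiv.swap i j) : Equiv.Perm (Fin 2 × Fin m)) * dg (Equiv.swap i j * s) =
          dg (Equiv.swap i j * (Equiv.swap i j * s)) := rfl
        rw [this, ← mul_assoc, Equiv.swap_mul_self, one_mul]
      rwa [h5] at h4

end Pool.Agent.Work.MP_8aaf67_al.AF
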