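import Pool.Agent.Work.MP_8aaf67_al.AF.StmtsG
import Pool.Agent.Work.MP_8aaf67_al.AF.StmtsC

/-!
# Alternating composition factors: the closed set `{3}` for `n = 5`
-/

set_option autoImplicit false

namespace Pool.Agent.Work.MP_8aaf67_al.AF

open scoped commutatorElement

namespace X_5

/-- `0 → 1 → 2 → 0` -/
def a : Equiv.Perm (Fin 5) := Equiv.swap 1 0 * Equiv.swap 1 2

/-- `2 → 3 → 4 → 2` -/
def b : Equiv.Perm (Fin 5) := Equiv.swap 3 2 * Equiv.swap 3 4

theorem a3 : a.IsThreeCycle :=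
  Equiv.Perm.isThreeCycle_swap_mul_swap_same (by decide) (by decide) (by decide)

theorem b3 : b.IsThreeCycle :=
  Equiv.Perm.isThreeCycle_swap_mul_swap_same (by decide) (by decide) (by decide)

theorem comm : (⁅b, a⁆ : Equiv.Perm (Fin 5)) = Equiv.swap 3 2 * Equiv.swap 3 0 := by
  rw [commutatorElement_def]
  unfold a b
  decide

theorem c3 : (⁅b, a⁆ : Equiv.Perm (Fin 5)).IsThreeCycle := by
  rw [comm]
  exact Equiv.Perm.isThreeCycle_swap_mul_swap_same (by decide) (by decide) (by decide)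

theorem shift : Is 5 (fa 5) (a * b) := by
  unfold Is fa a b
  decide

end X_5

open X_5

theorem prf_X_5 (hGp : C_Gp) : X_5 := by
  refine ⟨{({3} : Multiset ℕ)}, Set.mem_singleton _, ?_⟩
  intro σ hσ
  rw [Set.mem_singleton_iff] at hσ
  refine ⟨{3}, Set.mem_singleton _, {3}, Set.mem_singleton _, ?_⟩
  refine ⟨a, b, a3.mem_alternatingGroup, b3.mem_alternatingGroup, a3, b3, ?_, ?_⟩
  · rw [hσ]; exact c3
  · have ha : a ∈ Subgroup.closure ({a, b} : Set (Equiv.Perm (Fin 5))) :=
      Subgroup.subset_closure (Set.mem_insert _ _)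
    have hb : b ∈ Subgroup.closure ({a, b} : Set (Equiv.Perm (Fin 5))) :=
      Subgroup.subset_closure (Set.mem_insert_of_mem _ (Set.mem_singleton _))
    exact hGp 5 _ (a * b) a (by norm_num) shift (Subgroup.mul_mem _ ha hb) ha a3

end Pool.Agent.Work.MP_8aaf67_al.AF
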